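import Mathlib

set_option autoImplicit false
open scoped ENNReal NNReal BigOperators
open MeasureTheory ProbabilityTheory

namespace Pool.Agent.V11320.CubeLaw

noncomputable section

/-- the weights -/
def wt (n : ℕ) : ℝ := 1 / ((n : ℝ) + 1) ^ 3

theorem wt_pos (n : ℕ) : 0 < wt n := by
  unfold wt; positivity

theorem wt_summable : Summable wt := by
  have h := (summable_nat_add_iff (f := fun n : ℕ => 1 / (n : ℝ) ^ 3) 1).mpr
    (Real.summable_one_div_nat_pow.mpr (by norm_num))
  refine h.congr fun n => ?_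
  unfold wt
  push_cast
  rfl

theorem Z_ne_zero : ∑' n, ENNReal.ofReal (wt n) ≠ 0 := by
  intro h
  rw [ENNReal.tsum_eq_zero] at h
  have := h 0
  rw [ENNReal.ofReal_eq_zero] at this
  linarith [wt_pos 0]

theorem Z_ne_top : ∑' n, ENNReal.ofReal (wt n) ≠ ⊤ := wt_summable.tsum_ofReal_ne_top

/-- the law with weights proportional to `1 / (n + 1) ^ 3` -/
def law : PMF ℕ := PMF.normalize (fun n => ENNReal.ofReal (wt n)) Z_ne_zero Z_ne_top

/-- the normalising constant -/
def cc : ℝ≥0∞ := (∑' n, ENNReal.ofReal (wt n))⁻¹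

theorem cc_ne_zero : cc ≠ 0 := ENNReal.inv_ne_zero.mpr Z_ne_top
theorem cc_ne_top : cc ≠ ⊤ := ENNReal.inv_ne_top.mpr Z_ne_zero

theorem law_apply (n : ℕ) : law n = ENNReal.ofReal (wt n) * cc := PMF.normalize_apply _ _ _

theorem second_moment : ∑' n : ℕ, ((n : ℝ≥0∞) + 1) ^ 2 * law n = ⊤ := by
  have h1 : ∀ n : ℕ, ((n : ℝ≥0∞) + 1) ^ 2 * law n
      = ENNReal.ofReal (1 / ((n : ℝ) + 1)) * cc := by
    intro n
    rw [law_apply, ← mul_assoc]
    congr 1
    have : ((n : ℝ≥0∞) + 1) ^ 2 = ENNReal.ofReal (((n : ℝ) + 1) ^ 2) := by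
      rw [ENNReal.ofReal_pow (by positivity), ENNReal.ofReal_add (by positivity) (by positivity),
        ENNReal.ofReal_natCast, ENNReal.ofReal_one]
    rw [this, ← ENNReal.ofReal_mul (by positivity)]
    congr 1
    unfold wt
    field_simp
  simp_rw [h1]
  rw [ENNReal.tsum_mul_right]
  have h2 : ∑' n : ℕ, ENNReal.ofReal (1 / ((n : ℝ) + 1)) = ⊤ := by
    by_contra hne
    have h3 := ENNReal.summable_toReal hne
    have h4 : Summable (fun n : ℕ => 1 / (((n + 1 : ℕ) : ℝ))) := by
      refine h3.congr fun n => ?_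
      rw [ENNReal.toReal_ofReal (by positivity)]
      push_cast
      rfl
    rw [summable_nat_add_iff (f := fun k : ℕ => 1 / (k : ℝ)) 1] at h4
    exact Real.not_summable_one_div_natCast h4
  rw [h2, ENNReal.top_mul cc_ne_zero]

theorem fin_bound (r : ℕ) (hr : 1 ≤ r) (N : ℕ) :
    ∑ n ∈ Finset.range N, (if r ≤ n then (n : ℝ) * wt n else 0)
      ≤ 1 / (r : ℝ) - 1 / (max N r : ℕ) := by
  have hr0 : (0 : ℝ) < r := by exact_mod_cast hr
  induction N with
  | zero => simp
  | succ N ih =>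
    rw [Finset.sum_range_succ]
    by_cases h : r ≤ N
    · rw [if_pos h]
      rw [max_eq_left h] at ih
      rw [max_eq_left (by omega : r ≤ N + 1)]
      have hN : (0 : ℝ) < N := by
        have : 0 < N := by omega
        exact_mod_cast this
      have h2 : (N : ℝ) * wt N ≤ 1 / (N : ℝ) - 1 / ((N + 1 : ℕ) : ℝ) := by
        unfold wt
        push_cast
        rw [div_sub_div _ _ hN.ne' (by positivity), mul_one_div, div_le_div_iff₀ (by positivity)
          (by positivity)]
        nlinarith [sq_nonneg ((N : ℝ) + 1), pow_pos hN 2, pow_pos hN 3]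
      linarith
    · rw [if_neg h, add_zero]
      have h1 : max N r = r := max_eq_right (by omega)
      have h2 : max (N + 1) r = r := max_eq_right (by omega)
      rw [h1] at ih
      rw [h2]
      exact ih

theorem tail_bound (r : ℕ) (hr : 1 ≤ r) :
    (r : ℝ≥0∞) * ∑' n : ℕ, (if r ≤ n then (n : ℝ≥0∞) else 0) * law n ≤ cc := by
  have hr0 : (0 : ℝ) < r := by exact_mod_cast hr
  have h1 : ∀ n : ℕ, (if r ≤ n then (n : ℝ≥0∞) else 0) * law n
      = ENNReal.ofReal (if r ≤ n then (n : ℝ) * wt n else 0) * cc := by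
    intro n
    rw [law_apply, ← mul_assoc]
    congr 1
    split_ifs
    · rw [ENNReal.ofReal_mul (by positivity), ENNReal.ofReal_natCast]
    · simp
  simp_rw [h1]
  rw [ENNReal.tsum_mul_right, ← mul_assoc]
  have h2 : ∑' n : ℕ, ENNReal.ofReal (if r ≤ n then (n : ℝ) * wt n else 0)
      ≤ ENNReal.ofReal (1 / r) := by
    rw [ENNReal.tsum_eq_iSup_nat]
    refine iSup_le fun N => ?_
    rw [← ENNReal.ofReal_sum_of_nonneg]
    · refine ENNReal.ofReal_le_ofReal ((fin_bound r hr N).trans ?_)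
      have : (0 : ℝ) ≤ 1 / (max N r : ℕ) := by positivity
      linarith
    · intro n _
      split_ifs
      · exact mul_nonneg (Nat.cast_nonneg n) (wt_pos n).le
      · exact le_rfl
  calc (r : ℝ≥0∞) * (∑' n : ℕ, ENNReal.ofReal (if r ≤ n then (n : ℝ) * wt n else 0)) * cc
      ≤ (r : ℝ≥0∞) * ENNReal.ofReal (1 / r) * cc := by gcongr
    _ = 1 * cc := by
        rw [← ENNReal.ofReal_natCast r, ← ENNReal.ofReal_mul (by positivity)]
        congr 1
        rw [mul_one_div_cancel hr0.ne', ENNReal.ofReal_one]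
    _ = cc := one_mul _

end

end Pool.Agent.V11320.CubeLaw
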