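import Mathlib
import Pool.Agent.H592W.Upper
import Pool.Agent.H592W.Thin

set_option autoImplicit false
open scoped ENNReal NNReal BigOperators
open MeasureTheory ProbabilityTheory

namespace Pool.Agent.V11320.RayGen

open Pool.Agent.H592

noncomputable section

variable {d : ℕ}

section Prob

variable {Ω : Type*} [mΩ : MeasurableSpace Ω]

theorem union_bound' (P : Measure Ω) (ξ : V d × Finset (V d) → Ω → Bool) (v : ℝ≥0∞)
    (ν : Finset (V d) → ℝ≥0∞)
    (hp : ∀ k, P {ω | ξ k ω = true} ≤ v * ν k.2) (p : V d × Finset (V d) → Prop) :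
    P {ω | ∃ k ∈ Qs ξ ω, p k} ≤ v * ∑' k, ν k.2 * one? (p k) := by
  have h1 : {ω | ∃ k ∈ Qs ξ ω, p k} = ⋃ k, {ω | ξ k ω = true ∧ p k} := by
    ext ω; simp [Qs]
  rw [h1]
  refine (measure_iUnion_le _).trans ?_
  rw [← ENNReal.tsum_mul_left]
  refine ENNReal.tsum_le_tsum fun k => ?_
  by_cases hk : p k
  · rw [one?_true hk, mul_one]
    refine le_trans (measure_mono ?_) (hp k)
    intro ω hω
    exact hω.1
  · have : {ω | ξ k ω = true ∧ p k} = ∅ := by ext ω; simp [hk]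
    rw [this]
    simp

theorem E_rec' (P : Measure Ω) [IsProbabilityMeasure P] (ξ : V d × Finset (V d) → Ω → Bool)
    (hm : ∀ k, Measurable (ξ k)) (hi : iIndepFun ξ P) (v : ℝ≥0∞) (ν : Finset (V d) → ℝ≥0∞)
    (hp : ∀ k, P {ω | ξ k ω = true} ≤ v * ν k.2) (r : ℕ) (hr : 1 ≤ r) (q : ℝ≥0∞)
    (hq : ∀ c, P {ω | E (Qs ξ ω) c r} ≤ q) (c : V d) :
    P {ω | E (Qs ξ ω) c (8 * r)} ≤ v * (∑' k : V d × Finset (V d), ν k.2 * one? (bad c r k))
      + (49 ^ d : ℕ) * (49 ^ d : ℕ) * (q * q) := by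
  have hsub : {ω | E (Qs ξ ω) c (8 * r)} ⊆ {ω | ∃ k ∈ Qs ξ ω, bad c r k} ∪
      ⋃ y1 ∈ gr c r 24, ⋃ y2 ∈ gr c r 24,
        {ω | (∃ j, (6 * r : ℤ) < |y1 j - y2 j|) ∧ E (Qs ξ ω) y1 r ∧ E (Qs ξ ω) y2 r} := by
    intro ω hω
    by_cases hb : ∃ k ∈ Qs ξ ω, bad c r k
    · exact Or.inl hb
    · right
      push Not at hb
      obtain ⟨y1, hy1, y2, hy2, hj, h1, h2⟩ := geom_step hr hb hω
      rw [Set.mem_iUnion₂]
      refine ⟨y1, hy1, ?_⟩
      rw [Set.mem_iUnion₂]
      exact ⟨y2, hy2, hj, h1, h2⟩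
  refine (measure_mono hsub).trans ((measure_union_le _ _).trans ?_)
  refine add_le_add ?_ ?_
  · exact union_bound' P ξ v ν hp (bad c r)
  · refine (measure_biUnion_finset_le _ _).trans ?_
    have hin : ∀ y1 ∈ gr c r 24, P (⋃ y2 ∈ gr c r 24,
        {ω | (∃ j, (6 * r : ℤ) < |y1 j - y2 j|) ∧ E (Qs ξ ω) y1 r ∧ E (Qs ξ ω) y2 r})
          ≤ (49 ^ d : ℕ) * (q * q) := by
      intro y1 _
      refine (measure_biUnion_finset_le _ _).trans ?_
      have hin2 : ∀ y2 ∈ gr c r 24, P {ω | (∃ j, (6 * r : ℤ) < |y1 j - y2 j|) ∧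
          E (Qs ξ ω) y1 r ∧ E (Qs ξ ω) y2 r} ≤ q * q := by
        intro y2 _
        by_cases hj : ∃ j, (6 * r : ℤ) < |y1 j - y2 j|
        · have : {ω | (∃ j, (6 * r : ℤ) < |y1 j - y2 j|) ∧ E (Qs ξ ω) y1 r ∧ E (Qs ξ ω) y2 r}
              = {ω | E (Qs ξ ω) y1 r ∧ E (Qs ξ ω) y2 r} := by
            ext ω; simp only [Set.mem_ofPred_eq, hj, true_and]
          rw [this, E_indep P ξ hm hi y1 y2 r hj]
          exact mul_le_mul' (hq y1) (hq y2)
        · have : {ω | (∃ j, (6 * r : ℤ) < |y1 j - y2 j|) ∧ E (Qs ξ ω) y1 r ∧ E (Qs ξ ω) y2 r}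
              = ∅ := by
            ext ω; simp only [Set.mem_ofPred_eq, hj, false_and, Set.mem_empty_iff_false]
          rw [this]; simp
      calc _ ≤ ∑ y2 ∈ gr c r 24, q * q := Finset.sum_le_sum hin2
        _ = ((gr c r 24).card : ℝ≥0∞) * (q * q) := by rw [Finset.sum_const, nsmul_eq_mul]
        _ ≤ _ := by
            gcongr
            have := card_gr c r 24
            simpa using this
    calc _ ≤ ∑ y1 ∈ gr c r 24, ((49 ^ d : ℕ) : ℝ≥0∞) * (q * q) := Finset.sum_le_sum hin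
      _ = ((gr c r 24).card : ℝ≥0∞) * (((49 ^ d : ℕ) : ℝ≥0∞) * (q * q)) := by
          rw [Finset.sum_const, nsmul_eq_mul]
      _ ≤ ((49 ^ d : ℕ) : ℝ≥0∞) * (((49 ^ d : ℕ) : ℝ≥0∞) * (q * q)) := by
          gcongr
          have := card_gr c r 24
          simpa using this
      _ = _ := by ring

theorem sum_box' [NeZero d] (ν : Finset (V d) → ℝ≥0∞) (hν : ∑' A, ν A ≤ 1) (c : V d) (R : ℕ) :
    ∑' k : V d × Finset (V d), ν k.2 * one? (k.1 ∈ Bx c R) ≤ ((2 * R + 1 : ℕ) : ℝ≥0∞) ^ d := by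
  rw [ENNReal.tsum_prod']
  have h1 : ∀ x : V d, ∑' A : Finset (V d), ν A * one? (x ∈ Bx c R) ≤ ind (Bx c R) x := by
    intro x
    rw [ENNReal.tsum_mul_right]
    calc _ ≤ 1 * one? (x ∈ Bx c R) := by gcongr
      _ = ind (Bx c R) x := by
        rw [one_mul]
        unfold one? ind
        by_cases hx : x ∈ Bx c R
        · simp [hx]
        · simp [hx]
  refine (ENNReal.tsum_le_tsum h1).trans ?_
  rw [tsum_ind, card_Bx]
  push_cast
  rw [show (2 * (R : ℝ≥0∞) + 1) = ((2 * R + 1 : ℝ≥0∞)) from rfl]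

theorem E_base' [NeZero d] (P : Measure Ω) (ξ : V d × Finset (V d) → Ω → Bool) (v : ℝ≥0∞)
    (ν : Finset (V d) → ℝ≥0∞)
    (hp : ∀ k, P {ω | ξ k ω = true} ≤ v * ν k.2)
    (hms : ∑' A, ν A ≤ 1) (c : V d) :
    P {ω | E (Qs ξ ω) c 1} ≤ v * ((7 : ℕ) : ℝ≥0∞) ^ d := by
  have hsub : {ω | E (Qs ξ ω) c 1} ⊆ {ω | ∃ k ∈ Qs ξ ω, k.1 ∈ Bx c 3} := by
    intro ω hω
    obtain ⟨p, q, hp, hq, hc⟩ := hω
    have hne : p ≠ q := by
      rintro rfl
      apply hq
      rw [mem_Bx] at *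
      intro j
      have := hp j
      push_cast at *
      linarith
    rcases Relation.ReflTransGen.cases_tail hc with h | ⟨w, _, hw⟩
    · exact absurd h.symm hne
    · obtain ⟨k, ⟨hk1, hk⟩, hqk⟩ := hw.2.1
      rw [Finset.mem_coe, mem_T] at hk
      exact ⟨k, hk1, hk.1⟩
  refine (measure_mono hsub).trans ((union_bound' P ξ v ν hp (fun k => k.1 ∈ Bx c 3)).trans ?_)
  gcongr
  exact sum_box' ν hms c 3

/-- no percolation at small intensity, general law of the animals -/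
theorem upper_main' [NeZero d] (ν : Finset (V d) → ℝ≥0∞) (H : ℝ)
    (HB : ∀ (c : V d) (r : ℕ), 1 ≤ r →
      ∑' k : V d × Finset (V d), ν k.2 * one? (bad c r k) ≤ ENNReal.ofReal H)
    (hms : ∑' A, ν A ≤ 1) :
    ∃ v : ℝ, 0 < v ∧ ∀ (Ω : Type) [MeasurableSpace Ω] (P : Measure Ω) [IsProbabilityMeasure P]
      (ξ : V d × Finset (V d) → Ω → Bool), (∀ k, Measurable (ξ k)) → iIndepFun ξ P →
      (∀ k, P {ω | ξ k ω = true} ≤ ENNReal.ofReal v * ν k.2) →
      P {ω | perc (occ (Qs ξ ω))} = 0 := by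
  set H' : ℝ := max H (7 ^ d) with hH'
  have hH1 : 1 ≤ H' := le_trans (one_le_pow₀ (by norm_num)) (le_max_right _ _)
  set N0 : ℝ := 49 ^ d * 49 ^ d with hN0
  have hN1 : 1 ≤ N0 := by
    rw [hN0]
    have : (1 : ℝ) ≤ 49 ^ d := one_le_pow₀ (by norm_num)
    nlinarith
  set v : ℝ := 1 / (8 * N0 * H') with hv
  have hv0 : 0 < v := by positivity
  have hvH : v * H' * (8 * N0) = 1 := by rw [hv]; field_simp
  refine ⟨v, hv0, ?_⟩
  intro Ω _ P _ ξ hm hi hp
  set q : ℝ := 2 * v * H' with hq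
  have hq0 : 0 < q := by positivity
  have hstep : ∀ k : ℕ, ∀ c : V d, P {ω | E (Qs ξ ω) c (8 ^ k)} ≤ ENNReal.ofReal q := by
    intro k
    induction k with
    | zero =>
      intro c
      rw [pow_zero]
      refine (E_base' P ξ _ ν hp hms c).trans ?_
      have : ((7 : ℕ) : ℝ≥0∞) ^ d = ENNReal.ofReal (7 ^ d) := by
        rw [ENNReal.ofReal_pow (by norm_num)]; norm_num
      rw [this, ← ENNReal.ofReal_mul hv0.le]
      refine ENNReal.ofReal_le_ofReal ?_
      have : (7 : ℝ) ^ d ≤ H' := le_max_right _ _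
      nlinarith
    | succ k ih =>
      intro c
      have h8 : 1 ≤ 8 ^ k := Nat.one_le_pow _ _ (by norm_num)
      have h1 := E_rec' P ξ hm hi _ ν hp (8 ^ k) h8 _ ih c
      rw [pow_succ, mul_comm]
      refine h1.trans ?_
      calc ENNReal.ofReal v * (∑' k' : V d × Finset (V d), ν k'.2 * one? (bad c (8 ^ k) k'))
            + (49 ^ d : ℕ) * (49 ^ d : ℕ) * (ENNReal.ofReal q * ENNReal.ofReal q)
          ≤ ENNReal.ofReal v * ENNReal.ofReal H' + (49 ^ d : ℕ) * (49 ^ d : ℕ) *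
            (ENNReal.ofReal q * ENNReal.ofReal q) := by
            gcongr
            exact (HB c _ h8).trans (ENNReal.ofReal_le_ofReal (le_max_left _ _))
        _ = ENNReal.ofReal (v * H' + N0 * (q * q)) := by
            have h49 : ((49 ^ d : ℕ) : ℝ≥0∞) = ENNReal.ofReal (49 ^ d) := by
              rw [← ENNReal.ofReal_natCast]; push_cast; rfl
            rw [h49, ← ENNReal.ofReal_mul hv0.le, ← ENNReal.ofReal_mul (by positivity),
              ← ENNReal.ofReal_mul hq0.le, ← ENNReal.ofReal_mul (by positivity),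
              ← ENNReal.ofReal_add (by positivity) (by positivity)]
        _ ≤ ENNReal.ofReal q := by
            refine ENNReal.ofReal_le_ofReal ?_
            have h2 : N0 * (q * q) = v * H' / 2 := by
              have : N0 * (q * q) = (v * H' * (8 * N0)) * (v * H') / 2 := by rw [hq]; ring
              rw [this, hvH, one_mul]
            rw [h2, hq]
            nlinarith [mul_pos hv0 (by linarith : (0 : ℝ) < H')]
  have hbadp : ∀ k : ℕ, P {ω | ∃ κ ∈ Qs ξ ω, bad (0 : V d) (8 ^ k) κ} ≤ ENNReal.ofReal (v * H') := by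
    intro k
    have h8 : 1 ≤ 8 ^ k := Nat.one_le_pow _ _ (by norm_num)
    have := union_bound' P ξ _ ν hp (bad (0 : V d) (8 ^ k))
    refine this.trans ?_
    rw [ENNReal.ofReal_mul hv0.le]
    gcongr
    exact (HB 0 _ h8).trans (ENNReal.ofReal_le_ofReal (le_max_left _ _))
  -- percolation from the box
  set A : ℕ → Set Ω := fun k => {ω | ∃ y ∈ Bx (0 : V d) (8 ^ k),
    {z | conn (occ (Qs ξ ω)) y z}.Infinite} with hA
  have hAmono : Monotone A := by
    intro a b hab ω hω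
    obtain ⟨y, hy, hinf⟩ := hω
    refine ⟨y, ?_, hinf⟩
    rw [mem_Bx] at *
    intro j
    refine (hy j).trans ?_
    exact_mod_cast Nat.pow_le_pow_right (by norm_num) hab
  have hAP : ∀ k, P (A k) ≤ ENNReal.ofReal (3 / 8) := by
    intro k
    have hsub : A k ⊆ {ω | E (Qs ξ ω) 0 (8 ^ k)} ∪ {ω | ∃ κ ∈ Qs ξ ω, bad (0 : V d) (8 ^ k) κ} := by
      rintro ω ⟨y, hy, hinf⟩
      by_cases hb : ∃ κ ∈ Qs ξ ω, bad (0 : V d) (8 ^ k) κ
      · exact Or.inr hb
      · left
        push Not at hb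
        obtain ⟨z, hz, hzB⟩ := hinf.exists_notMem_finset (Bx (0 : V d) (2 * 8 ^ k))
        exact cross_local (Nat.one_le_pow _ _ (by norm_num)) hb ⟨y, z, hy, hzB, hz⟩
    refine (measure_mono hsub).trans ((measure_union_le _ _).trans ?_)
    refine (add_le_add (hstep k 0) (hbadp k)).trans ?_
    rw [← ENNReal.ofReal_add (by positivity) (by positivity)]
    refine ENNReal.ofReal_le_ofReal ?_
    have h3 : v * H' ≤ 1 / 8 := by
      have : v * H' * 8 ≤ v * H' * (8 * N0) := by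
        have := mul_pos hv0 (by linarith : (0 : ℝ) < H')
        nlinarith
      rw [hvH] at this
      linarith
    rw [hq]
    nlinarith
  have hperc : {ω | perc (occ (Qs ξ ω))} = ⋃ k, A k := by
    ext ω
    simp only [perc, Set.mem_ofPred_eq, Set.mem_iUnion, hA]
    constructor
    · rintro ⟨y, hy⟩
      refine ⟨(Finset.univ.sup fun j => (y j).natAbs), y, ?_, hy⟩
      rw [mem_Bx]
      intro j
      have h1 : (y j).natAbs ≤ Finset.univ.sup fun j => (y j).natAbs :=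
        Finset.le_sup (f := fun j => (y j).natAbs) (Finset.mem_univ j)
      have h2 : (Finset.univ.sup fun j => (y j).natAbs)
          < 8 ^ (Finset.univ.sup fun j => (y j).natAbs) := Nat.lt_pow_self (by norm_num)
      have h3 : ((y j).natAbs : ℤ) = |y j| := Int.natCast_natAbs _
      simp only [Pi.zero_apply, sub_zero]
      rw [← h3]
      exact_mod_cast (h1.trans h2.le)
    · rintro ⟨k, y, _, hy⟩
      exact ⟨y, hy⟩
  rcases zero_one P ξ hm hi with h0 | h1
  · exact h0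
  · exfalso
    rw [hperc, hAmono.measure_iUnion] at h1
    have : (1 : ℝ≥0∞) ≤ ENNReal.ofReal (3 / 8) := by
      rw [← h1]
      exact iSup_le hAP
    rw [ENNReal.one_le_ofReal] at this
    norm_num at this

end Prob

end

end Pool.Agent.V11320.RayGen
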