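import Mathlib
import Pool.Agent.V11320.RayGen

set_option autoImplicit false
open scoped ENNReal NNReal BigOperators
open MeasureTheory ProbabilityTheory

namespace Pool.Agent.V11320.RayGen

open Pool.Agent.H592

noncomputable section

section Marks

variable {X Mk : Type} [MeasurableSpace Mk]

/-- avoidance probability -/
theorem avoidM [Countable X] (μ0 : Measure ℕ) [IsProbabilityMeasure μ0]
    (ρ : Measure Mk) [IsProbabilityMeasure ρ] (J : Finset X) (A : X → Set Mk)
    (hA : ∀ x, MeasurableSet (A x)) :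
    ((Measure.infinitePi (fun _ : X => μ0)).prod (Measure.infinitePi (fun _ : X × ℕ => ρ)))
      {ω | ∀ x ∈ J, ∀ i < ω.1 x, ω.2 (x, i) ∉ A x}
      = ∏ x ∈ J, ∫⁻ n, (1 - ρ (A x)) ^ n ∂μ0 := by
  classical
  have hms : MeasurableSet {ω : (X → ℕ) × (X × ℕ → Mk) | ∀ x ∈ J, ∀ i < ω.1 x, ω.2 (x, i) ∉ A x} := by
    have : {ω : (X → ℕ) × (X × ℕ → Mk) | ∀ x ∈ J, ∀ i < ω.1 x, ω.2 (x, i) ∉ A x}
        = ⋂ x ∈ J, ⋂ i : ℕ, ({ω | i < ω.1 x}ᶜ ∪ {ω | ω.2 (x, i) ∈ A x}ᶜ) := by
      ext ω
      simp only [Set.mem_ofPred_eq, Set.mem_iInter, Set.mem_union, Set.mem_compl_iff]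
      constructor
      · intro h x hx i
        by_cases hi : i < ω.1 x
        · exact Or.inr (h x hx i hi)
        · exact Or.inl hi
      · intro h x hx i hi
        rcases h x hx i with h1 | h1
        · exact absurd hi h1
        · exact h1
    rw [this]
    refine Finset.measurableSet_biInter J fun x _ => MeasurableSet.iInter fun i => ?_
    refine MeasurableSet.union (MeasurableSet.compl ?_) (MeasurableSet.compl ?_)
    · have h1 : Measurable (fun ω : (X → ℕ) × (X × ℕ → Mk) => ω.1 x) := by fun_prop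
      exact h1 (measurableSet_Ioi (a := i))
    · have h1 : Measurable (fun ω : (X → ℕ) × (X × ℕ → Mk) => ω.2 (x, i)) := by fun_prop
      exact h1 (hA x)
  rw [Measure.prod_apply hms]
  have h1 : ∀ N : X → ℕ, (Measure.infinitePi (fun _ : X × ℕ => ρ))
      (Prod.mk N ⁻¹' {ω : (X → ℕ) × (X × ℕ → Mk) | ∀ x ∈ J, ∀ i < ω.1 x, ω.2 (x, i) ∉ A x})
      = ∏ x ∈ J, (1 - ρ (A x)) ^ (N x) := by
    intro N
    set J' : Finset (X × ℕ) := J.biUnion fun x => (Finset.range (N x)).image fun i => (x, i) with hJ'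
    have h2 : Prod.mk N ⁻¹' {ω : (X → ℕ) × (X × ℕ → Mk) | ∀ x ∈ J, ∀ i < ω.1 x, ω.2 (x, i) ∉ A x}
        = ((J' : Set (X × ℕ)).pi fun j => (A j.1)ᶜ) := by
      ext w
      simp only [Set.mem_preimage, Set.mem_ofPred_eq, hJ', Finset.coe_biUnion, Set.mem_pi,
        Set.mem_iUnion, Finset.coe_image, Set.mem_image, Finset.coe_range, Set.mem_Iio,
        Set.mem_compl_iff, Finset.mem_coe]
      constructor
      · rintro h j ⟨x, hx, i, hi, rfl⟩
        exact h x hx i hi
      · intro h x hx i hi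
        exact h (x, i) ⟨x, hx, i, hi, rfl⟩
    rw [h2, Measure.infinitePi_pi _ (fun j _ => (hA j.1).compl)]
    rw [hJ', Finset.prod_biUnion]
    · refine Finset.prod_congr rfl fun x _ => ?_
      rw [Finset.prod_image (by intro a _ b _ h; simpa using h)]
      simp only [prob_compl_eq_one_sub (hA x)]
      simp
    · intro x _ y _ hxy
      simp only [Function.onFun]
      rw [Finset.disjoint_left]
      intro j hj1 hj2
      rw [Finset.mem_image] at hj1 hj2
      obtain ⟨i, _, rfl⟩ := hj1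
      obtain ⟨i', _, h⟩ := hj2
      simp only [Prod.mk.injEq] at h
      exact hxy h.1.symm
  simp_rw [h1]
  rw [lintegral_prod_eq_prod_lintegral_of_indepFun J
    (fun x (N : X → ℕ) => (1 - ρ (A x)) ^ (N x))
    (iIndepFun_infinitePi (P := fun _ : X => μ0) (X := fun x n => (1 - ρ (A x)) ^ n)
      (fun x => measurable_from_nat))
    (fun x => (measurable_from_nat (f := fun n => (1 - ρ (A x)) ^ n)).comp
      (measurable_pi_apply x))]
  refine Finset.prod_congr rfl fun x _ => ?_
  have h4 := lintegral_map (μ := Measure.infinitePi (fun _ : X => μ0))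
    (f := fun n => (1 - ρ (A x)) ^ n)
    (g := fun N : X → ℕ => N x) measurable_from_nat (measurable_pi_apply x)
  rw [Measure.infinitePi_map_eval] at h4
  exact h4.symm

end Marks

section Model

variable {d : ℕ} {Mk : Type} [MeasurableSpace Mk]

/-- the sample space -/
abbrev SP (d : ℕ) (Mk : Type) := (V d → ℕ) × (V d × ℕ → Mk)

/-- the law -/
def PM (v : ℝ≥0) (ρ : Measure Mk) : Measure (SP d Mk) :=
  (Measure.infinitePi (fun _ : V d => (poissonPMF v).toMeasure)).prod
    (Measure.infinitePi (fun _ : V d × ℕ => ρ))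

instance (v : ℝ≥0) (ρ : Measure Mk) [IsProbabilityMeasure ρ] :
    IsProbabilityMeasure (PM (d := d) v ρ) := by
  unfold PM; infer_instance

/-- the law of the animal -/
def nuM (ρ : Measure Mk) (g : Mk → Finset (V d)) (A : Finset (V d)) : ℝ≥0∞ := ρ {m | g m = A}

/-- measurability of an animal valued map -/
def MeasAn (g : Mk → Finset (V d)) : Prop := ∀ A, MeasurableSet {m | g m = A}

theorem nuM_sum (ρ : Measure Mk) [IsProbabilityMeasure ρ] (g : Mk → Finset (V d)) (hg : MeasAn g) :
    ∑' A, nuM ρ g A ≤ 1 := by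
  unfold nuM
  rw [← measure_iUnion]
  · exact prob_le_one
  · intro A B hAB
    refine Set.disjoint_left.mpr fun m hm hm' => hAB ?_
    simp only [Set.mem_ofPred_eq] at hm hm'
    rw [← hm, hm']
  · exact fun A => hg A

theorem nuM_le_one (ρ : Measure Mk) [IsProbabilityMeasure ρ] (g : Mk → Finset (V d))
    (A : Finset (V d)) : nuM ρ g A ≤ 1 := prob_le_one

/-- presence indicators -/
def xiM (g : Mk → Finset (V d)) (k : V d × Finset (V d)) (ω : SP d Mk) : Bool :=
  open Classical in decide (∃ i < ω.1 k.1, g (ω.2 (k.1, i)) = k.2)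

theorem xiM_false_iff (g : Mk → Finset (V d)) (k : V d × Finset (V d)) (ω : SP d Mk) :
    xiM g k ω = false ↔ ∀ i < ω.1 k.1, g (ω.2 (k.1, i)) ≠ k.2 := by
  unfold xiM
  simp

theorem xiM_true_iff (g : Mk → Finset (V d)) (k : V d × Finset (V d)) (ω : SP d Mk) :
    xiM g k ω = true ↔ ∃ i < ω.1 k.1, g (ω.2 (k.1, i)) = k.2 := by
  unfold xiM
  simp

theorem absentM (v : ℝ≥0) (ρ : Measure Mk) [IsProbabilityMeasure ρ] (g : Mk → Finset (V d))
    (hg : MeasAn g) (J : Finset (V d × Finset (V d))) :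
    PM v ρ (⋂ k ∈ J, {ω | xiM g k ω = false})
      = ∏ k ∈ J, ENNReal.ofReal (Real.exp (-(v * (nuM ρ g k.2).toReal))) := by
  classical
  set B : V d → Finset (Finset (V d)) := fun x => (J.filter fun k => k.1 = x).image Prod.snd
    with hB
  set A : V d → Set Mk := fun x => ⋃ C ∈ B x, {m | g m = C} with hA
  have hAm : ∀ x, MeasurableSet (A x) := fun x =>
    Finset.measurableSet_biUnion _ fun C _ => hg C
  have hset : (⋂ k ∈ J, {ω : SP d Mk | xiM g k ω = false})
      = {ω | ∀ x ∈ J.image (fun k => k.1), ∀ i < ω.1 x, ω.2 (x, i) ∉ A x} := by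
    ext ω
    simp only [Set.mem_iInter, Set.mem_ofPred_eq, Finset.mem_image, hA, hB, Set.mem_iUnion,
      Finset.mem_filter, not_exists]
    constructor
    · rintro h x ⟨k, hk, rfl⟩ i hi C ⟨k', ⟨hk', hx⟩, rfl⟩ heq
      have := (xiM_false_iff g k' ω).mp (h k' hk')
      rw [hx] at this
      exact this i hi heq
    · intro h k hk
      rw [xiM_false_iff]
      intro i hi heq
      exact h k.1 ⟨k, hk, rfl⟩ i hi k.2 ⟨k, ⟨hk, rfl⟩, rfl⟩ heq
  rw [hset]
  unfold PM
  rw [avoidM (poissonPMF v).toMeasure ρ _ A hAm]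
  have hx : ∀ x ∈ J.image (fun k => k.1),
      ∫⁻ n, (1 - ρ (A x)) ^ n ∂(poissonPMF v).toMeasure
      = ∏ k ∈ J.filter (fun k => k.1 = x), ENNReal.ofReal (Real.exp (-(v * (nuM ρ g k.2).toReal))) := by
    intro x _
    have h0 : ρ (A x) = ∑ C ∈ B x, nuM ρ g C := by
      rw [hA]
      dsimp only
      rw [measure_biUnion_finset]
      · rfl
      · intro C _ C' _ hne
        refine Set.disjoint_left.mpr fun s hs hs' => hne ?_
        simp only [Set.mem_ofPred_eq] at hs hs'
        rw [← hs, hs']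
      · exact fun C _ => hg C
    have h1 : ρ (A x) = ENNReal.ofReal (ρ (A x)).toReal :=
      (ENNReal.ofReal_toReal (measure_ne_top _ _)).symm
    rw [h1, poisson_gf v _ ENNReal.toReal_nonneg (by
      have := ENNReal.toReal_mono (by simp) (prob_le_one (μ := ρ) (s := A x))
      simpa using this)]
    rw [h0, ENNReal.toReal_sum (fun C _ => ne_top_of_le_ne_top (by simp) (nuM_le_one ρ g C))]
    rw [← ENNReal.ofReal_prod_of_nonneg (fun k _ => (Real.exp_pos _).le), ← Real.exp_sum]
    congr 2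
    rw [Finset.sum_neg_distrib, ← Finset.mul_sum, hB]
    dsimp only
    rw [Finset.sum_image]
    intro k hk k' hk' heq
    simp only [Finset.coe_filter, Set.mem_ofPred_eq] at hk hk'
    exact Prod.ext (hk.2.trans hk'.2.symm) heq
  rw [Finset.prod_congr rfl hx]
  exact Finset.prod_fiberwise_of_maps_to (fun k hk => Finset.mem_image_of_mem _ hk) _

theorem xiM_measurableSet (g : Mk → Finset (V d)) (hg : MeasAn g) (k : V d × Finset (V d)) :
    MeasurableSet {ω : SP d Mk | xiM g k ω = false} := by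
  have : {ω : SP d Mk | xiM g k ω = false} = ⋂ i : ℕ, ({ω | i < ω.1 k.1}ᶜ ∪
      {ω | ω.2 (k.1, i) ∈ {m | g m = k.2}}ᶜ) := by
    ext ω
    simp only [Set.mem_ofPred_eq, Set.mem_iInter, Set.mem_union, Set.mem_compl_iff]
    rw [xiM_false_iff]
    constructor
    · intro h i
      by_cases hi : i < ω.1 k.1
      · exact Or.inr (h i hi)
      · exact Or.inl hi
    · intro h i hi
      rcases h i with h1 | h1
      · exact absurd hi h1
      · exact h1
  rw [this]
  refine MeasurableSet.iInter fun i => MeasurableSet.union (MeasurableSet.compl ?_)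
    (MeasurableSet.compl ?_)
  · have h1 : Measurable (fun ω : SP d Mk => ω.1 k.1) := by fun_prop
    exact h1 (measurableSet_Ioi (a := i))
  · have h1 : Measurable (fun ω : SP d Mk => ω.2 (k.1, i)) := by fun_prop
    exact h1 (hg k.2)

theorem xiM_measurable (g : Mk → Finset (V d)) (hg : MeasAn g) (k : V d × Finset (V d)) :
    Measurable (xiM g k) := by
  refine measurable_to_bool ?_
  have : xiM g k ⁻¹' {true} = {ω | xiM g k ω = false}ᶜ := by
    ext ω; simp
  rw [this]
  exact (xiM_measurableSet g hg k).compl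

theorem xiM_prob (v : ℝ≥0) (ρ : Measure Mk) [IsProbabilityMeasure ρ] (g : Mk → Finset (V d))
    (hg : MeasAn g) (k : V d × Finset (V d)) :
    PM v ρ {ω | xiM g k ω = true}
      = ENNReal.ofReal (1 - Real.exp (-(v * (nuM ρ g k.2).toReal))) := by
  have h1 := absentM v ρ g hg {k}
  simp only [Finset.mem_singleton, Set.iInter_iInter_eq_left, Finset.prod_singleton] at h1
  have h2 : {ω : SP d Mk | xiM g k ω = true} = {ω | xiM g k ω = false}ᶜ := by
    ext ω; simp
  rw [h2, prob_compl_eq_one_sub (xiM_measurableSet g hg k), h1,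
    ENNReal.ofReal_sub _ (Real.exp_pos _).le, ENNReal.ofReal_one]

theorem xiM_indep (v : ℝ≥0) (ρ : Measure Mk) [IsProbabilityMeasure ρ] (g : Mk → Finset (V d))
    (hg : MeasAn g) : iIndepFun (xiM g) (PM v ρ) := by
  have h1 : iIndepSet (fun k => {ω | xiM g k ω = false}) (PM v ρ) := by
    rw [iIndepSet_iff_meas_biInter (xiM_measurableSet g hg)]
    intro J
    rw [absentM v ρ g hg J]
    refine Finset.prod_congr rfl fun k _ => ?_
    have h2 := absentM v ρ g hg {k}
    simp only [Finset.mem_singleton, Set.iInter_iInter_eq_left, Finset.prod_singleton] at h2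
    exact h2.symm
  have h3 := iIndepSet.iIndepFun_indicator (β := ℕ) (m := Nat.instMeasurableSpace) h1
  have h4 := h3.comp (fun _ n => decide (n = 0)) (fun _ => measurable_from_nat)
  have h6 : (fun (k : V d × Finset (V d)) => (fun n : ℕ => decide (n = 0)) ∘
      ({ω : SP d Mk | xiM g k ω = false}.indicator fun _ω => 1))
      = xiM g := by
    funext k ω
    simp only [Function.comp_apply, Set.indicator_apply, Set.mem_ofPred_eq]
    by_cases h : xiM g k ω = false
    · simp [h]
    · have h' : xiM g k ω = true := by simpa using h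
      simp [h']
  rw [h6] at h4
  exact h4

/-- the occupied set in terms of marks -/
def occM (g : Mk → Finset (V d)) (ω : SP d Mk) : Set (V d) :=
  {z | ∃ x : V d, ∃ i < ω.1 x, z - x ∈ g (ω.2 (x, i))}

theorem occM_eq (g : Mk → Finset (V d)) (ω : SP d Mk) : occM g ω = occ (Qs (xiM g) ω) := by
  ext z
  constructor
  · rintro ⟨x, i, hi, hz⟩
    exact ⟨(x, g (ω.2 (x, i))), (xiM_true_iff g _ ω).mpr ⟨i, hi, rfl⟩, hz⟩
  · rintro ⟨k, hk, hz⟩
    obtain ⟨i, hi, he⟩ := (xiM_true_iff g k ω).mp hk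
    exact ⟨k.1, i, hi, by rw [he]; exact hz⟩

/-- no percolation at small intensity -/
theorem main_marks [NeZero d] (ρ : Measure Mk) [IsProbabilityMeasure ρ] (g : Mk → Finset (V d))
    (hg : MeasAn g) (H : ℝ)
    (HB : ∀ (c : V d) (r : ℕ), 1 ≤ r →
      ∑' k : V d × Finset (V d), nuM ρ g k.2 * one? (bad c r k) ≤ ENNReal.ofReal H) :
    ∃ v : ℝ, 0 < v ∧ ∀ w : ℝ≥0, (w : ℝ) ≤ v → PM w ρ {ω | perc (occM g ω)} = 0 := by
  obtain ⟨v, hv, hmain⟩ := upper_main' (d := d) (nuM ρ g) H HB (nuM_sum ρ g hg)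
  refine ⟨v, hv, fun w hw => ?_⟩
  have h0 : {ω : SP d Mk | perc (occM g ω)} = {ω | perc (occ (Qs (xiM g) ω))} := by
    ext ω
    simp only [Set.mem_ofPred_eq, occM_eq]
  rw [h0]
  refine hmain _ (PM w ρ) (xiM g) (xiM_measurable g hg) (xiM_indep w ρ g hg) (fun k => ?_)
  rw [xiM_prob w ρ g hg k]
  have hnu : nuM ρ g k.2 ≠ ⊤ := ne_top_of_le_ne_top (by simp) (nuM_le_one ρ g k.2)
  set q := nuM ρ g k.2
  have hq : 0 ≤ q.toReal := ENNReal.toReal_nonneg
  calc ENNReal.ofReal (1 - Real.exp (-(w * q.toReal)))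
      ≤ ENNReal.ofReal (v * q.toReal) := by
        refine ENNReal.ofReal_le_ofReal ?_
        have := Real.add_one_le_exp (-(w * q.toReal))
        nlinarith
    _ = ENNReal.ofReal v * q := by
        rw [ENNReal.ofReal_mul hv.le, ENNReal.ofReal_toReal hnu]

end Model

end

end Pool.Agent.V11320.RayGen
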