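import Mathlib
import Pool.Agent.V11320.RayMark

set_option autoImplicit false
open scoped ENNReal NNReal BigOperators
open MeasureTheory ProbabilityTheory

namespace Pool.Agent.V11320.RayGen

open Pool.Agent.H592

noncomputable section

variable {Mk : Type} [MeasurableSpace Mk]

theorem sum_nuM {d : ℕ} (ρ : Measure Mk) (g : Mk → Finset (V d)) (hg : MeasAn g)
    (T : Finset (V d) → ℝ≥0∞) :
    ∑' A, nuM ρ g A * T A = ∫⁻ m, T (g m) ∂ρ := by
  let _ : MeasurableSpace (Finset (V d)) := ⊤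
  have hgm : Measurable g := measurable_to_countable' fun A => hg A
  have h1 : ∫⁻ m, T (g m) ∂ρ = ∫⁻ A, T A ∂(ρ.map g) := by
    rw [lintegral_map measurable_from_top hgm]
  rw [h1, lintegral_countable']
  refine tsum_congr fun A => ?_
  rw [Measure.map_apply hgm trivial, mul_comm]
  rfl

theorem touches_cover (A : Finset (V 2)) (n r : ℕ) (a : ℕ → V 2)
    (h : ∀ z ∈ A, ∃ j ≤ n, z ∈ Bx (a j) (4 * r)) (c : V 2) :
    ∑' x : V 2, one? (touches (x, A) c (24 * r)) ≤ ((n + 1) * (56 * r + 1) ^ 2 : ℕ) := by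
  have h1 : ∀ x : V 2, one? (touches (x, A) c (24 * r))
      ≤ ∑ j ∈ Finset.range (n + 1), ind (Bx (c - a j) (28 * r)) x := by
    intro x
    by_cases hx : touches (x, A) c (24 * r)
    · obtain ⟨z, hz, hB⟩ := hx
      obtain ⟨j, hj, hzj⟩ := h z hz
      have h2 : x ∈ Bx (c - a j) (28 * r) := by
        rw [mem_Bx] at *
        intro i
        have h3 := hB i
        have h4 := hzj i
        simp only [Pi.add_apply] at h3
        simp only [Pi.sub_apply]
        rw [abs_le] at *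
        push_cast at *
        constructor <;> linarith [h3.1, h3.2, h4.1, h4.2]
      calc one? (touches (x, A) c (24 * r)) ≤ 1 := one?_le_one _
        _ = ind (Bx (c - a j) (28 * r)) x := by unfold ind; rw [if_pos h2]
        _ ≤ _ := Finset.single_le_sum (f := fun j => ind (Bx (c - a j) (28 * r)) x)
            (fun _ _ => zero_le) (Finset.mem_range.mpr (Nat.lt_succ_of_le hj))
    · rw [one?_false hx]; exact zero_le
  refine (ENNReal.tsum_le_tsum h1).trans ?_
  rw [Summable.tsum_finsetSum (fun _ _ => ENNReal.summable)]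
  have h2 : ∀ j ∈ Finset.range (n + 1), ∑' x : V 2, ind (Bx (c - a j) (28 * r)) x
      = ((56 * r + 1) ^ 2 : ℕ) := by
    intro j _
    rw [tsum_ind, card_Bx]
    push_cast
    ring
  rw [Finset.sum_congr rfl h2, Finset.sum_const, Finset.card_range, nsmul_eq_mul]
  push_cast
  rfl

theorem bad_sum (ρ : Measure Mk) [IsProbabilityMeasure ρ] (g : Mk → Finset (V 2)) (hg : MeasAn g)
    (len : Mk → ℕ)
    (h0 : ∀ m, 0 ∈ g m)
    (hsm : ∀ m (r : ℕ), 1 ≤ r → ¬ small r (g m) → r ≤ len m)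
    (hcov : ∀ m (r : ℕ), 1 ≤ r → ∃ a : ℕ → V 2, ∀ z ∈ g m, ∃ j ≤ len m / r, z ∈ Bx (a j) (4 * r))
    (K : ℝ≥0∞)
    (hK : ∀ r : ℕ, 1 ≤ r → (r : ℝ≥0∞) * ∫⁻ m, (if r ≤ len m then (len m : ℝ≥0∞) else 0) ∂ρ ≤ K)
    (c : V 2) (r : ℕ) (hr : 1 ≤ r) :
    ∑' k : V 2 × Finset (V 2), nuM ρ g k.2 * one? (bad c r k) ≤ 6498 * K := by
  rw [ENNReal.tsum_prod', ENNReal.tsum_comm]
  simp_rw [ENNReal.tsum_mul_left]
  rw [sum_nuM ρ g hg]
  have h1 : ∀ m, ∑' x : V 2, one? (bad c r (x, g m))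
      ≤ 6498 * ((r : ℝ≥0∞) * (if r ≤ len m then (len m : ℝ≥0∞) else 0)) := by
    intro m
    by_cases hs : small r (g m)
    · have : ∀ x, one? (bad c r (x, g m)) = 0 := by
        intro x
        refine one?_false ?_
        rintro ⟨_, h⟩
        rcases h with h | h
        · exact h (h0 m)
        · exact h hs
      simp_rw [this]
      simp
    · have hl := hsm m r hr hs
      obtain ⟨a, ha⟩ := hcov m r hr
      rw [if_pos hl]
      calc ∑' x : V 2, one? (bad c r (x, g m))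
          ≤ ∑' x : V 2, one? (touches (x, g m) c (24 * r)) :=
            ENNReal.tsum_le_tsum fun x => one?_mono fun h => h.1
        _ ≤ ((len m / r + 1) * (56 * r + 1) ^ 2 : ℕ) := touches_cover (g m) (len m / r) r a ha c
        _ ≤ ((6498 * (r * len m) : ℕ) : ℝ≥0∞) := by
            norm_cast
            have h2 : r * (len m / r) ≤ len m := Nat.mul_div_le _ _
            calc (len m / r + 1) * (56 * r + 1) ^ 2 ≤ (len m / r + 1) * (57 * r) ^ 2 := by
                  gcongr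
                  omega
              _ = 3249 * (r * (r * (len m / r) + r)) := by ring
              _ ≤ 3249 * (r * (len m + len m)) := by gcongr
              _ = _ := by ring
        _ = _ := by push_cast; ring
  refine (lintegral_mono h1).trans ?_
  rw [lintegral_const_mul' _ _ (by simp), lintegral_const_mul' _ _ (by simp)]
  gcongr
  exact hK r hr

/-- the main criterion -/
theorem criterion (ρ : Measure Mk) [IsProbabilityMeasure ρ] (g : Mk → Finset (V 2))
    (hg : MeasAn g) (len : Mk → ℕ)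
    (h0 : ∀ m, 0 ∈ g m)
    (hsm : ∀ m (r : ℕ), 1 ≤ r → ¬ small r (g m) → r ≤ len m)
    (hcov : ∀ m (r : ℕ), 1 ≤ r → ∃ a : ℕ → V 2, ∀ z ∈ g m, ∃ j ≤ len m / r, z ∈ Bx (a j) (4 * r))
    (K : ℝ≥0∞) (hK' : K ≠ ⊤)
    (hK : ∀ r : ℕ, 1 ≤ r → (r : ℝ≥0∞) * ∫⁻ m, (if r ≤ len m then (len m : ℝ≥0∞) else 0) ∂ρ ≤ K) :
    ∃ v : ℝ, 0 < v ∧ ∀ w : ℝ≥0, (w : ℝ) ≤ v →
      PM (d := 2) w ρ {ω | perc (occM g ω)} = 0 := by
  refine main_marks ρ g hg (6498 * K).toReal fun c r hr => ?_
  rw [ENNReal.ofReal_toReal (ENNReal.mul_ne_top (by simp) hK')]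
  exact bad_sum ρ g hg len h0 hsm hcov K hK c r hr

end

end Pool.Agent.V11320.RayGen
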