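import Mathlib

set_option autoImplicit false
open MeasureTheory ProbabilityTheory
open scoped ENNReal NNReal BigOperators Topology

namespace Pool.Agent.V11320.MaxGauss

noncomputable section

/-! Concentration of the change of a maximum of Gaussian variables under rotation. -/

variable {m : ℕ}

/-- the maximum -/
def mx (v : Fin (m + 1) → ℝ) : ℝ := Finset.univ.sup' Finset.univ_nonempty v

theorem le_mx (v : Fin (m + 1) → ℝ) (k : Fin (m + 1)) : v k ≤ mx v :=
  Finset.le_sup' v (Finset.mem_univ k)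

/-- the first maximiser -/
def IsFirst (v : Fin (m + 1) → ℝ) (k : Fin (m + 1)) : Prop :=
  (∀ l, v l ≤ v k) ∧ ∀ l < k, v l < v k

theorem exists_first (v : Fin (m + 1) → ℝ) : ∃ k, IsFirst v k := by
  classical
  set S : Finset (Fin (m + 1)) := Finset.univ.filter fun k => ∀ l, v l ≤ v k with hS
  have hne : S.Nonempty := by
    obtain ⟨k, _, hk⟩ := Finset.exists_max_image Finset.univ v Finset.univ_nonempty
    refine ⟨k, ?_⟩
    rw [hS, Finset.mem_filter]
    exact ⟨Finset.mem_univ k, fun l => hk l (Finset.mem_univ l)⟩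
  have hmin := Finset.min'_mem S hne
  have h1 := (Finset.mem_filter.mp hmin).2
  refine ⟨S.min' hne, h1, fun l hl => ?_⟩
  by_contra hcon
  push Not at hcon
  have hlS : l ∈ S := by
    rw [hS, Finset.mem_filter]
    exact ⟨Finset.mem_univ l, fun l' => (h1 l').trans hcon⟩
  exact absurd (Finset.min'_le S l hlS) (not_le.mpr hl)

/-- the first maximiser -/
def am (v : Fin (m + 1) → ℝ) : Fin (m + 1) := Classical.choose (exists_first v)

theorem am_spec (v : Fin (m + 1) → ℝ) : IsFirst v (am v) := Classical.choose_spec (exists_first v)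

theorem first_unique {v : Fin (m + 1) → ℝ} {k l : Fin (m + 1)} (hk : IsFirst v k)
    (hl : IsFirst v l) : k = l := by
  rcases lt_trichotomy k l with h | h | h
  · exact absurd (hl.2 k h) (not_lt.mpr (hk.1 l))
  · exact h
  · exact absurd (hk.2 l h) (not_lt.mpr (hl.1 k))

theorem am_eq_iff (v : Fin (m + 1) → ℝ) (k : Fin (m + 1)) : am v = k ↔ IsFirst v k := by
  constructor
  · intro h
    rw [← h]
    exact am_spec v
  · intro h
    exact first_unique (am_spec v) h

theorem mx_eq (v : Fin (m + 1) → ℝ) : mx v = v (am v) := by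
  refine le_antisymm ?_ (le_mx v _)
  exact Finset.sup'_le _ _ fun l _ => (am_spec v).1 l

theorem am_measurableSet (k : Fin (m + 1)) : MeasurableSet {v : Fin (m + 1) → ℝ | am v = k} := by
  have h : {v : Fin (m + 1) → ℝ | am v = k}
      = (⋂ l, {v | v l ≤ v k}) ∩ ⋂ l, ⋂ (_ : l < k), {v | v l < v k} := by
    ext v
    simp only [Set.mem_ofPred_eq, am_eq_iff, IsFirst, Set.mem_inter_iff, Set.mem_iInter]
  rw [h]
  refine MeasurableSet.inter (MeasurableSet.iInter fun l => ?_)
    (MeasurableSet.iInter fun l => MeasurableSet.iInter fun _ => ?_)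
  · exact measurableSet_le (measurable_pi_apply l) (measurable_pi_apply k)
  · exact measurableSet_lt (measurable_pi_apply l) (measurable_pi_apply k)

theorem abs_mx_le (v : Fin (m + 1) → ℝ) : |mx v| ≤ ∑ k, |v k| := by
  rw [mx_eq]
  exact Finset.single_le_sum (f := fun k => |v k|) (fun k _ => abs_nonneg _) (Finset.mem_univ _)

theorem mx_continuous : Continuous (mx : (Fin (m + 1) → ℝ) → ℝ) := by
  unfold mx
  exact Continuous.finset_sup'_apply _ fun i _ => continuous_apply i

/-- rotation -/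
def rot (x y : Fin (m + 1) → ℝ) (φ : ℝ) : Fin (m + 1) → ℝ :=
  fun k => Real.cos φ * x k + Real.sin φ * y k

/-- derivative of the rotation -/
def dro (x y : Fin (m + 1) → ℝ) (φ : ℝ) : Fin (m + 1) → ℝ :=
  fun k => -Real.sin φ * x k + Real.cos φ * y k

theorem rot_zero (x y : Fin (m + 1) → ℝ) : rot x y 0 = x := by
  funext k; simp [rot]

theorem rot_back (x y : Fin (m + 1) → ℝ) (φ δ : ℝ) (k : Fin (m + 1)) :
    rot x y φ k = Real.cos δ * rot x y (φ + δ) k - Real.sin δ * dro x y (φ + δ) k := by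
  have h1 : φ = (φ + δ) - δ := by ring
  have h2 : Real.cos φ = Real.cos (φ + δ) * Real.cos δ + Real.sin (φ + δ) * Real.sin δ := by
    conv_lhs => rw [h1]
    rw [Real.cos_sub]
  have h3 : Real.sin φ = Real.sin (φ + δ) * Real.cos δ - Real.cos (φ + δ) * Real.sin δ := by
    conv_lhs => rw [h1]
    rw [Real.sin_sub]
  unfold rot dro
  rw [h2, h3]
  ring

theorem abs_rot_le (x y : Fin (m + 1) → ℝ) (φ : ℝ) (k : Fin (m + 1)) :
    |rot x y φ k| ≤ |x k| + |y k| := by
  unfold rot
  refine (abs_add_le _ _).trans ?_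
  rw [abs_mul, abs_mul]
  have h1 := Real.abs_cos_le_one φ
  have h2 := Real.abs_sin_le_one φ
  have h3 := abs_nonneg (x k)
  have h4 := abs_nonneg (y k)
  nlinarith

theorem step (x y : Fin (m + 1) → ℝ) (φ δ : ℝ) :
    mx (rot x y (φ + δ)) - mx (rot x y φ)
      ≤ (1 - Real.cos δ) * mx (rot x y (φ + δ))
        + Real.sin δ * dro x y (φ + δ) (am (rot x y (φ + δ))) := by
  set k := am (rot x y (φ + δ)) with hk
  have h1 : mx (rot x y (φ + δ)) = rot x y (φ + δ) k := mx_eq _
  have h2 := le_mx (rot x y φ) k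
  have h3 := rot_back x y φ δ k
  rw [h1]
  linarith

theorem steps (x y : Fin (m + 1) → ℝ) (δ : ℝ) (N : ℕ) :
    mx (rot x y (N * δ)) - mx x
      ≤ N * ((δ ^ 2 / 2) * ∑ k, (|x k| + |y k|))
        + Real.sin δ * ∑ j ∈ Finset.range N,
          dro x y ((j + 1) * δ) (am (rot x y ((j + 1) * δ))) := by
  induction N with
  | zero => simp [rot_zero]
  | succ N ih =>
    rw [Finset.sum_range_succ, mul_add]
    have h1 := step x y (N * δ) δ
    have h2 : (N : ℝ) * δ + δ = (N + 1) * δ := by ring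
    rw [h2] at h1
    have h3 : (1 - Real.cos δ) * mx (rot x y ((N + 1) * δ))
        ≤ (δ ^ 2 / 2) * ∑ k, (|x k| + |y k|) := by
      have h4 : 0 ≤ 1 - Real.cos δ := by linarith [Real.cos_le_one δ]
      have h5 : 1 - Real.cos δ ≤ δ ^ 2 / 2 := by
        have := Real.one_sub_sq_div_two_le_cos (x := δ)
        linarith
      have h6 : mx (rot x y ((N + 1) * δ)) ≤ ∑ k, (|x k| + |y k|) := by
        refine (le_abs_self _).trans ((abs_mx_le _).trans (Finset.sum_le_sum fun k _ => ?_))
        exact abs_rot_le x y _ k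
      have h7 : 0 ≤ ∑ k, (|x k| + |y k|) := Finset.sum_nonneg fun k _ => by positivity
      calc (1 - Real.cos δ) * mx (rot x y ((N + 1) * δ))
          ≤ (1 - Real.cos δ) * ∑ k, (|x k| + |y k|) := mul_le_mul_of_nonneg_left h6 h4
        _ ≤ _ := mul_le_mul_of_nonneg_right h5 h7
    push_cast
    linarith

variable {Ω : Type*} [MeasurableSpace Ω] {P : Measure Ω}

/-- exponential moment at an independent maximiser -/
theorem mgf_am {X D : Fin (m + 1) → Ω → ℝ} (hX : ∀ k, Measurable (X k)) (hD : ∀ k, Measurable (D k))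
    [IsProbabilityMeasure P]
    (hind : IndepFun (fun ω k => X k ω) (fun ω k => D k ω) P) (κ : ℝ) (C : ℝ≥0∞)
    (hmgf : ∀ k, ∫⁻ ω, ENNReal.ofReal (Real.exp (κ * D k ω)) ∂P ≤ C) :
    ∫⁻ ω, ENNReal.ofReal (Real.exp (κ * D (am fun k => X k ω) ω)) ∂P ≤ C := by
  classical
  have hXm : Measurable fun ω k => X k ω := measurable_pi_lambda _ hX
  have hDm : Measurable fun ω k => D k ω := measurable_pi_lambda _ hD
  set I : Fin (m + 1) → (Fin (m + 1) → ℝ) → ℝ≥0∞ :=
    fun k => Set.indicator {v | am v = k} 1 with hI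
  have hIm : ∀ k, Measurable (I k) := fun k => measurable_one.indicator (am_measurableSet k)
  have h1 : ∀ ω, ENNReal.ofReal (Real.exp (κ * D (am fun k => X k ω) ω))
      = ∑ k, I k (fun k => X k ω) * ENNReal.ofReal (Real.exp (κ * D k ω)) := by
    intro ω
    rw [Finset.sum_eq_single (am fun k => X k ω)]
    · have : I (am fun k => X k ω) (fun k => X k ω) = 1 := by
        rw [hI]
        exact Set.indicator_of_mem (s := {v | am v = am fun k => X k ω}) rfl 1
      rw [this, one_mul]
    · intro k _ hk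
      have : I k (fun k => X k ω) = 0 := by
        rw [hI]
        refine Set.indicator_of_notMem (s := {v | am v = k}) ?_ 1
        intro h
        exact hk h.symm
      rw [this, zero_mul]
    · intro h
      exact absurd (Finset.mem_univ _) h
  simp_rw [h1]
  have hEm : ∀ k, Measurable fun v : Fin (m + 1) → ℝ => ENNReal.ofReal (Real.exp (κ * v k)) := by
    intro k
    fun_prop
  have hm1 : ∀ k, Measurable fun ω => I k (fun k => X k ω) *
      ENNReal.ofReal (Real.exp (κ * D k ω)) := fun k => ((hIm k).comp hXm).mul ((hEm k).comp hDm)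
  have hm2 : ∀ k, Measurable fun ω => I k (fun k => X k ω) := fun k => (hIm k).comp hXm
  rw [lintegral_finset_sum _ (fun k _ => hm1 k)]
  have h2 : ∀ k, ∫⁻ ω, I k (fun k => X k ω) * ENNReal.ofReal (Real.exp (κ * D k ω)) ∂P
      = (∫⁻ ω, I k (fun k => X k ω) ∂P) * ∫⁻ ω, ENNReal.ofReal (Real.exp (κ * D k ω)) ∂P := by
    intro k
    have hi := hind.comp (hIm k) (hEm k)
    exact lintegral_mul_eq_lintegral_mul_lintegral_of_indepFun ((hIm k).comp hXm)
      ((hEm k).comp hDm) hi
  simp_rw [h2]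
  calc ∑ k, (∫⁻ ω, I k (fun k => X k ω) ∂P) * ∫⁻ ω, ENNReal.ofReal (Real.exp (κ * D k ω)) ∂P
      ≤ ∑ k, (∫⁻ ω, I k (fun k => X k ω) ∂P) * C := by
        refine Finset.sum_le_sum fun k _ => ?_
        gcongr
        exact hmgf k
    _ = (∫⁻ ω, ∑ k, I k (fun k => X k ω) ∂P) * C := by
        rw [lintegral_finset_sum _ (fun k _ => hm2 k), Finset.sum_mul]
    _ = C := by
        have h3 : ∀ ω, ∑ k, I k (fun k => X k ω) = 1 := by
          intro ω
          rw [Finset.sum_eq_single (am fun k => X k ω)]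
          · rw [hI]
            exact Set.indicator_of_mem (s := {v | am v = am fun k => X k ω}) rfl 1
          · intro k _ hk
            rw [hI]
            refine Set.indicator_of_notMem (s := {v | am v = k}) ?_ 1
            intro h
            exact hk h.symm
          · intro h
            exact absurd (Finset.mem_univ _) h
        simp_rw [h3]
        simp

/-- Jensen for the exponential -/
theorem exp_avg (N : ℕ) (hN : 0 < N) (a : ℕ → ℝ) (c : ℝ) :
    Real.exp (c * ∑ j ∈ Finset.range N, a j)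
      ≤ (1 / (N : ℝ)) * ∑ j ∈ Finset.range N, Real.exp (N * c * a j) := by
  have hN0 : (0 : ℝ) < N := by exact_mod_cast hN
  have h := convexOn_exp.map_sum_le (t := Finset.range N) (w := fun _ => 1 / (N : ℝ))
    (p := fun j => N * c * a j) (fun _ _ => by positivity)
    (by rw [Finset.sum_const, Finset.card_range, nsmul_eq_mul]; field_simp)
    (fun _ _ => Set.mem_univ _)
  simp only [smul_eq_mul] at h
  calc Real.exp (c * ∑ j ∈ Finset.range N, a j)
      = Real.exp (∑ j ∈ Finset.range N, 1 / (N : ℝ) * (N * c * a j)) := by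
        congr 1
        rw [← Finset.mul_sum, ← Finset.mul_sum]
        field_simp
    _ ≤ ∑ j ∈ Finset.range N, 1 / (N : ℝ) * Real.exp (N * c * a j) := h
    _ = _ := (Finset.mul_sum _ _ _).symm

/-- the tail bound for finitely many variables -/
theorem tail_fin [IsProbabilityMeasure P] {X Y : Fin (m + 1) → Ω → ℝ}
    (hX : ∀ k, Measurable (X k)) (hY : ∀ k, Measurable (Y k))
    (hXi : ∀ k, Integrable (X k) P) (hYi : ∀ k, Integrable (Y k) P)
    (hind : ∀ φ : ℝ, IndepFun (fun ω k => rot (fun k => X k ω) (fun k => Y k ω) φ k)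
      (fun ω k => dro (fun k => X k ω) (fun k => Y k ω) φ k) P)
    (σ2 : ℝ)
    (hmgf : ∀ (φ κ : ℝ) (k : Fin (m + 1)), ∫⁻ ω, ENNReal.ofReal (Real.exp (κ *
      dro (fun k => X k ω) (fun k => Y k ω) φ k)) ∂P ≤ ENNReal.ofReal (Real.exp (κ ^ 2 * σ2 / 2)))
    (hσ : 0 ≤ σ2) (θ lam s : ℝ) (hθ : 0 ≤ θ) (hlam : 0 ≤ lam) :
    P {ω | s ≤ mx (rot (fun k => X k ω) (fun k => Y k ω) θ) - mx (fun k => X k ω)}
      ≤ ENNReal.ofReal (Real.exp (-(lam * s) + lam ^ 2 * θ ^ 2 * σ2 / 2)) := by
  set H : Ω → ℝ := fun ω => ∑ k, (|X k ω| + |Y k ω|) with hH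
  have hH0 : ∀ ω, 0 ≤ H ω := fun ω => Finset.sum_nonneg fun k _ => by positivity
  have hHi : Integrable H P := integrable_finset_sum _ fun k _ => (hXi k).abs.add (hYi k).abs
  set G : ℝ → Ω → ℝ := fun φ ω => dro (fun k => X k ω) (fun k => Y k ω) φ
    (am (rot (fun k => X k ω) (fun k => Y k ω) φ)) with hG
  have hrotm : ∀ φ k, Measurable fun ω => rot (fun k => X k ω) (fun k => Y k ω) φ k := by
    intro φ k
    unfold rot
    exact ((hX k).const_mul _).add ((hY k).const_mul _)
  have hdrom : ∀ φ k, Measurable fun ω => dro (fun k => X k ω) (fun k => Y k ω) φ k := by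
    intro φ k
    unfold dro
    exact ((hX k).const_mul _).add ((hY k).const_mul _)
  have hGm : ∀ φ, Measurable (G φ) := by
    intro φ
    have h1 : G φ = fun ω => ∑ k, Set.indicator {v : Fin (m + 1) → ℝ | am v = k} 1
        (fun k => rot (fun k => X k ω) (fun k => Y k ω) φ k)
          * dro (fun k => X k ω) (fun k => Y k ω) φ k := by
      funext ω
      rw [Finset.sum_eq_single (am (rot (fun k => X k ω) (fun k => Y k ω) φ))]
      · rw [Set.indicator_of_mem (by rfl)]
        simp [hG]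
      · intro k _ hk
        rw [Set.indicator_of_notMem (fun h => hk h.symm), zero_mul]
      · intro h
        exact absurd (Finset.mem_univ _) h
    rw [h1]
    refine Finset.measurable_sum _ fun k _ => ?_
    refine Measurable.mul ?_ (hdrom φ k)
    exact (measurable_one.indicator (am_measurableSet k)).comp
      (measurable_pi_lambda _ fun k => hrotm φ k)
  have hGmgf : ∀ φ κ : ℝ, ∫⁻ ω, ENNReal.ofReal (Real.exp (κ * G φ ω)) ∂P
      ≤ ENNReal.ofReal (Real.exp (κ ^ 2 * σ2 / 2)) := by
    intro φ κ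
    exact mgf_am (hrotm φ) (hdrom φ) (hind φ) κ _ (hmgf φ κ)
  -- the bound for every number of steps
  have hN : ∀ (N : ℕ), 0 < N → ∀ ε : ℝ, 0 < ε →
      P {ω | s ≤ mx (rot (fun k => X k ω) (fun k => Y k ω) θ) - mx (fun k => X k ω)}
      ≤ ENNReal.ofReal (θ ^ 2 * (∫ ω, H ω ∂P) / (2 * ε) / N)
        + ENNReal.ofReal (Real.exp (-(lam * (s - ε)) + lam ^ 2 * θ ^ 2 * σ2 / 2)) := by
    intro N hN ε hε
    have hN0 : (0 : ℝ) < N := by exact_mod_cast hN
    set δ : ℝ := θ / N with hδ
    have hδ0 : 0 ≤ δ := by positivity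
    have hNδ : (N : ℝ) * δ = θ := by rw [hδ]; field_simp
    set S : Ω → ℝ := fun ω => ∑ j ∈ Finset.range N, G ((j + 1) * δ) ω with hS
    have hsub : {ω | s ≤ mx (rot (fun k => X k ω) (fun k => Y k ω) θ) - mx (fun k => X k ω)}
        ⊆ {ω | ε ≤ θ ^ 2 / (2 * N) * H ω} ∪ {ω | s - ε ≤ Real.sin δ * S ω} := by
      intro ω hω
      have h1 := steps (fun k => X k ω) (fun k => Y k ω) δ N
      rw [hNδ] at h1
      have h2 : (N : ℝ) * (δ ^ 2 / 2 * ∑ k, (|X k ω| + |Y k ω|)) = θ ^ 2 / (2 * N) * H ω := by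
        rw [hδ, hH]
        field_simp
      rw [h2] at h1
      have h3 : s ≤ mx (rot (fun k => X k ω) (fun k => Y k ω) θ) - mx (fun k => X k ω) := hω
      by_contra hcon
      rw [Set.mem_union, not_or] at hcon
      have h4 : θ ^ 2 / (2 * N) * H ω < ε := not_le.mp hcon.1
      have h5 : Real.sin δ * S ω < s - ε := not_le.mp hcon.2
      linarith
    refine (measure_mono hsub).trans ((measure_union_le _ _).trans (add_le_add ?_ ?_))
    · -- Markov
      have h1 := mul_meas_ge_le_integral_of_nonneg (μ := P)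
        (f := fun ω => θ ^ 2 / (2 * N) * H ω)
        (Filter.Eventually.of_forall fun ω => mul_nonneg (by positivity) (hH0 ω))
        (hHi.const_mul _) ε
      rw [integral_const_mul] at h1
      have h2 : (P {ω | ε ≤ θ ^ 2 / (2 * N) * H ω}).toReal
          ≤ θ ^ 2 * (∫ ω, H ω ∂P) / (2 * ε) / N := by
        have h3 : (P {ω | ε ≤ θ ^ 2 / (2 * N) * H ω}).toReal
          = P.real {ω | ε ≤ θ ^ 2 / (2 * N) * H ω} := rfl
        rw [h3, le_div_iff₀ hN0, le_div_iff₀ (by positivity)]
        have h4 : ε * P.real {ω | ε ≤ θ ^ 2 / (2 * N) * H ω} ≤ θ ^ 2 / (2 * N) * ∫ ω, H ω ∂P := h1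
        have h5 : θ ^ 2 / (2 * N) * (∫ ω, H ω ∂P) * (2 * N) = θ ^ 2 * ∫ ω, H ω ∂P := by
          field_simp
        nlinarith
      rw [← ENNReal.ofReal_toReal (measure_ne_top P {ω | ε ≤ θ ^ 2 / (2 * N) * H ω})]
      exact ENNReal.ofReal_le_ofReal h2
    · -- Chernoff
      have hsin0 : 0 ≤ Real.sin δ ∨ True := Or.inr trivial
      have h1 : {ω | s - ε ≤ Real.sin δ * S ω}
          ⊆ {ω | ENNReal.ofReal (Real.exp (lam * (s - ε)))
            ≤ ENNReal.ofReal (Real.exp (lam * Real.sin δ * S ω))} := by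
        intro ω hω
        refine ENNReal.ofReal_le_ofReal (Real.exp_le_exp.mpr ?_)
        have h2 : s - ε ≤ Real.sin δ * S ω := hω
        nlinarith
      have hSm : Measurable S := Finset.measurable_sum _ fun j _ => hGm _
      have h2 := mul_meas_ge_le_lintegral (μ := P)
        (f := fun ω => ENNReal.ofReal (Real.exp (lam * Real.sin δ * S ω)))
        (by fun_prop) (ENNReal.ofReal (Real.exp (lam * (s - ε))))
      have h3 : ∫⁻ ω, ENNReal.ofReal (Real.exp (lam * Real.sin δ * S ω)) ∂P
          ≤ ENNReal.ofReal (Real.exp (lam ^ 2 * θ ^ 2 * σ2 / 2)) := by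
        have h4 : ∀ ω, ENNReal.ofReal (Real.exp (lam * Real.sin δ * S ω))
            ≤ ∑ j ∈ Finset.range N, ENNReal.ofReal (1 / N) *
              ENNReal.ofReal (Real.exp (N * (lam * Real.sin δ) * G ((j + 1) * δ) ω)) := by
          intro ω
          refine (ENNReal.ofReal_le_ofReal
            (exp_avg N hN (fun j => G ((j + 1) * δ) ω) (lam * Real.sin δ))).trans ?_
          rw [Finset.mul_sum, ENNReal.ofReal_sum_of_nonneg (fun j _ => by positivity)]
          refine Finset.sum_le_sum fun j _ => ?_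
          rw [ENNReal.ofReal_mul (by positivity)]
        refine (lintegral_mono h4).trans ?_
        rw [lintegral_finset_sum _ (fun j _ => by
          have := hGm ((j + 1) * δ)
          fun_prop)]
        have h5 : ∀ j ∈ Finset.range N, ∫⁻ ω, ENNReal.ofReal (1 / N) *
              ENNReal.ofReal (Real.exp (N * (lam * Real.sin δ) * G ((j + 1) * δ) ω)) ∂P
            ≤ ENNReal.ofReal (1 / N) * ENNReal.ofReal (Real.exp (lam ^ 2 * θ ^ 2 * σ2 / 2)) := by
          intro j _
          rw [lintegral_const_mul' _ _ ENNReal.ofReal_ne_top]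
          gcongr
          refine (hGmgf _ _).trans (ENNReal.ofReal_le_ofReal (Real.exp_le_exp.mpr ?_))
          have h6 : (N * (lam * Real.sin δ)) ^ 2 ≤ lam ^ 2 * θ ^ 2 := by
            have h7 : Real.sin δ ^ 2 ≤ δ ^ 2 := by
              have h8 : |Real.sin δ| ≤ |δ| := Real.abs_sin_le_abs
              exact sq_le_sq.mpr h8
            calc (N * (lam * Real.sin δ)) ^ 2 = (N : ℝ) ^ 2 * lam ^ 2 * Real.sin δ ^ 2 := by ring
              _ ≤ (N : ℝ) ^ 2 * lam ^ 2 * δ ^ 2 := by gcongr
              _ = lam ^ 2 * (N * δ) ^ 2 := by ring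
              _ = _ := by rw [hNδ]
          nlinarith
        refine (Finset.sum_le_sum h5).trans (le_of_eq ?_)
        rw [Finset.sum_const, Finset.card_range, nsmul_eq_mul, ← mul_assoc,
          ← ENNReal.ofReal_natCast N, ← ENNReal.ofReal_mul (by positivity)]
        have h6 : (N : ℝ) * (1 / N) = 1 := by field_simp
        rw [h6, ENNReal.ofReal_one, one_mul]
      have h4 := h2.trans h3
      have h5 : P {ω | s - ε ≤ Real.sin δ * S ω}
          ≤ ENNReal.ofReal (Real.exp (-(lam * (s - ε)))) *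
            (ENNReal.ofReal (Real.exp (lam * (s - ε))) * P {ω | ENNReal.ofReal (Real.exp (lam * (s - ε)))
            ≤ ENNReal.ofReal (Real.exp (lam * Real.sin δ * S ω))}) := by
        rw [← mul_assoc, ← ENNReal.ofReal_mul (Real.exp_pos _).le, ← Real.exp_add, neg_add_cancel,
          Real.exp_zero, ENNReal.ofReal_one, one_mul]
        exact measure_mono h1
      refine h5.trans ?_
      rw [Real.exp_add, ENNReal.ofReal_mul (Real.exp_pos _).le]
      gcongr
  -- let the number of steps tend to infinity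
  have hε : ∀ ε : ℝ, 0 < ε →
      P {ω | s ≤ mx (rot (fun k => X k ω) (fun k => Y k ω) θ) - mx (fun k => X k ω)}
      ≤ ENNReal.ofReal (Real.exp (-(lam * (s - ε)) + lam ^ 2 * θ ^ 2 * σ2 / 2)) := by
    intro ε hε
    have hlim : Filter.Tendsto (fun N : ℕ => ENNReal.ofReal (θ ^ 2 * (∫ ω, H ω ∂P) / (2 * ε) / N)
        + ENNReal.ofReal (Real.exp (-(lam * (s - ε)) + lam ^ 2 * θ ^ 2 * σ2 / 2))) Filter.atTop
        (𝓝 (ENNReal.ofReal 0
          + ENNReal.ofReal (Real.exp (-(lam * (s - ε)) + lam ^ 2 * θ ^ 2 * σ2 / 2)))) := by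
      refine Filter.Tendsto.add ?_ tendsto_const_nhds
      exact ENNReal.tendsto_ofReal (tendsto_const_div_atTop_nhds_zero_nat _)
    rw [ENNReal.ofReal_zero, zero_add] at hlim
    refine ge_of_tendsto hlim ?_
    filter_upwards [Filter.eventually_gt_atTop 0] with N hN'
    exact hN N hN' ε hε
  have hlim : Filter.Tendsto (fun ε : ℝ =>
      ENNReal.ofReal (Real.exp (-(lam * (s - ε)) + lam ^ 2 * θ ^ 2 * σ2 / 2))) (𝓝[>] 0)
      (𝓝 (ENNReal.ofReal (Real.exp (-(lam * (s - 0)) + lam ^ 2 * θ ^ 2 * σ2 / 2)))) := by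
    refine ENNReal.tendsto_ofReal ?_
    have : Continuous fun ε : ℝ => Real.exp (-(lam * (s - ε)) + lam ^ 2 * θ ^ 2 * σ2 / 2) := by
      fun_prop
    exact (this.tendsto 0).mono_left nhdsWithin_le_nhds
  rw [sub_zero] at hlim
  refine ge_of_tendsto hlim ?_
  filter_upwards [self_mem_nhdsWithin] with ε h
  exact hε ε h

end

end Pool.Agent.V11320.MaxGauss
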