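import Mathlib
import Pool.Agent.V11320.MaxGauss

set_option autoImplicit false
open MeasureTheory ProbabilityTheory
open scoped ENNReal NNReal BigOperators Topology

namespace Pool.Agent.V11320.MaxGauss

noncomputable section

variable {Ω : Type*} [MeasurableSpace Ω] {P : Measure Ω}

/-- linear combinations of a Gaussian process -/
theorem gauss_of_span {S T : Type*} {Z : T → Ω → ℝ} {Y : S → Ω → ℝ} (hZ : IsGaussianProcess Z P)
    (h : ∀ s, Y s ∈ Submodule.span ℝ (Set.range Z)) : IsGaussianProcess Y P := by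
  classical
  refine hZ.of_isGaussianProcess fun s => ?_
  obtain ⟨c, hc⟩ := (Finsupp.mem_span_range_iff_exists_finsupp).mp (h s)
  refine ⟨c.support, ∑ t : c.support, (c t) • ContinuousLinearMap.proj (R := ℝ) t, fun ω => ?_⟩
  rw [← hc]
  simp only [Finsupp.sum, ContinuousLinearMap.sum_apply, ContinuousLinearMap.smul_apply,
    ContinuousLinearMap.proj_apply, Finset.restrict, smul_eq_mul]
  rw [Finset.sum_apply, ← Finset.sum_coe_sort c.support]
  rfl

theorem cov_bil [IsFiniteMeasure P] {U V W Q : Ω → ℝ} (hU : MemLp U 2 P) (hV : MemLp V 2 P)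
    (hW : MemLp W 2 P) (hQ : MemLp Q 2 P) (a b c d : ℝ) :
    cov[a • U + b • V, c • W + d • Q; P]
      = a * c * cov[U, W; P] + a * d * cov[U, Q; P] + b * c * cov[V, W; P]
        + b * d * cov[V, Q; P] := by
  rw [covariance_add_left (hU.const_smul _) (hV.const_smul _) ((hW.const_smul _).add (hQ.const_smul _)),
    covariance_add_right (hU.const_smul _) (hW.const_smul _) (hQ.const_smul _),
    covariance_add_right (hV.const_smul _) (hW.const_smul _) (hQ.const_smul _),
    covariance_smul_left, covariance_smul_left, covariance_smul_left, covariance_smul_left,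
    covariance_smul_right, covariance_smul_right, covariance_smul_right, covariance_smul_right]
  ring

variable {m : ℕ}

/-- the tail bound for jointly Gaussian families -/
theorem gauss_tail [IsProbabilityMeasure P] {T : Type*} {Z : T → Ω → ℝ}
    (hZ : IsGaussianProcess Z P) {X X' : Fin (m + 1) → Ω → ℝ}
    (hX : ∀ k, Measurable (X k)) (hX' : ∀ k, Measurable (X' k))
    (hXs : ∀ k, X k ∈ Submodule.span ℝ (Set.range Z))
    (hXs' : ∀ k, X' k ∈ Submodule.span ℝ (Set.range Z))
    (hm : ∀ k, ∫ ω, X k ω ∂P = 0) (hm' : ∀ k, ∫ ω, X' k ω ∂P = 0)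
    (K : Fin (m + 1) → Fin (m + 1) → ℝ) (c σ2 : ℝ) (hc0 : 0 ≤ c) (hc1 : c < 1)
    (hK1 : ∀ k l, cov[X k, X l; P] = K k l) (hK2 : ∀ k l, cov[X' k, X' l; P] = K k l)
    (hK3 : ∀ k l, cov[X k, X' l; P] = c * K k l) (hK4 : ∀ k l, cov[X' k, X l; P] = c * K k l)
    (hKd : ∀ k, K k k = σ2) (lam s : ℝ) (hlam : 0 ≤ lam) :
    P {ω | s ≤ mx (fun k => X' k ω) - mx (fun k => X k ω)}
      ≤ ENNReal.ofReal (Real.exp (-(lam * s) + lam ^ 2 * (Real.arccos c) ^ 2 * σ2 / 2)) := by
  set θ : ℝ := Real.arccos c with hθ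
  have hcos : Real.cos θ = c := Real.cos_arccos (by linarith) hc1.le
  have hθ0 : 0 ≤ θ := Real.arccos_nonneg c
  have hsin : 0 < Real.sin θ := by
    rw [hθ, Real.sin_arccos]
    apply Real.sqrt_pos.mpr
    nlinarith
  set S : ℝ := Real.sin θ with hS
  have hS2 : S ^ 2 = 1 - c ^ 2 := by
    have := Real.sin_sq_add_cos_sq θ
    rw [hcos] at this
    linarith
  set Y : Fin (m + 1) → Ω → ℝ := fun k => S⁻¹ • (X' k - c • X k) with hY
  have hYm : ∀ k, Measurable (Y k) := fun k => ((hX' k).sub ((hX k).const_smul c)).const_smul _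
  have hYs : ∀ k, Y k ∈ Submodule.span ℝ (Set.range Z) := fun k =>
    Submodule.smul_mem _ _ (Submodule.sub_mem _ (hXs' k) (Submodule.smul_mem _ _ (hXs k)))
  -- square integrability
  have hL2 : ∀ F : Ω → ℝ, F ∈ Submodule.span ℝ (Set.range Z) → MemLp F 2 P := by
    intro F hF
    have h1 : IsGaussianProcess (fun _ : Unit => F) P := gauss_of_span hZ (fun _ => hF)
    exact (h1.hasGaussianLaw_eval ()).memLp_two
  have hint : ∀ F : Ω → ℝ, F ∈ Submodule.span ℝ (Set.range Z) → Integrable F P :=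
    fun F hF => (hL2 F hF).integrable (by norm_num)
  have hXL := fun k => hL2 _ (hXs k)
  have hXL' := fun k => hL2 _ (hXs' k)
  have hYL := fun k => hL2 _ (hYs k)
  -- covariances with Y
  have hXY : ∀ k l, cov[X k, Y l; P] = 0 := by
    intro k l
    rw [hY]
    simp only
    rw [covariance_smul_right, covariance_sub_right (hXL k) (hXL' l) ((hXL l).const_smul c),
      covariance_smul_right, hK1, hK3]
    simp
  have hYX : ∀ k l, cov[Y k, X l; P] = 0 := by
    intro k l
    rw [covariance_comm]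
    exact hXY l k
  have hYY : ∀ k l, cov[Y k, Y l; P] = K k l := by
    intro k l
    rw [hY]
    simp only
    rw [covariance_smul_right, covariance_smul_left,
      covariance_sub_left (hXL' k) ((hXL k).const_smul c) ((hXL' l).sub ((hXL l).const_smul c)),
      covariance_sub_right (hXL' k) (hXL' l) ((hXL l).const_smul c),
      covariance_sub_right ((hXL k).const_smul c) (hXL' l) ((hXL l).const_smul c),
      covariance_smul_right, covariance_smul_left, covariance_smul_left, covariance_smul_right,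
      hK1, hK2, hK3, hK4]
    have h1 : S ≠ 0 := hsin.ne'
    field_simp
    rw [hS2]
    ring
  -- rotated families
  set R : ℝ → Fin (m + 1) → Ω → ℝ := fun φ k => Real.cos φ • X k + Real.sin φ • Y k with hR
  set Dd : ℝ → Fin (m + 1) → Ω → ℝ := fun φ k => (-Real.sin φ) • X k + Real.cos φ • Y k with hD
  have hRs : ∀ φ k, R φ k ∈ Submodule.span ℝ (Set.range Z) := fun φ k =>
    Submodule.add_mem _ (Submodule.smul_mem _ _ (hXs k)) (Submodule.smul_mem _ _ (hYs k))
  have hDs : ∀ φ k, Dd φ k ∈ Submodule.span ℝ (Set.range Z) := fun φ k =>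
    Submodule.add_mem _ (Submodule.smul_mem _ _ (hXs k)) (Submodule.smul_mem _ _ (hYs k))
  have hRm : ∀ φ k, Measurable (R φ k) := fun φ k =>
    ((hX k).const_smul _).add ((hYm k).const_smul _)
  have hDm : ∀ φ k, Measurable (Dd φ k) := fun φ k =>
    ((hX k).const_smul _).add ((hYm k).const_smul _)
  have hRr : ∀ φ, (fun ω k => rot (fun k => X k ω) (fun k => Y k ω) φ k) = fun ω k => R φ k ω := by
    intro φ
    rfl
  have hDd : ∀ φ, (fun ω k => dro (fun k => X k ω) (fun k => Y k ω) φ k) = fun ω k => Dd φ k ω := by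
    intro φ
    rfl
  have hcovRD : ∀ φ k l, cov[R φ k, Dd φ l; P] = 0 := by
    intro φ k l
    have h1 : cov[R φ k, Dd φ l; P] = cov[Real.cos φ • X k + Real.sin φ • Y k,
        (-Real.sin φ) • X l + Real.cos φ • Y l; P] := rfl
    rw [h1, cov_bil (hXL k) (hYL k) (hXL l) (hYL l), hXY, hYX, hYY, hK1]
    ring
  have hcovDD : ∀ φ k, cov[Dd φ k, Dd φ k; P] = σ2 := by
    intro φ k
    have h1 : cov[Dd φ k, Dd φ k; P] = cov[(-Real.sin φ) • X k + Real.cos φ • Y k,
        (-Real.sin φ) • X k + Real.cos φ • Y k; P] := rfl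
    rw [h1, cov_bil (hXL k) (hYL k) (hXL k) (hYL k), hXY, hYX, hYY, hK1, hKd]
    have := Real.sin_sq_add_cos_sq φ
    linear_combination σ2 * this
  have hmean0 : ∀ φ k, ∫ ω, Dd φ k ω ∂P = 0 := by
    intro φ k
    have h1 : ∀ ω, Dd φ k ω = (-Real.sin φ) * X k ω + Real.cos φ * (S⁻¹ * (X' k ω - c * X k ω)) := by
      intro ω
      rfl
    simp_rw [h1]
    have i1 := hint _ (hXs k)
    have i2 := hint _ (hXs' k)
    have i3 : Integrable (fun ω => X' k ω - c * X k ω) P := i2.sub (i1.const_mul c)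
    have i4 : Integrable (fun ω => Real.cos φ * (S⁻¹ * (X' k ω - c * X k ω))) P :=
      (i3.const_mul _).const_mul _
    have i5 : Integrable (fun ω => -Real.sin φ * X k ω) P := i1.const_mul _
    rw [integral_add i5 i4, integral_const_mul, integral_const_mul, integral_const_mul,
      integral_sub i2 (i1.const_mul c), integral_const_mul, hm, hm']
    simp
  have hind : ∀ φ : ℝ, IndepFun (fun ω k => rot (fun k => X k ω) (fun k => Y k ω) φ k)
      (fun ω k => dro (fun k => X k ω) (fun k => Y k ω) φ k) P := by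
    intro φ
    rw [hRr, hDd]
    refine IsGaussianProcess.indepFun_of_covariance_eq_zero ?_ (fun k => (hRm φ k).aemeasurable)
      (fun k => (hDm φ k).aemeasurable) (fun k l => hcovRD φ k l)
    refine gauss_of_span hZ fun q => ?_
    rcases q with k | k
    · exact hRs φ k
    · exact hDs φ k
  have hmgf : ∀ (φ κ : ℝ) (k : Fin (m + 1)), ∫⁻ ω, ENNReal.ofReal (Real.exp (κ *
      dro (fun k => X k ω) (fun k => Y k ω) φ k)) ∂P
        ≤ ENNReal.ofReal (Real.exp (κ ^ 2 * σ2 / 2)) := by
    intro φ κ k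
    have h0 : ∀ ω, dro (fun k => X k ω) (fun k => Y k ω) φ k = Dd φ k ω := fun ω => rfl
    simp_rw [h0]
    have hg : IsGaussianProcess (fun _ : Unit => Dd φ k) P := gauss_of_span hZ (fun _ => hDs φ k)
    have hlaw := (hg.hasGaussianLaw_eval ()).map_eq_gaussianReal
    have hmg := mgf_gaussianReal hlaw κ
    have hvar : Var[Dd φ k; P] = σ2 := by
      rw [← covariance_self (hDm φ k).aemeasurable]
      exact hcovDD φ k
    have hσ0 : 0 ≤ σ2 := by
      rw [← hvar]; exact variance_nonneg _ _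
    rw [hmean0, hvar] at hmg
    have hpos : 0 < mgf (Dd φ k) P κ := by
      rw [hmg]; exact Real.exp_pos _
    have hintg : Integrable (fun ω => Real.exp (κ * Dd φ k ω)) P := mgf_pos_iff.mp hpos
    rw [← ofReal_integral_eq_lintegral_ofReal hintg
      (Filter.Eventually.of_forall fun ω => (Real.exp_pos _).le)]
    refine ENNReal.ofReal_le_ofReal ?_
    have h1 : ∫ ω, Real.exp (κ * Dd φ k ω) ∂P = mgf (Dd φ k) P κ := rfl
    rw [h1, hmg]
    refine Real.exp_le_exp.mpr (le_of_eq ?_)
    rw [Real.coe_toNNReal _ hσ0]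
    ring
  have hσ0 : 0 ≤ σ2 := by
    have h1 : Var[Dd 0 0; P] = σ2 := by
      rw [← covariance_self (hDm 0 0).aemeasurable]
      exact hcovDD 0 0
    rw [← h1]; exact variance_nonneg _ _
  have hfin := tail_fin hX hYm (fun k => hint _ (hXs k)) (fun k => hint _ (hYs k)) hind σ2 hmgf hσ0
    θ lam s hθ0 hlam
  have hrotθ : ∀ ω, rot (fun k => X k ω) (fun k => Y k ω) θ = fun k => X' k ω := by
    intro ω
    funext k
    show Real.cos θ * X k ω + Real.sin θ * (S⁻¹ * (X' k ω - c * X k ω)) = X' k ω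
    rw [hcos, ← hS, ← mul_assoc, mul_inv_cancel₀ hsin.ne']
    ring
  simp_rw [hrotθ] at hfin
  exact hfin

end

end Pool.Agent.V11320.MaxGauss
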