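import Mathlib
import Pool.Agent.V11320.MaxGauss2

set_option autoImplicit false
open MeasureTheory ProbabilityTheory
open scoped ENNReal NNReal BigOperators Topology

namespace Pool.Agent.V11320.MaxGauss

noncomputable section

/-- A dynamical Brownian environment: `B i t x` is the value at place `x` and time `t` of
line `i`. -/
structure IsDynamicalBrownian {Ω : Type} [MeasurableSpace Ω] (P : Measure Ω)
    (B : ℕ → ℝ≥0 → ℝ≥0 → Ω → ℝ) : Prop where
  meas : ∀ i t x, Measurable (B i t x)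
  gauss : IsGaussianProcess (fun q : ℕ × ℝ≥0 × ℝ≥0 => B q.1 q.2.1 q.2.2) P
  mean : ∀ i t x, ∫ ω, B i t x ω ∂P = 0
  cov : ∀ i j s t x y, ∫ ω, B i s x ω * B j t y ω ∂P
    = if i = j then Real.exp (-|(s : ℝ) - (t : ℝ)|) * min (x : ℝ) (y : ℝ) else 0
  cont : ∀ i t, ∀ᵐ ω ∂P, Continuous fun x => B i t x ω

/-- the admissible jump places `0 = z 0 ≤ z 1 ≤ ... ≤ z (n+1) = n` -/
def Pth (n : ℕ) : Type :=
  {w : Fin (n + 2) → ℝ≥0 // Monotone w ∧ w 0 = 0 ∧ w (Fin.last (n + 1)) = n}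

/-- the weight of a path -/
def wt {Ω : Type} (B : ℕ → ℝ≥0 → ℝ≥0 → Ω → ℝ) (n : ℕ) (t : ℝ≥0) (w : Fin (n + 2) → ℝ≥0)
    (ω : Ω) : ℝ :=
  ∑ i : Fin (n + 1), (B i t (w i.succ) ω - B i t (w i.castSucc) ω)

/-- the last passage time at time `t` -/
def lpt {Ω : Type} (B : ℕ → ℝ≥0 → ℝ≥0 → Ω → ℝ) (n : ℕ) (t : ℝ≥0) (ω : Ω) : ℝ :=
  ⨆ w : Pth n, wt B n t w.1 ω

instance (n : ℕ) : TopologicalSpace (Pth n) := by
  unfold Pth; infer_instance

theorem pth_closed (n : ℕ) : IsClosed {w : Fin (n + 2) → ℝ≥0 | Monotone w ∧ w 0 = 0 ∧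
    w (Fin.last (n + 1)) = n} := by
  have h1 : IsClosed {w : Fin (n + 2) → ℝ≥0 | Monotone w} := by
    have : {w : Fin (n + 2) → ℝ≥0 | Monotone w} = ⋂ i, ⋂ j, ⋂ (_ : i ≤ j),
        {w : Fin (n + 2) → ℝ≥0 | w i ≤ w j} := by
      ext w
      simp only [Set.mem_ofPred_eq, Set.mem_iInter, Monotone]
    rw [this]
    exact isClosed_iInter fun i => isClosed_iInter fun j => isClosed_iInter fun _ =>
      isClosed_le (continuous_apply i) (continuous_apply j)
  have h2 : IsClosed {w : Fin (n + 2) → ℝ≥0 | w 0 = 0} :=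
    isClosed_eq (continuous_apply 0) continuous_const
  have h3 : IsClosed {w : Fin (n + 2) → ℝ≥0 | w (Fin.last (n + 1)) = n} :=
    isClosed_eq (continuous_apply _) continuous_const
  exact h1.inter (h2.inter h3)

theorem pth_compact (n : ℕ) : IsCompact {w : Fin (n + 2) → ℝ≥0 | Monotone w ∧ w 0 = 0 ∧
    w (Fin.last (n + 1)) = n} := by
  have h1 : IsCompact (Set.pi Set.univ fun _ : Fin (n + 2) => Set.Icc (0 : ℝ≥0) n) :=
    isCompact_univ_pi fun _ => isCompact_Icc
  refine h1.of_isClosed_subset (pth_closed n) ?_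
  rintro w ⟨hm, h0, hl⟩
  intro i _
  refine ⟨bot_le, ?_⟩
  rw [← hl]
  exact hm (Fin.le_last i)

instance (n : ℕ) : CompactSpace (Pth n) := isCompact_iff_compactSpace.mp (pth_compact n)

instance (n : ℕ) : SecondCountableTopology (Pth n) := by
  unfold Pth; infer_instance

instance (n : ℕ) : Nonempty (Pth n) := by
  refine ⟨⟨fun i => if i = 0 then 0 else n, ?_, by simp, ?_⟩⟩
  · intro i j hij
    by_cases hi : i = 0
    · simp [hi]
    · have hj : j ≠ 0 := by
        rintro rfl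
        exact hi (le_antisymm hij (Fin.zero_le _))
      simp [hi, hj]
  · have : Fin.last (n + 1) ≠ 0 := by
      intro h
      have := congrArg Fin.val h
      simp at this
    simp [this]

variable {Ω : Type} [MeasurableSpace Ω] {P : Measure Ω} {B : ℕ → ℝ≥0 → ℝ≥0 → Ω → ℝ}

theorem wt_continuous {n : ℕ} {t : ℝ≥0} {ω : Ω} (h : ∀ i : Fin (n + 1), Continuous fun x => B i t x ω) :
    Continuous fun w : Pth n => wt B n t w.1 ω := by
  unfold wt
  refine continuous_finsetSum _ fun i _ => ?_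
  have h1 : Continuous fun w : Pth n => w.1 i.succ := (continuous_apply _).comp continuous_subtype_val
  have h2 : Continuous fun w : Pth n => w.1 i.castSucc :=
    (continuous_apply _).comp continuous_subtype_val
  exact ((h i).comp h1).sub ((h i).comp h2)

theorem cont_all (hB : IsDynamicalBrownian P B) (n : ℕ) (t : ℝ≥0) :
    ∀ᵐ ω ∂P, ∀ i : Fin (n + 1), Continuous fun x => B i t x ω :=
  ae_all_iff.mpr fun i => hB.cont i t

/-- the maximum over the first points of a dense sequence tends to the supremum -/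
theorem mx_tendsto {X : Type} [TopologicalSpace X] [CompactSpace X] [SecondCountableTopology X]
    [Nonempty X] (f : X → ℝ) (hf : Continuous f) :
    Filter.Tendsto (fun m : ℕ => mx fun k : Fin (m + 1) => f (TopologicalSpace.denseSeq X k))
      Filter.atTop (𝓝 (⨆ x, f x)) := by
  have hbdd : BddAbove (Set.range f) := (isCompact_range hf).bddAbove
  have hle : ∀ m : ℕ, (mx fun k : Fin (m + 1) => f (TopologicalSpace.denseSeq X k)) ≤ ⨆ x, f x := by
    intro m
    unfold mx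
    refine Finset.sup'_le _ _ fun k _ => ?_
    exact le_ciSup hbdd _
  rw [tendsto_order]
  constructor
  · intro a ha
    obtain ⟨x, hx⟩ := exists_lt_of_lt_ciSup ha
    have hopen : IsOpen {y | a < f y} := isOpen_lt continuous_const hf
    obtain ⟨k, hy⟩ := (TopologicalSpace.denseRange_denseSeq X).exists_mem_open hopen ⟨x, hx⟩
    filter_upwards [Filter.eventually_ge_atTop k] with m hm
    have h1 := le_mx (fun j : Fin (m + 1) => f (TopologicalSpace.denseSeq X j)) ⟨k, by omega⟩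
    exact lt_of_lt_of_le hy h1
  · intro a ha
    exact Filter.Eventually.of_forall fun m => lt_of_le_of_lt (hle m) ha

theorem meas_liminf (A : ℕ → Set Ω) (b : ℝ≥0∞) (h : ∀ m, P (A m) ≤ b) :
    P {ω | ∃ M, ∀ m, M ≤ m → ω ∈ A m} ≤ b := by
  have h1 : {ω | ∃ M, ∀ m, M ≤ m → ω ∈ A m} = ⋃ M, {ω | ∀ m, M ≤ m → ω ∈ A m} := by
    ext ω
    simp
  have hmono : Monotone fun M : ℕ => {ω | ∀ m, M ≤ m → ω ∈ A m} := by
    intro M M' hMM ω hω m hm
    exact hω m (hMM.trans hm)
  rw [h1, hmono.measure_iUnion]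
  refine iSup_le fun M => (measure_mono ?_).trans (h M)
  intro ω hω
  exact hω M le_rfl

/-- the weight is in the span of the field -/
theorem wt_span (n : ℕ) (t : ℝ≥0) (w : Fin (n + 2) → ℝ≥0) :
    wt B n t w ∈ Submodule.span ℝ (Set.range fun q : ℕ × ℝ≥0 × ℝ≥0 => B q.1 q.2.1 q.2.2) := by
  have h1 : wt B n t w = ∑ i : Fin (n + 1), (B i t (w i.succ) - B i t (w i.castSucc)) := by
    funext ω
    simp [wt]
  rw [h1]
  refine Submodule.sum_mem _ fun i _ => Submodule.sub_mem _ ?_ ?_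
  · exact Submodule.subset_span ⟨(↑i, t, w i.succ), rfl⟩
  · exact Submodule.subset_span ⟨(↑i, t, w i.castSucc), rfl⟩

theorem wt_meas (hB : IsDynamicalBrownian P B) (n : ℕ) (t : ℝ≥0) (w : Fin (n + 2) → ℝ≥0) :
    Measurable (wt B n t w) := by
  unfold wt
  exact Finset.measurable_fun_sum _ fun i _ => (hB.meas _ _ _).sub (hB.meas _ _ _)

theorem memLp (hB : IsDynamicalBrownian P B) (i : ℕ) (t x : ℝ≥0) : MemLp (B i t x) 2 P :=
  (hB.gauss.hasGaussianLaw_eval (i, t, x)).memLp_two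

/-- the covariance of increments -/
def kk (n : ℕ) (w v : Fin (n + 2) → ℝ≥0) : ℝ :=
  ∑ i : Fin (n + 1), (min (w i.succ : ℝ) (v i.succ) - min (w i.succ : ℝ) (v i.castSucc)
    - min (w i.castSucc : ℝ) (v i.succ) + min (w i.castSucc : ℝ) (v i.castSucc))

theorem kk_diag {n : ℕ} (w : Pth n) : kk n w.1 w.1 = n := by
  obtain ⟨w, hm, h0, hl⟩ := w
  have h1 : ∀ i : Fin (n + 1), (min (w i.succ : ℝ) (w i.succ) - min (w i.succ : ℝ) (w i.castSucc)
    - min (w i.castSucc : ℝ) (w i.succ) + min (w i.castSucc : ℝ) (w i.castSucc))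
      = (w i.succ : ℝ) - w i.castSucc := by
    intro i
    have hle : (w i.castSucc : ℝ) ≤ w i.succ := by
      exact_mod_cast hm (Fin.castSucc_lt_succ).le
    rw [min_self, min_self, min_eq_left hle, min_eq_right hle]
    ring
  show kk n w w = n
  unfold kk
  rw [Finset.sum_congr rfl fun i _ => h1 i]
  have h2 : ∑ i : Fin (n + 1), ((w i.succ : ℝ) - w i.castSucc)
      = (w (Fin.last (n + 1)) : ℝ) - w 0 := by
    rw [Finset.sum_sub_distrib]
    have e1 := Fin.sum_univ_succ (fun i : Fin (n + 2) => (w i : ℝ))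
    have e2 := Fin.sum_univ_castSucc (fun i : Fin (n + 2) => (w i : ℝ))
    linarith
  rw [h2, h0, hl]
  simp

theorem covB (hB : IsDynamicalBrownian P B) (i j : ℕ) (s t x y : ℝ≥0) [IsProbabilityMeasure P] :
    cov[B i s x, B j t y; P] = if i = j then Real.exp (-|(s : ℝ) - (t : ℝ)|) *
      min (x : ℝ) (y : ℝ) else 0 := by
  rw [covariance_eq_sub (memLp hB _ _ _) (memLp hB _ _ _), hB.mean, hB.mean]
  rw [← hB.cov i j s t x y]
  simp [Pi.mul_apply]

theorem cov_wt (hB : IsDynamicalBrownian P B) [IsProbabilityMeasure P] (n : ℕ) (s t : ℝ≥0)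
    (w v : Fin (n + 2) → ℝ≥0) :
    cov[wt B n s w, wt B n t v; P] = Real.exp (-|(s : ℝ) - (t : ℝ)|) * kk n w v := by
  have h1 : wt B n s w = ∑ i : Fin (n + 1), (B i s (w i.succ) - B i s (w i.castSucc)) := by
    funext ω
    simp [wt]
  have h2 : wt B n t v = ∑ i : Fin (n + 1), (B i t (v i.succ) - B i t (v i.castSucc)) := by
    funext ω
    simp [wt]
  rw [h1, h2]
  rw [covariance_sum_sum (fun i => (memLp hB _ _ _).sub (memLp hB _ _ _))
    (fun j => (memLp hB _ _ _).sub (memLp hB _ _ _))]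
  unfold kk
  rw [Finset.mul_sum]
  refine Finset.sum_congr rfl fun i _ => ?_
  rw [Finset.sum_eq_single i]
  · rw [covariance_sub_left (memLp hB _ _ _) (memLp hB _ _ _) ((memLp hB _ _ _).sub (memLp hB _ _ _)),
      covariance_sub_right (memLp hB _ _ _) (memLp hB _ _ _) (memLp hB _ _ _),
      covariance_sub_right (memLp hB _ _ _) (memLp hB _ _ _) (memLp hB _ _ _)]
    simp only [covB hB, if_true]
    ring
  · intro j _ hj
    have hij : (i : ℕ) ≠ (j : ℕ) := fun h => hj (Fin.ext h.symm)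
    rw [covariance_sub_left (memLp hB _ _ _) (memLp hB _ _ _) ((memLp hB _ _ _).sub (memLp hB _ _ _)),
      covariance_sub_right (memLp hB _ _ _) (memLp hB _ _ _) (memLp hB _ _ _),
      covariance_sub_right (memLp hB _ _ _) (memLp hB _ _ _) (memLp hB _ _ _)]
    simp only [covB hB, hij, if_false]
    ring
  · intro h
    exact absurd (Finset.mem_univ _) h

theorem mean_wt (hB : IsDynamicalBrownian P B) [IsProbabilityMeasure P] (n : ℕ) (t : ℝ≥0)
    (w : Fin (n + 2) → ℝ≥0) : ∫ ω, wt B n t w ω ∂P = 0 := by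
  unfold wt
  rw [integral_finsetSum]
  · refine Finset.sum_eq_zero fun i _ => ?_
    rw [integral_sub ((memLp hB _ _ _).integrable (by norm_num))
      ((memLp hB _ _ _).integrable (by norm_num)), hB.mean, hB.mean, sub_zero]
  · intro i _
    exact ((memLp hB _ _ _).integrable (by norm_num)).sub ((memLp hB _ _ _).integrable (by norm_num))

/-- one sided tail bound -/
theorem lpt_tail (hB : IsDynamicalBrownian P B) [IsProbabilityMeasure P] (n : ℕ) (s t : ℝ≥0)
    (hst : s ≠ t) (lam a : ℝ) (hlam : 0 ≤ lam) :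
    P {ω | a ≤ lpt B n t ω - lpt B n s ω} ≤ ENNReal.ofReal (Real.exp (-(lam * a)
      + lam ^ 2 * (Real.arccos (Real.exp (-|(s : ℝ) - (t : ℝ)|))) ^ 2 * n / 2)) := by
  set c : ℝ := Real.exp (-|(s : ℝ) - (t : ℝ)|) with hc
  have hc0 : 0 ≤ c := (Real.exp_pos _).le
  have hc1 : c < 1 := by
    rw [hc, Real.exp_lt_one_iff]
    have : (s : ℝ) - t ≠ 0 := sub_ne_zero.mpr (by exact_mod_cast hst)
    have := abs_pos.mpr this
    linarith
  set D : ℕ → Pth n := TopologicalSpace.denseSeq (Pth n) with hD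
  have hfin : ∀ (m : ℕ) (b : ℝ), P {ω | b ≤ mx (fun k : Fin (m + 1) => wt B n t (D k).1 ω)
      - mx (fun k : Fin (m + 1) => wt B n s (D k).1 ω)}
      ≤ ENNReal.ofReal (Real.exp (-(lam * b) + lam ^ 2 * (Real.arccos c) ^ 2 * n / 2)) := by
    intro m b
    refine gauss_tail hB.gauss (X := fun k => wt B n s (D k).1) (X' := fun k => wt B n t (D k).1)
      (fun k => wt_meas hB _ _ _) (fun k => wt_meas hB _ _ _) (fun k => wt_span _ _ _)
      (fun k => wt_span _ _ _) (fun k => mean_wt hB _ _ _) (fun k => mean_wt hB _ _ _)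
      (fun k l => kk n (D k).1 (D l).1) c n hc0 hc1 ?_ ?_ ?_ ?_ ?_ lam b hlam
    · intro k l
      rw [cov_wt hB]
      simp
    · intro k l
      rw [cov_wt hB]
      simp
    · intro k l
      rw [cov_wt hB]
    · intro k l
      rw [cov_wt hB, hc, abs_sub_comm]
    · intro k
      exact kk_diag _
  -- pass to the limit
  have hlim : ∀ b : ℝ, b < a → P {ω | a ≤ lpt B n t ω - lpt B n s ω}
      ≤ ENNReal.ofReal (Real.exp (-(lam * b) + lam ^ 2 * (Real.arccos c) ^ 2 * n / 2)) := by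
    intro b hb
    refine le_trans ?_ (meas_liminf (fun m => {ω | b ≤ mx (fun k : Fin (m + 1) => wt B n t (D k).1 ω)
      - mx (fun k : Fin (m + 1) => wt B n s (D k).1 ω)}) _ fun m => hfin m b)
    refine measure_mono_ae ?_
    filter_upwards [cont_all hB n s, cont_all hB n t] with ω h1 h2 hω
    have t1 := mx_tendsto _ (wt_continuous h1)
    have t2 := mx_tendsto _ (wt_continuous h2)
    have t3 := t2.sub t1
    have hlt : b < (⨆ w : Pth n, wt B n t w.1 ω) - ⨆ w : Pth n, wt B n s w.1 ω :=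
      lt_of_lt_of_le hb hω
    obtain ⟨M, hM⟩ := Filter.eventually_atTop.mp (t3.eventually (lt_mem_nhds hlt))
    exact ⟨M, fun m hm => (hM m hm).le⟩
  have htend : Filter.Tendsto (fun b : ℝ => ENNReal.ofReal (Real.exp (-(lam * b)
      + lam ^ 2 * (Real.arccos c) ^ 2 * n / 2))) (𝓝[<] a)
      (𝓝 (ENNReal.ofReal (Real.exp (-(lam * a) + lam ^ 2 * (Real.arccos c) ^ 2 * n / 2)))) := by
    refine Filter.Tendsto.mono_left ?_ nhdsWithin_le_nhds
    refine Continuous.tendsto ?_ a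
    refine ENNReal.continuous_ofReal.comp ?_
    fun_prop
  refine ge_of_tendsto htend ?_
  filter_upwards [self_mem_nhdsWithin] with b hb
  exact hlim b hb

theorem arccos_sq {t : ℝ} (ht : 0 ≤ t) : (Real.arccos (Real.exp (-t))) ^ 2 ≤ Real.pi ^ 2 / 2 * t := by
  set θ := Real.arccos (Real.exp (-t)) with hθ
  have h0 : 0 ≤ θ := Real.arccos_nonneg _
  have h1 : θ ≤ Real.pi := Real.arccos_le_pi _
  have hcos : Real.cos θ = Real.exp (-t) := Real.cos_arccos (by have := Real.exp_pos (-t); linarith)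
    (Real.exp_le_one_iff.mpr (by linarith))
  have h2 := Real.cos_le_one_sub_mul_cos_sq (abs_le.mpr ⟨by linarith [Real.pi_pos], h1⟩)
  rw [hcos] at h2
  have h3 : 1 - t ≤ Real.exp (-t) := by
    have := Real.add_one_le_exp (-t)
    linarith
  have h4 : 2 / Real.pi ^ 2 * θ ^ 2 ≤ t := by linarith
  have hpi : 0 < Real.pi ^ 2 := by positivity
  have h5 : θ ^ 2 = Real.pi ^ 2 / 2 * (2 / Real.pi ^ 2 * θ ^ 2) := by
    field_simp
  rw [h5]
  exact mul_le_mul_of_nonneg_left h4 (by positivity)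

/-- one sided Gaussian tail -/
theorem lpt_gauss (hB : IsDynamicalBrownian P B) [IsProbabilityMeasure P] (n : ℕ) (hn : 1 ≤ n)
    (s t : ℝ≥0) (u : ℝ) (hu : 0 < u) (hst : |(s : ℝ) - (t : ℝ)| = u) (α : ℝ) (hα : 0 < α) :
    P {ω | α * Real.sqrt (n * u) ≤ lpt B n t ω - lpt B n s ω}
      ≤ ENNReal.ofReal (Real.exp (-(α ^ 2 / Real.pi ^ 2))) := by
  have hne : s ≠ t := by
    rintro rfl
    simp at hst
    linarith
  set θ := Real.arccos (Real.exp (-u)) with hθ
  have hθ2 := arccos_sq hu.le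
  rw [← hθ] at hθ2
  have hθ0 : 0 < θ := by
    rw [hθ]
    apply Real.arccos_pos.mpr
    rw [Real.exp_lt_one_iff]
    linarith
  have hn0 : (0 : ℝ) < n := by exact_mod_cast hn
  set a := α * Real.sqrt (n * u) with ha
  have ha0 : 0 ≤ a := by positivity
  have hlam : 0 ≤ a / (θ ^ 2 * n) := by positivity
  refine (lpt_tail hB n s t hne (a / (θ ^ 2 * n)) a hlam).trans (ENNReal.ofReal_le_ofReal
    (Real.exp_le_exp.mpr ?_))
  rw [hst, ← hθ]
  have e1 : -(a / (θ ^ 2 * n) * a) + (a / (θ ^ 2 * n)) ^ 2 * θ ^ 2 * n / 2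
      = -(a ^ 2 / (2 * θ ^ 2 * n)) := by
    field_simp
    ring
  rw [e1]
  have e2 : a ^ 2 = α ^ 2 * (n * u) := by
    rw [ha, mul_pow, Real.sq_sqrt (by positivity)]
  rw [e2]
  have e3 : α ^ 2 * (n * u) / (2 * θ ^ 2 * n) = α ^ 2 * (u / (2 * θ ^ 2)) := by
    field_simp
  rw [e3]
  have e4 : 1 / Real.pi ^ 2 ≤ u / (2 * θ ^ 2) := by
    rw [div_le_div_iff₀ (by positivity) (by positivity)]
    nlinarith
  have e5 : α ^ 2 / Real.pi ^ 2 = α ^ 2 * (1 / Real.pi ^ 2) := by ring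
  rw [e5]
  have := mul_le_mul_of_nonneg_left e4 (sq_nonneg α)
  linarith

/-- two sided Gaussian tail -/
theorem lpt_two (hB : IsDynamicalBrownian P B) [IsProbabilityMeasure P] (n : ℕ) (hn : 1 ≤ n)
    (s t : ℝ≥0) (u : ℝ) (hu : 0 < u) (hst : |(s : ℝ) - (t : ℝ)| = u) (α : ℝ) (hα : 0 < α) :
    P {ω | α * Real.sqrt (n * u) ≤ |lpt B n t ω - lpt B n s ω|}
      ≤ ENNReal.ofReal (2 * Real.exp (-(α ^ 2 / Real.pi ^ 2))) := by
  have hsub : {ω | α * Real.sqrt (n * u) ≤ |lpt B n t ω - lpt B n s ω|}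
      ⊆ {ω | α * Real.sqrt (n * u) ≤ lpt B n t ω - lpt B n s ω}
        ∪ {ω | α * Real.sqrt (n * u) ≤ lpt B n s ω - lpt B n t ω} := by
    intro ω hω
    have hω' : α * Real.sqrt (n * u) ≤ |lpt B n t ω - lpt B n s ω| := hω
    rcases le_abs.mp hω' with h | h
    · exact Or.inl h
    · right
      show α * Real.sqrt (n * u) ≤ lpt B n s ω - lpt B n t ω
      linarith
  refine (measure_mono hsub).trans ((measure_union_le _ _).trans ?_)
  have h1 := lpt_gauss hB n hn s t u hu hst α hα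
  have h2 := lpt_gauss hB n hn t s u hu (by rw [abs_sub_comm]; exact hst) α hα
  refine (add_le_add h1 h2).trans ?_
  rw [← ENNReal.ofReal_add (Real.exp_pos _).le (Real.exp_pos _).le]
  exact ENNReal.ofReal_le_ofReal (by linarith)

/-- super-polynomial decay from the Gaussian bound -/
theorem exp_poly (k : ℝ) (hk : 0 < k) : ∃ C : ℝ, 1 ≤ C ∧ ∀ α : ℝ, 1 ≤ α →
    2 * Real.exp (-(α ^ 2 / Real.pi ^ 2)) ≤ C * α ^ (-k) := by
  set m := ⌈k⌉₊ with hm
  have hkm : k ≤ m := Nat.le_ceil k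
  refine ⟨max 1 (2 * (m.factorial * (Real.pi ^ 2) ^ m)), le_max_left _ _, fun α hα => ?_⟩
  have hα0 : 0 < α := by linarith
  set x := α ^ 2 / Real.pi ^ 2 with hx
  have hx0 : 0 < x := by positivity
  have h1 : x ^ m / m.factorial ≤ Real.exp x := Real.pow_div_factorial_le_exp x hx0.le m
  have h2 : Real.exp (-x) ≤ m.factorial / x ^ m := by
    rw [Real.exp_neg, inv_le_comm₀ (Real.exp_pos _) (by positivity), inv_div]
    exact h1
  have h3 : (m.factorial : ℝ) / x ^ m = m.factorial * (Real.pi ^ 2) ^ m * (α ^ (2 * m))⁻¹ := by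
    rw [hx, div_pow, pow_mul]
    field_simp
  have h4 : (α ^ (2 * m))⁻¹ ≤ α ^ (-k) := by
    rw [Real.rpow_neg hα0.le, inv_le_inv₀ (by positivity) (by positivity)]
    calc α ^ k ≤ α ^ ((2 * m : ℕ) : ℝ) := by
          apply Real.rpow_le_rpow_of_exponent_le hα
          push_cast
          linarith [Nat.cast_nonneg (α := ℝ) m]
      _ = α ^ (2 * m) := Real.rpow_natCast _ _
  have h5 : 0 ≤ α ^ (-k) := by positivity
  calc 2 * Real.exp (-x) ≤ 2 * (m.factorial / x ^ m) := by linarith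
    _ = 2 * (m.factorial * (Real.pi ^ 2) ^ m) * (α ^ (2 * m))⁻¹ := by rw [h3]; ring
    _ ≤ 2 * (m.factorial * (Real.pi ^ 2) ^ m) * α ^ (-k) :=
        mul_le_mul_of_nonneg_left h4 (by positivity)
    _ ≤ max 1 (2 * (m.factorial * (Real.pi ^ 2) ^ m)) * α ^ (-k) :=
        mul_le_mul_of_nonneg_right (le_max_right _ _) h5

end

end Pool.Agent.V11320.MaxGauss
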