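import Mathlib

set_option autoImplicit false
open scoped ENNReal NNReal BigOperators

namespace Pool.Agent.V11320.StableDet

/-! Deterministic facts on stable multi-matchings of a discrete set. -/

variable {P : Type} (ds : P → P → ℝ) (D : P → ℕ)

/-- the number of neighbours within distance `r`, in `ℕ∞` -/
noncomputable def near (G : SimpleGraph P) (x : P) (r : ℝ) : ℕ∞ :=
  {w | G.Adj x w ∧ ds x w ≤ r}.encard

/-- finite greedy matching -/
theorem finite_exists (hs : ∀ x y, ds x y = ds y x) (S : Finset (P × P)) :
    ∃ G : SimpleGraph P, (∀ x y, G.Adj x y → (x, y) ∈ S ∨ (y, x) ∈ S) ∧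
      (∀ x, (G.neighborSet x).encard ≤ D x) ∧
      (∀ q ∈ S, q.1 ≠ q.2 → ¬ G.Adj q.1 q.2 →
        (D q.1 : ℕ∞) ≤ near ds G q.1 (ds q.1 q.2) ∨ (D q.2 : ℕ∞) ≤ near ds G q.2 (ds q.1 q.2)) := by
  classical
  refine Finset.induction_on_max_value (fun q : P × P => ds q.1 q.2)
    (motive := fun S => ∃ G : SimpleGraph P, (∀ x y, G.Adj x y → (x, y) ∈ S ∨ (y, x) ∈ S) ∧
      (∀ x, (G.neighborSet x).encard ≤ D x) ∧
      (∀ q ∈ S, q.1 ≠ q.2 → ¬ G.Adj q.1 q.2 →
        (D q.1 : ℕ∞) ≤ near ds G q.1 (ds q.1 q.2) ∨ (D q.2 : ℕ∞) ≤ near ds G q.2 (ds q.1 q.2)))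
    S ?_ ?_
  · refine ⟨⊥, ?_, ?_, ?_⟩
    · intro x y h
      exact absurd h (by simp)
    · intro x
      simp [SimpleGraph.neighborSet]
    · intro q hq
      simp at hq
  · rintro ⟨a, b⟩ S _ hmax ⟨G, hG1, hG2, hG3⟩
    by_cases hab : a = b
    · subst hab
      refine ⟨G, ?_, hG2, ?_⟩
      · intro x y h
        rcases hG1 x y h with h | h
        · exact Or.inl (Finset.mem_insert_of_mem h)
        · exact Or.inr (Finset.mem_insert_of_mem h)
      · intro q hq hne hadj
        rw [Finset.mem_insert] at hq
        rcases hq with rfl | hq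
        · exact absurd rfl hne
        · exact hG3 q hq hne hadj
    · by_cases hcap : (G.neighborSet a).encard < D a ∧ (G.neighborSet b).encard < D b
      · -- add the edge
        refine ⟨G ⊔ SimpleGraph.edge a b, ?_, ?_, ?_⟩
        · intro x y h
          rw [SimpleGraph.sup_adj, SimpleGraph.edge_adj] at h
          rcases h with h | ⟨⟨rfl, rfl⟩ | ⟨rfl, rfl⟩, _⟩
          · rcases hG1 x y h with h | h
            · exact Or.inl (Finset.mem_insert_of_mem h)
            · exact Or.inr (Finset.mem_insert_of_mem h)
          · exact Or.inl (Finset.mem_insert_self _ _)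
          · exact Or.inr (Finset.mem_insert_self _ _)
        · intro x
          by_cases hxa : x = a
          · subst hxa
            have hsub : (G ⊔ SimpleGraph.edge x b).neighborSet x ⊆ insert b (G.neighborSet x) := by
              intro w hw
              rw [SimpleGraph.mem_neighborSet, SimpleGraph.sup_adj, SimpleGraph.edge_adj] at hw
              rcases hw with hw | ⟨⟨_, rfl⟩ | ⟨rfl, rfl⟩, hne⟩
              · exact Set.mem_insert_of_mem _ hw
              · exact Set.mem_insert _ _
              · exact absurd rfl hne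
            refine (Set.encard_le_encard hsub).trans ((Set.encard_insert_le _ _).trans ?_)
            exact Order.add_one_le_of_lt hcap.1
          · by_cases hxb : x = b
            · subst hxb
              have hsub : (G ⊔ SimpleGraph.edge a x).neighborSet x ⊆ insert a (G.neighborSet x) := by
                intro w hw
                rw [SimpleGraph.mem_neighborSet, SimpleGraph.sup_adj, SimpleGraph.edge_adj] at hw
                rcases hw with hw | ⟨⟨rfl, rfl⟩ | ⟨_, rfl⟩, hne⟩
                · exact Set.mem_insert_of_mem _ hw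
                · exact absurd rfl hne
                · exact Set.mem_insert _ _
              refine (Set.encard_le_encard hsub).trans ((Set.encard_insert_le _ _).trans ?_)
              exact Order.add_one_le_of_lt hcap.2
            · have hsub : (G ⊔ SimpleGraph.edge a b).neighborSet x ⊆ G.neighborSet x := by
                intro w hw
                rw [SimpleGraph.mem_neighborSet, SimpleGraph.sup_adj, SimpleGraph.edge_adj] at hw
                rcases hw with hw | ⟨⟨rfl, _⟩ | ⟨rfl, _⟩, _⟩
                · exact hw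
                · exact absurd rfl hxa
                · exact absurd rfl hxb
              exact (Set.encard_le_encard hsub).trans (hG2 x)
        · have hmono : ∀ x r, near ds G x r ≤ near ds (G ⊔ SimpleGraph.edge a b) x r := by
            intro x r
            refine Set.encard_le_encard ?_
            rintro w ⟨h1, h2⟩
            exact ⟨Or.inl h1, h2⟩
          intro q hq hne hadj
          rw [Finset.mem_insert] at hq
          rcases hq with rfl | hq
          · exfalso
            apply hadj
            rw [SimpleGraph.sup_adj, SimpleGraph.edge_adj]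
            exact Or.inr ⟨Or.inl ⟨rfl, rfl⟩, hne⟩
          · have h1 : ¬ G.Adj q.1 q.2 := fun h => hadj (Or.inl h)
            rcases hG3 q hq hne h1 with h | h
            · exact Or.inl (h.trans (hmono _ _))
            · exact Or.inr (h.trans (hmono _ _))
      · refine ⟨G, ?_, hG2, ?_⟩
        · intro x y h
          rcases hG1 x y h with h | h
          · exact Or.inl (Finset.mem_insert_of_mem h)
          · exact Or.inr (Finset.mem_insert_of_mem h)
        · intro q hq hne hadj
          rw [Finset.mem_insert] at hq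
          rcases hq with rfl | hq
          · rw [not_and_or, not_lt, not_lt] at hcap
            have hall : ∀ x w, G.Adj x w → ds x w ≤ ds a b := by
              intro x w h
              rcases hG1 x w h with h | h
              · exact hmax _ h
              · rw [hs]; exact hmax _ h
            have hnear : ∀ x, (G.neighborSet x).encard ≤ near ds G x (ds a b) := by
              intro x
              refine Set.encard_le_encard ?_
              intro w hw
              exact ⟨hw, hall x w hw⟩
            rcases hcap with h | h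
            · exact Or.inl (h.trans (hnear a))
            · exact Or.inr (h.trans (hnear b))
          · exact hG3 q hq hne hadj

/-- an unwilling vertex -/
def Sat (G : SimpleGraph P) (x : P) (r : ℝ) : Prop := (D x : ℕ∞) ≤ near ds G x r

/-- existence of a stable graph on a discrete set -/
theorem exists_stable (hs : ∀ x y, ds x y = ds y x) (hfin : ∀ x r, {w | ds x w ≤ r}.Finite) :
    ∃ G : SimpleGraph P, (∀ x, (G.neighborSet x).encard ≤ D x) ∧
      ∀ x y, x ≠ y → ¬ G.Adj x y → Sat ds D G x (ds x y) ∨ Sat ds D G y (ds x y) := by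
  classical
  choose GF h1 h2 h3 using fun F : Finset P => finite_exists ds D hs (F ×ˢ F)
  set U : Ultrafilter (Finset P) := Ultrafilter.of Filter.atTop with hU
  have hUle : (U : Filter (Finset P)) ≤ Filter.atTop := Ultrafilter.of_le _
  set G : SimpleGraph P :=
    { Adj := fun x y => ∀ᶠ F in (U : Filter (Finset P)), (GF F).Adj x y
      symm := ⟨fun x y h => h.mono fun F hF => hF.symm⟩
      loopless := ⟨fun x h => by
        obtain ⟨F, hF⟩ := h.exists
        exact hF.ne rfl⟩ } with hG
  have hGadj : ∀ x y, G.Adj x y ↔ ∀ᶠ F in (U : Filter (Finset P)), (GF F).Adj x y := fun _ _ => Iff.rfl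
  have hagree : ∀ (x : P) (A : Set P), A.Finite →
      ∀ᶠ F in (U : Filter (Finset P)), ∀ w ∈ A, (G.Adj x w ↔ (GF F).Adj x w) := by
    intro x A hA
    rw [Filter.eventually_all_finite hA]
    intro w _
    by_cases h : G.Adj x w
    · have h' := (hGadj x w).mp h
      exact h'.mono fun F hF => ⟨fun _ => hF, fun _ => h⟩
    · have h' : ¬ ∀ᶠ F in (U : Filter (Finset P)), (GF F).Adj x w := h
      rw [← Ultrafilter.eventually_not] at h'
      exact h'.mono fun F hF => ⟨fun hh => absurd hh h, fun hh => absurd hh hF⟩
  refine ⟨G, ?_, ?_⟩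
  · intro x
    by_contra hlt
    rw [not_le] at hlt
    have h4 : ((D x + 1 : ℕ) : ℕ∞) ≤ (G.neighborSet x).encard := by
      push_cast
      exact Order.add_one_le_of_lt hlt
    obtain ⟨t, ht, htc⟩ := Set.exists_subset_encard_eq h4
    have htf : t.Finite := Set.finite_of_encard_eq_coe htc
    obtain ⟨F, hF⟩ := (hagree x t htf).exists
    have h5 : t ⊆ (GF F).neighborSet x := fun w hw => (hF w hw).mp (ht hw)
    have h6 := (Set.encard_le_encard h5).trans (h2 F x)
    rw [htc] at h6
    have h7 : D x + 1 ≤ D x := by exact_mod_cast h6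
    omega
  · intro x y hne hadj
    have h4 : ¬ ∀ᶠ F in (U : Filter (Finset P)), (GF F).Adj x y := hadj
    rw [← Ultrafilter.eventually_not] at h4
    have h5 : ∀ᶠ F in (U : Filter (Finset P)), x ∈ F ∧ y ∈ F := by
      refine hUle ?_
      filter_upwards [Filter.eventually_ge_atTop ({x, y} : Finset P)] with F hF
      exact ⟨hF (by simp), hF (by simp)⟩
    have h6 : ∀ᶠ F in (U : Filter (Finset P)),
        (D x : ℕ∞) ≤ near ds (GF F) x (ds x y) ∨ (D y : ℕ∞) ≤ near ds (GF F) y (ds x y) := by
      filter_upwards [h4, h5] with F hF1 hF2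
      exact h3 F (x, y) (Finset.mem_product.mpr hF2) hne hF1
    have hkey : ∀ z, (∀ᶠ F in (U : Filter (Finset P)), (D z : ℕ∞) ≤ near ds (GF F) z (ds x y)) →
        Sat ds D G z (ds x y) := by
      intro z hz
      obtain ⟨F, hF1, hF2⟩ := (hz.and (hagree z _ (hfin z (ds x y)))).exists
      refine hF1.trans (Set.encard_le_encard ?_)
      rintro w ⟨hw1, hw2⟩
      exact ⟨(hF2 w hw2).mpr hw1, hw2⟩
    rw [Ultrafilter.eventually_or] at h6
    rcases h6 with h | h
    · exact Or.inl (hkey x h)
    · exact Or.inr (hkey y h)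

/-- a sequence of records -/
structure Records (x : ℕ → P) (R : ℕ → ℝ) : Prop where
  mono : ∀ i, R i ≤ R (i + 1)
  step : ∀ᶠ i in Filter.atTop, ds (x i) (x (i + 1)) ≤ R i
  big : ∀ᶠ i in Filter.atTop, {w | ds (x i) w ≤ R i}.encard < D (x i)
  tend : Filter.Tendsto (fun i => D (x i)) Filter.atTop Filter.atTop
  far : ∀ y, ∀ᶠ i in Filter.atTop, ds (x i) y ≤ R i

variable {ds D}

theorem not_sat {G : SimpleGraph P} {z : P} {R r : ℝ} (h : {w | ds z w ≤ R}.encard < D z)
    (hr : r ≤ R) : ¬ Sat ds D G z r := by
  intro hsat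
  have : near ds G z r ≤ {w | ds z w ≤ R}.encard := by
    refine Set.encard_le_encard ?_
    rintro w ⟨_, hw⟩
    exact hw.trans hr
  exact absurd (lt_of_le_of_lt (hsat.trans this) h) (lt_irrefl _)

theorem infinite_component {x : ℕ → P} {R : ℕ → ℝ}
    (h : Records ds D x R) (G : SimpleGraph P)
    (hG : ∀ x y, x ≠ y → ¬ G.Adj x y → Sat ds D G x (ds x y) ∨ Sat ds D G y (ds x y)) :
    ∃ C : G.ConnectedComponent, C.supp.Infinite := by
  obtain ⟨i0, hi0⟩ := Filter.eventually_atTop.mp (h.step.and h.big)
  have hadj : ∀ i, i0 ≤ i → x i = x (i + 1) ∨ G.Adj (x i) (x (i + 1)) := by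
    intro i hi
    by_contra hcon
    rw [not_or] at hcon
    have h1 := hi0 i hi
    have h2 := hi0 (i + 1) (by omega)
    rcases hG _ _ hcon.1 hcon.2 with h3 | h3
    · exact not_sat h1.2 h1.1 h3
    · exact not_sat h2.2 (h1.1.trans (h.mono i)) h3
  have hreach : ∀ k, G.Reachable (x i0) (x (i0 + k)) := by
    intro k
    induction k with
    | zero => exact SimpleGraph.Reachable.refl _
    | succ k ih =>
      refine ih.trans ?_
      rcases hadj (i0 + k) (by omega) with h1 | h1
      · rw [show i0 + (k + 1) = i0 + k + 1 by ring, ← h1]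
      · exact h1.reachable
  refine ⟨G.connectedComponentMk (x i0), ?_⟩
  intro hfin
  -- degrees are bounded on a finite set
  obtain ⟨M, hM⟩ : ∃ M, ∀ y ∈ (G.connectedComponentMk (x i0)).supp, D y ≤ M := by
    have := (hfin.image D).bddAbove
    obtain ⟨M, hM⟩ := this
    exact ⟨M, fun y hy => hM ⟨y, hy, rfl⟩⟩
  obtain ⟨i1, hi1⟩ := Filter.eventually_atTop.mp (h.tend.eventually (Filter.eventually_gt_atTop M))
  have h1 := hi1 (i0 + i1) (by omega)
  have h2 := hM (x (i0 + i1)) (by
    rw [SimpleGraph.ConnectedComponent.mem_supp_iff, SimpleGraph.ConnectedComponent.eq]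
    exact (hreach i1).symm)
  omega

theorem degree_exact (hs : ∀ x y, ds x y = ds y x) {x : ℕ → P} {R : ℕ → ℝ}
    (h : Records ds D x R) (G : SimpleGraph P) (hdeg : ∀ x, (G.neighborSet x).encard ≤ D x)
    (hG : ∀ x y, x ≠ y → ¬ G.Adj x y → Sat ds D G x (ds x y) ∨ Sat ds D G y (ds x y)) (y : P) :
    (G.neighborSet y).encard = D y := by
  refine le_antisymm (hdeg y) ?_
  by_contra hlt
  rw [not_le] at hlt
  have hnot : ∀ r, ¬ Sat ds D G y r := by
    intro r hsat
    have : near ds G y r ≤ (G.neighborSet y).encard := by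
      refine Set.encard_le_encard ?_
      rintro w ⟨hw, _⟩
      exact hw
    exact absurd (lt_of_le_of_lt (hsat.trans this) hlt) (lt_irrefl _)
  have hne : ∀ᶠ i in Filter.atTop, D y < D (x i) := h.tend.eventually (Filter.eventually_gt_atTop _)
  have hadj : ∀ᶠ i in Filter.atTop, G.Adj y (x i) := by
    filter_upwards [h.big, h.far y, hne] with i h1 h2 h3
    by_contra hcon
    have h4 : y ≠ x i := by
      rintro h5
      rw [← h5] at h3
      exact lt_irrefl _ h3
    rcases hG _ _ h4 hcon with h5 | h5
    · exact hnot _ h5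
    · refine not_sat h1 ?_ h5
      rw [hs]
      exact h2
  have hfin : (G.neighborSet y).Finite := by
    refine Set.finite_of_encard_le_coe (hdeg y)
  obtain ⟨M, hM⟩ : ∃ M, ∀ w ∈ G.neighborSet y, D w ≤ M := by
    obtain ⟨M, hM⟩ := (hfin.image D).bddAbove
    exact ⟨M, fun w hw => hM ⟨w, hw, rfl⟩⟩
  obtain ⟨i, hi1, hi2⟩ := (hadj.and (h.tend.eventually (Filter.eventually_gt_atTop M))).exists
  have := hM (x i) hi1
  omega

end Pool.Agent.V11320.StableDet
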