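import Mathlib
import Pool.Agent.V11320.RayMark

set_option autoImplicit false
open scoped ENNReal NNReal BigOperators
open MeasureTheory ProbabilityTheory

namespace Pool.Agent.V11320.StableProb

open Pool.Agent.V11320.RayGen

noncomputable section

theorem poisson_mean : ∫⁻ n : ℕ, (n : ℝ≥0∞) ∂(poissonPMF 1).toMeasure = 1 := by
  rw [lintegral_countable']
  have h1 : ∀ n : ℕ, (n : ℝ≥0∞) * (poissonPMF 1).toMeasure {n} = (n : ℝ≥0∞) * poissonPMF 1 n := by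
    intro n
    rw [PMF.toMeasure_apply_singleton _ _ (MeasurableSet.singleton _)]
  simp_rw [h1]
  rw [tsum_eq_zero_add' ENNReal.summable]
  have h2 : ∀ n : ℕ, ((n + 1 : ℕ) : ℝ≥0∞) * poissonPMF 1 (n + 1) = poissonPMF 1 n := by
    intro n
    rw [← poissonPMFReal_ofReal_eq_poissonPMF, ← poissonPMFReal_ofReal_eq_poissonPMF,
      ← ENNReal.ofReal_natCast, ← ENNReal.ofReal_mul (by positivity)]
    congr 1
    unfold poissonPMFReal
    rw [Nat.factorial_succ]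
    push_cast
    have : ((n.factorial : ℕ) : ℝ) ≠ 0 := by positivity
    field_simp
    simp
  simp_rw [h2]
  rw [(poissonPMF 1).tsum_coe]
  simp

variable {X U : Type} [MeasurableSpace U]

/-- the law: Poisson numbers of mean one and independent marks -/
def law (X : Type) (ρU : Measure U) [IsProbabilityMeasure ρU] (μ : PMF ℕ) :
    Measure ((X → ℕ) × (X × ℕ → U × ℕ)) :=
  (Measure.infinitePi (fun _ : X => (poissonPMF 1).toMeasure)).prod
    (Measure.infinitePi (fun _ : X × ℕ => ρU.prod μ.toMeasure))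

instance (ρU : Measure U) [IsProbabilityMeasure ρU] (μ : PMF ℕ) :
    IsProbabilityMeasure (law X ρU μ) := by
  unfold law; infer_instance

/-- the tail of the degree law -/
def tl (μ : PMF ℕ) (t : ℕ) : ℝ := (μ.toMeasure {n | t ≤ n}).toReal

theorem tl_nonneg (μ : PMF ℕ) (t : ℕ) : 0 ≤ tl μ t := ENNReal.toReal_nonneg

theorem tl_le_one (μ : PMF ℕ) (t : ℕ) : tl μ t ≤ 1 := by
  unfold tl
  have h := prob_le_one (μ := μ.toMeasure) (s := {n | t ≤ n})
  have := ENNReal.toReal_mono (by simp) h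
  simpa using this

theorem no_hit [Countable X] (ρU : Measure U) [IsProbabilityMeasure ρU] (μ : PMF ℕ)
    (J : Finset X) (t : ℕ) :
    law X ρU μ {ω | ∀ z ∈ J, ∀ k < ω.1 z, ¬ t ≤ (ω.2 (z, k)).2}
      = ENNReal.ofReal (Real.exp (-(J.card * tl μ t))) := by
  have hA : MeasurableSet {m : U × ℕ | t ≤ m.2} :=
    measurable_snd (MeasurableSet.of_discrete (s := {n : ℕ | t ≤ n}))
  have h1 := avoidM (X := X) (poissonPMF 1).toMeasure (ρU.prod μ.toMeasure) J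
    (fun _ => {m : U × ℕ | t ≤ m.2}) (fun _ => hA)
  have h2 : (ρU.prod μ.toMeasure) {m : U × ℕ | t ≤ m.2} = ENNReal.ofReal (tl μ t) := by
    have h3 : {m : U × ℕ | t ≤ m.2} = Set.univ ×ˢ {n | t ≤ n} := by
      ext m; simp
    rw [h3, Measure.prod_prod, measure_univ, one_mul]
    unfold tl
    rw [ENNReal.ofReal_toReal (measure_ne_top _ _)]
  rw [h2, H592.poisson_gf 1 _ (tl_nonneg μ t) (tl_le_one μ t), Finset.prod_const,
    ← ENNReal.ofReal_pow (Real.exp_pos _).le, ← Real.exp_nat_mul] at h1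
  unfold law
  refine Eq.trans ?_ (h1.trans ?_)
  · rfl
  · congr 2
    push_cast
    ring

theorem count_le (ρU : Measure U) [IsProbabilityMeasure ρU] (μ : PMF ℕ)
    (K : Finset X) (t : ℕ) (ht : 1 ≤ t) :
    law X ρU μ {ω | t ≤ ∑ z ∈ K, ω.1 z} ≤ (K.card : ℝ≥0∞) / t := by
  have hm : ∀ z : X, Measurable fun ω : (X → ℕ) × (X × ℕ → U × ℕ) => ((ω.1 z : ℕ) : ℝ≥0∞) := by
    intro z
    have h1 : Measurable fun ω : (X → ℕ) × (X × ℕ → U × ℕ) => ω.1 z := by fun_prop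
    exact measurable_from_nat.comp h1
  have h1 : ∫⁻ ω, ∑ z ∈ K, ((ω.1 z : ℕ) : ℝ≥0∞) ∂(law X ρU μ) = K.card := by
    rw [lintegral_finset_sum _ (fun z _ => hm z)]
    have h2 : ∀ z ∈ K, ∫⁻ ω, ((ω.1 z : ℕ) : ℝ≥0∞) ∂(law X ρU μ) = 1 := by
      intro z _
      unfold law
      rw [lintegral_prod _ (hm z).aemeasurable]
      simp only [lintegral_const, measure_univ, mul_one]
      have h3 := lintegral_map (μ := Measure.infinitePi (fun _ : X => (poissonPMF 1).toMeasure))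
        (f := fun n : ℕ => (n : ℝ≥0∞))
        (g := fun N : X → ℕ => N z) measurable_from_nat (measurable_pi_apply z)
      rw [Measure.infinitePi_map_eval] at h3
      rw [← h3, poisson_mean]
    rw [Finset.sum_congr rfl h2]
    simp
  have ht0 : (t : ℝ≥0∞) ≠ 0 := by
    have : t ≠ 0 := by omega
    exact_mod_cast this
  have h2 := meas_ge_le_lintegral_div (μ := law X ρU μ)
    (f := fun ω => ∑ z ∈ K, ((ω.1 z : ℕ) : ℝ≥0∞))
    (Finset.measurable_sum _ (fun z _ => hm z)).aemeasurable ht0 (ENNReal.natCast_ne_top t)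
  rw [h1] at h2
  refine le_trans (measure_mono ?_) h2
  intro ω hω
  have hω' : t ≤ ∑ z ∈ K, ω.1 z := hω
  show (t : ℝ≥0∞) ≤ ∑ z ∈ K, ((ω.1 z : ℕ) : ℝ≥0∞)
  exact_mod_cast hω'

theorem ae_records [Countable X] (ρU : Measure U) [IsProbabilityMeasure ρU] (μ : PMF ℕ)
    (J K : ℕ → Finset X) (t : ℕ → ℕ) (ht : ∀ i, 1 ≤ t i)
    (h1 : ∑' i, ENNReal.ofReal (Real.exp (-((J i).card * tl μ (t i)))) ≠ ⊤)
    (h2 : ∑' i, ((K i).card : ℝ≥0∞) / t i ≠ ⊤) :
    ∀ᵐ ω ∂(law X ρU μ), ∀ᶠ i in Filter.atTop,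
      (∃ z ∈ J i, ∃ k < ω.1 z, t i ≤ (ω.2 (z, k)).2) ∧ ∑ z ∈ K i, ω.1 z < t i := by
  have e1 : ∀ᵐ ω ∂(law X ρU μ), ∀ᶠ i in Filter.atTop,
      ω ∉ {ω : (X → ℕ) × (X × ℕ → U × ℕ) | ∀ z ∈ J i, ∀ k < ω.1 z, ¬ t i ≤ (ω.2 (z, k)).2} := by
    refine ae_eventually_notMem ?_
    simp_rw [no_hit]
    exact h1
  have e2 : ∀ᵐ ω ∂(law X ρU μ), ∀ᶠ i in Filter.atTop,
      ω ∉ {ω : (X → ℕ) × (X × ℕ → U × ℕ) | t i ≤ ∑ z ∈ K i, ω.1 z} := by
    refine ae_eventually_notMem ?_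
    exact ne_top_of_le_ne_top h2 (ENNReal.tsum_le_tsum fun i => count_le ρU μ (K i) (t i) (ht i))
  filter_upwards [e1, e2] with ω hω1 hω2
  filter_upwards [hω1, hω2] with i h3 h4
  have h3' : ¬ ∀ z ∈ J i, ∀ k < ω.1 z, ¬ t i ≤ (ω.2 (z, k)).2 := h3
  have h4' : ¬ t i ≤ ∑ z ∈ K i, ω.1 z := h4
  push Not at h3' h4'
  exact ⟨h3', h4'⟩

end

end Pool.Agent.V11320.StableProb
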