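import Mathlib
import Pool.Agent.V11320.StableProb

set_option autoImplicit false
open scoped ENNReal NNReal BigOperators
open MeasureTheory ProbabilityTheory

namespace Pool.Agent.V11320.StableProb

noncomputable section

theorem exp_neg_le_inv {x : ℝ} (hx : 0 < x) : Real.exp (-x) ≤ 1 / x := by
  rw [Real.exp_neg, ← one_div]
  refine one_div_le_one_div_of_le hx ?_
  linarith [Real.add_one_le_exp x]

/-- a heavy tail -/
def Heavy (μ : PMF ℕ) : Prop :=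
  ∃ α : ℝ, 0 ≤ α ∧ α < 1 ∧ ∃ c : ℝ, 0 < c ∧
    ∀ n : ℕ, 1 ≤ n → c * (n : ℝ) ^ (-α) ≤ (μ.toMeasure {m | n ≤ m}).toReal

theorem summable_aux (r : ℝ) (h0 : 0 < r) (h1 : r < 1) :
    Summable fun i : ℕ => ((i : ℝ) + 1) ^ 2 * r ^ i := by
  have h := summable_pow_mul_geometric_of_norm_lt_one (R := ℝ) 2 (r := r)
    (by rw [Real.norm_eq_abs, abs_of_pos h0]; exact h1)
  have h2 := (summable_nat_add_iff 1).mpr h
  have h3 := h2.mul_left r⁻¹
  refine h3.congr fun i => ?_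
  push_cast
  field_simp
  ring

theorem sum1 (μ : PMF ℕ) (h : Heavy μ) (b B : ℕ) (hb : 2 ≤ b) (hB : 1 ≤ B) :
    ∑' i : ℕ, ENNReal.ofReal (Real.exp (-((b ^ i : ℕ) * tl μ ((i + 1) ^ 2 * (B * b ^ i))))) ≠ ⊤ := by
  obtain ⟨α, hα0, hα1, c, hc, hμ⟩ := h
  have hb0 : (0 : ℝ) < b := by
    have : 0 < b := by omega
    exact_mod_cast this
  have hB0 : (0 : ℝ) < B := by
    have : 0 < B := by omega
    exact_mod_cast this
  have hb1 : (1 : ℝ) < b := by
    have : 1 < b := by omega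
    exact_mod_cast this
  have hB1 : (1 : ℝ) ≤ B := by exact_mod_cast hB
  set r : ℝ := (b : ℝ) ^ (α - 1) with hr
  have hr0 : 0 < r := Real.rpow_pos_of_pos hb0 _
  have hr1 : r < 1 := Real.rpow_lt_one_of_one_lt_of_neg hb1 (by linarith)
  have hkey : ∀ i : ℕ, Real.exp (-((b ^ i : ℕ) * tl μ ((i + 1) ^ 2 * (B * b ^ i))))
      ≤ B / c * (((i : ℝ) + 1) ^ 2 * r ^ i) := by
    intro i
    set t : ℕ := (i + 1) ^ 2 * (B * b ^ i) with ht
    have ht1 : 1 ≤ t := by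
      rw [ht]
      have : 0 < (i + 1) ^ 2 * (B * b ^ i) := by positivity
      omega
    have htr : (t : ℝ) = ((i : ℝ) + 1) ^ 2 * (B * (b : ℝ) ^ i) := by
      rw [ht]; push_cast; ring
    have ht0 : (0 : ℝ) < t := by
      have : 0 < t := by omega
      exact_mod_cast this
    have h1 := hμ t ht1
    -- bound of the power
    have h2 : (t : ℝ) ^ α ≤ ((i : ℝ) + 1) ^ 2 * B * ((b : ℝ) ^ i) ^ α := by
      rw [htr, Real.mul_rpow (by positivity) (by positivity), Real.mul_rpow (by positivity)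
        (by positivity), ← mul_assoc]
      refine mul_le_mul_of_nonneg_right ?_ (by positivity)
      refine mul_le_mul ?_ ?_ (by positivity) (by positivity)
      · have h3 : (1 : ℝ) ≤ ((i : ℝ) + 1) ^ 2 := by
          have : (0 : ℝ) ≤ i := by positivity
          nlinarith
        calc (((i : ℝ) + 1) ^ 2) ^ α ≤ (((i : ℝ) + 1) ^ 2) ^ (1 : ℝ) :=
              Real.rpow_le_rpow_of_exponent_le h3 hα1.le
          _ = _ := Real.rpow_one _
      · calc (B : ℝ) ^ α ≤ (B : ℝ) ^ (1 : ℝ) := Real.rpow_le_rpow_of_exponent_le hB1 hα1.le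
          _ = _ := Real.rpow_one _
    have hx : (0 : ℝ) < (b ^ i : ℕ) * tl μ t := by
      have h3 : 0 < tl μ t := lt_of_lt_of_le (by positivity) h1
      positivity
    refine (exp_neg_le_inv hx).trans ?_
    rw [div_le_iff₀ hx]
    have h3 : c ≤ tl μ t * (t : ℝ) ^ α := by
      have h4 : c * (t : ℝ) ^ (-α) * (t : ℝ) ^ α = c := by
        rw [mul_assoc, ← Real.rpow_add ht0]
        simp
      calc c = c * (t : ℝ) ^ (-α) * (t : ℝ) ^ α := h4.symm
        _ ≤ tl μ t * (t : ℝ) ^ α := mul_le_mul_of_nonneg_right h1 (by positivity)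
    have h5 : r ^ i * (b : ℝ) ^ i = ((b : ℝ) ^ i) ^ α := by
      rw [hr, ← Real.rpow_natCast ((b : ℝ) ^ (α - 1)) i, ← Real.rpow_mul hb0.le,
        ← Real.rpow_natCast (b : ℝ) i, ← Real.rpow_add hb0, ← Real.rpow_mul hb0.le]
      congr 1
      ring
    have h6 : c ≤ tl μ t * (((i : ℝ) + 1) ^ 2 * B * ((b : ℝ) ^ i) ^ α) :=
      h3.trans (mul_le_mul_of_nonneg_left h2 (tl_nonneg μ t))
    rw [← h5] at h6
    have h7 : (B : ℝ) / c * (((i : ℝ) + 1) ^ 2 * r ^ i) * ((b ^ i : ℕ) * tl μ t)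
        = (tl μ t * (((i : ℝ) + 1) ^ 2 * B * (r ^ i * (b : ℝ) ^ i))) / c := by
      push_cast
      field_simp
    rw [h7, le_div_iff₀ hc, one_mul]
    exact h6
  have hsum : Summable fun i : ℕ => (B : ℝ) / c * (((i : ℝ) + 1) ^ 2 * r ^ i) :=
    (summable_aux r hr0 hr1).mul_left _
  exact ne_top_of_le_ne_top hsum.tsum_ofReal_ne_top
    (ENNReal.tsum_le_tsum fun i => ENNReal.ofReal_le_ofReal (hkey i))

theorem sum2 {X : Type} (K : ℕ → Finset X) (b B : ℕ) (hb : 2 ≤ b) (hB : 1 ≤ B)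
    (hK : ∀ i, (K i).card ≤ B * b ^ i) :
    ∑' i : ℕ, ((K i).card : ℝ≥0∞) / ((i + 1) ^ 2 * (B * b ^ i) : ℕ) ≠ ⊤ := by
  have h1 : ∀ i : ℕ, ((K i).card : ℝ≥0∞) / ((i + 1) ^ 2 * (B * b ^ i) : ℕ)
      ≤ ENNReal.ofReal (1 / ((i : ℝ) + 1) ^ 2) := by
    intro i
    have hp : 0 < B * b ^ i := by positivity
    have h2 : ((K i).card : ℝ≥0∞) ≤ ((B * b ^ i : ℕ) : ℝ≥0∞) := by exact_mod_cast hK i
    refine (ENNReal.div_le_div_right h2 _).trans ?_
    have h3 : ENNReal.ofReal (1 / ((i : ℝ) + 1) ^ 2) = 1 / (((i + 1) ^ 2 : ℕ) : ℝ≥0∞) := by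
      rw [ENNReal.ofReal_div_of_pos (by positivity), ENNReal.ofReal_one]
      congr 1
      rw [← ENNReal.ofReal_natCast]
      push_cast
      rfl
    rw [h3]
    refine ENNReal.div_le_of_le_mul ?_
    have hne : (((i + 1) ^ 2 : ℕ) : ℝ≥0∞) ≠ 0 := by
      have : (i + 1) ^ 2 ≠ 0 := by positivity
      exact_mod_cast this
    rw [Nat.cast_mul ((i + 1) ^ 2) (B * b ^ i), ← mul_assoc, one_div,
      ENNReal.inv_mul_cancel hne (ENNReal.natCast_ne_top _), one_mul]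
  have h2 : Summable fun i : ℕ => 1 / ((i : ℝ) + 1) ^ 2 := by
    have h := (summable_nat_add_iff (f := fun n : ℕ => 1 / (n : ℝ) ^ 2) 1).mpr
      (Real.summable_one_div_nat_pow.mpr (by norm_num))
    refine h.congr fun n => ?_
    push_cast
    rfl
  exact ne_top_of_le_ne_top h2.tsum_ofReal_ne_top (ENNReal.tsum_le_tsum h1)

variable {X U : Type} [MeasurableSpace U]

theorem ae_heavy [Countable X] (ρU : Measure U) [IsProbabilityMeasure ρU] (μ : PMF ℕ)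
    (h : Heavy μ) (b B : ℕ) (hb : 2 ≤ b) (hB : 1 ≤ B)
    (J K : ℕ → Finset X) (hJ : ∀ i, (J i).card = b ^ i) (hK : ∀ i, (K i).card ≤ B * b ^ i) :
    ∀ᵐ ω ∂(law X ρU μ), ∀ᶠ i in Filter.atTop,
      (∃ z ∈ J i, ∃ k < ω.1 z, (i + 1) ^ 2 * (B * b ^ i) ≤ (ω.2 (z, k)).2) ∧
        ∑ z ∈ K i, ω.1 z < (i + 1) ^ 2 * (B * b ^ i) := by
  refine ae_records ρU μ J K (fun i => (i + 1) ^ 2 * (B * b ^ i)) (fun i => ?_) ?_ ?_
  · have : 0 < (i + 1) ^ 2 * (B * b ^ i) := by positivity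
    omega
  · simp_rw [hJ]
    exact sum1 μ h b B hb hB
  · exact sum2 K b B hb hB hK

/-- weights of an explicit heavy-tailed law -/
def hw (s n : ℕ) : ℝ := if n < s then 0 else (n : ℝ) ^ (-(3 / 2) : ℝ)

theorem hw_nonneg (s n : ℕ) : 0 ≤ hw s n := by
  unfold hw
  split_ifs
  · exact le_rfl
  · positivity

theorem hw_summable (s : ℕ) : Summable (hw s) := by
  refine Summable.of_nonneg_of_le (hw_nonneg s) (fun n => ?_)
    (Real.summable_nat_rpow.mpr (by norm_num : (-(3 / 2) : ℝ) < -1))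
  unfold hw
  split_ifs
  · positivity
  · exact le_rfl

theorem hwZ_ne_zero (s : ℕ) : ∑' n, ENNReal.ofReal (hw s n) ≠ 0 := by
  intro h
  rw [ENNReal.tsum_eq_zero] at h
  have := h (s + 1)
  rw [ENNReal.ofReal_eq_zero] at this
  unfold hw at this
  rw [if_neg (by omega)] at this
  have h2 : (0 : ℝ) < ((s + 1 : ℕ) : ℝ) ^ (-(3 / 2) : ℝ) := by positivity
  linarith

theorem hwZ_ne_top (s : ℕ) : ∑' n, ENNReal.ofReal (hw s n) ≠ ⊤ := (hw_summable s).tsum_ofReal_ne_top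

/-- the law proportional to `n ^ (-3/2)` on the integers `n ≥ s` -/
def hlaw (s : ℕ) : PMF ℕ :=
  PMF.normalize (fun n => ENNReal.ofReal (hw s n)) (hwZ_ne_zero s) (hwZ_ne_top s)

theorem hlaw_apply (s n : ℕ) :
    hlaw s n = ENNReal.ofReal (hw s n) * (∑' n, ENNReal.ofReal (hw s n))⁻¹ :=
  PMF.normalize_apply _ _ _

theorem hlaw_lt (s n : ℕ) (h : n < s) : hlaw s n = 0 := by
  rw [hlaw_apply]
  unfold hw
  rw [if_pos h]
  simp

theorem hlaw_pos (s n : ℕ) (hn : 1 ≤ n) (h : s ≤ n) : 0 < hlaw s n := by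
  rw [hlaw_apply]
  refine ENNReal.mul_pos ?_ (ENNReal.inv_ne_zero.mpr (hwZ_ne_top s))
  rw [ne_eq, ENNReal.ofReal_eq_zero, not_le]
  unfold hw
  rw [if_neg (by omega)]
  have : (0 : ℝ) < n := by exact_mod_cast hn
  positivity


theorem hlaw_tail (s : ℕ) (n : ℕ) (hn : 1 ≤ n) :
    ((∑' n, ENNReal.ofReal (hw s n))⁻¹).toReal * ((s : ℝ) + 2) ^ (-(3 / 2) : ℝ) * (n : ℝ) ^ (-(1 / 2) : ℝ)
      ≤ ((hlaw s).toMeasure {m | n ≤ m}).toReal := by
  set Z := (∑' n, ENNReal.ofReal (hw s n))⁻¹ with hZ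
  have hZt : Z ≠ ⊤ := ENNReal.inv_ne_top.mpr (hwZ_ne_zero s)
  have hn0 : (0 : ℝ) < n := by exact_mod_cast hn
  -- the integers between (s+1) n and (s+2) n
  set F : Finset ℕ := Finset.Ico ((s + 1) * n) ((s + 2) * n) with hF
  have hcard : F.card = n := by
    rw [hF, Nat.card_Ico]
    have : (s + 2) * n = (s + 1) * n + n := by ring
    omega
  have h1 : ((F : Set ℕ)) ⊆ {m | n ≤ m} := by
    intro m hm
    rw [Finset.mem_coe, hF, Finset.mem_Ico] at hm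
    have : n ≤ (s + 1) * n := by nlinarith
    exact this.trans hm.1
  have h2 : ∀ m ∈ F, ENNReal.ofReal ((((s : ℝ) + 2) * n) ^ (-(3 / 2) : ℝ)) * Z ≤ hlaw s m := by
    intro m hm
    rw [hF, Finset.mem_Ico] at hm
    rw [hlaw_apply, ← hZ]
    gcongr
    unfold hw
    have hsn : s < m := by nlinarith [hm.1]
    rw [if_neg (by omega)]
    have hm0 : (0 : ℝ) < m := by
      have : 0 < m := by omega
      exact_mod_cast this
    refine Real.rpow_le_rpow_of_nonpos hm0 ?_ (by norm_num)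
    have := hm.2.le
    have h3 : (m : ℝ) ≤ (((s + 2) * n : ℕ) : ℝ) := by exact_mod_cast this
    push_cast at h3
    exact h3
  have h3 : (n : ℝ≥0∞) * (ENNReal.ofReal ((((s : ℝ) + 2) * n) ^ (-(3 / 2) : ℝ)) * Z)
      ≤ (hlaw s).toMeasure {m | n ≤ m} := by
    calc (n : ℝ≥0∞) * (ENNReal.ofReal ((((s : ℝ) + 2) * n) ^ (-(3 / 2) : ℝ)) * Z)
        = ∑ m ∈ F, ENNReal.ofReal ((((s : ℝ) + 2) * n) ^ (-(3 / 2) : ℝ)) * Z := by
          rw [Finset.sum_const, hcard, nsmul_eq_mul]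
      _ ≤ ∑ m ∈ F, hlaw s m := Finset.sum_le_sum h2
      _ = (hlaw s).toMeasure (F : Set ℕ) := (PMF.toMeasure_apply_finset _ _).symm
      _ ≤ _ := measure_mono h1
  have h4 := ENNReal.toReal_mono (measure_ne_top _ _) h3
  refine le_trans (le_of_eq ?_) h4
  rw [ENNReal.toReal_mul, ENNReal.toReal_mul, ENNReal.toReal_natCast,
    ENNReal.toReal_ofReal (by positivity), Real.mul_rpow (by positivity) (by positivity)]
  have h5 : (n : ℝ) ^ (-(1 / 2) : ℝ) = n * (n : ℝ) ^ (-(3 / 2) : ℝ) := by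
    have : (n : ℝ) * (n : ℝ) ^ (-(3 / 2) : ℝ) = (n : ℝ) ^ (1 : ℝ) * (n : ℝ) ^ (-(3 / 2) : ℝ) := by
      rw [Real.rpow_one]
    rw [this, ← Real.rpow_add hn0]
    norm_num
  rw [h5]
  ring

theorem hlaw_heavy (s : ℕ) : Heavy (hlaw s) := by
  refine ⟨1 / 2, by norm_num, by norm_num,
    ((∑' n, ENNReal.ofReal (hw s n))⁻¹).toReal * ((s : ℝ) + 2) ^ (-(3 / 2) : ℝ), ?_, ?_⟩
  · have : 0 < ((∑' n, ENNReal.ofReal (hw s n))⁻¹).toReal :=
      ENNReal.toReal_pos (ENNReal.inv_ne_zero.mpr (hwZ_ne_top s))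
        (ENNReal.inv_ne_top.mpr (hwZ_ne_zero s))
    positivity
  · intro n hn
    exact hlaw_tail s n hn

end

end Pool.Agent.V11320.StableProb
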