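import Mathlib
import Pool.Agent.V11320.StableSum
import Pool.Agent.V11320.StableDet

set_option autoImplicit false
open scoped ENNReal NNReal BigOperators
open MeasureTheory ProbabilityTheory

namespace Pool.Agent.V11320.StableProb

open Pool.Agent.V11320.StableDet

noncomputable section

variable {X U : Type} [MeasurableSpace U]

/-- the points present -/
abbrev PtOf (N : X → ℕ) : Type := {k : X × ℕ // k.2 < N k.1}

/-- geometric input -/
structure Geo (ds : (X × ℕ → U × ℕ) → X × ℕ → X × ℕ → ℝ) (b B : ℕ) (J K : ℕ → Finset X)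
    (R : ℕ → ℝ) : Prop where
  symm : ∀ M x y, ds M x y = ds M y x
  hb : 2 ≤ b
  hB : 1 ≤ B
  hJ : ∀ i, (J i).card = b ^ i
  hK : ∀ i, (K i).card ≤ B * b ^ i
  mono : ∀ i, R i ≤ R (i + 1)
  step : ∀ M i, ∀ z ∈ J i, ∀ z' ∈ J (i + 1), ∀ k k', ds M (z, k) (z', k') ≤ R i
  loc : ∀ M i, ∀ z ∈ J i, ∀ k, ∀ w : X × ℕ, ds M (z, k) w ≤ R i → w.1 ∈ K i
  far : ∀ M y, ∀ᶠ i in Filter.atTop, ∀ z ∈ J i, ∀ k, ds M (z, k) y ≤ R i
  fin : ∀ M x r, ∃ F : Finset X, ∀ w, ds M x w ≤ r → w.1 ∈ F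

theorem encard_le (N : X → ℕ) (F : Finset X) (S : Set (PtOf N)) (h : ∀ w ∈ S, w.1.1 ∈ F) :
    S.encard ≤ ((∑ z ∈ F, N z : ℕ) : ℕ∞) := by
  classical
  set G : Finset (X × ℕ) := F.biUnion fun z => (Finset.range (N z)).image fun k => (z, k) with hG
  have h1 : S.encard = (Subtype.val '' S).encard := (Subtype.val_injective.encard_image S).symm
  have h2 : (Subtype.val '' S) ⊆ (G : Set (X × ℕ)) := by
    rintro _ ⟨w, hw, rfl⟩
    rw [Finset.mem_coe, hG, Finset.mem_biUnion]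
    refine ⟨w.1.1, h w hw, ?_⟩
    rw [Finset.mem_image]
    exact ⟨w.1.2, Finset.mem_range.mpr w.2, rfl⟩
  rw [h1]
  refine (Set.encard_le_encard h2).trans ?_
  rw [Set.encard_coe_eq_coe_finsetCard]
  have h3 : G.card ≤ ∑ z ∈ F, N z := by
    rw [hG]
    refine Finset.card_biUnion_le.trans (Finset.sum_le_sum fun z _ => ?_)
    exact Finset.card_image_le.trans (by rw [Finset.card_range])
  exact_mod_cast h3

theorem finite_ball {ds : (X × ℕ → U × ℕ) → X × ℕ → X × ℕ → ℝ} {b B : ℕ} {J K : ℕ → Finset X}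
    {R : ℕ → ℝ} (hg : Geo ds b B J K R) (N : X → ℕ) (M : X × ℕ → U × ℕ) (x : PtOf N) (r : ℝ) :
    {w : PtOf N | ds M x.1 w.1 ≤ r}.Finite := by
  obtain ⟨F, hF⟩ := hg.fin M x.1 r
  exact Set.finite_of_encard_le_coe (encard_le N F _ fun w hw => hF w.1 hw)

theorem ae_rec [Countable X] (ρU : Measure U) [IsProbabilityMeasure ρU] (μ : PMF ℕ) (h : Heavy μ)
    {ds : (X × ℕ → U × ℕ) → X × ℕ → X × ℕ → ℝ} {b B : ℕ} {J K : ℕ → Finset X} {R : ℕ → ℝ}
    (hg : Geo ds b B J K R) :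
    ∀ᵐ ω ∂(law X ρU μ), ∃ x : ℕ → PtOf ω.1,
      Records (fun p q : PtOf ω.1 => ds ω.2 p.1 q.1) (fun p => (ω.2 p.1).2) x R := by
  filter_upwards [ae_heavy ρU μ h b B hg.hb hg.hB J K hg.hJ hg.hK] with ω hω
  obtain ⟨i0, hi0⟩ := Filter.eventually_atTop.mp hω
  have hex : ∀ i, ∃ p : PtOf ω.1, i0 ≤ i → (p.1.1 ∈ J i ∧ (i + 1) ^ 2 * (B * b ^ i) ≤ (ω.2 p.1).2) := by
    intro i
    obtain ⟨z0, _, k0, hk0, _⟩ := (hi0 i0 le_rfl).1
    by_cases hi : i0 ≤ i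
    · obtain ⟨z, hz, k, hk, ht⟩ := (hi0 i hi).1
      exact ⟨⟨(z, k), hk⟩, fun _ => ⟨hz, ht⟩⟩
    · exact ⟨⟨(z0, k0), hk0⟩, fun h => absurd h hi⟩
  choose x hx using hex
  refine ⟨x, ⟨hg.mono, ?_, ?_, ?_, ?_⟩⟩
  · refine Filter.eventually_atTop.mpr ⟨i0, fun i hi => ?_⟩
    exact hg.step ω.2 i _ (hx i hi).1 _ (hx (i + 1) (by omega)).1 _ _
  · refine Filter.eventually_atTop.mpr ⟨i0, fun i hi => ?_⟩
    refine lt_of_le_of_lt (encard_le ω.1 (K i) _ fun w hw => ?_) ?_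
    · exact hg.loc ω.2 i _ (hx i hi).1 _ w.1 hw
    · have h1 := (hi0 i hi).2
      have h2 := (hx i hi).2
      have h3 := lt_of_lt_of_le h1 h2
      exact_mod_cast h3
  · refine Filter.tendsto_atTop_mono' _ (f₁ := fun i => i) ?_ Filter.tendsto_id
    refine Filter.eventually_atTop.mpr ⟨i0, fun i hi => ?_⟩
    refine le_trans ?_ (hx i hi).2
    have h1 : 0 < B * b ^ i := by
      have := hg.hb
      have := hg.hB
      positivity
    nlinarith
  · intro y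
    filter_upwards [hg.far ω.2 y.1, Filter.eventually_ge_atTop i0] with i h1 h2
    exact h1 _ (hx i h2).1 _

end

end Pool.Agent.V11320.StableProb
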