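import Mathlib

set_option autoImplicit false
open MeasureTheory
open scoped ENNReal NNReal BigOperators Topology

namespace Pool.Agent.V11320.EdenShape

noncomputable section

/-- Euclidean space of dimension `D` -/
abbrev E (D : ℕ) : Type := EuclideanSpace ℝ (Fin D)

/-- An `α`-weight function: `f z = |z|^α f₀(z / |z|)` for `z ≠ 0`, with `f₀` strictly positive and
Lipschitz on the unit sphere. -/
def IsWeight {D : ℕ} (α : ℝ) (f : E D → ℝ) : Prop :=
  ∃ f₀ : E D → ℝ, (∀ u, ‖u‖ = 1 → 0 < f₀ u) ∧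
    (∃ L : ℝ, ∀ u v, ‖u‖ = 1 → ‖v‖ = 1 → |f₀ u - f₀ v| ≤ L * ‖u - v‖) ∧
    ∀ z, z ≠ 0 → f z = ‖z‖ ^ α * f₀ (‖z‖⁻¹ • z)

/-- The density `1 / f`, set to be `0` at the origin, where `f` is not defined. -/
def dens {D : ℕ} (f : E D → ℝ) (z : E D) : ℝ≥0∞ :=
  open Classical in if z = 0 then 0 else ENNReal.ofReal (1 / f z)

/-- The integral of `1 / f` along the segment from `p` to `q`, parametrised by `μ`-length. -/
def segCost {D : ℕ} (μ : Seminorm ℝ (E D)) (f : E D → ℝ) (p q : E D) : ℝ≥0∞ :=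
  ENNReal.ofReal (μ (q - p)) * ∫⁻ s in Set.Icc (0 : ℝ) 1, dens f (p + s • (q - p))

/-- The integral of `1 / f` along the piecewise linear path from `p` to `q` with the given list of
intermediate vertices, parametrised by `μ`-length. -/
def pathCost {D : ℕ} (μ : Seminorm ℝ (E D)) (f : E D → ℝ) : E D → List (E D) → E D → ℝ≥0∞
  | p, [], q => segCost μ f p q
  | p, v :: l, q => segCost μ f p v + pathCost μ f v l q

/-- The distance `D(z, w)`: the infimum over piecewise linear paths. -/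
def dist' {D : ℕ} (μ : Seminorm ℝ (E D)) (f : E D → ℝ) (z w : E D) : ℝ≥0∞ :=
  ⨅ l : List (E D), pathCost μ f z l w

/-- The closed ball of radius one about the origin for `dist'`. -/
def Ball {D : ℕ} (μ : Seminorm ℝ (E D)) (f : E D → ℝ) : Set (E D) :=
  {z | dist' μ f 0 z ≤ 1}

/-- `K` has Lipschitz boundary: near each boundary point `K` is the region on one side of the graph
of a Lipschitz function over the hyperplane orthogonal to some unit vector `u`. -/
def HasLipschitzBoundary {D : ℕ} (K : Set (E D)) : Prop :=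
  ∀ p ∈ frontier K, ∃ u : E D, ‖u‖ = 1 ∧ ∃ (L : ℝ≥0) (g : E D → ℝ), LipschitzWith L g ∧
    ∃ U ∈ 𝓝 p, ∀ x ∈ U, x ∈ K ↔ inner ℝ u x ≤ g (x - (inner ℝ u x : ℝ) • u)

section Weights

variable {D : ℕ} {α : ℝ} {f : E D → ℝ}

theorem IsWeight.pos (h : IsWeight α f) {z : E D} (hz : z ≠ 0) : 0 < f z := by
  obtain ⟨f₀, h1, _, h3⟩ := h
  rw [h3 z hz]
  have hz0 : 0 < ‖z‖ := norm_pos_iff.mpr hz
  have h4 : ‖‖z‖⁻¹ • z‖ = 1 := by
    rw [norm_smul, norm_inv, norm_norm, inv_mul_cancel₀ hz0.ne']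
  exact mul_pos (Real.rpow_pos_of_pos hz0 _) (h1 _ h4)

theorem IsWeight.scale (h : IsWeight α f) {z : E D} (hz : z ≠ 0) {r : ℝ} (hr : 0 < r) :
    f (r • z) = r ^ α * f z := by
  obtain ⟨f₀, _, _, h3⟩ := h
  have hz0 : 0 < ‖z‖ := norm_pos_iff.mpr hz
  have hrz : r • z ≠ 0 := smul_ne_zero hr.ne' hz
  rw [h3 z hz, h3 _ hrz, norm_smul, Real.norm_eq_abs, abs_of_pos hr,
    Real.mul_rpow hr.le hz0.le, smul_smul, mul_assoc]
  congr 3
  congr 1
  field_simp

theorem IsWeight.continuousAt (h : IsWeight α f) {z : E D} (hz : z ≠ 0) : ContinuousAt f z := by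
  obtain ⟨f₀, _, ⟨L, hL⟩, h3⟩ := h
  have hz0 : 0 < ‖z‖ := norm_pos_iff.mpr hz
  have hev : ∀ᶠ w in 𝓝 z, w ≠ 0 := isOpen_ne.mem_nhds hz
  have hn : ContinuousAt (fun w : E D => ‖w‖) z := continuous_norm.continuousAt
  have hu : ContinuousAt (fun w : E D => ‖w‖⁻¹ • w) z := (hn.inv₀ hz0.ne').smul continuousAt_id
  have hunit : ∀ w : E D, w ≠ 0 → ‖‖w‖⁻¹ • w‖ = 1 := by
    intro w hw
    have hw0 : 0 < ‖w‖ := norm_pos_iff.mpr hw
    rw [norm_smul, norm_inv, norm_norm, inv_mul_cancel₀ hw0.ne']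
  have h0 : ContinuousAt (fun w : E D => f₀ (‖w‖⁻¹ • w)) z := by
    have h4 : Filter.Tendsto (fun w : E D => ‖‖w‖⁻¹ • w - ‖z‖⁻¹ • z‖) (𝓝 z) (𝓝 0) := by
      have := (hu.sub continuousAt_const : ContinuousAt (fun w : E D => ‖w‖⁻¹ • w - ‖z‖⁻¹ • z) z)
      have h5 := this.norm
      have h6 : Filter.Tendsto (fun w : E D => ‖‖w‖⁻¹ • w - ‖z‖⁻¹ • z‖) (𝓝 z)
          (𝓝 ‖‖z‖⁻¹ • z - ‖z‖⁻¹ • z‖) := h5
      simpa using h6
    have h7 : Filter.Tendsto (fun w : E D => L * ‖‖w‖⁻¹ • w - ‖z‖⁻¹ • z‖) (𝓝 z) (𝓝 0) := by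
      have := h4.const_mul L
      simpa using this
    refine tendsto_iff_norm_sub_tendsto_zero.mpr ?_
    refine squeeze_zero' (Filter.Eventually.of_forall fun w => norm_nonneg _) ?_ h7
    filter_upwards [hev] with w hw
    rw [Real.norm_eq_abs]
    exact hL _ _ (hunit w hw) (hunit z hz)
  have h8 : ContinuousAt (fun w : E D => ‖w‖ ^ α * f₀ (‖w‖⁻¹ • w)) z :=
    (hn.rpow_const (Or.inl hz0.ne')).mul h0
  refine h8.congr ?_
  filter_upwards [hev] with w hw
  exact (h3 w hw).symm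

theorem dens_scale (h : IsWeight α f) (z : E D) {r : ℝ} (hr : 0 < r) :
    dens f (r • z) = ENNReal.ofReal (r ^ (-α)) * dens f z := by
  unfold dens
  by_cases hz : z = 0
  · subst hz
    simp
  · rw [if_neg (smul_ne_zero hr.ne' hz), if_neg hz, h.scale hz hr,
      ← ENNReal.ofReal_mul (by positivity)]
    congr 1
    rw [Real.rpow_neg hr.le]
    have h1 := h.pos hz
    have h2 : 0 < r ^ α := Real.rpow_pos_of_pos hr _
    field_simp

theorem segCost_scale (μ : Seminorm ℝ (E D)) (h : IsWeight α f) (p q : E D) {r : ℝ} (hr : 0 < r) :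
    segCost μ f (r • p) (r • q) = ENNReal.ofReal (r ^ (1 - α)) * segCost μ f p q := by
  unfold segCost
  have h1 : ∀ s : ℝ, dens f (r • p + s • (r • q - r • p))
      = ENNReal.ofReal (r ^ (-α)) * dens f (p + s • (q - p)) := by
    intro s
    rw [← dens_scale h _ hr]
    congr 1
    rw [smul_add, ← smul_sub, smul_comm s r]
  simp_rw [h1]
  rw [lintegral_const_mul' _ _ ENNReal.ofReal_ne_top, ← smul_sub, map_smul_eq_mul,
    Real.norm_eq_abs, abs_of_pos hr, ENNReal.ofReal_mul hr.le]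
  have h2 : r ^ (1 - α) = r * r ^ (-α) := by
    rw [sub_eq_add_neg, Real.rpow_add hr, Real.rpow_one]
  rw [h2, ENNReal.ofReal_mul hr.le]
  ring

theorem pathCost_scale (μ : Seminorm ℝ (E D)) (h : IsWeight α f) (l : List (E D)) (p q : E D)
    {r : ℝ} (hr : 0 < r) :
    pathCost μ f (r • p) (l.map (r • ·)) (r • q)
      = ENNReal.ofReal (r ^ (1 - α)) * pathCost μ f p l q := by
  induction l generalizing p with
  | nil => exact segCost_scale μ h p q hr
  | cons v l ih =>
    simp only [List.map_cons, pathCost]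
    rw [ih, segCost_scale μ h p v hr, mul_add]

theorem dist_scale (μ : Seminorm ℝ (E D)) (h : IsWeight α f) (w : E D) {r : ℝ} (hr : 0 < r) :
    dist' μ f 0 (r • w) ≤ ENNReal.ofReal (r ^ (1 - α)) * dist' μ f 0 w := by
  unfold dist'
  rw [ENNReal.mul_iInf_of_ne (by
    rw [ne_eq, ENNReal.ofReal_eq_zero, not_le]
    exact Real.rpow_pos_of_pos hr _) ENNReal.ofReal_ne_top]
  refine le_iInf fun l => ?_
  rw [← pathCost_scale μ h l 0 w hr, smul_zero]
  exact iInf_le _ (l.map (r • ·))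

theorem pathCost_append (μ : Seminorm ℝ (E D)) (f : E D → ℝ) (l : List (E D)) (p v q : E D) :
    pathCost μ f p (l ++ [v]) q = pathCost μ f p l v + segCost μ f v q := by
  induction l generalizing p with
  | nil => rfl
  | cons u l ih =>
    simp only [List.cons_append, pathCost]
    rw [ih, add_assoc]

theorem dist_extend (μ : Seminorm ℝ (E D)) (f : E D → ℝ) (z p q : E D) :
    dist' μ f z q ≤ dist' μ f z p + segCost μ f p q := by
  unfold dist'
  rw [ENNReal.iInf_add]
  refine le_iInf fun l => ?_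
  rw [← pathCost_append]
  exact iInf_le _ (l ++ [p])

/-- change of variables on a piece of the segment -/
theorem segCost_part (μ : Seminorm ℝ (E D)) (f : E D → ℝ) (p q : E D) {s : ℝ} (hs : 0 < s) :
    segCost μ f p (p + s • (q - p))
      = ENNReal.ofReal (μ (q - p)) * ∫⁻ t in Set.Icc (0 : ℝ) s, dens f (p + t • (q - p)) := by
  unfold segCost
  rw [add_sub_cancel_left, map_smul_eq_mul, Real.norm_eq_abs, abs_of_pos hs,
    ENNReal.ofReal_mul hs.le]
  have h1 : ∫⁻ t in Set.Icc (0 : ℝ) s, dens f (p + t • (q - p))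
      = ENNReal.ofReal s * ∫⁻ u in Set.Icc (0 : ℝ) 1, dens f (p + u • s • (q - p)) := by
    rw [← lintegral_indicator measurableSet_Icc, ← lintegral_indicator measurableSet_Icc]
    have h2 := Real.map_volume_mul_left hs.ne'
    have h3 : MeasurableEmbedding (fun x : ℝ => s * x) :=
      (Homeomorph.mulLeft₀ s hs.ne').measurableEmbedding
    have h4 := h3.lintegral_map (μ := volume)
      (f := Set.indicator (Set.Icc (0 : ℝ) s) fun t => dens f (p + t • (q - p)))
    rw [h2, lintegral_smul_measure] at h4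
    have h5 : ∀ u : ℝ, Set.indicator (Set.Icc (0 : ℝ) s) (fun t => dens f (p + t • (q - p))) (s * u)
        = Set.indicator (Set.Icc (0 : ℝ) 1) (fun u => dens f (p + u • s • (q - p))) u := by
      intro u
      by_cases hu : u ∈ Set.Icc (0 : ℝ) 1
      · have hsu : s * u ∈ Set.Icc (0 : ℝ) s := by
          constructor
          · exact mul_nonneg hs.le hu.1
          · nlinarith [hu.2]
        rw [Set.indicator_of_mem hu, Set.indicator_of_mem hsu, smul_smul, mul_comm u s]
      · have hsu : s * u ∉ Set.Icc (0 : ℝ) s := by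
          intro h
          apply hu
          constructor
          · have := h.1
            by_contra hneg
            push Not at hneg
            nlinarith
          · have := h.2
            by_contra hneg
            push Not at hneg
            nlinarith
        rw [Set.indicator_of_notMem hu, Set.indicator_of_notMem hsu]
    simp_rw [h5] at h4
    rw [← h4, smul_eq_mul, ← mul_assoc, abs_of_pos (inv_pos.mpr hs), ← ENNReal.ofReal_mul hs.le,
      mul_inv_cancel₀ hs.ne', ENNReal.ofReal_one, one_mul]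
  rw [h1]
  ring

/-- lower bound of the cost of the end of a segment -/
theorem segCost_split (μ : Seminorm ℝ (E D)) (f : E D → ℝ) (p q : E D) {s : ℝ} (hs : 0 < s)
    (hs1 : s ≤ 1) (m : ℝ≥0∞) (hm : ∀ t ∈ Set.Ioc s 1, m ≤ dens f (p + t • (q - p))) :
    segCost μ f p (p + s • (q - p)) + ENNReal.ofReal (μ (q - (p + s • (q - p)))) * m
      ≤ segCost μ f p q := by
  rw [segCost_part μ f p q hs]
  have h1 : q - (p + s • (q - p)) = (1 - s) • (q - p) := by
    rw [sub_smul, one_smul]; abel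
  rw [h1, map_smul_eq_mul, Real.norm_eq_abs, abs_of_nonneg (by linarith),
    ENNReal.ofReal_mul (by linarith)]
  unfold segCost
  have h2 : Set.Icc (0 : ℝ) 1 = Set.Icc 0 s ∪ Set.Ioc s 1 := (Set.Icc_union_Ioc_eq_Icc hs.le hs1).symm
  rw [h2, lintegral_union measurableSet_Ioc (by
    rw [Set.disjoint_left]
    intro t ht ht'
    exact absurd ht.2 (not_le.mpr ht'.1)), mul_add]
  have h3 : ENNReal.ofReal (1 - s) * m ≤ ∫⁻ t in Set.Ioc s 1, dens f (p + t • (q - p)) := by
    calc ENNReal.ofReal (1 - s) * m = ∫⁻ _ in Set.Ioc s 1, m := by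
          rw [lintegral_const, Measure.restrict_apply MeasurableSet.univ, Set.univ_inter,
            Real.volume_Ioc, mul_comm]
      _ ≤ _ := setLIntegral_mono' measurableSet_Ioc hm
  refine add_le_add le_rfl ?_
  calc ENNReal.ofReal (1 - s) * ENNReal.ofReal (μ (q - p)) * m
      = ENNReal.ofReal (μ (q - p)) * (ENNReal.ofReal (1 - s) * m) := by ring
    _ ≤ _ := by gcongr

theorem segCost_lower (μ : Seminorm ℝ (E D)) (f : E D → ℝ) (p q : E D) (m : ℝ≥0∞)
    (hm : ∀ t ∈ Set.Icc (0 : ℝ) 1, m ≤ dens f (p + t • (q - p))) :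
    ENNReal.ofReal (μ (q - p)) * m ≤ segCost μ f p q := by
  unfold segCost
  gcongr
  calc m = ∫⁻ _ in Set.Icc (0 : ℝ) 1, m := by
        rw [lintegral_const, Measure.restrict_apply MeasurableSet.univ, Set.univ_inter,
          Real.volume_Icc]
        simp
    _ ≤ _ := setLIntegral_mono' measurableSet_Icc hm

theorem segCost_upper (μ : Seminorm ℝ (E D)) (f : E D → ℝ) (p q : E D) (m : ℝ≥0∞)
    (hm : ∀ t ∈ Set.Icc (0 : ℝ) 1, dens f (p + t • (q - p)) ≤ m) :
    segCost μ f p q ≤ ENNReal.ofReal (μ (q - p)) * m := by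
  unfold segCost
  gcongr
  calc ∫⁻ s in Set.Icc (0 : ℝ) 1, dens f (p + s • (q - p)) ≤ ∫⁻ _ in Set.Icc (0 : ℝ) 1, m :=
        setLIntegral_mono' measurableSet_Icc hm
    _ = m := by
        rw [lintegral_const, Measure.restrict_apply MeasurableSet.univ, Set.univ_inter,
          Real.volume_Icc]
        simp

/-- the invariant -/
def Inv (μ : Seminorm ℝ (E D)) (f : E D → ℝ) (z : E D) (δ : ℝ) (m : ℝ≥0∞) (p : E D) (c : ℝ≥0∞) :
    Prop :=
  dist' μ f 0 p ≤ c ∧ (‖p - z‖ ≤ δ → ∃ w, ‖w - z‖ = δ ∧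
    dist' μ f 0 w + ENNReal.ofReal (μ (p - w)) * m ≤ c)

theorem seg_point (p q z : E D) (t : ℝ) :
    p + t • (q - p) - z = (1 - t) • (p - z) + t • (q - z) := by
  rw [sub_smul, one_smul, smul_sub, smul_sub, smul_sub]; abel

theorem Inv.step {μ : Seminorm ℝ (E D)} {z : E D} {δ : ℝ} {m : ℝ≥0∞}
    (hm : ∀ x, ‖x - z‖ ≤ δ → m ≤ dens f x) {p q : E D} {c : ℝ≥0∞} (h : Inv μ f z δ m p c) :
    Inv μ f z δ m q (c + segCost μ f p q) := by
  refine ⟨(dist_extend μ f 0 p q).trans (by gcongr; exact h.1), fun hq => ?_⟩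
  by_cases hp : ‖p - z‖ ≤ δ
  · obtain ⟨w, hw, hc⟩ := h.2 hp
    refine ⟨w, hw, ?_⟩
    have h1 : ENNReal.ofReal (μ (q - p)) * m ≤ segCost μ f p q := by
      refine segCost_lower μ f p q m fun t ht => hm _ ?_
      rw [seg_point]
      calc ‖(1 - t) • (p - z) + t • (q - z)‖ ≤ ‖(1 - t) • (p - z)‖ + ‖t • (q - z)‖ := norm_add_le _ _
        _ = (1 - t) * ‖p - z‖ + t * ‖q - z‖ := by
            rw [norm_smul, norm_smul, Real.norm_eq_abs, Real.norm_eq_abs,
              abs_of_nonneg (by linarith [ht.2]), abs_of_nonneg ht.1]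
        _ ≤ (1 - t) * δ + t * δ := by
            have h5 := ht.1
            have h6 := ht.2
            have h7 : 0 ≤ 1 - t := by linarith
            gcongr
        _ = δ := by ring
    have h2 : μ (q - w) ≤ μ (p - w) + μ (q - p) := by
      have := map_add_le_add μ (p - w) (q - p)
      have h3 : p - w + (q - p) = q - w := by abel
      rwa [h3] at this
    calc dist' μ f 0 w + ENNReal.ofReal (μ (q - w)) * m
        ≤ dist' μ f 0 w + (ENNReal.ofReal (μ (p - w)) + ENNReal.ofReal (μ (q - p))) * m := by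
          gcongr
          rw [← ENNReal.ofReal_add (apply_nonneg _ _) (apply_nonneg _ _)]
          exact ENNReal.ofReal_le_ofReal h2
      _ = (dist' μ f 0 w + ENNReal.ofReal (μ (p - w)) * m) + ENNReal.ofReal (μ (q - p)) * m := by ring
      _ ≤ c + segCost μ f p q := add_le_add hc h1
  · push Not at hp
    -- the crossing point
    have hcont : ContinuousOn (fun t : ℝ => ‖p + t • (q - p) - z‖) (Set.Icc 0 1) := by fun_prop
    have hivt := intermediate_value_Icc' (by norm_num : (0 : ℝ) ≤ 1) hcont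
    have hmem : δ ∈ Set.Icc ‖p + (1 : ℝ) • (q - p) - z‖ ‖p + (0 : ℝ) • (q - p) - z‖ := by
      constructor
      · simpa using hq
      · simpa using hp.le
    obtain ⟨s, hs, hsδ0⟩ := hivt hmem
    have hsδ : ‖p + s • (q - p) - z‖ = δ := hsδ0
    have hs0 : 0 < s := by
      rcases hs.1.lt_or_eq with h1 | h1
      · exact h1
      · exfalso
        rw [← h1] at hsδ
        simp only [zero_smul, add_zero] at hsδ
        linarith
    refine ⟨p + s • (q - p), hsδ, ?_⟩
    have h1 := segCost_split μ f p q hs0 hs.2 m (fun t ht => by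
      refine hm _ ?_
      -- convexity
      have h2 : p + t • (q - p) - z
          = (1 - (t - s) / (1 - s)) • (p + s • (q - p) - z) + ((t - s) / (1 - s)) • (q - z) := by
        have hs1 : 1 - s ≠ 0 := by linarith [ht.1, ht.2]
        have h3 : p + t • (q - p) = (p + s • (q - p)) + ((t - s) / (1 - s)) • (q - (p + s • (q - p))) := by
          have h4 : q - (p + s • (q - p)) = (1 - s) • (q - p) := by
            rw [sub_smul, one_smul]; abel
          rw [h4, smul_smul, div_mul_cancel₀ _ hs1, sub_smul]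
          abel
        rw [h3, seg_point]
      have hθ0 : 0 ≤ (t - s) / (1 - s) := div_nonneg (by linarith [ht.1]) (by linarith [ht.1, ht.2])
      have hθ1 : (t - s) / (1 - s) ≤ 1 := by
        rw [div_le_one (by linarith [ht.1, ht.2])]
        linarith [ht.2]
      rw [h2]
      calc ‖(1 - (t - s) / (1 - s)) • (p + s • (q - p) - z) + ((t - s) / (1 - s)) • (q - z)‖
          ≤ ‖(1 - (t - s) / (1 - s)) • (p + s • (q - p) - z)‖ + ‖((t - s) / (1 - s)) • (q - z)‖ :=
            norm_add_le _ _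
        _ = (1 - (t - s) / (1 - s)) * ‖p + s • (q - p) - z‖ + ((t - s) / (1 - s)) * ‖q - z‖ := by
            rw [norm_smul, norm_smul, Real.norm_eq_abs, Real.norm_eq_abs,
              abs_of_nonneg (by linarith), abs_of_nonneg hθ0]
        _ ≤ (1 - (t - s) / (1 - s)) * δ + ((t - s) / (1 - s)) * δ := by
            rw [hsδ]
            gcongr
        _ = δ := by ring)
    calc dist' μ f 0 (p + s • (q - p)) + ENNReal.ofReal (μ (q - (p + s • (q - p)))) * m
        ≤ (c + segCost μ f p (p + s • (q - p))) + ENNReal.ofReal (μ (q - (p + s • (q - p)))) * m := by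
          gcongr
          exact (dist_extend μ f 0 p _).trans (by gcongr; exact h.1)
      _ = c + (segCost μ f p (p + s • (q - p)) + ENNReal.ofReal (μ (q - (p + s • (q - p)))) * m) := by
          ring
      _ ≤ c + segCost μ f p q := by gcongr

theorem Inv.path {μ : Seminorm ℝ (E D)} {z : E D} {δ : ℝ} {m : ℝ≥0∞}
    (hm : ∀ x, ‖x - z‖ ≤ δ → m ≤ dens f x) (l : List (E D)) {p q : E D} {c : ℝ≥0∞}
    (h : Inv μ f z δ m p c) : Inv μ f z δ m q (c + pathCost μ f p l q) := by
  induction l generalizing p c with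
  | nil => exact h.step hm
  | cons v l ih =>
    have h1 := ih (h.step (q := v) hm)
    rw [add_assoc] at h1
    exact h1

theorem dist_self_zero (μ : Seminorm ℝ (E D)) (f : E D → ℝ) : dist' μ f 0 0 = 0 := by
  refine le_antisymm ?_ zero_le
  refine (iInf_le _ []).trans ?_
  show segCost μ f 0 0 ≤ 0
  unfold segCost
  simp

/-- near-optimal paths cross the sphere -/
theorem cross_sphere {μ : Seminorm ℝ (E D)} {z : E D} {δ : ℝ} {m : ℝ≥0∞}
    (hm : ∀ x, ‖x - z‖ ≤ δ → m ≤ dens f x) (hδ0 : 0 ≤ δ) (hδ : δ < ‖z‖) {c : ℝ≥0∞}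
    (hc : dist' μ f 0 z < c) :
    ∃ w, ‖w - z‖ = δ ∧ dist' μ f 0 w + ENNReal.ofReal (μ (z - w)) * m ≤ c := by
  unfold dist' at hc
  rw [iInf_lt_iff] at hc
  obtain ⟨l, hl⟩ := hc
  have h0 : Inv μ f z δ m 0 0 := by
    refine ⟨(dist_self_zero μ f).le, fun h => ?_⟩
    rw [zero_sub, norm_neg] at h
    exact absurd h (not_le.mpr hδ)
  have h1 := h0.path hm l (q := z)
  obtain ⟨w, hw, hw2⟩ := h1.2 (by simpa using hδ0)
  refine ⟨w, hw, hw2.trans ?_⟩
  rw [zero_add]
  exact hl.le

end Weights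

end

end Pool.Agent.V11320.EdenShape
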