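import Mathlib
import Pool.Agent.V11320.EdenShape

set_option autoImplicit false
open MeasureTheory
open scoped ENNReal NNReal BigOperators Topology

namespace Pool.Agent.V11320.EdenShape

noncomputable section

variable {d : ℕ}

/-- the sum of the absolute values of the coordinates after the first -/
def S1 (x : E (d + 2)) : ℝ := ∑ i : Fin (d + 1), |x i.succ|

/-- the gauge `|x₁| + 2 (|x₂| + ... + |x_D|)` -/
def N (x : E (d + 2)) : ℝ := |x 0| + 2 * S1 x

theorem S1_nonneg (x : E (d + 2)) : 0 ≤ S1 x := Finset.sum_nonneg fun i _ => abs_nonneg _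

theorem N_nonneg (x : E (d + 2)) : 0 ≤ N x := by
  have := S1_nonneg x
  unfold N
  positivity

theorem norm_le (x : E (d + 2)) : ‖x‖ ≤ |x 0| + S1 x := by
  rw [EuclideanSpace.norm_eq]
  refine Real.sqrt_le_iff.mpr ⟨by have := S1_nonneg x; positivity, ?_⟩
  rw [Fin.sum_univ_succ]
  have h1 : ∑ i : Fin (d + 1), ‖x i.succ‖ ^ 2 ≤ (S1 x) ^ 2 := by
    have h3 : ∀ i : Fin (d + 1), ‖x i.succ‖ ^ 2 ≤ |x i.succ| * S1 x := by
      intro i
      rw [Real.norm_eq_abs, sq]
      refine mul_le_mul_of_nonneg_left ?_ (abs_nonneg _)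
      exact Finset.single_le_sum (f := fun i : Fin (d + 1) => |x i.succ|)
        (fun i _ => abs_nonneg _) (Finset.mem_univ i)
    refine (Finset.sum_le_sum fun i _ => h3 i).trans (le_of_eq ?_)
    rw [← Finset.sum_mul, sq]
    rfl
  have h2 : ‖x 0‖ = |x 0| := Real.norm_eq_abs _
  rw [h2]
  nlinarith [abs_nonneg (x 0), S1_nonneg x, mul_nonneg (abs_nonneg (x 0)) (S1_nonneg x)]

theorem coord_le (x : E (d + 2)) (i : Fin (d + 2)) : |x i| ≤ ‖x‖ := by
  rw [← Real.norm_eq_abs]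
  exact PiLp.norm_apply_le x i

theorem S1_le (x : E (d + 2)) : S1 x ≤ (d + 1) * ‖x‖ := by
  unfold S1
  calc ∑ i : Fin (d + 1), |x i.succ| ≤ ∑ _i : Fin (d + 1), ‖x‖ :=
        Finset.sum_le_sum fun i _ => coord_le x _
    _ = _ := by simp

theorem S1_smul (r : ℝ) (x : E (d + 2)) : S1 (r • x) = |r| * S1 x := by
  unfold S1
  rw [Finset.mul_sum]
  refine Finset.sum_congr rfl fun i _ => ?_
  rw [PiLp.smul_apply, smul_eq_mul, abs_mul]

theorem N_smul (r : ℝ) (x : E (d + 2)) : N (r • x) = |r| * N x := by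
  unfold N
  rw [S1_smul, PiLp.smul_apply, smul_eq_mul, abs_mul]
  ring

theorem N_pos {x : E (d + 2)} (hx : x ≠ 0) : 0 < N x := by
  have h1 := norm_pos_iff.mpr hx
  have h2 := norm_le x
  have h3 := S1_nonneg x
  unfold N
  linarith

/-- the first basis vector -/
def e0 (d : ℕ) : E (d + 2) := EuclideanSpace.single 0 1

/-- the second basis vector -/
def e1 (d : ℕ) : E (d + 2) := EuclideanSpace.single 1 1

theorem e0_norm : ‖e0 d‖ = 1 := by simp [e0]

theorem e0_zero : (e0 d) 0 = 1 := by simp [e0]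
theorem e0_succ (i : Fin (d + 1)) : (e0 d) i.succ = 0 := by simp [e0]
theorem e1_zero : (e1 d) 0 = 0 := by simp [e1]
theorem e1_succ (i : Fin (d + 1)) : (e1 d) i.succ = if i = 0 then 1 else 0 := by
  unfold e1
  rw [EuclideanSpace.single_apply]
  have : i.succ = 1 ↔ i = 0 := by
    rw [← Fin.succ_zero_eq_one, Fin.succ_inj]
  simp only [this]

theorem N_e0 : N (e0 d) = 1 := by
  unfold N S1
  simp [e0_zero, e0_succ]

theorem N_e0_e1 (y : ℝ) (hy : 0 ≤ y) : N (e0 d + y • e1 d) = 1 + 2 * y := by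
  unfold N S1
  have h1 : ∀ i : Fin (d + 1), |(e0 d + y • e1 d) i.succ| = if i = 0 then y else 0 := by
    intro i
    rw [PiLp.add_apply, PiLp.smul_apply, e0_succ, e1_succ]
    by_cases hi : i = 0
    · simp [hi, abs_of_nonneg hy]
    · simp [hi]
  simp_rw [h1]
  rw [PiLp.add_apply, PiLp.smul_apply, e0_zero, e1_zero]
  simp

/-- first order lower bound of the power function -/
theorem pow_lower (β η : ℝ) (hη : 0 < η) :
    ∃ r : ℝ, 0 < r ∧ ∀ t : ℝ, |t| < r → 1 + β * t - η * |t| ≤ (1 + t) ^ β := by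
  have h1 : HasDerivAt (fun t : ℝ => (1 + t) ^ β) β 0 := by
    have h2 : HasDerivAt (fun t : ℝ => 1 + t) 1 0 := (hasDerivAt_id (0 : ℝ)).const_add 1
    have h3 := h2.rpow_const (p := β) (Or.inl (by norm_num))
    simpa using h3
  rw [hasDerivAt_iff_isLittleO] at h1
  have h4 := h1.def hη
  obtain ⟨r, hr, h5⟩ := Metric.eventually_nhds_iff.mp h4
  refine ⟨r, hr, fun t ht => ?_⟩
  have h6 := @h5 t (by rw [Real.dist_eq, sub_zero]; exact ht)
  simp only [add_zero, Real.one_rpow, sub_zero, smul_eq_mul, Real.norm_eq_abs] at h6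
  have h7 := (abs_le.mp h6).1
  linarith

variable {μ : Seminorm ℝ (E (d + 2))} {α : ℝ} {f : E (d + 2) → ℝ}

theorem dist_lower_bound (hα : α < 1) (hf : IsWeight α f)
    (hK : ∀ x, dist' μ f 0 x ≤ 1 → N x ≤ 1) {w : E (d + 2)} (hw : w ≠ 0) :
    ENNReal.ofReal ((N w) ^ (1 - α)) ≤ dist' μ f 0 w := by
  by_contra hlt
  push Not at hlt
  have hN := N_pos hw
  have hβ : 0 < 1 - α := by linarith
  have hv : dist' μ f 0 w ≠ ⊤ := ne_top_of_lt hlt
  set v := (dist' μ f 0 w).toReal with hvdef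
  have hv0 : 0 ≤ v := ENNReal.toReal_nonneg
  have hvlt : v < (N w) ^ (1 - α) := by
    have := (ENNReal.toReal_lt_toReal hv ENNReal.ofReal_ne_top).mpr hlt
    rwa [ENNReal.toReal_ofReal (by positivity)] at this
  set r : ℝ := max (v ^ (1 - α)⁻¹) (N w / 2) with hr
  have hr0 : 0 < r := lt_of_lt_of_le (by positivity) (le_max_right _ _)
  have hrN : r < N w := by
    rw [hr, max_lt_iff]
    constructor
    · have h1 : v ^ (1 - α)⁻¹ < ((N w) ^ (1 - α)) ^ (1 - α)⁻¹ :=
        Real.rpow_lt_rpow hv0 hvlt (by positivity)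
      rwa [← Real.rpow_mul hN.le, mul_inv_cancel₀ hβ.ne', Real.rpow_one] at h1
    · linarith
  have hvr : v ≤ r ^ (1 - α) := by
    calc v = (v ^ (1 - α)⁻¹) ^ (1 - α) := by
          rw [← Real.rpow_mul hv0, inv_mul_cancel₀ hβ.ne', Real.rpow_one]
      _ ≤ r ^ (1 - α) := Real.rpow_le_rpow (by positivity) (le_max_left _ _) hβ.le
  have h1 := dist_scale μ hf w (inv_pos.mpr hr0)
  have h2 : ENNReal.ofReal (r⁻¹ ^ (1 - α)) * dist' μ f 0 w ≤ 1 := by
    rw [← ENNReal.ofReal_toReal hv, ← ENNReal.ofReal_mul (by positivity), ← hvdef,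
      ← ENNReal.ofReal_one]
    refine ENNReal.ofReal_le_ofReal ?_
    rw [Real.inv_rpow hr0.le, inv_mul_le_iff₀ (Real.rpow_pos_of_pos hr0 _), mul_one]
    exact hvr
  have h3 := hK _ (h1.trans h2)
  rw [N_smul, abs_of_pos (inv_pos.mpr hr0), inv_mul_le_iff₀ hr0, mul_one] at h3
  linarith

theorem stepA (hα : α < 1) (hf : IsWeight α f)
    (hK : ∀ x, N x ≤ 1 ↔ dist' μ f 0 x ≤ 1) :
    2 * (1 - α) ≤ μ (e1 d) * (1 / f (e0 d)) := by
  by_contra hlt
  push Not at hlt
  have hz : e0 d ≠ 0 := by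
    rw [← norm_pos_iff, e0_norm]; exact one_pos
  set κ : ℝ := 1 / f (e0 d) with hκ
  set κ' : ℝ := κ + (2 * (1 - α) - μ (e1 d) * κ) / (2 * (μ (e1 d) + 1)) with hκ'
  have hμ0 : 0 ≤ μ (e1 d) := apply_nonneg _ _
  have hgap : 0 < 2 * (1 - α) - μ (e1 d) * κ := by linarith
  have h1 : κ < κ' := by
    rw [hκ']
    have : 0 < (2 * (1 - α) - μ (e1 d) * κ) / (2 * (μ (e1 d) + 1)) := by positivity
    linarith
  have h2 : μ (e1 d) * κ' < 2 * (1 - α) := by
    rw [hκ', mul_add]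
    have h3 : μ (e1 d) * ((2 * (1 - α) - μ (e1 d) * κ) / (2 * (μ (e1 d) + 1)))
        ≤ (2 * (1 - α) - μ (e1 d) * κ) / 2 := by
      rw [mul_div_assoc', div_le_div_iff₀ (by positivity) (by norm_num)]
      nlinarith
    linarith
  have hcont : ContinuousAt (fun x => 1 / f x) (e0 d) :=
    continuousAt_const.div (hf.continuousAt hz) (hf.pos hz).ne'
  have hev : ∀ᶠ x in 𝓝 (e0 d), 1 / f x < κ' := hcont.eventually_lt_const h1
  obtain ⟨δ, hδ, hball⟩ := Metric.eventually_nhds_iff.mp hev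
  -- the gap in the derivative
  set η : ℝ := (2 * (1 - α) - μ (e1 d) * κ') / 4 with hη
  have hη0 : 0 < η := by rw [hη]; linarith
  obtain ⟨r, hr, hpow⟩ := pow_lower (1 - α) η hη0
  have he1 : ‖e1 d‖ = 1 := by simp [e1]
  set y : ℝ := min (δ / 2) (r / 4) with hy
  have hy0 : 0 < y := by rw [hy]; positivity
  have hyδ : y < δ := by
    have := min_le_left (δ / 2) (r / 4)
    rw [← hy] at this
    linarith
  have hyr : 2 * y < r := by
    have := min_le_right (δ / 2) (r / 4)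
    rw [← hy] at this
    linarith
  have hne : e0 d + y • e1 d ≠ 0 := by
    intro h
    have h3 := N_e0_e1 (d := d) y hy0.le
    rw [h] at h3
    have : N (0 : E (d + 2)) = 0 := by
      unfold N S1
      simp
    rw [this] at h3
    linarith
  have h3 := dist_lower_bound hα hf (fun x => (hK x).mpr) hne
  rw [N_e0_e1 y hy0.le] at h3
  have h4 := dist_extend μ f 0 (e0 d) (e0 d + y • e1 d)
  have h5 : segCost μ f (e0 d) (e0 d + y • e1 d)
      ≤ ENNReal.ofReal (μ (e0 d + y • e1 d - e0 d)) * ENNReal.ofReal κ' := by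
    refine segCost_upper μ f _ _ _ fun t ht => ?_
    rw [add_sub_cancel_left]
    have hd : dist (e0 d + t • y • e1 d) (e0 d) < δ := by
      rw [dist_eq_norm, add_sub_cancel_left, norm_smul, norm_smul, he1, mul_one,
        Real.norm_eq_abs, Real.norm_eq_abs, abs_of_nonneg ht.1, abs_of_pos hy0]
      nlinarith [ht.2]
    unfold dens
    split_ifs
    · exact zero_le
    · exact ENNReal.ofReal_le_ofReal (hball hd).le
  rw [add_sub_cancel_left, map_smul_eq_mul, Real.norm_eq_abs, abs_of_pos hy0,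
    ← ENNReal.ofReal_mul (by positivity)] at h5
  have h6 : dist' μ f 0 (e0 d) ≤ 1 := (hK _).mp N_e0.le
  have h7 : ENNReal.ofReal ((1 + 2 * y) ^ (1 - α)) ≤ ENNReal.ofReal (1 + y * μ (e1 d) * κ') := by
    refine h3.trans (h4.trans ((add_le_add h6 h5).trans ?_))
    have hκ0 : 0 < κ' := lt_trans (by rw [hκ]; have := hf.pos hz; positivity) h1
    rw [ENNReal.ofReal_add one_pos.le (by positivity), ENNReal.ofReal_one]
  have hκ0 : 0 < κ' := lt_trans (by rw [hκ]; have := hf.pos hz; positivity) h1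
  rw [ENNReal.ofReal_le_ofReal_iff (by positivity)] at h7
  have h8 := hpow (2 * y) (by rw [abs_of_pos (by positivity)]; exact hyr)
  rw [abs_of_pos (by positivity)] at h8
  have h9 : 1 + (1 - α) * (2 * y) - η * (2 * y) ≤ 1 + y * μ (e1 d) * κ' := h8.trans h7
  have h10 : y * (2 * (1 - α) - 2 * η - μ (e1 d) * κ') ≤ 0 := by nlinarith
  have h11 : 0 < 2 * (1 - α) - 2 * η - μ (e1 d) * κ' := by
    rw [hη]; linarith
  nlinarith [mul_pos hy0 h11]

theorem no_weight (hswap : μ (e0 d) = μ (e1 d)) (hproj : ∀ h : E (d + 2), |h 0| * μ (e0 d) ≤ μ h)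
    (hα : α < 1) (hf : IsWeight α f)
    (hK : ∀ x, N x ≤ 1 ↔ dist' μ f 0 x ≤ 1) : False := by
  have hA := stepA hα hf hK
  have hz : e0 d ≠ 0 := by
    rw [← norm_pos_iff, e0_norm]; exact one_pos
  set β : ℝ := 1 - α with hβ
  have hβ0 : 0 < β := by rw [hβ]; linarith
  set κ : ℝ := 1 / f (e0 d) with hκ
  have hκ0 : 0 < κ := by rw [hκ]; have := hf.pos hz; positivity
  obtain ⟨r, hr, hpow⟩ := pow_lower β (β / 4) (by positivity)
  have hcont : ContinuousAt (fun x => 1 / f x) (e0 d) :=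
    continuousAt_const.div (hf.continuousAt hz) (hf.pos hz).ne'
  have hev : ∀ᶠ x in 𝓝 (e0 d), 7 / 8 * κ < 1 / f x := by
    refine hcont.eventually_const_lt ?_
    show 7 / 8 * κ < κ
    linarith
  obtain ⟨δ0, hδ0, hball⟩ := Metric.eventually_nhds_iff.mp hev
  set δ : ℝ := min (δ0 / 2) (min (1 / 2) (r / (4 * (d + 2)))) with hδ
  have hδpos : 0 < δ := by rw [hδ]; positivity
  have hδ1 : δ ≤ δ0 / 2 := min_le_left _ _
  have hδ2 : δ ≤ 1 / 2 := (min_le_right _ _).trans (min_le_left _ _)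
  have hδ3 : δ ≤ r / (4 * (d + 2)) := (min_le_right _ _).trans (min_le_right _ _)
  have hm : ∀ x : E (d + 2), ‖x - e0 d‖ ≤ δ → ENNReal.ofReal (7 / 8 * κ) ≤ dens f x := by
    intro x hx
    have hx0 : x ≠ 0 := by
      rintro rfl
      rw [zero_sub, norm_neg, e0_norm] at hx
      linarith
    unfold dens
    rw [if_neg hx0]
    refine ENNReal.ofReal_le_ofReal (hball ?_).le
    rw [dist_eq_norm]
    linarith
  set ε : ℝ := β * δ / 4 with hε
  have hε0 : 0 < ε := by rw [hε]; positivity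
  have h6 : dist' μ f 0 (e0 d) ≤ 1 := (hK _).mp N_e0.le
  obtain ⟨w, hw, hcost⟩ := cross_sphere (μ := μ) (f := f) (z := e0 d) hm hδpos.le
    (by rw [e0_norm]; linarith) (c := ENNReal.ofReal (1 + ε))
    (lt_of_le_of_lt h6 (by rw [← ENNReal.ofReal_one]; exact (ENNReal.ofReal_lt_ofReal_iff (by linarith)).mpr (by linarith)))
  have hw0 : w ≠ 0 := by
    rintro rfl
    rw [zero_sub, norm_neg, e0_norm] at hw
    linarith
  set h : E (d + 2) := w - e0 d with hh
  have hlow := dist_lower_bound hα hf (fun x => (hK x).mpr) hw0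
  have hμh : μ (e0 d - w) = μ h := by rw [hh, ← map_neg_eq_map, neg_sub]
  rw [hμh] at hcost
  have hsum : ENNReal.ofReal ((N w) ^ β + μ h * (7 / 8 * κ)) ≤ ENNReal.ofReal (1 + ε) := by
    refine le_trans ?_ hcost
    rw [ENNReal.ofReal_add (Real.rpow_nonneg (N_nonneg w) _)
      (mul_nonneg (apply_nonneg _ _) (by positivity)), ENNReal.ofReal_mul (apply_nonneg _ _)]
    gcongr
  rw [ENNReal.ofReal_le_ofReal_iff (by positivity)] at hsum
  -- coordinates
  have hh0 : |h 0| ≤ δ := (coord_le h 0).trans hw.le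
  have hw0c : w 0 = 1 + h 0 := by
    rw [hh, PiLp.sub_apply, e0_zero]; ring
  have hwS : S1 w = S1 h := by
    unfold S1
    refine Finset.sum_congr rfl fun i _ => ?_
    rw [hh, PiLp.sub_apply, e0_succ, sub_zero]
  have hNw : N w = 1 + (h 0 + 2 * S1 h) := by
    unfold N
    rw [hwS, hw0c, abs_of_pos (by linarith [(abs_le.mp hh0).1])]
    ring
  have hS0 := S1_nonneg h
  have hSle : S1 h ≤ (d + 1) * δ := by
    have := S1_le h
    rwa [hw] at this
  have ht : |h 0 + 2 * S1 h| ≤ |h 0| + 2 * S1 h := by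
    refine (abs_add_le _ _).trans ?_
    rw [abs_of_nonneg (by positivity : (0 : ℝ) ≤ 2 * S1 h)]
  have htr : |h 0 + 2 * S1 h| < r := by
    have h1 : δ * (4 * (d + 2)) ≤ r := by
      rwa [le_div_iff₀ (by positivity)] at hδ3
    have h2 : (0 : ℝ) ≤ d := by positivity
    nlinarith
  have h8 := hpow _ htr
  rw [← hNw] at h8
  have h9 : |h 0| * (7 / 4 * β) ≤ μ h * (7 / 8 * κ) := by
    have h10 := hproj h
    rw [hswap] at h10
    calc |h 0| * (7 / 4 * β) = |h 0| * (2 * β) * (7 / 8) := by ring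
      _ ≤ |h 0| * (μ (e1 d) * κ) * (7 / 8) := by gcongr
      _ = |h 0| * μ (e1 d) * (7 / 8 * κ) := by ring
      _ ≤ μ h * (7 / 8 * κ) := by gcongr
  have h11 : δ ≤ |h 0| + S1 h := by
    rw [← hw]
    exact norm_le h
  have h12 := neg_abs_le (h 0)
  have h13 : β * (h 0 + 2 * S1 h) - β / 4 * |h 0 + 2 * S1 h| + |h 0| * (7 / 4 * β) ≤ ε := by
    linarith
  have h14 : β / 2 * δ ≤ ε := by nlinarith [abs_nonneg (h 0)]
  rw [hε] at h14
  nlinarith [mul_pos hβ0 hδpos]

end

end Pool.Agent.V11320.EdenShape
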