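import Mathlib
import Pool.Agent.V11320.EdenShape2

set_option autoImplicit false
open MeasureTheory
open scoped ENNReal NNReal BigOperators Topology

namespace Pool.Agent.V11320.EdenShape

noncomputable section

/-- The nearest-neighbour graph of `ℤ^D`. -/
def ZG (D : ℕ) : SimpleGraph (Fin D → ℤ) where
  Adj x y := ∑ i, |x i - y i| = 1
  symm := ⟨fun x y h => by
    rw [← h]
    exact Finset.sum_congr rfl fun i _ => abs_sub_comm _ _⟩
  loopless := ⟨fun x h => by simp at h⟩

instance instExp : IsProbabilityMeasure (ProbabilityTheory.expMeasure 1) :=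
  ProbabilityTheory.isProbabilityMeasure_expMeasure one_pos

/-- The law of independent exponential passage times of parameter `1` on the edges of `ℤ^D`. -/
def passageLaw (D : ℕ) : Measure ((ZG D).edgeSet → ℝ) :=
  Measure.infinitePi fun _ => ProbabilityTheory.expMeasure 1

instance instLaw (D : ℕ) : IsProbabilityMeasure (passageLaw D) := by
  unfold passageLaw; infer_instance

/-- The passage time of a walk. -/
def walkTime {D : ℕ} (ω : (ZG D).edgeSet → ℝ) {x y : Fin D → ℤ} (γ : (ZG D).Walk x y) : ℝ :=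
  (γ.darts.map fun e => ω ⟨e.edge, e.edge_mem⟩).sum

/-- The first passage time between two vertices. -/
def passageTime {D : ℕ} (ω : (ZG D).edgeSet → ℝ) (x y : Fin D → ℤ) : ℝ :=
  ⨅ γ : (ZG D).Walk x y, walkTime ω γ

/-- A lattice point as a point of Euclidean space. -/
def toE {D : ℕ} (x : Fin D → ℤ) : E D := WithLp.toLp 2 fun i => (x i : ℝ)

/-- `μ` is the norm whose closed unit ball is the limit shape of the Eden model, that is, of first
passage percolation with exponential passage times of parameter `1`: it is positive away from `0`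
and `T(0, n x) / n` converges almost surely to `μ x` for every lattice point `x`. -/
def IsEdenNorm {D : ℕ} (μ : Seminorm ℝ (E D)) : Prop :=
  (∀ x, x ≠ 0 → 0 < μ x) ∧
  ∀ x : Fin D → ℤ, ∀ᵐ ω ∂(passageLaw D),
    Filter.Tendsto (fun n : ℕ => passageTime ω 0 (n • x) / n) Filter.atTop (𝓝 (μ (toE x)))

variable {D : ℕ}

/-- transport of a configuration -/
def act (ψ : ZG D ≃g ZG D) (ω : (ZG D).edgeSet → ℝ) : (ZG D).edgeSet → ℝ :=
  fun e => ω (ψ.mapEdgeSet e)

theorem walkTime_act (ψ : ZG D ≃g ZG D) (ω : (ZG D).edgeSet → ℝ) {x y : Fin D → ℤ}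
    (γ : (ZG D).Walk x y) : walkTime (act ψ ω) γ = walkTime ω (γ.map ψ.toHom) := by
  unfold walkTime
  rw [SimpleGraph.Walk.darts_map, List.map_map]
  rfl

theorem range_act (ψ : ZG D ≃g ZG D) (ω : (ZG D).edgeSet → ℝ) (x y : Fin D → ℤ) :
    Set.range (fun γ : (ZG D).Walk x y => walkTime (act ψ ω) γ)
      ⊆ Set.range (fun γ : (ZG D).Walk (ψ x) (ψ y) => walkTime ω γ) := by
  rintro _ ⟨γ, rfl⟩
  exact ⟨γ.map ψ.toHom, (walkTime_act ψ ω γ).symm⟩

theorem act_act (ψ : ZG D ≃g ZG D) (ω : (ZG D).edgeSet → ℝ) : act ψ.symm (act ψ ω) = ω := by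
  funext e
  unfold act
  congr 1
  exact ψ.mapEdgeSet.apply_symm_apply e

theorem passageTime_act (ψ : ZG D ≃g ZG D) (ω : (ZG D).edgeSet → ℝ) (x y : Fin D → ℤ) :
    passageTime (act ψ ω) x y = passageTime ω (ψ x) (ψ y) := by
  unfold passageTime
  have h1 := range_act ψ ω x y
  have h2 := range_act ψ.symm (act ψ ω) (ψ x) (ψ y)
  rw [act_act, ψ.symm_apply_apply, ψ.symm_apply_apply] at h2
  show sInf (Set.range fun γ : (ZG D).Walk x y => walkTime (act ψ ω) γ)
    = sInf (Set.range fun γ : (ZG D).Walk (ψ x) (ψ y) => walkTime ω γ)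
  rw [Set.Subset.antisymm h1 h2]

theorem act_law (ψ : ZG D ≃g ZG D) : (passageLaw D).map (act ψ) = passageLaw D :=
  Measure.map_infinitePi_infinitePi_of_inj
    (P := fun _ : (ZG D).edgeSet => ProbabilityTheory.expMeasure 1)
    (f := fun e => ψ.mapEdgeSet e) ψ.mapEdgeSet.injective

theorem act_measurable (ψ : ZG D ≃g ZG D) : Measurable (act ψ) := by
  unfold act
  fun_prop

theorem eden_symm {μ : Seminorm ℝ (E D)} (hμ : IsEdenNorm μ) (ψ : ZG D ≃g ZG D)
    (h0 : ψ 0 = 0) (hadd : ∀ (n : ℕ) (x : Fin D → ℤ), ψ (n • x) = n • ψ x) (x : Fin D → ℤ) :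
    μ (toE (ψ x)) = μ (toE x) := by
  have h1 := hμ.2 x
  have h2 := hμ.2 (ψ x)
  have h3 : ∀ᵐ ω ∂(passageLaw D), Filter.Tendsto
      (fun n : ℕ => passageTime (act ψ ω) 0 (n • x) / n) Filter.atTop (𝓝 (μ (toE x))) := by
    have hmp : MeasurePreserving (act ψ) (passageLaw D) (passageLaw D) :=
      ⟨act_measurable ψ, act_law ψ⟩
    exact hmp.quasiMeasurePreserving.ae h1
  obtain ⟨ω, h4, h5⟩ := (h2.and h3).exists
  have h6 : (fun n : ℕ => passageTime (act ψ ω) 0 (n • x) / n)
      = fun n : ℕ => passageTime ω 0 (n • ψ x) / n := by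
    funext n
    rw [passageTime_act, h0, hadd]
  rw [h6] at h5
  exact tendsto_nhds_unique h4 h5

/-- swapping the first two coordinates -/
def swapIso (d : ℕ) : ZG (d + 2) ≃g ZG (d + 2) where
  toEquiv := Equiv.piCongrLeft (fun _ : Fin (d + 2) => ℤ) (Equiv.swap 0 1)
  map_rel_iff' := by
    intro x y
    show ∑ i, |(Equiv.piCongrLeft (fun _ : Fin (d + 2) => ℤ) (Equiv.swap 0 1)) x i
      - (Equiv.piCongrLeft (fun _ : Fin (d + 2) => ℤ) (Equiv.swap 0 1)) y i| = 1 ↔
      ∑ i, |x i - y i| = 1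
    have h1 : ∀ (z : Fin (d + 2) → ℤ) (i : Fin (d + 2)),
        (Equiv.piCongrLeft (fun _ : Fin (d + 2) => ℤ) (Equiv.swap 0 1)) z i
          = z (Equiv.swap 0 1 i) := by
      intro z i
      rw [Equiv.piCongrLeft_apply]
      simp
    simp_rw [h1]
    rw [Equiv.sum_comp (Equiv.swap (0 : Fin (d + 2)) 1) (fun i => |x i - y i|)]

theorem swapIso_apply (d : ℕ) (z : Fin (d + 2) → ℤ) (i : Fin (d + 2)) :
    swapIso d z i = z (Equiv.swap 0 1 i) := by
  show (Equiv.piCongrLeft (fun _ : Fin (d + 2) => ℤ) (Equiv.swap 0 1)) z i = _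
  rw [Equiv.piCongrLeft_apply]
  simp

/-- changing the signs of all coordinates but the first -/
def reflMap (d : ℕ) (z : Fin (d + 2) → ℤ) : Fin (d + 2) → ℤ := fun i => if i = 0 then z i else - z i

theorem reflMap_reflMap (d : ℕ) (z : Fin (d + 2) → ℤ) : reflMap d (reflMap d z) = z := by
  funext i
  unfold reflMap
  split_ifs <;> simp

/-- the corresponding automorphism -/
def reflIso (d : ℕ) : ZG (d + 2) ≃g ZG (d + 2) where
  toFun := reflMap d
  invFun := reflMap d
  left_inv := reflMap_reflMap d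
  right_inv := reflMap_reflMap d
  map_rel_iff' := by
    intro x y
    show ∑ i, |reflMap d x i - reflMap d y i| = 1 ↔ ∑ i, |x i - y i| = 1
    have h1 : ∀ i, |reflMap d x i - reflMap d y i| = |x i - y i| := by
      intro i
      unfold reflMap
      split_ifs
      · rfl
      · rw [neg_sub_neg, abs_sub_comm]
    simp_rw [h1]

theorem toE_single (D : ℕ) (i : Fin D) : toE (Pi.single i 1) = EuclideanSpace.single i (1 : ℝ) := by
  ext j
  unfold toE
  by_cases h : j = i
  · subst h; simp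
  · simp [h]

theorem eden_swap {d : ℕ} {μ : Seminorm ℝ (E (d + 2))} (hμ : IsEdenNorm μ) :
    μ (e0 d) = μ (e1 d) := by
  have h := eden_symm hμ (swapIso d) (by funext i; rw [swapIso_apply]; rfl)
    (by
      intro n x
      funext i
      rw [swapIso_apply, Pi.smul_apply, Pi.smul_apply, swapIso_apply]) (Pi.single 1 1)
  have h1 : swapIso d (Pi.single 1 1) = Pi.single 0 1 := by
    funext i
    rw [swapIso_apply]
    by_cases h0 : i = 0
    · subst h0; simp
    · rw [Pi.single_apply, Pi.single_apply, if_neg h0, if_neg]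
      intro h2
      apply h0
      rw [Equiv.swap_apply_eq_iff] at h2
      simpa using h2
  rw [h1, toE_single, toE_single] at h
  exact h

theorem toE_add {D : ℕ} (x y : Fin D → ℤ) : toE (x + y) = toE x + toE y := by
  ext i
  simp [toE]

theorem eden_proj_int {d : ℕ} {μ : Seminorm ℝ (E (d + 2))} (hμ : IsEdenNorm μ)
    (x : Fin (d + 2) → ℤ) : |(x 0 : ℝ)| * μ (e0 d) ≤ μ (toE x) := by
  have h := eden_symm hμ (reflIso d) (by
      funext i
      show reflMap d 0 i = 0
      unfold reflMap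
      simp)
    (by
      intro n x
      funext i
      show reflMap d (n • x) i = n • reflMap d x i
      unfold reflMap
      split_ifs <;> simp) x
  have h1 : toE x + toE (reflIso d x) = (2 * (x 0 : ℝ)) • e0 d := by
    rw [← toE_add]
    ext i
    show ((x i + reflMap d x i : ℤ) : ℝ) = _
    unfold reflMap e0
    by_cases hi : i = 0
    · subst hi
      simp
      ring
    · simp [hi]
  have h2 := map_add_le_add μ (toE x) (toE (reflIso d x))
  rw [h1, map_smul_eq_mul, h, Real.norm_eq_abs, abs_mul, abs_of_pos (by norm_num : (0:ℝ) < 2)] at h2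
  linarith

theorem eden_proj {d : ℕ} {μ : Seminorm ℝ (E (d + 2))} (hμ : IsEdenNorm μ) (h : E (d + 2)) :
    |h 0| * μ (e0 d) ≤ μ h := by
  -- a bound on the cube
  set C : ℝ := ∑ i : Fin (d + 2), μ (EuclideanSpace.single i (1 : ℝ)) with hC
  have hcube : ∀ v : E (d + 2), (∀ i, |v i| ≤ 1) → μ v ≤ C := by
    intro v hv
    have h1 : v = ∑ i, v i • EuclideanSpace.single i (1 : ℝ) := by
      ext j
      rw [WithLp.ofLp_sum, Finset.sum_apply]
      simp [Pi.single_apply]
    calc μ v = μ (∑ i, v i • EuclideanSpace.single i (1 : ℝ)) := by rw [← h1]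
      _ ≤ ∑ i, μ (v i • EuclideanSpace.single i (1 : ℝ)) := 
          Finset.le_sum_of_subadditive μ (map_zero μ).le (map_add_le_add μ) _ _
      _ ≤ C := by
          rw [hC]
          refine Finset.sum_le_sum fun i _ => ?_
          rw [map_smul_eq_mul, Real.norm_eq_abs]
          have := apply_nonneg μ (EuclideanSpace.single i (1 : ℝ))
          nlinarith [hv i]
  have hkey : ∀ n : ℕ, (n : ℝ) * (|h 0| * μ (e0 d) - μ h) ≤ C + μ (e0 d) := by
    intro n
    set x : Fin (d + 2) → ℤ := fun i => ⌊(n : ℝ) * h i⌋ with hx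
    have h1 := eden_proj_int hμ x
    have hfl : ∀ i, |(n : ℝ) * h i - x i| ≤ 1 := by
      intro i
      have h2 := Int.floor_le ((n : ℝ) * h i)
      have h3 := Int.lt_floor_add_one ((n : ℝ) * h i)
      rw [abs_le]
      constructor <;> linarith
    have h2 : μ (toE x) ≤ n * μ h + C := by
      have h3 : toE x = (n : ℝ) • h + (toE x - (n : ℝ) • h) := by abel
      rw [h3]
      refine (map_add_le_add μ _ _).trans ?_
      rw [map_smul_eq_mul, Real.norm_eq_abs, abs_of_nonneg (by positivity)]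
      refine add_le_add le_rfl (hcube _ fun i => ?_)
      have h4 : (toE x - (n : ℝ) • h) i = x i - n * h i := by
        rw [PiLp.sub_apply, PiLp.smul_apply, smul_eq_mul]
        rfl
      rw [h4, abs_sub_comm]
      exact hfl i
    have h3 : (n : ℝ) * |h 0| ≤ |(x 0 : ℝ)| + 1 := by
      have h4 : (n : ℝ) * |h 0| = |(n : ℝ) * h 0| := by
        rw [abs_mul, abs_of_nonneg (by positivity : (0 : ℝ) ≤ n)]
      rw [h4]
      calc |(n : ℝ) * h 0| = |(x 0 : ℝ) + (n * h 0 - x 0)| := by congr 1; ring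
        _ ≤ |(x 0 : ℝ)| + |n * h 0 - x 0| := abs_add_le _ _
        _ ≤ _ := by gcongr; exact hfl 0
    have h5 := apply_nonneg μ (e0 d)
    nlinarith
  by_contra hlt
  push Not at hlt
  have hgap : 0 < |h 0| * μ (e0 d) - μ h := by linarith
  obtain ⟨n, hn⟩ := exists_nat_gt ((C + μ (e0 d)) / (|h 0| * μ (e0 d) - μ h))
  rw [div_lt_iff₀ hgap] at hn
  linarith [hkey n]

end

end Pool.Agent.V11320.EdenShape
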