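import Mathlib

set_option autoImplicit false
open MeasureTheory ProbabilityTheory
open scoped ENNReal NNReal BigOperators Topology

namespace Pool.Agent.V11320.Bng

noncomputable section

/-- signed directions of the lattice; `(i, true)` is the positive one -/
abbrev Dir (d : ℕ) : Type := Fin d × Bool

/-- the lattice -/
abbrev V (d : ℕ) : Type := Fin d → ℤ

/-- the unit vector of a direction -/
def vec {d : ℕ} (s : Dir d) : V d := Pi.single s.1 (if s.2 then 1 else -1)

/-- the opposite direction -/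
def opp {d : ℕ} (s : Dir d) : Dir d := (s.1, !s.2)

theorem card_dir (d : ℕ) : Fintype.card (Dir d) = 2 * d := by
  simp [mul_comm]

theorem pow_nonempty {d k : ℕ} (h : k ≤ 2 * d) :
    (Finset.powersetCard k (Finset.univ : Finset (Dir d))).Nonempty := by
  apply Finset.powersetCard_nonempty_of_le
  rw [Finset.card_univ, card_dir]
  exact h

/-- the law of a uniformly random `k`-subset of the directions (the value for `k > 2d` is never
used) -/
def choiceLaw (d k : ℕ) : Measure (Finset (Dir d)) :=
  if h : k ≤ 2 * d then (PMF.uniformOfFinset _ (pow_nonempty h)).toMeasure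
  else Measure.dirac ∅

instance (d k : ℕ) : IsProbabilityMeasure (choiceLaw d k) := by
  unfold choiceLaw
  split_ifs
  · infer_instance
  · infer_instance

/-- the law of the independent choices of all vertices -/
def law (d k : ℕ) : Measure (V d → Finset (Dir d)) :=
  Measure.infinitePi fun _ : V d => choiceLaw d k

instance (d k : ℕ) : IsProbabilityMeasure (law d k) := by
  unfold law; infer_instance

/-- the bidirectional graph -/
def bng {d : ℕ} (A : V d → Finset (Dir d)) : SimpleGraph (V d) where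
  Adj x y := ∃ s : Dir d, y = x + vec s ∧ s ∈ A x ∧ opp s ∈ A y
  symm := ⟨by
    rintro x y ⟨s, h1, h2, h3⟩
    refine ⟨opp s, ?_, h3, ?_⟩
    · rw [h1]
      obtain ⟨i, b⟩ := s
      funext c
      simp only [Pi.add_apply, vec, opp, Pi.single_apply]
      by_cases hc : c = i
      · cases b <;> simp [hc]
      · simp [hc]
    · have : opp (opp s) = s := by simp [opp]
      rw [this]; exact h2⟩
  loopless := ⟨by
    rintro x ⟨s, h1, _, _⟩
    have h2 := congrFun h1 s.1
    simp only [Pi.add_apply, vec, Pi.single_eq_same] at h2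
    cases hs : s.2 <;> simp [hs] at h2⟩

/-- the probability that a choice contains a given set of `j` directions -/
def pr (d k j : ℕ) : ℝ := ((2 * d - j).choose (k - j) : ℝ) / ((2 * d).choose k : ℝ)

theorem choice_contains {d k : ℕ} (hk : k ≤ 2 * d) (J : Finset (Dir d)) (hJ : J.card ≤ k) :
    choiceLaw d k {S | J ⊆ S} = ENNReal.ofReal (pr d k J.card) := by
  classical
  unfold choiceLaw
  rw [dif_pos hk, PMF.toMeasure_uniformOfFinset_apply _ _ (Set.Finite.measurableSet (Set.toFinite _))]
  have h1 : ∀ inst : DecidablePred fun x : Finset (Dir d) => x ∈ {S : Finset (Dir d) | J ⊆ S},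
      (@Finset.filter _ (fun x : Finset (Dir d) => x ∈ {S : Finset (Dir d) | J ⊆ S}) inst
      (Finset.powersetCard k (Finset.univ : Finset (Dir d)))).card
        = (2 * d - J.card).choose (k - J.card) := by
    intro inst
    have := Finset.card_filter_powersetCard_subset J (Finset.univ : Finset (Dir d)) k
      (Finset.subset_univ _) hJ
    rw [Finset.card_univ, card_dir] at this
    rw [← this]
    congr 1
    ext S
    simp
  rw [h1, Finset.card_powersetCard, Finset.card_univ, card_dir]
  unfold pr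
  rw [ENNReal.ofReal_div_of_pos (by exact_mod_cast Nat.choose_pos hk), ENNReal.ofReal_natCast,
    ENNReal.ofReal_natCast]

theorem pr_pos {d k j : ℕ} (hk : k ≤ 2 * d) : 0 < pr d k j := by
  unfold pr
  apply div_pos
  · exact_mod_cast Nat.choose_pos (by omega)
  · exact_mod_cast Nat.choose_pos hk

theorem pr_zero {d k : ℕ} (hk : k ≤ 2 * d) : pr d k 0 = 1 := by
  unfold pr
  rw [Nat.sub_zero, Nat.sub_zero]
  apply div_self
  exact_mod_cast (Nat.choose_pos hk).ne'

theorem pr_succ {d k j : ℕ} (hk : k ≤ 2 * d) (hj : j < k) :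
    pr d k (j + 1) * ((2 * d : ℝ) - j) = pr d k j * ((k : ℝ) - j) := by
  unfold pr
  obtain ⟨a, rfl⟩ : ∃ a, k = j + 1 + a := ⟨k - (j + 1), by omega⟩
  obtain ⟨b, hb⟩ : ∃ b, 2 * d = j + 1 + b := ⟨2 * d - (j + 1), by omega⟩
  have e1 : 2 * d - j = b + 1 := by omega
  have e2 : 2 * d - (j + 1) = b := by omega
  have e3 : j + 1 + a - (j + 1) = a := by omega
  have e4 : j + 1 + a - j = a + 1 := by omega
  rw [e1, e2, e3, e4]
  have hd : (2 * d : ℝ) = j + 1 + b := by exact_mod_cast hb
  have h1 := Nat.add_one_mul_choose_eq b a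
  have h2 : ((b : ℝ) + 1) * (b.choose a : ℝ) = ((b + 1).choose (a + 1) : ℝ) * ((a : ℝ) + 1) := by
    exact_mod_cast h1
  rw [hd]
  push_cast
  have h3 : ((j : ℝ) + 1 + b - j) = b + 1 := by ring
  have h4 : ((j : ℝ) + 1 + a - j) = a + 1 := by ring
  rw [h3, h4, div_mul_eq_mul_div, div_mul_eq_mul_div, mul_comm (b.choose a : ℝ), h2]

/-- the probability of a box event -/
theorem law_box {d k : ℕ} (hk : k ≤ 2 * d) (F : Finset (V d)) (J : V d → Finset (Dir d))
    (hJ : ∀ v ∈ F, (J v).card ≤ k) :
    law d k {A | ∀ v ∈ F, J v ⊆ A v} = ENNReal.ofReal (∏ v ∈ F, pr d k (J v).card) := by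
  have h1 : {A : V d → Finset (Dir d) | ∀ v ∈ F, J v ⊆ A v}
      = Set.pi (F : Set (V d)) fun v => {S | J v ⊆ S} := by
    ext A
    simp [Set.mem_pi]
  rw [h1, law, Measure.infinitePi_pi]
  · rw [ENNReal.ofReal_prod_of_nonneg fun v _ => (pr_pos hk).le]
    exact Finset.prod_congr rfl fun v hv => choice_contains hk _ (hJ v hv)
  · intro v _
    exact Set.Finite.measurableSet (Set.toFinite _)

/-- measurability of the elementary events -/
theorem meas_mem {d : ℕ} (v : V d) (s : Dir d) :
    MeasurableSet {A : V d → Finset (Dir d) | s ∈ A v} :=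
  (measurableSet_mem_finset s).preimage (measurable_pi_apply v)

/-- the event that the origin is in an infinite component -/
def InfComp {d : ℕ} (A : V d → Finset (Dir d)) : Prop := {x | (bng A).Reachable 0 x}.Infinite

/-- the percolation probability -/
def theta (d k : ℕ) : ℝ≥0∞ := law d k {A | InfComp A}

/-- the critical number of choices -/
def kc (d : ℕ) : ℕ := sInf {k : ℕ | 1 ≤ k ∧ k ≤ 2 * d ∧ 0 < theta d k}

/-! inequalities for `pr` -/

theorem pr_one {d k : ℕ} (hd : 1 ≤ d) (hk1 : 1 ≤ k) (hk : k ≤ 2 * d) :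
    pr d k 1 = k / (2 * d) := by
  have h1 := pr_succ (j := 0) hk (by omega)
  rw [pr_zero hk] at h1
  push_cast at h1
  have hd' : (0 : ℝ) < 2 * d := by exact_mod_cast (by omega : 0 < 2 * d)
  rw [eq_div_iff hd'.ne']
  simpa using h1

theorem pr_two {d k : ℕ} (hd : 1 ≤ d) (hk1 : 2 ≤ k) (hk : k ≤ 2 * d) :
    pr d k 2 = k * (k - 1) / (2 * d * (2 * d - 1)) := by
  have h1 := pr_succ (j := 1) hk (by omega)
  rw [pr_one hd (by omega) hk] at h1
  push_cast at h1
  have hd0 : (1 : ℝ) ≤ d := by exact_mod_cast hd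
  have hd' : (0 : ℝ) < 2 * d := by linarith
  have hd'' : (0 : ℝ) < 2 * d - 1 := by linarith
  rw [eq_div_iff (by positivity)]
  have h2 : pr d k 2 * (2 * d * (2 * d - 1)) = 2 * d * (pr d k (1 + 1) * (2 * d - 1)) := by
    norm_num
    ring
  rw [h2, h1]
  field_simp

/-- the ratio used to compare -/
def rr (d k : ℕ) : ℝ := (2 * d - 1) / (k - 1)

theorem rr_ge_one {d k : ℕ} (hk1 : 2 ≤ k) (hk : k ≤ 2 * d) : 1 ≤ rr d k := by
  unfold rr
  have h1 : (2 : ℝ) ≤ k := by exact_mod_cast hk1
  have h2 : (k : ℝ) ≤ 2 * d := by exact_mod_cast hk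
  rw [le_div_iff₀ (by linarith)]
  linarith

end

end Pool.Agent.V11320.Bng
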