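import Mathlib
import Pool.Agent.V11320.Bng

set_option autoImplicit false
open scoped BigOperators Topology

namespace Pool.Agent.V11320.Bng

noncomputable section

/-- probabilities of the symmetric binomial law -/
def cc : ℕ → ℤ → ℝ
  | 0, k => if k = 0 then 1 else 0
  | n + 1, k => (cc n k + cc n (k - 1)) / 2

/-- return type probabilities of the lazy walk -/
def gg (s : ℕ) (x : ℤ) : ℝ := cc (2 * s) (s + x)

theorem gg_zero (x : ℤ) : gg 0 x = if x = 0 then 1 else 0 := by
  simp [gg, cc]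

theorem gg_succ (s : ℕ) (x : ℤ) :
    gg (s + 1) x = (gg s (x - 1) + 2 * gg s x + gg s (x + 1)) / 4 := by
  unfold gg
  have h1 : 2 * (s + 1) = 2 * s + 1 + 1 := by ring
  rw [h1]
  simp only [cc]
  push_cast
  have e1 : (s : ℤ) + 1 + x - 1 = s + x := by ring
  have e2 : (s : ℤ) + 1 + x = s + (x + 1) := by ring
  have e3 : (s : ℤ) + x - 1 = s + (x - 1) := by ring
  rw [e1, e2, e3]
  ring

theorem cc_nonneg (n : ℕ) : ∀ k : ℤ, 0 ≤ cc n k := by
  induction n with
  | zero => intro k; simp only [cc]; split_ifs <;> norm_num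
  | succ n ih => intro k; simp only [cc]; have := ih k; have := ih (k - 1); linarith

theorem cc_neg (n : ℕ) : ∀ k : ℤ, k < 0 → cc n k = 0 := by
  induction n with
  | zero => intro k hk; simp only [cc]; rw [if_neg hk.ne]
  | succ n ih => intro k hk; simp only [cc]; rw [ih k hk, ih (k - 1) (by omega)]; norm_num

theorem cc_nat (n : ℕ) : ∀ k : ℕ, cc n (k : ℤ) = (n.choose k : ℝ) / 2 ^ n := by
  induction n with
  | zero =>
    intro k
    simp only [cc]
    rcases k with _ | k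
    · simp
    · rw [if_neg (by push_cast; omega)]
      simp
  | succ n ih =>
    intro k
    simp only [cc]
    rcases k with _ | k
    · rw [cc_neg n ((0 : ℕ) - 1 : ℤ) (by norm_num), ih 0]
      simp
      rw [pow_succ]
      field_simp
    · have h1 : ((k + 1 : ℕ) : ℤ) - 1 = (k : ℤ) := by push_cast; ring
      rw [h1, ih, ih, Nat.choose_succ_succ]
      push_cast
      rw [pow_succ]
      field_simp
      ring

theorem gg_nonneg (s : ℕ) (x : ℤ) : 0 ≤ gg s x := cc_nonneg _ _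

theorem gg_self (s : ℕ) : gg s 0 = (s.centralBinom : ℝ) / 4 ^ s := by
  unfold gg
  rw [add_zero, cc_nat, Nat.centralBinom, pow_mul]
  norm_num

theorem gg_self_succ (s : ℕ) : gg (s + 1) 0 = gg s 0 * ((2 * s + 1) / (2 * s + 2)) := by
  rw [gg_self, gg_self]
  have h1 := Nat.succ_mul_centralBinom_succ s
  have h2 : ((s : ℝ) + 1) * ((s + 1).centralBinom : ℝ) = 2 * (2 * s + 1) * (s.centralBinom : ℝ) := by
    exact_mod_cast h1
  have h3 : ((s + 1).centralBinom : ℝ) = 2 * (2 * s + 1) * (s.centralBinom : ℝ) / (s + 1) := by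
    field_simp
    linarith
  rw [h3, pow_succ]
  field_simp
  ring

theorem gg_sq (s : ℕ) : gg s 0 ^ 2 * (2 * s + 1) ≤ 1 := by
  induction s with
  | zero => rw [gg_zero]; norm_num
  | succ s ih =>
    rw [gg_self_succ]
    push_cast
    have h1 : (gg s 0 * ((2 * (s : ℝ) + 1) / (2 * s + 2))) ^ 2 * (2 * (s + 1) + 1)
        = (gg s 0 ^ 2 * (2 * s + 1)) * ((2 * s + 1) * (2 * s + 3) / (2 * s + 2) ^ 2) := by
      field_simp
      ring
    rw [h1]
    have h2 : ((2 * (s : ℝ) + 1) * (2 * s + 3) / (2 * s + 2) ^ 2) ≤ 1 := by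
      rw [div_le_one (by positivity)]
      nlinarith
    have h3 : 0 ≤ gg s 0 ^ 2 * (2 * (s : ℝ) + 1) := by positivity
    have h4 : 0 ≤ ((2 * (s : ℝ) + 1) * (2 * s + 3) / (2 * s + 2) ^ 2) := by positivity
    nlinarith

/-- the block used at time `i` -/
def blk (i : ℕ) : Fin 4 := ⟨i % 4, Nat.mod_lt _ (by norm_num)⟩

/-- number of uses of the block `b` during `[i, i + t)` -/
def sb : ℕ → ℕ → Fin 4 → ℕ
  | _, 0, _ => 0
  | i, t + 1, b => sb (i + 1) t b + if b = blk i then 1 else 0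

theorem sb_four (i t : ℕ) (b : Fin 4) : sb i (t + 4) b = sb (i + 4) t b + 1 := by
  simp only [sb]
  have h : ∀ r : ℕ, r < 4 → ((b = blk (i + r)) ↔ (b : ℕ) = (i + r) % 4) := by
    intro r _
    rw [Fin.ext_iff]
    rfl
  have h0 := h 0 (by norm_num)
  have h1 := h 1 (by norm_num)
  have h2 := h 2 (by norm_num)
  have h3 := h 3 (by norm_num)
  have hb := b.2
  have e1 : i + 1 + 1 = i + 2 := rfl
  have e2 : i + 1 + 1 + 1 = i + 3 := rfl
  have e3 : i + 1 + 1 + 1 + 1 = i + 4 := rfl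
  rw [e3, e2, e1]
  rw [add_zero] at h0
  simp only [h0, h1, h2, h3]
  split_ifs <;> omega

theorem sb_ge (q : ℕ) : ∀ i r : ℕ, ∀ b : Fin 4, q ≤ sb i (4 * q + r) b := by
  induction q with
  | zero => intro i r b; exact Nat.zero_le _
  | succ q ih =>
    intro i r b
    have h1 : 4 * (q + 1) + r = (4 * q + r) + 4 := by ring
    rw [h1, sb_four]
    have := ih (i + 4) r b
    omega

/-- the product function -/
def GG (i t : ℕ) (X : Fin 4 → ℤ) : ℝ := ∏ b, gg (sb i t b) (X b)

theorem GG_nonneg (i t : ℕ) (X : Fin 4 → ℤ) : 0 ≤ GG i t X :=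
  Finset.prod_nonneg fun _ _ => gg_nonneg _ _

theorem GG_zero (i : ℕ) : GG i 0 0 = 1 := by
  unfold GG
  simp [sb, gg_zero]

theorem GG_bound (i t : ℕ) : GG i t 0 ≤ 20 * (1 / ((t : ℝ) + 1) - 1 / (t + 2)) := by
  set q := t / 4 with hq
  have ht : t = 4 * q + t % 4 := (Nat.div_add_mod t 4).symm
  have hs : ∀ b, q ≤ sb i t b := by
    intro b
    rw [ht]
    exact sb_ge q i _ b
  have h1 : (GG i t 0) ^ 2 ≤ ((1 / (2 * (q : ℝ) + 1)) ^ 2) ^ 2 := by
    have h2 : ∀ b : Fin 4, gg (sb i t b) 0 ^ 2 ≤ 1 / (2 * (q : ℝ) + 1) := by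
      intro b
      have h3 := gg_sq (sb i t b)
      rw [le_div_iff₀ (by positivity)]
      refine le_trans ?_ h3
      have h4 : (q : ℝ) ≤ sb i t b := by exact_mod_cast hs b
      exact mul_le_mul_of_nonneg_left (by linarith) (sq_nonneg _)
    unfold GG
    rw [← Finset.prod_pow]
    calc ∏ b : Fin 4, gg (sb i t b) ((0 : Fin 4 → ℤ) b) ^ 2
        ≤ ∏ _b : Fin 4, 1 / (2 * (q : ℝ) + 1) := by
          refine Finset.prod_le_prod (fun b _ => sq_nonneg _) fun b _ => ?_
          exact h2 b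
      _ = ((1 / (2 * (q : ℝ) + 1)) ^ 2) ^ 2 := by
          rw [Finset.prod_const, Finset.card_univ, Fintype.card_fin]
          ring
  have h2 : GG i t 0 ≤ (1 / (2 * (q : ℝ) + 1)) ^ 2 :=
    (pow_le_pow_iff_left₀ (GG_nonneg _ _ _) (by positivity) (by norm_num)).mp h1
  refine h2.trans ?_
  have h3 : 20 * (1 / ((t : ℝ) + 1) - 1 / (t + 2)) = 20 / ((t + 1) * (t + 2)) := by
    field_simp
    ring
  rw [h3, one_div, inv_pow, ← one_div, div_le_div_iff₀ (by positivity) (by positivity)]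
  have h4 : (t : ℝ) ≤ 4 * q + 3 := by
    have : t ≤ 4 * q + 3 := by omega
    exact_mod_cast this
  have hq0 : (0 : ℝ) ≤ q := Nat.cast_nonneg _
  have ht0 : (0 : ℝ) ≤ t := Nat.cast_nonneg _
  nlinarith

theorem GG_sum (i m : ℕ) : ∑ t ∈ Finset.range m, GG i t 0 ≤ 20 * (1 - 1 / ((m : ℝ) + 1)) := by
  induction m with
  | zero => simp
  | succ m ih =>
    rw [Finset.sum_range_succ]
    have := GG_bound i m
    push_cast
    have h1 : (m : ℝ) + 1 + 1 = m + 2 := by ring
    rw [h1]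
    linarith

theorem GG_sum_le (i m : ℕ) : ∑ t ∈ Finset.range m, GG i t 0 ≤ 20 := by
  have h1 := GG_sum i m
  have h2 : (0 : ℝ) ≤ 1 / ((m : ℝ) + 1) := by positivity
  linarith

/-- a unit move in one block -/
def mv (b0 : Fin 4) (z : ℤ) (X : Fin 4 → ℤ) : Fin 4 → ℤ := X + Pi.single b0 z

theorem GG_step (i t : ℕ) (X : Fin 4 → ℤ) :
    GG i (t + 1) X = (GG (i + 1) t (mv (blk i) (-1) X) + 2 * GG (i + 1) t X
      + GG (i + 1) t (mv (blk i) 1 X)) / 4 := by
  have key : ∀ z : ℤ, GG (i + 1) t (mv (blk i) z X) = gg (sb (i + 1) t (blk i)) (X (blk i) + z)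
      * ∏ b ∈ Finset.univ.erase (blk i), gg (sb (i + 1) t b) (X b) := by
    intro z
    unfold GG
    rw [← Finset.mul_prod_erase Finset.univ _ (Finset.mem_univ (blk i))]
    congr 1
    · simp [mv]
    · refine Finset.prod_congr rfl fun b hb => ?_
      have hne := Finset.ne_of_mem_erase hb
      simp [mv, hne]
  have key0 : GG (i + 1) t X = gg (sb (i + 1) t (blk i)) (X (blk i))
      * ∏ b ∈ Finset.univ.erase (blk i), gg (sb (i + 1) t b) (X b) := by
    unfold GG
    rw [← Finset.mul_prod_erase Finset.univ _ (Finset.mem_univ (blk i))]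
  have key1 : GG i (t + 1) X = gg (sb (i + 1) t (blk i) + 1) (X (blk i))
      * ∏ b ∈ Finset.univ.erase (blk i), gg (sb (i + 1) t b) (X b) := by
    unfold GG
    rw [← Finset.mul_prod_erase Finset.univ _ (Finset.mem_univ (blk i))]
    congr 1
    · simp [sb]
    · refine Finset.prod_congr rfl fun b hb => ?_
      have hne := Finset.ne_of_mem_erase hb
      simp [sb, hne]
  rw [key, key, key0, key1, gg_succ]
  have : X (blk i) + -1 = X (blk i) - 1 := by ring
  rw [this]
  ring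

end

end Pool.Agent.V11320.Bng
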