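import Mathlib
import Pool.Agent.V11320.BngWalk

set_option autoImplicit false
open scoped BigOperators Topology

namespace Pool.Agent.V11320.Bng

noncomputable section

/-- letters -/
abbrev Ltr (N : ℕ) : Type := Bool × Fin N

variable {d N : ℕ} (ι : Fin 4 × Bool × Fin N ↪ Fin d)

/-- the coordinate used by the letter `a` at time `i` -/
def crd (i : ℕ) (a : Ltr N) : Fin d := ι (blk i, a.1, a.2)

theorem crd_inj (i : ℕ) {a a' : Ltr N} (h : crd ι i a = crd ι i a') : a = a' := by
  unfold crd at h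
  have := ι.injective h
  simp only [Prod.mk.injEq, true_and] at this
  exact Prod.ext this.1 this.2

/-- the step of the letter `a` at time `i` -/
def ee (i : ℕ) (a : Ltr N) : V d := Pi.single (crd ι i a) 1

/-- the projection to four integers -/
def XX (v : V d) : Fin 4 → ℤ := fun b => ∑ j : Fin N, v (ι (b, true, j))

theorem XX_add (v w : V d) : XX ι (v + w) = XX ι v + XX ι w := by
  funext b
  simp [XX, Finset.sum_add_distrib]

theorem XX_sub (v w : V d) : XX ι (v - w) = XX ι v - XX ι w := by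
  funext b
  simp [XX, Finset.sum_sub_distrib]

theorem XX_zero : XX ι (0 : V d) = 0 := by
  funext b
  simp [XX]

theorem XX_ee (i : ℕ) (a : Ltr N) :
    XX ι (ee ι i a) = Pi.single (blk i) (if a.1 then 1 else 0) := by
  funext b
  obtain ⟨ε, j0⟩ := a
  simp only [XX, ee, crd, Pi.single_apply, ι.injective.eq_iff, Prod.mk.injEq]
  by_cases hb : b = blk i
  · cases ε
    · simp
    · simp [hb]
  · simp [hb]

theorem XX_step (i : ℕ) (a a' : Ltr N) (D : V d) :
    XX ι (D + ee ι i a - ee ι i a')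
      = mv (blk i) ((if a.1 then 1 else 0) - (if a'.1 then 1 else 0)) (XX ι D) := by
  rw [XX_sub, XX_add, XX_ee, XX_ee]
  unfold mv
  rw [Pi.single_sub]
  abel

theorem sum_ltr (f : Bool → ℝ) : ∑ a : Ltr N, f a.1 = N * (f true + f false) := by
  rw [Fintype.sum_prod_type]
  simp
  ring

theorem sum_GG (i t : ℕ) (D : V d) :
    ∑ a : Ltr N, ∑ a' : Ltr N, GG (i + 1) t (XX ι (D + ee ι i a - ee ι i a'))
      = (2 * N : ℝ) ^ 2 * GG i (t + 1) (XX ι D) := by
  simp_rw [XX_step]
  have h1 : ∀ a : Ltr N, ∑ a' : Ltr N, GG (i + 1) t (mv (blk i)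
      ((if a.1 then 1 else 0) - (if a'.1 then 1 else 0)) (XX ι D))
      = N * (GG (i + 1) t (mv (blk i) ((if a.1 then 1 else 0) - 1) (XX ι D))
        + GG (i + 1) t (mv (blk i) (if a.1 then 1 else 0) (XX ι D))) := by
    intro a
    have := sum_ltr (N := N) (fun ε => GG (i + 1) t (mv (blk i)
      ((if a.1 then 1 else 0) - (if ε then 1 else 0)) (XX ι D)))
    rw [this]
    simp
  rw [Finset.sum_congr rfl fun a _ => h1 a]
  have h2 := sum_ltr (N := N) (fun ε => N * (GG (i + 1) t (mv (blk i) ((if ε then 1 else 0) - 1) (XX ι D))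
        + GG (i + 1) t (mv (blk i) (if ε then 1 else 0) (XX ι D))))
  rw [h2, GG_step]
  have h3 : mv (blk i) 0 (XX ι D) = XX ι D := by simp [mv]
  simp only [if_true, sub_self, Bool.false_eq_true, if_false, zero_sub, h3]
  ring

/-- extension of a finite word -/
def ext {A : Type} (a0 : A) {m : ℕ} (w : Fin m → A) : ℕ → A :=
  fun j => if h : j < m then w ⟨j, h⟩ else a0

theorem ext_cons_zero {A : Type} (a0 a : A) {m : ℕ} (w : Fin m → A) :
    ext a0 (Fin.cons a w : Fin (m + 1) → A) 0 = a := by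
  simp [ext]

theorem ext_cons_succ {A : Type} (a0 a : A) {m : ℕ} (w : Fin m → A) (j : ℕ) :
    ext a0 (Fin.cons a w : Fin (m + 1) → A) (j + 1) = ext a0 w j := by
  unfold ext
  by_cases h : j < m
  · rw [dif_pos (by omega), dif_pos h]
    rfl
  · rw [dif_neg (by omega), dif_neg h]

theorem sum_cons {A : Type} [Fintype A] {m : ℕ} (f : (Fin (m + 1) → A) → ℝ) :
    ∑ w, f w = ∑ a : A, ∑ w : Fin m → A, f (Fin.cons a w) := by
  rw [← (Fin.consEquiv fun _ : Fin (m + 1) => A).sum_comp, Fintype.sum_prod_type]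
  rfl

/-- positions -/
def pos (i : ℕ) (w : ℕ → Ltr N) (j : ℕ) : V d := ∑ l ∈ Finset.range j, ee ι (i + l) (w l)

theorem pos_zero (i : ℕ) (w : ℕ → Ltr N) : pos ι i w 0 = 0 := by simp [pos]

theorem pos_cons (i : ℕ) {m : ℕ} (a0 a : Ltr N) (w : Fin m → Ltr N) (j : ℕ) :
    pos ι i (ext a0 (Fin.cons a w : Fin (m + 1) → Ltr N)) (j + 1)
      = ee ι i a + pos ι (i + 1) (ext a0 w) j := by
  unfold pos
  rw [Finset.sum_range_succ', ext_cons_zero, add_zero, add_comm]
  congr 1
  refine Finset.sum_congr rfl fun l _ => ?_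
  rw [ext_cons_succ]
  congr 1
  ring

/-- the weight of a pair of words -/
def Wt (R : ℝ) (i m : ℕ) (D : V d) (w w' : ℕ → Ltr N) : ℝ :=
  ∏ j ∈ Finset.range m, if D + pos ι i w j = pos ι i w' j ∧ w j = w' j then R else 1

/-- the total weight -/
def SS (a0 : Ltr N) (R : ℝ) (i m : ℕ) (D : V d) : ℝ :=
  ∑ w : Fin m → Ltr N, ∑ w' : Fin m → Ltr N, Wt ι R i m D (ext a0 w) (ext a0 w')

theorem Wt_cons (a0 : Ltr N) (R : ℝ) (i m : ℕ) (D : V d) (a a' : Ltr N) (w w' : Fin m → Ltr N) :
    Wt ι R i (m + 1) D (ext a0 (Fin.cons a w : Fin (m + 1) → Ltr N))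
      (ext a0 (Fin.cons a' w' : Fin (m + 1) → Ltr N))
      = (if D = 0 ∧ a = a' then R else 1) * Wt ι R (i + 1) m (D + ee ι i a - ee ι i a')
          (ext a0 w) (ext a0 w') := by
  unfold Wt
  rw [Finset.prod_range_succ', mul_comm]
  congr 1
  · simp only [pos_zero, ext_cons_zero, add_zero]
  · refine Finset.prod_congr rfl fun j _ => ?_
    rw [ext_cons_succ, ext_cons_succ, pos_cons, pos_cons]
    have h : (D + (ee ι i a + pos ι (i + 1) (ext a0 w) j) = ee ι i a' + pos ι (i + 1) (ext a0 w') j)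
        ↔ (D + ee ι i a - ee ι i a' + pos ι (i + 1) (ext a0 w) j = pos ι (i + 1) (ext a0 w') j) := by
      constructor
      · intro h
        have h2 : D + ee ι i a - ee ι i a' + pos ι (i + 1) (ext a0 w) j
            = (D + (ee ι i a + pos ι (i + 1) (ext a0 w) j)) - ee ι i a' := by abel
        rw [h2, h]
        abel
      · intro h
        rw [← h]
        abel
    simp only [h]

theorem SS_succ (a0 : Ltr N) (R : ℝ) (i m : ℕ) (D : V d) :
    SS ι a0 R i (m + 1) D = ∑ a : Ltr N, ∑ a' : Ltr N,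
      (if D = 0 ∧ a = a' then R else 1) * SS ι a0 R (i + 1) m (D + ee ι i a - ee ι i a') := by
  unfold SS
  rw [sum_cons]
  refine Finset.sum_congr rfl fun a _ => ?_
  rw [Finset.sum_congr rfl fun w _ => sum_cons _]
  rw [Finset.sum_comm]
  refine Finset.sum_congr rfl fun a' _ => ?_
  rw [Finset.mul_sum]
  refine Finset.sum_congr rfl fun w _ => ?_
  rw [Finset.mul_sum]
  refine Finset.sum_congr rfl fun w' _ => ?_
  exact Wt_cons ι a0 R i m D a a' w w'

theorem card_ltr : (Fintype.card (Ltr N) : ℝ) = 2 * N := by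
  simp

theorem SS_bound (a0 : Ltr N) (R : ℝ) (hN : 1 ≤ N) (hR1 : 1 ≤ R) (hR : R - 1 ≤ N / 20) (m : ℕ) :
    ∀ (i : ℕ) (D : V d), SS ι a0 R i m D ≤ ((2 * N : ℝ) ^ 2) ^ m *
      (1 + (R - 1) / N * ∑ t ∈ Finset.range m, GG i t (XX ι D)) := by
  have hN0 : (0 : ℝ) < N := by exact_mod_cast hN
  induction m with
  | zero =>
    intro i D
    simp [SS, Wt]
  | succ m ih =>
    intro i D
    rw [SS_succ]
    set κ : ℝ := (R - 1) / N with hκ
    have hκ0 : 0 ≤ κ := div_nonneg (by linarith) hN0.le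
    have hκ1 : κ ≤ 1 / 20 := by
      rw [hκ, div_le_iff₀ hN0]
      linarith
    set M : ℝ := ((2 * N : ℝ) ^ 2) ^ m with hM
    have hM0 : 0 < M := by positivity
    -- split the weight
    have h1 : ∀ a a' : Ltr N, (if D = 0 ∧ a = a' then R else 1)
        * SS ι a0 R (i + 1) m (D + ee ι i a - ee ι i a')
        = SS ι a0 R (i + 1) m (D + ee ι i a - ee ι i a')
          + (if a = a' then (if D = 0 then (R - 1) * SS ι a0 R (i + 1) m 0 else 0) else 0) := by
      intro a a'
      by_cases ha : a = a'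
      · subst ha
        by_cases hD : D = 0
        · subst hD
          simp
          ring
        · simp [hD]
      · simp [ha]
    rw [Finset.sum_congr rfl fun a _ => Finset.sum_congr rfl fun a' _ => h1 a a']
    simp_rw [Finset.sum_add_distrib]
    have h2 : ∑ a : Ltr N, ∑ a' : Ltr N, SS ι a0 R (i + 1) m (D + ee ι i a - ee ι i a')
        ≤ M * ((2 * N : ℝ) ^ 2 + κ * ((2 * N : ℝ) ^ 2 * ∑ t ∈ Finset.range m,
          GG i (t + 1) (XX ι D))) := by
      calc ∑ a : Ltr N, ∑ a' : Ltr N, SS ι a0 R (i + 1) m (D + ee ι i a - ee ι i a')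
          ≤ ∑ a : Ltr N, ∑ a' : Ltr N, M * (1 + κ * ∑ t ∈ Finset.range m,
            GG (i + 1) t (XX ι (D + ee ι i a - ee ι i a'))) :=
            Finset.sum_le_sum fun a _ => Finset.sum_le_sum fun a' _ => ih _ _
        _ = M * ((2 * N : ℝ) ^ 2 + κ * ∑ t ∈ Finset.range m, ∑ a : Ltr N, ∑ a' : Ltr N,
            GG (i + 1) t (XX ι (D + ee ι i a - ee ι i a'))) := by
            simp_rw [← Finset.mul_sum, Finset.sum_add_distrib]
            rw [Finset.sum_const, Finset.sum_const, Finset.card_univ, nsmul_eq_mul, nsmul_eq_mul,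
              card_ltr]
            simp_rw [← Finset.mul_sum]
            have e1 : ∑ a : Ltr N, ∑ a' : Ltr N, ∑ t ∈ Finset.range m,
                GG (i + 1) t (XX ι (D + ee ι i a - ee ι i a'))
                = ∑ t ∈ Finset.range m, ∑ a : Ltr N, ∑ a' : Ltr N,
                GG (i + 1) t (XX ι (D + ee ι i a - ee ι i a')) := by
              rw [Finset.sum_congr rfl fun a _ => Finset.sum_comm, Finset.sum_comm]
            rw [e1]
            ring
        _ = M * ((2 * N : ℝ) ^ 2 + κ * ((2 * N : ℝ) ^ 2 * ∑ t ∈ Finset.range m,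
          GG i (t + 1) (XX ι D))) := by
            simp_rw [sum_GG]
            rw [← Finset.mul_sum]
    have h3 : ∑ a : Ltr N, ∑ a' : Ltr N, (if a = a' then
        (if D = 0 then (R - 1) * SS ι a0 R (i + 1) m 0 else 0) else 0)
        ≤ M * ((2 * N : ℝ) ^ 2 * (κ * GG i 0 (XX ι D))) := by
      have e1 : ∀ a : Ltr N, ∑ a' : Ltr N, (if a = a' then
        (if D = 0 then (R - 1) * SS ι a0 R (i + 1) m 0 else 0) else 0)
          = (if D = 0 then (R - 1) * SS ι a0 R (i + 1) m 0 else 0) := by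
        intro a
        simp
      rw [Finset.sum_congr rfl fun a _ => e1 a, Finset.sum_const, Finset.card_univ, nsmul_eq_mul,
        card_ltr]
      by_cases hD : D = 0
      · subst hD
        rw [if_pos rfl, XX_zero, GG_zero]
        have h4 := ih (i + 1) 0
        rw [XX_zero] at h4
        have h5 := GG_sum_le (i + 1) m
        have h5' : 0 ≤ ∑ t ∈ Finset.range m, GG (i + 1) t 0 :=
          Finset.sum_nonneg fun t _ => GG_nonneg _ _ _
        have h6 : SS ι a0 R (i + 1) m 0 ≤ M * 2 := by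
          refine h4.trans (mul_le_mul_of_nonneg_left ?_ hM0.le)
          nlinarith
        have h7 : (2 * (N : ℝ)) * ((R - 1) * SS ι a0 R (i + 1) m 0)
            ≤ (2 * (N : ℝ)) * ((R - 1) * (M * 2)) :=
          mul_le_mul_of_nonneg_left (mul_le_mul_of_nonneg_left h6 (by linarith)) (by positivity)
        refine h7.trans (le_of_eq ?_)
        rw [hκ]
        field_simp
      · rw [if_neg hD, mul_zero]
        have := GG_nonneg i 0 (XX ι D)
        positivity
    have h4 : ∑ t ∈ Finset.range (m + 1), GG i t (XX ι D)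
        = ∑ t ∈ Finset.range m, GG i (t + 1) (XX ι D) + GG i 0 (XX ι D) :=
      Finset.sum_range_succ' _ _
    rw [h4, pow_succ, ← hM]
    have h5 := add_le_add h2 h3
    refine h5.trans (le_of_eq ?_)
    ring

theorem SS_le (a0 : Ltr N) (R : ℝ) (hN : 1 ≤ N) (hR1 : 1 ≤ R) (hR : R - 1 ≤ N / 20) (m : ℕ) :
    SS ι a0 R 0 m 0 ≤ 2 * ((2 * N : ℝ) ^ m) ^ 2 := by
  have h1 := SS_bound ι a0 R hN hR1 hR m 0 0
  have hN0 : (0 : ℝ) < N := by exact_mod_cast hN
  rw [XX_zero] at h1
  have h2 := GG_sum_le 0 m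
  have h3 : 0 ≤ ∑ t ∈ Finset.range m, GG 0 t 0 := Finset.sum_nonneg fun t _ => GG_nonneg _ _ _
  have hκ0 : 0 ≤ (R - 1) / N := div_nonneg (by linarith) hN0.le
  have hκ1 : (R - 1) / N ≤ 1 / 20 := by
    rw [div_le_iff₀ hN0]
    linarith
  refine h1.trans ?_
  have h4 : ((2 * (N : ℝ)) ^ 2) ^ m = ((2 * (N : ℝ)) ^ m) ^ 2 := by
    rw [← pow_mul, ← pow_mul, mul_comm 2 m]
  rw [h4]
  have h5 : 1 + (R - 1) / N * ∑ t ∈ Finset.range m, GG 0 t 0 ≤ 2 := by nlinarith
  have h6 : (0 : ℝ) ≤ ((2 * (N : ℝ)) ^ m) ^ 2 := by positivity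
  have h7 := mul_le_mul_of_nonneg_left h5 h6
  linarith

end

end Pool.Agent.V11320.Bng
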