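import Mathlib
import Pool.Agent.V11320.BngSum

set_option autoImplicit false
open MeasureTheory ProbabilityTheory
open scoped ENNReal NNReal BigOperators Topology

namespace Pool.Agent.V11320.Bng

noncomputable section

/-! the comparison inequalities -/

/-- successive ratios -/
def al (d k j : ℕ) : ℝ := ((k : ℝ) - j) / (2 * d - j)

theorem pr_al {d k j : ℕ} (hk : k ≤ 2 * d) (hj : j < k) : pr d k (j + 1) = pr d k j * al d k j := by
  have h1 := pr_succ hk hj
  have h2 : (0 : ℝ) < 2 * d - j := by
    have h3 : ((j : ℝ)) < 2 * d := by exact_mod_cast (by omega : j < 2 * d)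
    linarith
  unfold al
  rw [mul_div_assoc', eq_div_iff h2.ne']
  exact h1

theorem al_anti {d k i j : ℕ} (hk : k ≤ 2 * d) (hij : i ≤ j) (hj : j < k) :
    al d k j ≤ al d k i := by
  unfold al
  have h1 : (k : ℝ) ≤ 2 * d := by exact_mod_cast hk
  have h2 : (i : ℝ) ≤ j := by exact_mod_cast hij
  have h3 : (j : ℝ) < k := by exact_mod_cast hj
  rw [div_le_div_iff₀ (by linarith) (by linarith)]
  nlinarith

theorem al_pos {d k j : ℕ} (hk : k ≤ 2 * d) (hj : j < k) : 0 < al d k j := by
  unfold al
  have h1 : (k : ℝ) ≤ 2 * d := by exact_mod_cast hk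
  have h3 : (j : ℝ) < k := by exact_mod_cast hj
  exact div_pos (by linarith) (by linarith)

theorem rr_al {d k : ℕ} : rr d k = (al d k 1)⁻¹ := by
  unfold rr al
  rw [inv_div]
  push_cast
  rfl

theorem pr_exp {d k : ℕ} (hk4 : 4 ≤ k) (hk : k ≤ 2 * d) :
    pr d k 1 = al d k 0 ∧ pr d k 2 = al d k 0 * al d k 1 ∧
    pr d k 3 = al d k 0 * al d k 1 * al d k 2 ∧
    pr d k 4 = al d k 0 * al d k 1 * al d k 2 * al d k 3 := by
  have h1 := pr_al (j := 0) hk (by omega)
  have h2 := pr_al (j := 1) hk (by omega)
  have h3 := pr_al (j := 2) hk (by omega)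
  have h4 := pr_al (j := 3) hk (by omega)
  rw [pr_zero hk, one_mul] at h1
  norm_num at h1 h2 h3 h4
  refine ⟨h1, ?_, ?_, ?_⟩
  · rw [h2, h1]
  · rw [h3, h2, h1]
  · rw [h4, h3, h2, h1]

theorem ineq {d k : ℕ} (hk4 : 4 ≤ k) (hk : k ≤ 2 * d) :
    pr d k 2 ≤ pr d k 1 * pr d k 1 ∧ pr d k 1 ≤ pr d k 1 * pr d k 1 * rr d k ∧
    pr d k 4 ≤ pr d k 2 * pr d k 2 ∧ pr d k 3 ≤ pr d k 2 * pr d k 2 * rr d k ∧
    pr d k 2 ≤ pr d k 2 * pr d k 2 * (rr d k * rr d k) := by
  obtain ⟨e1, e2, e3, e4⟩ := pr_exp hk4 hk
  have p0 := al_pos (d := d) (k := k) (j := 0) hk (by omega)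
  have p1 := al_pos (d := d) (k := k) (j := 1) hk (by omega)
  have p2 := al_pos (d := d) (k := k) (j := 2) hk (by omega)
  have p3 := al_pos (d := d) (k := k) (j := 3) hk (by omega)
  have a1 := al_anti (d := d) (k := k) (i := 0) (j := 1) hk (by omega) (by omega)
  have a2 := al_anti (d := d) (k := k) (i := 0) (j := 2) hk (by omega) (by omega)
  have a3 := al_anti (d := d) (k := k) (i := 1) (j := 3) hk (by omega) (by omega)
  rw [e1, e2, e3, e4, rr_al]
  set x := al d k 0
  set y := al d k 1
  set z := al d k 2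
  set w := al d k 3
  refine ⟨?_, ?_, ?_, ?_, ?_⟩
  · nlinarith
  · have : x * x * y⁻¹ = x * (x * y⁻¹) := by ring
    rw [this]
    have h1 : 1 ≤ x * y⁻¹ := by
      rw [← div_eq_mul_inv, le_div_iff₀ p1]; linarith
    nlinarith
  · have h1 : z * w ≤ x * y := mul_le_mul a2 a3 p3.le p0.le
    have h2 : x * y * z * w = (x * y) * (z * w) := by ring
    rw [h2]
    exact mul_le_mul_of_nonneg_left h1 (by positivity)
  · have h1 : x * y * (x * y) * y⁻¹ = x * y * x := by
      field_simp
    rw [h1]
    exact mul_le_mul_of_nonneg_left a2 (by positivity)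
  · have h1 : x * y * (x * y) * (y⁻¹ * y⁻¹) = x * x := by
      field_simp
    rw [h1]
    exact mul_le_mul_of_nonneg_left a1 p0.le

variable {d N : ℕ} (ι : Fin 4 × Bool × Fin N ↪ Fin d)

/-- the level of a vertex -/
def lev (v : V d) : ℤ := ∑ c, v c

theorem lev_pos (w : ℕ → Ltr N) (j : ℕ) : lev (pos ι 0 w j) = j := by
  unfold lev pos
  simp only [Finset.sum_apply]
  rw [Finset.sum_comm]
  have h1 : ∀ l ∈ Finset.range j, ∑ c : Fin d, ee ι (0 + l) (w l) c = 1 := by
    intro l _
    simp [ee]
  rw [Finset.sum_congr rfl h1]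
  simp

/-- the requirement at the vertex of level `i` -/
def JJ (n : ℕ) (w : ℕ → Ltr N) (i : ℕ) : Finset (Dir d) :=
  (if i < n then {(crd ι i (w i), true)} else ∅)
    ∪ (if 0 < i then {(crd ι (i - 1) (w (i - 1)), false)} else ∅)

/-- the path of `w` is open -/
def Opn (n : ℕ) (w : ℕ → Ltr N) (A : V d → Finset (Dir d)) : Prop :=
  ∀ i ≤ n, JJ ι n w i ⊆ A (pos ι 0 w i)

/-- the joint requirement -/
def Jp (n : ℕ) (w w' : ℕ → Ltr N) (v : V d) : Finset (Dir d) :=
  (if v = pos ι 0 w (lev v).toNat then JJ ι n w (lev v).toNat else ∅)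
    ∪ (if v = pos ι 0 w' (lev v).toNat then JJ ι n w' (lev v).toNat else ∅)

/-- the vertices involved -/
def FF (n : ℕ) (w w' : ℕ → Ltr N) : Finset (V d) :=
  (Finset.range (n + 1)).biUnion fun i => {pos ι 0 w i, pos ι 0 w' i}

theorem opn_iff (n : ℕ) (w w' : ℕ → Ltr N) (A : V d → Finset (Dir d)) :
    (Opn ι n w A ∧ Opn ι n w' A) ↔ ∀ v ∈ FF ι n w w', Jp ι n w w' v ⊆ A v := by
  constructor
  · rintro ⟨h1, h2⟩ v hv
    unfold FF at hv
    rw [Finset.mem_biUnion] at hv
    obtain ⟨i, hi, hv⟩ := hv
    have hin : i ≤ n := by have := Finset.mem_range.mp hi; omega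
    have hlev : (lev v).toNat = i := by
      rw [Finset.mem_insert, Finset.mem_singleton] at hv
      rcases hv with rfl | rfl
      · rw [lev_pos]; simp
      · rw [lev_pos]; simp
    unfold Jp
    rw [hlev]
    apply Finset.union_subset
    · split_ifs with h
      · rw [h]; exact h1 i hin
      · exact Finset.empty_subset _
    · split_ifs with h
      · rw [h]; exact h2 i hin
      · exact Finset.empty_subset _
  · intro h
    constructor
    · intro i hi
      have h1 := h (pos ι 0 w i) (by
        unfold FF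
        rw [Finset.mem_biUnion]
        exact ⟨i, Finset.mem_range.mpr (by omega), by simp⟩)
      refine subset_trans ?_ h1
      unfold Jp
      rw [lev_pos, Int.toNat_natCast, if_pos rfl]
      exact Finset.subset_union_left
    · intro i hi
      have h1 := h (pos ι 0 w' i) (by
        unfold FF
        rw [Finset.mem_biUnion]
        exact ⟨i, Finset.mem_range.mpr (by omega), by simp⟩)
      refine subset_trans ?_ h1
      unfold Jp
      rw [lev_pos, Int.toNat_natCast, if_pos rfl]
      exact Finset.subset_union_right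

theorem card_JJ (n : ℕ) (w : ℕ → Ltr N) (i : ℕ) :
    (JJ ι n w i).card = (if i < n then 1 else 0) + (if 0 < i then 1 else 0) := by
  unfold JJ
  split_ifs <;> simp

theorem card_Jp_le (n : ℕ) (w w' : ℕ → Ltr N) (v : V d) : (Jp ι n w w' v).card ≤ 4 := by
  unfold Jp
  refine (Finset.card_union_le _ _).trans ?_
  have h : ∀ u : ℕ → Ltr N, (JJ ι n u (lev v).toNat).card ≤ 2 := by
    intro u
    rw [card_JJ]
    split_ifs <;> norm_num
  have h1 := h w
  have h2 := h w'
  split_ifs <;> simp <;> omega

theorem FF_disj (n : ℕ) (w w' : ℕ → Ltr N) :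
    (((Finset.range (n + 1)) : Finset ℕ) : Set ℕ).PairwiseDisjoint
      fun i => ({pos ι 0 w i, pos ι 0 w' i} : Finset (V d)) := by
  intro i _ j _ hij
  rw [Function.onFun, Finset.disjoint_left]
  intro v hv hv'
  apply hij
  have h : ∀ l : ℕ, v ∈ ({pos ι 0 w l, pos ι 0 w' l} : Finset (V d)) → lev v = l := by
    intro l hl
    rw [Finset.mem_insert, Finset.mem_singleton] at hl
    rcases hl with rfl | rfl
    · exact lev_pos ι w l
    · exact lev_pos ι w' l
  have h1 := h i hv
  have h2 := h j hv'
  rw [h1] at h2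
  exact_mod_cast h2

theorem pair_prob {k : ℕ} (hk4 : 4 ≤ k) (hk : k ≤ 2 * d) (n : ℕ) (w w' : ℕ → Ltr N) :
    law d k {A | Opn ι n w A ∧ Opn ι n w' A} = ENNReal.ofReal
      (∏ i ∈ Finset.range (n + 1), ∏ v ∈ ({pos ι 0 w i, pos ι 0 w' i} : Finset (V d)),
        pr d k (Jp ι n w w' v).card) := by
  have h1 : {A : V d → Finset (Dir d) | Opn ι n w A ∧ Opn ι n w' A}
      = {A | ∀ v ∈ FF ι n w w', Jp ι n w w' v ⊆ A v} := by
    ext A
    exact opn_iff ι n w w' A
  rw [h1, law_box hk _ _ fun v _ => (card_Jp_le ι n w w' v).trans hk4]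
  unfold FF
  rw [Finset.prod_biUnion (FF_disj ι n w w')]

/-- the common probability at level `i` -/
def qq (d k n i : ℕ) : ℝ := pr d k ((if i < n then 1 else 0) + (if 0 < i then 1 else 0))

theorem single_prob {k : ℕ} (hk4 : 4 ≤ k) (hk : k ≤ 2 * d) (n : ℕ) (w : ℕ → Ltr N) :
    law d k {A | Opn ι n w A} = ENNReal.ofReal (∏ i ∈ Finset.range (n + 1), qq d k n i) := by
  have h1 := pair_prob ι hk4 hk n w w
  simp only [and_self] at h1
  rw [h1]
  congr 1
  refine Finset.prod_congr rfl fun i _ => ?_
  rw [Finset.pair_eq_singleton, Finset.prod_singleton]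
  unfold Jp qq
  rw [lev_pos, Int.toNat_natCast, if_pos rfl, Finset.union_self, card_JJ]

/-- the factor of a shared step -/
def rho (r : ℝ) (w w' : ℕ → Ltr N) (i : ℕ) : ℝ :=
  if pos ι 0 w i = pos ι 0 w' i ∧ w i = w' i then r else 1

theorem level_bound {k : ℕ} (hk4 : 4 ≤ k) (hk : k ≤ 2 * d) (n : ℕ) (hn : 1 ≤ n)
    (w w' : ℕ → Ltr N) (i : ℕ) (hi : i ≤ n) :
    ∏ v ∈ ({pos ι 0 w i, pos ι 0 w' i} : Finset (V d)), pr d k (Jp ι n w w' v).card
      ≤ qq d k n i * qq d k n i * ((if i < n then rho ι (rr d k) w w' i else 1) *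
        (if 0 < i then rho ι (rr d k) w w' (i - 1) else 1)) := by
  have hr := rr_ge_one (d := d) (k := k) (by omega) hk
  have hrho : ∀ j, 1 ≤ rho ι (rr d k) w w' j := by
    intro j
    unfold rho
    split_ifs
    · exact hr
    · exact le_rfl
  have hq : 0 < qq d k n i := pr_pos hk
  by_cases hx : pos ι 0 w i = pos ι 0 w' i
  · -- same vertex
    rw [hx, Finset.pair_eq_singleton, Finset.prod_singleton]
    have hJp : Jp ι n w w' (pos ι 0 w' i) = JJ ι n w i ∪ JJ ι n w' i := by
      unfold Jp
      rw [lev_pos, Int.toNat_natCast, if_pos hx.symm, if_pos rfl]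
    rw [hJp]
    have hout : i < n → rho ι (rr d k) w w' i = if w i = w' i then rr d k else 1 := by
      intro _
      unfold rho
      simp only [hx, true_and]
    have hin : 0 < i → rho ι (rr d k) w w' (i - 1)
        = if w (i - 1) = w' (i - 1) then rr d k else 1 := by
      intro hi0
      unfold rho
      by_cases hw : w (i - 1) = w' (i - 1)
      · have hp : pos ι 0 w (i - 1) = pos ι 0 w' (i - 1) := by
          have e1 : ∀ u : ℕ → Ltr N, pos ι 0 u i = pos ι 0 u (i - 1) + ee ι (0 + (i - 1)) (u (i - 1)) := by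
            intro u
            obtain ⟨i', rfl⟩ : ∃ i', i = i' + 1 := ⟨i - 1, by omega⟩
            unfold pos
            rw [Finset.sum_range_succ]
            rfl
          rw [e1 w, e1 w', hw] at hx
          exact add_right_cancel hx
        rw [if_pos ⟨hp, hw⟩, if_pos hw]
      · rw [if_neg (fun h => hw h.2), if_neg hw]
    have inj : ∀ l : ℕ, (crd ι l (w l) = crd ι l (w' l)) ↔ w l = w' l :=
      fun l => ⟨fun h => crd_inj ι l h, fun h => by rw [h]⟩
    obtain ⟨i1, i2, i3, i4, i5⟩ := ineq hk4 hk
    rcases Nat.eq_zero_or_pos i with hi0 | hi0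
    · -- level zero
      subst hi0
      have h0n : 0 < n := by omega
      rw [if_pos h0n, if_neg (lt_irrefl 0), mul_one, hout h0n]
      unfold qq JJ
      rw [if_pos h0n, if_neg (lt_irrefl 0), if_pos h0n]
      by_cases hw : w 0 = w' 0
      · rw [hw]
        simpa [h0n] using i2
      · have hne : (crd ι 0 (w 0), true) ≠ (crd ι 0 (w' 0), true) := by
          intro h
          exact hw ((inj 0).mp (Prod.mk.inj h).1)
        rw [if_neg hw]
        have hcard : (({(crd ι 0 (w 0), true)} ∪ ∅ ∪ ({(crd ι 0 (w' 0), true)} ∪ ∅) :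
            Finset (Dir d))).card = 2 := by
          rw [Finset.union_empty, Finset.union_empty]
          exact Finset.card_pair hne
        rw [if_neg (lt_irrefl 0), if_neg (lt_irrefl 0), hcard]
        simpa [h0n] using i1
    · rcases Nat.lt_or_ge i n with hin' | hin'
      · -- interior level
        rw [if_pos hin', if_pos hi0, hout hin', hin hi0]
        unfold qq JJ
        simp only [hin', hi0, if_true]
        have hU : ({(crd ι i (w i), true)} ∪ {(crd ι (i - 1) (w (i - 1)), false)} ∪
            ({(crd ι i (w' i), true)} ∪ {(crd ι (i - 1) (w' (i - 1)), false)}) : Finset (Dir d))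
            = ({(crd ι i (w i), true), (crd ι i (w' i), true)} : Finset (Dir d)) ∪
              {(crd ι (i - 1) (w (i - 1)), false), (crd ι (i - 1) (w' (i - 1)), false)} := by
          ext s
          simp only [Finset.mem_union, Finset.mem_singleton, Finset.mem_insert]
          tauto
        have hdis : Disjoint ({(crd ι i (w i), true), (crd ι i (w' i), true)} : Finset (Dir d))
            {(crd ι (i - 1) (w (i - 1)), false), (crd ι (i - 1) (w' (i - 1)), false)} := by
          rw [Finset.disjoint_left]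
          intro s hs hs'
          simp only [Finset.mem_singleton, Finset.mem_insert] at hs hs'
          rcases hs with rfl | rfl <;> rcases hs' with h | h <;> simp at h
        rw [hU, Finset.card_union_of_disjoint hdis]
        have c1 : ({(crd ι i (w i), true), (crd ι i (w' i), true)} : Finset (Dir d)).card
            = if w i = w' i then 1 else 2 := by
          split_ifs with h
          · rw [h, Finset.pair_eq_singleton, Finset.card_singleton]
          · apply Finset.card_pair
            intro h'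
            exact h ((inj i).mp (Prod.mk.inj h').1)
        have c2 : ({(crd ι (i - 1) (w (i - 1)), false), (crd ι (i - 1) (w' (i - 1)), false)} :
            Finset (Dir d)).card = if w (i - 1) = w' (i - 1) then 1 else 2 := by
          split_ifs with h
          · rw [h, Finset.pair_eq_singleton, Finset.card_singleton]
          · apply Finset.card_pair
            intro h'
            exact h ((inj (i - 1)).mp (Prod.mk.inj h').1)
        rw [c1, c2]
        split_ifs
        · exact i5
        · simpa using i4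
        · simpa using i4
        · simpa using i3
      · -- last level
        have hin'' : ¬ i < n := by omega
        rw [if_neg hin'', if_pos hi0, one_mul, hin hi0]
        unfold qq JJ
        simp only [hin'', hi0, if_true, if_false, Finset.empty_union]
        by_cases hw : w (i - 1) = w' (i - 1)
        · rw [hw]
          simpa using i2
        · have hne : (crd ι (i - 1) (w (i - 1)), false) ≠ (crd ι (i - 1) (w' (i - 1)), false) := by
            intro h
            exact hw ((inj (i - 1)).mp (Prod.mk.inj h).1)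
          rw [if_neg hw]
          have hcard : (({(crd ι (i - 1) (w (i - 1)), false)} ∪
              {(crd ι (i - 1) (w' (i - 1)), false)} : Finset (Dir d))).card = 2 :=
            Finset.card_pair hne
          rw [hcard]
          simpa using i1
  · -- different vertices
    rw [Finset.prod_pair hx]
    have h1 : Jp ι n w w' (pos ι 0 w i) = JJ ι n w i := by
      unfold Jp
      rw [lev_pos, Int.toNat_natCast, if_pos rfl, if_neg hx, Finset.union_empty]
    have h2 : Jp ι n w w' (pos ι 0 w' i) = JJ ι n w' i := by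
      unfold Jp
      rw [lev_pos, Int.toNat_natCast, if_neg (fun h => hx h.symm), if_pos rfl, Finset.empty_union]
    rw [h1, h2, card_JJ, card_JJ]
    have h3 : 1 ≤ ((if i < n then rho ι (rr d k) w w' i else 1) *
        (if 0 < i then rho ι (rr d k) w w' (i - 1) else 1)) := by
      have a1 : 1 ≤ (if i < n then rho ι (rr d k) w w' i else 1) := by
        split_ifs
        · exact hrho _
        · exact le_rfl
      have a2 : 1 ≤ (if 0 < i then rho ι (rr d k) w w' (i - 1) else 1) := by
        split_ifs
        · exact hrho _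
        · exact le_rfl
      nlinarith
    have h4 : 0 < qq d k n i * qq d k n i := by positivity
    show qq d k n i * qq d k n i ≤ _
    nlinarith

/-- the pair probability is controlled by the weight -/
theorem pair_le {k : ℕ} (hk4 : 4 ≤ k) (hk : k ≤ 2 * d) (n : ℕ) (hn : 1 ≤ n)
    (w w' : ℕ → Ltr N) :
    law d k {A | Opn ι n w A ∧ Opn ι n w' A} ≤ ENNReal.ofReal
      ((∏ i ∈ Finset.range (n + 1), qq d k n i) ^ 2 * Wt ι (rr d k ^ 2) 0 n 0 w w') := by
  rw [pair_prob ι hk4 hk]
  refine ENNReal.ofReal_le_ofReal ?_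
  have h1 : ∏ i ∈ Finset.range (n + 1), ∏ v ∈ ({pos ι 0 w i, pos ι 0 w' i} : Finset (V d)),
        pr d k (Jp ι n w w' v).card
      ≤ ∏ i ∈ Finset.range (n + 1), (qq d k n i * qq d k n i *
        ((if i < n then rho ι (rr d k) w w' i else 1) *
        (if 0 < i then rho ι (rr d k) w w' (i - 1) else 1))) := by
    refine Finset.prod_le_prod (fun i _ => Finset.prod_nonneg fun v _ => (pr_pos hk).le)
      fun i hi => ?_
    exact level_bound ι hk4 hk n hn w w' i (by have := Finset.mem_range.mp hi; omega)
  refine h1.trans (le_of_eq ?_)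
  rw [Finset.prod_mul_distrib, Finset.prod_mul_distrib, Finset.prod_mul_distrib, ← sq]
  congr 1
  have h2 : ∏ i ∈ Finset.range (n + 1), (if i < n then rho ι (rr d k) w w' i else 1)
      = ∏ i ∈ Finset.range n, rho ι (rr d k) w w' i := by
    rw [Finset.prod_range_succ, if_neg (lt_irrefl n), mul_one]
    exact Finset.prod_congr rfl fun i hi => if_pos (Finset.mem_range.mp hi)
  have h3 : ∏ i ∈ Finset.range (n + 1), (if 0 < i then rho ι (rr d k) w w' (i - 1) else 1)
      = ∏ i ∈ Finset.range n, rho ι (rr d k) w w' i := by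
    rw [Finset.prod_range_succ', if_neg (lt_irrefl 0), mul_one]
    refine Finset.prod_congr rfl fun i _ => ?_
    rw [if_pos (Nat.succ_pos i)]
    rfl
  rw [h2, h3, ← Finset.prod_mul_distrib]
  unfold Wt
  refine Finset.prod_congr rfl fun i _ => ?_
  unfold rho
  rw [zero_add]
  split_ifs
  · ring
  · ring

end

end Pool.Agent.V11320.Bng
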