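import Mathlib
import Pool.Agent.V11320.BngPair

set_option autoImplicit false
open MeasureTheory ProbabilityTheory
open scoped ENNReal NNReal BigOperators Topology

namespace Pool.Agent.V11320.Bng

noncomputable section

/-- second moment bound in quadratic form -/
theorem second_moment {Ω W : Type} [MeasurableSpace Ω] (P : Measure Ω) [IsProbabilityMeasure P]
    [Fintype W] (E : W → Set Ω) (hE : ∀ w, MeasurableSet (E w)) (T : ℝ) (hT : 0 < T)
    (h1 : ∑ w, P.real (E w) = T) (h2 : ∑ w, ∑ w', P.real (E w ∩ E w') ≤ 2 * T ^ 2) :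
    1 / 2 ≤ P.real (⋃ w, E w) := by
  classical
  have hU : MeasurableSet (⋃ w, E w) := MeasurableSet.iUnion hE
  have hint : ∀ S : Set Ω, MeasurableSet S → Integrable (S.indicator (1 : Ω → ℝ)) P := fun S hS =>
    (integrable_const (1 : ℝ)).indicator hS
  have hval : ∀ S : Set Ω, MeasurableSet S → ∫ ω, S.indicator (1 : Ω → ℝ) ω ∂P = P.real S :=
    fun S hS => integral_indicator_one hS
  have hpt : ∀ ω, (⋃ w, E w)ᶜ.indicator (1 : Ω → ℝ) ω ≤ 1 - (1 / T) * ∑ w, (E w).indicator 1 ω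
      + (1 / (4 * T ^ 2)) * ∑ w, ∑ w', (E w ∩ E w').indicator 1 ω := by
    intro ω
    have hsq : ∑ w, ∑ w', (E w ∩ E w').indicator (1 : Ω → ℝ) ω
        = (∑ w, (E w).indicator (1 : Ω → ℝ) ω) ^ 2 := by
      rw [sq, Finset.sum_mul_sum]
      refine Finset.sum_congr rfl fun w _ => Finset.sum_congr rfl fun w' _ => ?_
      rw [Set.inter_indicator_one]
      rfl
    rw [hsq]
    by_cases hω : ω ∈ ⋃ w, E w
    · rw [Set.indicator_of_notMem (Set.notMem_compl_iff.mpr hω)]
      set z := ∑ w, (E w).indicator (1 : Ω → ℝ) ω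
      have : 1 - 1 / T * z + 1 / (4 * T ^ 2) * z ^ 2 = (1 - z / (2 * T)) ^ 2 := by
        field_simp
        ring
      rw [this]
      positivity
    · rw [Set.indicator_of_mem (show ω ∈ (⋃ w, E w)ᶜ from hω)]
      have hz : ∑ w, (E w).indicator (1 : Ω → ℝ) ω = 0 := by
        refine Finset.sum_eq_zero fun w _ => ?_
        exact Set.indicator_of_notMem (fun h => hω (Set.mem_iUnion.mpr ⟨w, h⟩)) _
      rw [hz]
      simp
  have i1 : Integrable (fun ω => ∑ w, (E w).indicator (1 : Ω → ℝ) ω) P :=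
    integrable_finsetSum _ fun w _ => hint _ (hE w)
  have i2 : Integrable (fun ω => ∑ w, ∑ w', (E w ∩ E w').indicator (1 : Ω → ℝ) ω) P :=
    integrable_finsetSum _ fun w _ => integrable_finsetSum _ fun w' _ =>
      hint _ ((hE w).inter (hE w'))
  have i3 : Integrable (fun ω => 1 - (1 / T) * ∑ w, (E w).indicator (1 : Ω → ℝ) ω) P :=
    (integrable_const (1 : ℝ)).sub (i1.const_mul _)
  have i4 : Integrable (fun ω => (1 / (4 * T ^ 2)) * ∑ w, ∑ w', (E w ∩ E w').indicator
      (1 : Ω → ℝ) ω) P := i2.const_mul _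
  have h3 : ∫ ω, (⋃ w, E w)ᶜ.indicator (1 : Ω → ℝ) ω ∂P ≤ ∫ ω, (1 - (1 / T) * ∑ w, (E w).indicator 1 ω
      + (1 / (4 * T ^ 2)) * ∑ w, ∑ w', (E w ∩ E w').indicator 1 ω) ∂P :=
    integral_mono (hint _ hU.compl) (i3.add i4) hpt
  rw [hval _ hU.compl, integral_add i3 i4, integral_sub (integrable_const _) (i1.const_mul _),
    integral_const_mul, integral_const_mul, integral_finsetSum _ fun w _ => hint _ (hE w),
    integral_finsetSum _ fun w _ => integrable_finsetSum _ fun w' _ =>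
      hint _ ((hE w).inter (hE w'))] at h3
  have h4a : ∑ w, ∫ ω, (E w).indicator (1 : Ω → ℝ) ω ∂P = ∑ w, P.real (E w) :=
    Finset.sum_congr rfl fun w _ => hval _ (hE w)
  have h4b : ∑ w, ∫ ω, ∑ w', (E w ∩ E w').indicator (1 : Ω → ℝ) ω ∂P
      = ∑ w, ∑ w', P.real (E w ∩ E w') := by
    refine Finset.sum_congr rfl fun w _ => ?_
    rw [integral_finsetSum _ fun w' _ => hint _ ((hE w).inter (hE w'))]
    exact Finset.sum_congr rfl fun w' _ => hval _ ((hE w).inter (hE w'))
  rw [h4a, h4b] at h3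
  have h5 : P.real (⋃ w, E w)ᶜ ≤ 1 - (1 / T) * ∑ w, P.real (E w)
      + (1 / (4 * T ^ 2)) * ∑ w, ∑ w', P.real (E w ∩ E w') := by
    refine h3.trans (le_of_eq ?_)
    simp
  rw [h1] at h5
  have h6 : (1 / (4 * T ^ 2)) * ∑ w, ∑ w', P.real (E w ∩ E w') ≤ (1 / (4 * T ^ 2)) * (2 * T ^ 2) :=
    mul_le_mul_of_nonneg_left h2 (by positivity)
  have h7 : (1 / (4 * T ^ 2)) * (2 * T ^ 2) = 1 / 2 := by
    field_simp
    norm_num
  have h8 : 1 / T * T = 1 := by field_simp
  rw [probReal_compl_eq_one_sub hU] at h5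
  linarith

variable {d N : ℕ} (ι : Fin 4 × Bool × Fin N ↪ Fin d)

theorem meas_opn (n : ℕ) (w : ℕ → Ltr N) :
    MeasurableSet {A : V d → Finset (Dir d) | Opn ι n w A} := by
  have h1 : {A : V d → Finset (Dir d) | Opn ι n w A} = ⋂ i : ℕ, ⋂ (_ : i ≤ n), ⋂ s : Dir d,
      ⋂ (_ : s ∈ JJ ι n w i), {A | s ∈ A (pos ι 0 w i)} := by
    ext A
    simp only [Opn, Finset.subset_iff, Set.mem_iInter]
    rfl
  rw [h1]
  exact MeasurableSet.iInter fun i => MeasurableSet.iInter fun _ => MeasurableSet.iInter fun s =>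
    MeasurableSet.iInter fun _ => meas_mem _ _

theorem pos_congr {i n : ℕ} (hi : i ≤ n) {w w' : ℕ → Ltr N} (h : ∀ j < n, w j = w' j) :
    pos ι 0 w i = pos ι 0 w' i := by
  unfold pos
  refine Finset.sum_congr rfl fun l hl => ?_
  rw [h l (lt_of_lt_of_le (Finset.mem_range.mp hl) hi)]

theorem opn_congr {n : ℕ} {w w' : ℕ → Ltr N} (h : ∀ j < n, w j = w' j)
    {A : V d → Finset (Dir d)} (hA : Opn ι n w A) : Opn ι n w' A := by
  intro i hi
  have h1 := hA i hi
  rw [pos_congr ι hi h] at h1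
  have h2 : JJ ι n w' i = JJ ι n w i := by
    unfold JJ
    congr 1
    · split_ifs with hin
      · rw [h i hin]
      · rfl
    · split_ifs with hin
      · rw [h (i - 1) (by omega)]
      · rfl
  rw [h2]
  exact h1

/-- the event that there is an open path of length `n` -/
def Ev (n : ℕ) : Set (V d → Finset (Dir d)) := {A | ∃ w : ℕ → Ltr N, Opn ι n w A}

theorem ev_anti : Antitone (Ev ι) := by
  intro n m hnm A hA
  obtain ⟨w, hw⟩ := hA
  refine ⟨w, fun i hi => ?_⟩
  refine subset_trans ?_ (hw i (hi.trans hnm))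
  unfold JJ
  apply Finset.union_subset_union
  · split_ifs with h1 h2
    · exact subset_rfl
    · exact absurd (lt_of_lt_of_le h1 hnm) h2
    · exact Finset.empty_subset _
    · exact subset_rfl
  · exact subset_rfl

theorem ev_eq (a0 : Ltr N) (n : ℕ) :
    Ev ι n = ⋃ w : Fin n → Ltr N, {A | Opn ι n (ext a0 w) A} := by
  ext A
  rw [Set.mem_iUnion]
  constructor
  · rintro ⟨w, hw⟩
    refine ⟨fun j => w j, opn_congr ι (fun j hj => ?_) hw⟩
    unfold ext
    rw [dif_pos hj]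
  · rintro ⟨w, hw⟩
    exact ⟨_, hw⟩

theorem ev_meas (a0 : Ltr N) (n : ℕ) : MeasurableSet (Ev ι n) := by
  rw [ev_eq ι a0 n]
  exact MeasurableSet.iUnion fun w => meas_opn ι n _

theorem ev_prob {k : ℕ} (hk4 : 4 ≤ k) (hk : k ≤ 2 * d) (hN : 1 ≤ N)
    (hR : rr d k ^ 2 - 1 ≤ N / 20) (n : ℕ) (hn : 1 ≤ n) :
    1 / 2 ≤ (law d k).real (Ev ι n) := by
  set a0 : Ltr N := (true, ⟨0, hN⟩) with ha0
  rw [ev_eq ι a0 n]
  set p : ℝ := ∏ i ∈ Finset.range (n + 1), qq d k n i with hp
  have hp0 : 0 < p := Finset.prod_pos fun i _ => pr_pos hk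
  have hN0 : (0 : ℝ) < N := by exact_mod_cast hN
  have hcard : (Fintype.card (Fin n → Ltr N) : ℝ) = (2 * N : ℝ) ^ n := by
    rw [Fintype.card_fun, Fintype.card_fin]
    push_cast
    rw [card_ltr]
  refine second_moment (law d k) _ (fun w => meas_opn ι n _) ((2 * N : ℝ) ^ n * p)
    (by positivity) ?_ ?_
  · have h1 : ∀ w : Fin n → Ltr N, (law d k).real {A | Opn ι n (ext a0 w) A} = p := by
      intro w
      rw [measureReal_def, single_prob ι hk4 hk, ENNReal.toReal_ofReal hp0.le]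
    rw [Finset.sum_congr rfl fun w _ => h1 w, Finset.sum_const, Finset.card_univ, nsmul_eq_mul,
      hcard]
  · have hr1 := rr_ge_one (d := d) (k := k) (by omega) hk
    have h2 : ∀ w w' : Fin n → Ltr N, (law d k).real ({A | Opn ι n (ext a0 w) A} ∩
        {A | Opn ι n (ext a0 w') A}) ≤ p ^ 2 * Wt ι (rr d k ^ 2) 0 n 0 (ext a0 w) (ext a0 w') := by
      intro w w'
      have h3 := pair_le ι hk4 hk n hn (ext a0 w) (ext a0 w')
      have hW : 0 ≤ Wt ι (rr d k ^ 2) 0 n 0 (ext a0 w) (ext a0 w') := by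
        unfold Wt
        refine Finset.prod_nonneg fun j _ => ?_
        split_ifs
        · positivity
        · norm_num
      have h4 : (0 : ℝ) ≤ p ^ 2 * Wt ι (rr d k ^ 2) 0 n 0 (ext a0 w) (ext a0 w') := by positivity
      rw [measureReal_def]
      refine ENNReal.toReal_le_of_le_ofReal h4 ?_
      exact h3
    calc ∑ w : Fin n → Ltr N, ∑ w' : Fin n → Ltr N, (law d k).real ({A | Opn ι n (ext a0 w) A} ∩
        {A | Opn ι n (ext a0 w') A})
        ≤ ∑ w : Fin n → Ltr N, ∑ w' : Fin n → Ltr N,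
          p ^ 2 * Wt ι (rr d k ^ 2) 0 n 0 (ext a0 w) (ext a0 w') :=
          Finset.sum_le_sum fun w _ => Finset.sum_le_sum fun w' _ => h2 w w'
      _ = p ^ 2 * SS ι a0 (rr d k ^ 2) 0 n 0 := by
          unfold SS
          simp_rw [← Finset.mul_sum]
      _ ≤ p ^ 2 * (2 * ((2 * N : ℝ) ^ n) ^ 2) := by
          refine mul_le_mul_of_nonneg_left ?_ (by positivity)
          refine SS_le ι a0 _ hN ?_ hR n
          nlinarith
      _ = 2 * ((2 * N : ℝ) ^ n * p) ^ 2 := by ring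

theorem reach {n : ℕ} {w : ℕ → Ltr N} {A : V d → Finset (Dir d)} (hA : Opn ι n w A) :
    ∀ i ≤ n, (bng A).Reachable 0 (pos ι 0 w i) := by
  intro i
  induction i with
  | zero => intro _; rw [pos_zero]
  | succ i ih =>
    intro hi
    refine (ih (by omega)).trans (SimpleGraph.Adj.reachable ?_)
    refine ⟨(crd ι i (w i), true), ?_, ?_, ?_⟩
    · unfold pos
      rw [Finset.sum_range_succ, zero_add]
      rfl
    · apply hA i (by omega)
      unfold JJ
      rw [if_pos (by omega)]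
      simp
    · apply hA (i + 1) hi
      unfold JJ
      simp [opp]

theorem inf_of_ev {A : V d → Finset (Dir d)} (hA : ∀ n, A ∈ Ev ι n) : InfComp A := by
  choose w hw using hA
  refine Set.infinite_of_injective_forall_mem (f := fun n => pos ι 0 (w n) n) ?_ ?_
  · intro n m hnm
    have h1 := congrArg lev hnm
    simp only [lev_pos] at h1
    exact_mod_cast h1
  · intro n
    exact reach ι (hw n) n le_rfl

include ι in
theorem theta_pos {k : ℕ} (hk4 : 4 ≤ k) (hk : k ≤ 2 * d) (hN : 1 ≤ N)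
    (hR : rr d k ^ 2 - 1 ≤ N / 20) : 0 < theta d k := by
  have a0 : Ltr N := (true, ⟨0, hN⟩)
  have h1 : ∀ n, ENNReal.ofReal (1 / 2) ≤ law d k (Ev ι n) := by
    intro n
    have h2 : ENNReal.ofReal (1 / 2) ≤ law d k (Ev ι (n + 1)) := by
      have h3 := ev_prob ι hk4 hk hN hR (n + 1) (by omega)
      rw [measureReal_def] at h3
      exact (ENNReal.ofReal_le_iff_le_toReal (measure_ne_top _ _)).mpr h3
    exact h2.trans (measure_mono (ev_anti ι (Nat.le_succ n)))
  have h2 : law d k (⋂ n, Ev ι n) = ⨅ n, law d k (Ev ι n) :=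
    (ev_anti ι).measure_iInter (fun n => (ev_meas ι a0 n).nullMeasurableSet)
      ⟨0, measure_ne_top _ _⟩
  have h3 : ENNReal.ofReal (1 / 2) ≤ law d k (⋂ n, Ev ι n) := by
    rw [h2]
    exact le_iInf h1
  have h4 : law d k (⋂ n, Ev ι n) ≤ theta d k := by
    refine measure_mono fun A hA => ?_
    exact inf_of_ev ι (Set.mem_iInter.mp hA)
  refine lt_of_lt_of_le ?_ (h3.trans h4)
  simp

end

end Pool.Agent.V11320.Bng
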