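import Mathlib
import Pool.Agent.V11320.BngUpper

set_option autoImplicit false
open MeasureTheory ProbabilityTheory
open scoped ENNReal NNReal BigOperators Topology

namespace Pool.Agent.V11320.Bng

noncomputable section

theorem law_pi {d k : ℕ} (F : Finset (V d)) (J : V d → Finset (Dir d)) :
    law d k {A | ∀ v ∈ F, J v ⊆ A v} = ∏ v ∈ F, choiceLaw d k {S | J v ⊆ S} := by
  have h1 : {A : V d → Finset (Dir d) | ∀ v ∈ F, J v ⊆ A v}
      = Set.pi (F : Set (V d)) fun v => {S | J v ⊆ S} := by
    ext A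
    simp [Set.mem_pi]
  rw [h1, law, Measure.infinitePi_pi]
  intro v _
  exact Set.Finite.measurableSet (Set.toFinite _)

theorem choice_two {d k : ℕ} (hd : 1 ≤ d) (hk1 : 1 ≤ k) (hk : k ≤ 2 * d) (J : Finset (Dir d))
    (hJ : J.card = 2) :
    choiceLaw d k {S | J ⊆ S} ≤ ENNReal.ofReal (k * (k - 1) / (2 * d * (2 * d - 1))) := by
  classical
  rcases Nat.lt_or_ge k 2 with h | h
  · have hk' : k = 1 := by omega
    subst hk'
    have h1 : choiceLaw d 1 {S | J ⊆ S} = 0 := by
      unfold choiceLaw
      rw [dif_pos hk, PMF.toMeasure_uniformOfFinset_apply _ _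
        (Set.Finite.measurableSet (Set.toFinite _))]
      have h2 : ∀ inst : DecidablePred fun x : Finset (Dir d) => x ∈ {S : Finset (Dir d) | J ⊆ S},
          (@Finset.filter _ (fun x : Finset (Dir d) => x ∈ {S : Finset (Dir d) | J ⊆ S}) inst
          (Finset.powersetCard 1 (Finset.univ : Finset (Dir d)))).card = 0 := by
        intro inst
        rw [Finset.card_eq_zero, Finset.filter_eq_empty_iff]
        intro S hS hJS
        have h3 := (Finset.mem_powersetCard.mp hS).2
        have h4 := Finset.card_le_card (show J ⊆ S from hJS)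
        omega
      rw [h2]
      simp
    rw [h1]
    exact bot_le
  · have h1 := choice_contains (k := k) hk J (by omega)
    rw [h1, hJ, pr_two hd h hk]

/-- positions of a word of signed directions -/
def sp {d : ℕ} (w : ℕ → Dir d) (j : ℕ) : V d := ∑ l ∈ Finset.range j, vec (w l)

theorem sp_succ {d : ℕ} (w : ℕ → Dir d) (j : ℕ) : sp w (j + 1) = sp w j + vec (w j) :=
  Finset.sum_range_succ _ _

theorem vec_opp {d : ℕ} (s : Dir d) : vec (opp s) = -vec s := by
  obtain ⟨i, b⟩ := s
  funext c
  simp only [vec, opp, Pi.neg_apply, Pi.single_apply]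
  by_cases hc : c = i
  · cases b <;> simp [hc]
  · simp [hc]

/-- the word codes a self-avoiding open path with `n` steps -/
def Sa {d : ℕ} (n : ℕ) (w : ℕ → Dir d) (A : V d → Finset (Dir d)) : Prop :=
  (∀ i j, i ≤ n → j ≤ n → sp w i = sp w j → i = j) ∧
    ∀ i < n, w i ∈ A (sp w i) ∧ opp (w i) ∈ A (sp w (i + 1))

theorem sa_prob {d k : ℕ} (hd : 1 ≤ d) (hk1 : 1 ≤ k) (hk : k ≤ 2 * d) (n : ℕ)
    (w : ℕ → Dir d) : law d k {A | Sa (n + 1) w A}
      ≤ ENNReal.ofReal (k * (k - 1) / (2 * d * (2 * d - 1))) ^ n := by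
  classical
  by_cases hw : ∀ i j, i ≤ n + 1 → j ≤ n + 1 → sp w i = sp w j → i = j
  · set F : Finset (V d) := (Finset.range n).image fun i => sp w (i + 1) with hF
    have hex : ∀ v : V d, ∃ J : Finset (Dir d), ∀ i < n, v = sp w (i + 1) →
        J = {w (i + 1), opp (w i)} := by
      intro v
      by_cases h : ∃ i < n, v = sp w (i + 1)
      · obtain ⟨i, hi, hv⟩ := h
        refine ⟨{w (i + 1), opp (w i)}, fun i' hi' hv' => ?_⟩
        have := hw (i + 1) (i' + 1) (by omega) (by omega) (hv.symm.trans hv')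
        have h' : i = i' := by omega
        rw [h']
      · exact ⟨∅, fun i hi hv => absurd ⟨i, hi, hv⟩ h⟩
    choose J hJ using hex
    have hsub : {A : V d → Finset (Dir d) | Sa (n + 1) w A} ⊆ {A | ∀ v ∈ F, J v ⊆ A v} := by
      rintro A ⟨_, hA⟩ v hv
      rw [hF, Finset.mem_image] at hv
      obtain ⟨i, hi, rfl⟩ := hv
      have hi' := Finset.mem_range.mp hi
      rw [hJ _ i hi' rfl]
      intro s hs
      rw [Finset.mem_insert, Finset.mem_singleton] at hs
      rcases hs with rfl | rfl
      · exact (hA (i + 1) (by omega)).1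
      · exact (hA i (by omega)).2
    refine (measure_mono hsub).trans ?_
    rw [law_pi]
    have hcard : F.card = n := by
      rw [hF, Finset.card_image_of_injOn, Finset.card_range]
      intro i hi j hj hij
      have hi' := Finset.mem_range.mp hi
      have hj' := Finset.mem_range.mp hj
      have := hw (i + 1) (j + 1) (by omega) (by omega) hij
      omega
    rw [← hcard]
    refine Finset.prod_le_pow_card _ _ _ fun v hv => ?_
    rw [hF, Finset.mem_image] at hv
    obtain ⟨i, hi, rfl⟩ := hv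
    have hi' := Finset.mem_range.mp hi
    rw [hJ _ i hi' rfl]
    apply choice_two hd hk1 hk
    apply Finset.card_pair
    intro h
    have h1 : sp w (i + 1 + 1) = sp w i := by
      rw [sp_succ, sp_succ, h, vec_opp]
      abel
    have := hw (i + 1 + 1) i (by omega) (by omega) h1
    omega
  · have h1 : {A : V d → Finset (Dir d) | Sa (n + 1) w A} = ∅ := by
      ext A
      simp only [Set.mem_empty_iff_false, iff_false]
      rintro ⟨h, _⟩
      exact hw h
    rw [h1, measure_empty]
    exact bot_le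

theorem walk_dist {d : ℕ} {A : V d → Finset (Dir d)} {x y : V d} (p : (bng A).Walk x y) :
    ∀ c, |y c - x c| ≤ p.length := by
  induction p with
  | nil => intro c; simp
  | @cons u v w h q ih =>
    intro c
    rw [SimpleGraph.Walk.length_cons]
    obtain ⟨s, hs, _, _⟩ := h
    have h1 := ih c
    have h2 : |v c - u c| ≤ 1 := by
      rw [hs]
      obtain ⟨i, b⟩ := s
      simp only [Pi.add_apply, vec, Pi.single_apply, add_sub_cancel_left]
      by_cases hc : c = i
      · cases b <;> simp [hc]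
      · simp [hc]
    have h3 : w c - u c = (w c - v c) + (v c - u c) := by ring
    rw [h3]
    refine (abs_add_le _ _).trans ?_
    push_cast
    linarith

theorem exists_sa {d : ℕ} {A : V d → Finset (Dir d)} (hA : InfComp A) (n : ℕ) :
    ∃ w : ℕ → Dir d, Sa n w A := by
  classical
  -- a far vertex
  have hfin : (Set.Icc (fun _ : Fin d => -(n : ℤ)) (fun _ => (n : ℤ))).Finite := Set.finite_Icc _ _
  obtain ⟨x, hx, hxn⟩ := hA.exists_notMem_finite hfin
  obtain ⟨p0⟩ := (hx : (bng A).Reachable 0 x)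
  obtain ⟨q, hqp⟩ := p0.toPath
  have hlen : n < q.length := by
    by_contra hcon
    push Not at hcon
    apply hxn
    have h1 := walk_dist q
    rw [Set.mem_Icc]
    constructor
    · intro c
      have h2 := h1 c
      simp only [Pi.zero_apply, sub_zero] at h2
      have h3 := (abs_le.mp h2).1
      have h4 : (q.length : ℤ) ≤ n := by exact_mod_cast hcon
      show -(n : ℤ) ≤ x c
      linarith
    · intro c
      have h2 := h1 c
      simp only [Pi.zero_apply, sub_zero] at h2
      have h3 := (abs_le.mp h2).2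
      have h4 : (q.length : ℤ) ≤ n := by exact_mod_cast hcon
      show x c ≤ (n : ℤ)
      linarith
  have hadj : ∀ i, ∃ s : Dir d, i < q.length → (q.getVert (i + 1) = q.getVert i + vec s ∧
      s ∈ A (q.getVert i) ∧ opp s ∈ A (q.getVert (i + 1))) := by
    intro i
    by_cases hi : i < q.length
    · obtain ⟨s, h1, h2, h3⟩ := q.adj_getVert_succ hi
      exact ⟨s, fun _ => ⟨h1, h2, h3⟩⟩
    · -- some direction exists
      obtain ⟨s, _⟩ := q.adj_getVert_succ (show 0 < q.length by omega)
      exact ⟨s, fun h => absurd h hi⟩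
  choose w hw using hadj
  have hpos : ∀ i, i ≤ q.length → sp w i = q.getVert i := by
    intro i
    induction i with
    | zero => intro _; simp [sp]
    | succ i ih =>
      intro hi
      rw [sp_succ, ih (by omega), (hw i (by omega)).1]
  refine ⟨w, ?_, ?_⟩
  · intro i j hi hj hij
    rw [hpos i (by omega), hpos j (by omega)] at hij
    exact hqp.getVert_injOn (show i ∈ {i | i ≤ q.length} by exact (by omega : i ≤ q.length))
      (show j ∈ {i | i ≤ q.length} by exact (by omega : j ≤ q.length)) hij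
  · intro i hi
    rw [hpos i (by omega), hpos (i + 1) (by omega)]
    exact ⟨(hw i (by omega)).2.1, (hw i (by omega)).2.2⟩

theorem sp_congr {d : ℕ} {i n : ℕ} (hi : i ≤ n) {w w' : ℕ → Dir d} (h : ∀ j < n, w j = w' j) :
    sp w i = sp w' i := by
  unfold sp
  refine Finset.sum_congr rfl fun l hl => ?_
  rw [h l (lt_of_lt_of_le (Finset.mem_range.mp hl) hi)]

theorem sa_congr {d : ℕ} {n : ℕ} {w w' : ℕ → Dir d} (h : ∀ j < n, w j = w' j)
    {A : V d → Finset (Dir d)} (hA : Sa n w A) : Sa n w' A := by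
  obtain ⟨h1, h2⟩ := hA
  refine ⟨fun i j hi hj hij => ?_, fun i hi => ?_⟩
  · rw [← sp_congr hi h, ← sp_congr hj h] at hij
    exact h1 i j hi hj hij
  · rw [← sp_congr (by omega : i ≤ n) h, ← sp_congr (by omega : i + 1 ≤ n) h, ← h i hi]
    exact h2 i hi

theorem theta_le {d k : ℕ} (hd : 1 ≤ d) (hk1 : 1 ≤ k) (hk : k ≤ 2 * d) (n : ℕ) :
    theta d k ≤ ENNReal.ofReal (2 * d * (k * (k - 1) / (2 * d - 1)) ^ n) := by
  classical
  set a0 : Dir d := (⟨0, hd⟩, true) with ha0
  have hsub : {A : V d → Finset (Dir d) | InfComp A}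
      ⊆ ⋃ w : Fin (n + 1) → Dir d, {A | Sa (n + 1) (ext a0 w) A} := by
    intro A hA
    obtain ⟨w, hw⟩ := exists_sa hA (n + 1)
    rw [Set.mem_iUnion]
    refine ⟨fun j => w j, sa_congr (fun j hj => ?_) hw⟩
    unfold ext
    rw [dif_pos hj]
  have hd1 : (1 : ℝ) ≤ d := by exact_mod_cast hd
  have hk1' : (1 : ℝ) ≤ k := by exact_mod_cast hk1
  have hp0 : (0 : ℝ) ≤ k * (k - 1) / (2 * d * (2 * d - 1)) := by
    apply div_nonneg
    · nlinarith
    · nlinarith
  calc theta d k ≤ law d k (⋃ w : Fin (n + 1) → Dir d, {A | Sa (n + 1) (ext a0 w) A}) :=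
        measure_mono hsub
    _ ≤ ∑ w : Fin (n + 1) → Dir d, law d k {A | Sa (n + 1) (ext a0 w) A} :=
        measure_iUnion_fintype_le _ _
    _ ≤ ∑ _w : Fin (n + 1) → Dir d,
          ENNReal.ofReal (k * (k - 1) / (2 * d * (2 * d - 1))) ^ n :=
        Finset.sum_le_sum fun w _ => sa_prob hd hk1 hk n _
    _ = ENNReal.ofReal (2 * d * (k * (k - 1) / (2 * d - 1)) ^ n) := by
        rw [Finset.sum_const, Finset.card_univ, nsmul_eq_mul, Fintype.card_fun, card_dir,
          Fintype.card_fin, ← ENNReal.ofReal_pow hp0, ← ENNReal.ofReal_natCast,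
          ← ENNReal.ofReal_mul (by positivity)]
        congr 1
        push_cast
        have h1 : (2 * (d : ℝ) - 1) ≠ 0 := by
          have : (0 : ℝ) < 2 * d - 1 := by linarith
          exact this.ne'
        rw [pow_succ, mul_comm ((2 * (d : ℝ)) ^ n), mul_assoc, ← mul_pow]
        congr 2
        field_simp

theorem theta_zero {d k : ℕ} (hd : 1 ≤ d) (hk1 : 1 ≤ k) (hk : k ≤ 2 * d)
    (h : k * (k - 1) + 1 < 2 * d) : theta d k = 0 := by
  have hd1 : (1 : ℝ) ≤ d := by exact_mod_cast hd
  have hk1' : (1 : ℝ) ≤ k := by exact_mod_cast hk1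
  set q : ℝ := k * (k - 1) / (2 * d - 1) with hq
  have hq0 : 0 ≤ q := by
    apply div_nonneg
    · nlinarith
    · linarith
  have hq1 : q < 1 := by
    rw [hq, div_lt_one (by linarith)]
    have h1 : ((k * (k - 1) + 1 : ℕ) : ℝ) < ((2 * d : ℕ) : ℝ) := by exact_mod_cast h
    push_cast [Nat.cast_sub hk1] at h1
    linarith
  have htend : Filter.Tendsto (fun n : ℕ => ENNReal.ofReal (2 * d * q ^ n)) Filter.atTop (𝓝 0) := by
    have h1 : Filter.Tendsto (fun n : ℕ => 2 * d * q ^ n) Filter.atTop (𝓝 (2 * d * 0)) :=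
      (tendsto_pow_atTop_nhds_zero_of_lt_one hq0 hq1).const_mul _
    rw [mul_zero] at h1
    have h2 := ENNReal.tendsto_ofReal h1
    rwa [ENNReal.ofReal_zero] at h2
  exact le_antisymm (ge_of_tendsto' htend fun n => theta_le hd hk1 hk n) bot_le

/-- full choice -/
theorem theta_full {d : ℕ} (hd : 1 ≤ d) : 0 < theta d (2 * d) := by
  classical
  have h1 : ∀ v : V d, ∀ᵐ A ∂(law d (2 * d)), A v = Finset.univ := by
    intro v
    have h2 := law_box (d := d) (k := 2 * d) le_rfl {v} (fun _ => Finset.univ) (fun _ _ => by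
      rw [Finset.card_univ, card_dir])
    rw [Finset.prod_singleton, Finset.card_univ, card_dir] at h2
    have h3 : pr d (2 * d) (2 * d) = 1 := by
      unfold pr
      simp
    rw [h3, ENNReal.ofReal_one] at h2
    have hm : MeasurableSet {A : V d → Finset (Dir d) | ∀ u ∈ ({v} : Finset (V d)),
        (Finset.univ : Finset (Dir d)) ⊆ A u} := by
      have : {A : V d → Finset (Dir d) | ∀ u ∈ ({v} : Finset (V d)),
          (Finset.univ : Finset (Dir d)) ⊆ A u} = (fun A => A v) ⁻¹' {S | Finset.univ ⊆ S} := by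
        ext A
        simp
      rw [this]
      exact (Set.Finite.measurableSet (Set.toFinite _)).preimage (measurable_pi_apply v)
    have h4 := (prob_compl_eq_zero_iff hm).mpr h2
    filter_upwards [measure_eq_zero_iff_ae_notMem.mp h4] with A hA
    have h5 : A ∈ {A : V d → Finset (Dir d) | ∀ u ∈ ({v} : Finset (V d)),
        (Finset.univ : Finset (Dir d)) ⊆ A u} := by
      by_contra hcon
      exact hA hcon
    exact Finset.univ_subset_iff.mp (h5 v (Finset.mem_singleton_self v))
  have h2 : ∀ᵐ A ∂(law d (2 * d)), InfComp A := by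
    filter_upwards [ae_all_iff.mpr h1] with A hA
    have hadj : ∀ (x : V d) (s : Dir d), (bng A).Adj x (x + vec s) := fun x s =>
      ⟨s, rfl, by rw [hA]; exact Finset.mem_univ _, by rw [hA]; exact Finset.mem_univ _⟩
    set s : Dir d := (⟨0, hd⟩, true) with hs
    have hr : ∀ n : ℕ, (bng A).Reachable 0 ((n : ℤ) • vec s) := by
      intro n
      induction n with
      | zero => simp
      | succ n ih =>
        refine ih.trans ?_
        have h3 : ((n + 1 : ℕ) : ℤ) • vec s = (n : ℤ) • vec s + vec s := by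
          push_cast
          rw [add_smul, one_smul]
        rw [h3]
        exact (hadj _ _).reachable
    refine Set.infinite_of_injective_forall_mem (f := fun n : ℕ => (n : ℤ) • vec s) ?_ hr
    intro n m hnm
    have h3 := congrFun hnm ⟨0, hd⟩
    simp [vec, hs] at h3
    exact h3
  have h3 : law d (2 * d) {A | InfComp A}ᶜ = 0 := h2
  have h4 : theta d (2 * d) = 1 := by
    unfold theta
    have h5 := measure_mono_ae (μ := law d (2 * d)) (s := Set.univ) (t := {A | InfComp A})
      (by filter_upwards [h2] with A hA _; exact hA)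
    rw [measure_univ] at h5
    exact le_antisymm prob_le_one h5
  rw [h4]
  norm_num

theorem kc_set_nonempty {d : ℕ} (hd : 1 ≤ d) :
    {k : ℕ | 1 ≤ k ∧ k ≤ 2 * d ∧ 0 < theta d k}.Nonempty :=
  ⟨2 * d, by omega, le_rfl, theta_full hd⟩

theorem kc_lower {d : ℕ} (hd : 1 ≤ d) : Real.sqrt d ≤ kc d := by
  obtain ⟨h1, h2, h3⟩ := Nat.sInf_mem (kc_set_nonempty hd)
  change 1 ≤ kc d at h1
  change kc d ≤ 2 * d at h2
  change 0 < theta d (kc d) at h3
  have h4 : 2 * d ≤ kc d * (kc d - 1) + 1 := by
    by_contra hcon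
    push Not at hcon
    rw [theta_zero hd h1 h2 hcon] at h3
    exact lt_irrefl _ h3
  have h5 : d ≤ kc d ^ 2 := by
    have h6 : kc d * (kc d - 1) ≤ kc d * kc d := Nat.mul_le_mul_left _ (Nat.sub_le _ _)
    rw [sq]
    omega
  have h6 : (d : ℝ) ≤ (kc d : ℝ) ^ 2 := by exact_mod_cast h5
  rw [Real.sqrt_le_left (Nat.cast_nonneg _)]
  exact h6

theorem kc_upper {d : ℕ} (hd : 1 ≤ d) : (kc d : ℝ) ≤ 30 * Real.sqrt d := by
  have hd1 : (1 : ℝ) ≤ d := by exact_mod_cast hd
  have hs0 : 0 < Real.sqrt d := Real.sqrt_pos.mpr (by linarith)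
  have hs2 : Real.sqrt d * Real.sqrt d = d := Real.mul_self_sqrt (by linarith)
  rcases le_total (Real.sqrt d) 15 with h | h
  · have h1 : kc d ≤ 2 * d := Nat.sInf_le ⟨by omega, le_rfl, theta_full hd⟩
    have h2 : (kc d : ℝ) ≤ 2 * d := by exact_mod_cast h1
    nlinarith
  · set k : ℕ := ⌈26 * Real.sqrt d⌉₊ + 1 with hk
    have hk1 : 26 * Real.sqrt d + 1 ≤ k := by
      rw [hk]
      push_cast
      have := Nat.le_ceil (26 * Real.sqrt d)
      linarith
    have hk2 : (k : ℝ) ≤ 26 * Real.sqrt d + 2 := by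
      rw [hk]
      push_cast
      have := Nat.ceil_lt_add_one (show 0 ≤ 26 * Real.sqrt d by positivity)
      linarith
    have hk3 : (k : ℝ) ≤ 30 * Real.sqrt d := by linarith
    have hk4 : 4 ≤ k := by
      have : (4 : ℝ) ≤ k := by nlinarith
      exact_mod_cast this
    have hk5 : k ≤ 2 * d := by
      have : (k : ℝ) ≤ 2 * d := by nlinarith
      exact_mod_cast this
    have hd225 : (225 : ℝ) ≤ d := by nlinarith
    have hd225' : 225 ≤ d := by exact_mod_cast hd225
    set N : ℕ := d / 8 with hN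
    have hN1 : 1 ≤ N := by omega
    have hN8 : 4 * (2 * N) ≤ d := by omega
    have hN2 : ((d : ℝ) - 7) / 8 ≤ N := by
      have h9 : d ≤ 8 * N + 7 := by omega
      have : (d : ℝ) ≤ 8 * N + 7 := by exact_mod_cast h9
      linarith
    have hemb : Nonempty (Fin 4 × Bool × Fin N ↪ Fin d) := by
      apply Function.Embedding.nonempty_of_card_le
      simpa using hN8
    obtain ⟨ι⟩ := hemb
    have hR : rr d k ^ 2 - 1 ≤ (N : ℝ) / 20 := by
      have h1 : rr d k ≤ 2 * d / (26 * Real.sqrt d) := by
        unfold rr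
        rw [div_le_div_iff₀ (by linarith) (by positivity)]
        nlinarith
      have h2 : 2 * d / (26 * Real.sqrt d) = Real.sqrt d / 13 := by
        rw [div_eq_div_iff (by positivity) (by norm_num)]
        nlinarith
      rw [h2] at h1
      have h3 : 0 ≤ rr d k := by
        have := rr_ge_one (d := d) (k := k) (by omega) hk5
        linarith
      have h4 : rr d k ^ 2 ≤ (Real.sqrt d / 13) ^ 2 := by
        exact pow_le_pow_left₀ h3 h1 2
      have h5 : (Real.sqrt d / 13) ^ 2 = d / 169 := by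
        rw [div_pow, sq, hs2]
        norm_num
      rw [h5] at h4
      linarith
    have h1 : kc d ≤ k := Nat.sInf_le ⟨by omega, hk5, theta_pos ι hk4 hk5 hN1 hR⟩
    have h2 : (kc d : ℝ) ≤ k := by exact_mod_cast h1
    linarith

end

end Pool.Agent.V11320.Bng
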