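import Mathlib

set_option autoImplicit false
open MeasureTheory ProbabilityTheory
open scoped ENNReal NNReal BigOperators Topology

namespace Pool.Agent.V11320.TS

noncomputable section

/-- the shift of an exponential variable is the conditioned variable -/
theorem exp_shift {r s : ℝ} (hs : 0 ≤ s) {t : Set ℝ} (ht : MeasurableSet t) :
    (expMeasure r).map (fun x => x + s) t
      = ENNReal.ofReal (Real.exp (r * s)) * expMeasure r (t ∩ Set.Ici s) := by
  have hme : Measurable (fun x : ℝ => x + s) := by fun_prop
  rw [Measure.map_apply hme ht]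
  have hdens : ∀ u : Set ℝ, MeasurableSet u → expMeasure r u = ∫⁻ x, u.indicator (exponentialPDF r) x := by
    intro u hu
    show (volume.withDensity (exponentialPDF r)) u = _
    rw [withDensity_apply _ hu, lintegral_indicator hu]
  rw [hdens _ (hme ht), hdens _ (ht.inter measurableSet_Ici), ← lintegral_const_mul' _ _ ENNReal.ofReal_ne_top,
    ← lintegral_sub_right_eq_self (μ := volume) (fun x => ((fun x : ℝ => x + s) ⁻¹' t).indicator (exponentialPDF r) x) s]
  refine lintegral_congr fun x => ?_
  by_cases hx : x ∈ t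
  · have h1 : x - s ∈ (fun x : ℝ => x + s) ⁻¹' t := by simpa using hx
    rw [Set.indicator_of_mem h1]
    by_cases hxs : s ≤ x
    · have hmem : x ∈ t ∩ Set.Ici s := ⟨hx, hxs⟩
      rw [Set.indicator_of_mem hmem, exponentialPDF_of_nonneg (by linarith),
        exponentialPDF_of_nonneg (by linarith), ← ENNReal.ofReal_mul (Real.exp_nonneg _)]
      congr 1
      have h2 : Real.exp (-(r * (x - s))) = Real.exp (r * s) * Real.exp (-(r * x)) := by
        rw [← Real.exp_add]; congr 1; ring
      rw [h2]; ring
    · rw [exponentialPDF_of_neg (by push Not at hxs; linarith), Set.indicator_of_notMem, mul_zero]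
      exact fun h => hxs h.2
  · have h1 : x - s ∉ (fun x : ℝ => x + s) ⁻¹' t := by simpa using hx
    rw [Set.indicator_of_notMem h1, Set.indicator_of_notMem (fun h => hx h.1), mul_zero]

variable {ι : Type*}

/-- add `s` to the coordinates in `F` -/
def sh (F : Finset ι) (s : ℝ) (ω : ι → ℝ) : ι → ℝ :=
  open Classical in fun e => ω e + (if e ∈ F then s else 0)

theorem sh_measurable (F : Finset ι) (s : ℝ) : Measurable (sh F s) := by
  unfold sh
  fun_prop

/-- the law of independent exponential variables of rates `r` -/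
def law (r : ι → ℝ) : Measure (ι → ℝ) := Measure.infinitePi fun e => expMeasure (r e)

theorem law_shift {r : ι → ℝ} (hr : ∀ e, 0 < r e) (F : Finset ι) {s : ℝ} (hs : 0 ≤ s) :
    (law r).map (sh F s)
      = (∏ e ∈ F, ENNReal.ofReal (Real.exp (r e * s))) •
        (law r).restrict ((F : Set ι).pi fun _ => Set.Ici s) := by
  classical
  have : ∀ e, IsProbabilityMeasure (expMeasure (r e)) := fun e =>
    isProbabilityMeasure_expMeasure (hr e)
  set ν : ι → Measure ℝ := fun e => (expMeasure (r e)).map (fun x => x + (if e ∈ F then s else 0)) with hν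
  have hνp : ∀ e, IsProbabilityMeasure (ν e) := fun e =>
    Measure.isProbabilityMeasure_map (by fun_prop)
  have h1 : (law r).map (sh F s) = Measure.infinitePi ν := by
    have h2 := Measure.infinitePi_map_pi (fun e => expMeasure (r e))
      (f := fun e x => x + (if e ∈ F then s else 0)) (fun e => by fun_prop)
    rw [← h2]
    rfl
  rw [h1]
  symm
  refine Measure.eq_infinitePi _ fun S t ht => ?_
  rw [Measure.smul_apply, Measure.restrict_apply (.pi S.countable_toSet fun _ _ => ht _), smul_eq_mul]
  set w : ι → Set ℝ := fun e => (if e ∈ S then t e else Set.univ) ∩ (if e ∈ F then Set.Ici s else Set.univ)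
    with hw
  have h3 : (S : Set ι).pi t ∩ (F : Set ι).pi (fun _ => Set.Ici s) = ((S ∪ F : Finset ι) : Set ι).pi w := by
    ext ω
    simp only [Set.mem_inter_iff, Set.mem_pi, Finset.mem_coe, Finset.mem_union, hw]
    constructor
    · rintro ⟨h4, h5⟩ i hi
      refine ⟨?_, ?_⟩
      · split_ifs with h6
        · exact h4 i h6
        · trivial
      · split_ifs with h6
        · exact h5 i h6
        · trivial
    · intro h4
      refine ⟨fun i hi => ?_, fun i hi => ?_⟩
      · have := (h4 i (Or.inl hi)).1
        rwa [if_pos hi] at this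
      · have := (h4 i (Or.inr hi)).2
        rwa [if_pos hi] at this
  have hwm : ∀ i, MeasurableSet (w i) := by
    intro i
    refine MeasurableSet.inter ?_ ?_
    · split_ifs
      · exact ht i
      · exact .univ
    · split_ifs
      · exact measurableSet_Ici
      · exact .univ
  rw [h3]
  unfold law
  rw [Measure.infinitePi_pi _ (fun i _ => hwm i)]
  have h4 : ∏ e ∈ F, ENNReal.ofReal (Real.exp (r e * s))
      = ∏ e ∈ S ∪ F, (if e ∈ F then ENNReal.ofReal (Real.exp (r e * s)) else 1) := by
    rw [Finset.prod_ite_mem, Finset.inter_eq_right.mpr Finset.subset_union_right]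
  rw [h4, ← Finset.prod_mul_distrib]
  have h5 : ∏ i ∈ S, ν i (t i) = ∏ i ∈ S ∪ F, ν i (if i ∈ S then t i else Set.univ) := by
    rw [← Finset.prod_subset (Finset.subset_union_left : S ⊆ S ∪ F)]
    · refine Finset.prod_congr rfl fun i hi => ?_
      rw [if_pos hi]
    · intro i _ hi
      rw [if_neg hi, measure_univ]
  rw [h5]
  refine Finset.prod_congr rfl fun i _ => ?_
  have htm : MeasurableSet (if i ∈ S then t i else Set.univ) := by
    split_ifs
    · exact ht i
    · exact .univ
  rw [hν, hw]
  by_cases hi : i ∈ F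
  · simp only [if_pos hi]
    rw [exp_shift hs htm]
  · simp only [if_neg hi, add_zero, Measure.map_id', Set.inter_univ, one_mul]

theorem law_shift_le {r : ι → ℝ} (hr : ∀ e, 0 < r e) (F : Finset ι) {s : ℝ} (hs : 0 ≤ s)
    {A : Set (ι → ℝ)} (hA : MeasurableSet A) :
    law r (A ∩ (F : Set ι).pi fun _ => Set.Ici s) ≤ law r (sh F s ⁻¹' A) := by
  rw [← Measure.map_apply (sh_measurable F s) hA, law_shift hr F hs, Measure.smul_apply,
    Measure.restrict_apply hA, smul_eq_mul]
  have h1 : (1 : ℝ≥0∞) ≤ ∏ e ∈ F, ENNReal.ofReal (Real.exp (r e * s)) := by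
    refine Finset.one_le_prod' fun e _ => ?_
    rw [← ENNReal.ofReal_one]
    refine ENNReal.ofReal_le_ofReal ?_
    rw [← Real.exp_zero]
    exact Real.exp_le_exp.mpr (mul_nonneg (hr e).le hs)
  calc law r (A ∩ (F : Set ι).pi fun _ => Set.Ici s)
      = 1 * law r (A ∩ (F : Set ι).pi fun _ => Set.Ici s) := (one_mul _).symm
    _ ≤ _ := by gcongr

theorem exp_nonpos {r : ℝ} : expMeasure r (Set.Iic 0) = 0 := by
  show (volume.withDensity (exponentialPDF r)) _ = 0
  rw [withDensity_apply _ measurableSet_Iic, ← Set.Iio_union_right, 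
    ← nonpos_iff_eq_zero]
  refine (lintegral_union_le _ _ _).trans ?_
  rw [lintegral_exponentialPDF_of_nonpos le_rfl]
  simp

theorem law_pos [Countable ι] {r : ι → ℝ} (hr : ∀ e, 0 < r e) : ∀ᵐ ω ∂(law r), ∀ e, 0 < ω e := by
  have : ∀ e, IsProbabilityMeasure (expMeasure (r e)) := fun e =>
    isProbabilityMeasure_expMeasure (hr e)
  rw [ae_all_iff]
  intro e
  have h1 := Measure.infinitePi_map_eval (fun e => expMeasure (r e)) e
  have h2 : law r {ω | ¬ 0 < ω e} = 0 := by
    have h3 : {ω : ι → ℝ | ¬ 0 < ω e} = (fun ω => ω e) ⁻¹' (Set.Iic 0) := by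
      ext ω; simp
    rw [h3, ← Measure.map_apply (by fun_prop) measurableSet_Iic]
    unfold law
    rw [h1]
    exact exp_nonpos
  exact h2

/-- an event incompatible with its rational shifts is null -/
theorem law_null [Countable ι] {r : ι → ℝ} (hr : ∀ e, 0 < r e) (F : Finset ι)
    {A : Set (ι → ℝ)} (hA : MeasurableSet A)
    (hdis : ∀ ω : ι → ℝ, (∀ e, 0 ≤ ω e) → ∀ s : ℚ, 0 < s → ω ∈ A → sh F s ω ∉ A) :
    law r A = 0 := by
  have : ∀ e, IsProbabilityMeasure (expMeasure (r e)) := fun e =>
    isProbabilityMeasure_expMeasure (hr e)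
  have : IsProbabilityMeasure (law r) := by unfold law; infer_instance
  set s : ℕ → ℚ := fun n => 1 / (n + 1) with hs
  have hspos : ∀ n, 0 < s n := fun n => by rw [hs]; positivity
  have hsanti : ∀ m n, m < n → s n < s m := by
    intro m n hmn
    rw [hs]
    have h1 : ((m : ℚ) + 1) < n + 1 := by
      have : (m : ℚ) < n := by exact_mod_cast hmn
      linarith
    exact one_div_lt_one_div_of_lt (by positivity) h1
  set Ω : Set (ι → ℝ) := {ω | ∀ e, 0 < ω e} with hΩ
  have hΩm : MeasurableSet Ω := by
    rw [hΩ]
    have : {ω : ι → ℝ | ∀ e, 0 < ω e} = ⋂ e, {ω | 0 < ω e} := by ext; simp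
    rw [this]
    exact MeasurableSet.iInter fun e => measurableSet_lt measurable_const (measurable_pi_apply e)
  set B : ℕ → Set (ι → ℝ) := fun n => sh F (s n) ⁻¹' A ∩ Ω with hB
  have hBm : ∀ n, MeasurableSet (B n) := fun n => (sh_measurable F _ hA).inter hΩm
  have hBd : Pairwise (Function.onFun Disjoint B) := by
    have key : ∀ m n, m < n → Disjoint (B m) (B n) := by
      intro m n hmn
      rw [Set.disjoint_left]
      rintro ω ⟨h1, h2⟩ ⟨h3, _⟩
      have h4 : ∀ e, 0 ≤ sh F (s n) ω e := by
        intro e
        unfold sh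
        have h5 := h2 e
        have h6 : (0 : ℝ) < s n := by exact_mod_cast hspos n
        split_ifs <;> linarith
      have h5 := hdis _ h4 (s m - s n) (by linarith [hsanti m n hmn]) h3
      apply h5
      have h6 : sh F ((s m - s n : ℚ) : ℝ) (sh F (s n) ω) = sh F (s m) ω := by
        funext e
        unfold sh
        split_ifs
        · push_cast; ring
        · ring
      rw [h6]
      exact h1
    intro m n hmn
    rcases lt_or_gt_of_ne hmn with h | h
    · exact key m n h
    · exact (key n m h).symm
  have htend : Filter.Tendsto (fun n => law r (B n)) Filter.atTop (𝓝 0) := by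
    refine ENNReal.tendsto_atTop_zero_of_tsum_ne_top ?_
    rw [← measure_iUnion hBd hBm]
    exact measure_ne_top _ _
  have hG : ∀ m : ℕ, law r (A ∩ (F : Set ι).pi fun _ => Set.Ici (s m : ℝ)) = 0 := by
    intro m
    refine le_antisymm ?_ zero_le
    refine ge_of_tendsto htend ?_
    filter_upwards [Filter.eventually_ge_atTop m] with n hn
    have h1 := law_shift_le hr F (s := s n) (by exact_mod_cast (hspos n).le) hA
    have h2 : law r (sh F (s n) ⁻¹' A) = law r (B n) := by
      refine measure_congr ?_
      have h3 := law_pos hr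
      filter_upwards [h3] with ω hω
      have h4 : ω ∈ Ω := hω
      apply propext
      exact ⟨fun h => ⟨h, h4⟩, fun h => h.1⟩
    rw [← h2]
    refine le_trans (measure_mono ?_) h1
    refine Set.inter_subset_inter_right _ ?_
    intro ω hω i hi
    have h5 := hω i hi
    have h6 : s n ≤ s m := by
      rcases hn.lt_or_eq with h | h
      · exact (hsanti m n h).le
      · rw [h]
    have h7 : (s n : ℝ) ≤ s m := by exact_mod_cast h6
    exact h7.trans h5
  have hsub : A ⊆ (⋃ m : ℕ, A ∩ (F : Set ι).pi fun _ => Set.Ici (s m : ℝ)) ∪ Ωᶜ := by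
    intro ω hω
    by_cases h1 : ω ∈ Ω
    · left
      rw [Set.mem_iUnion]
      -- minimum over F
      have h2 : ∀ e, ∃ m : ℕ, ∀ n ≥ m, (s n : ℝ) ≤ ω e := by
        intro e
        obtain ⟨m, hm⟩ := exists_nat_one_div_lt (h1 e)
        refine ⟨m, fun n hn => ?_⟩
        have h6 : s n ≤ s m := by
          rcases hn.lt_or_eq with h | h
          · exact (hsanti m n h).le
          · rw [h]
        have h7 : (s n : ℝ) ≤ s m := by exact_mod_cast h6
        refine h7.trans ?_
        rw [hs]
        push_cast
        exact hm.le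
      choose g hg using h2
      refine ⟨F.sup g, hω, fun i hi => hg i _ (Finset.le_sup hi)⟩
    · right; exact h1
  refine measure_mono_null hsub (measure_union_null ?_ ?_)
  · exact measure_iUnion_null hG
  · have := law_pos hr
    exact this

end

end Pool.Agent.V11320.TS
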