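import Mathlib
import Pool.Agent.V11320.EdenShape
import Pool.Agent.V11320.EdenNorm
import Pool.Agent.V11320.TSA

set_option autoImplicit false
open MeasureTheory
open scoped ENNReal NNReal BigOperators Topology

namespace Pool.Agent.V11320.TS

open EdenShape

noncomputable section

variable {D : ℕ} {α : ℝ} {f : E D → ℝ} {μ : Seminorm ℝ (E D)}

theorem mu_lower (hμ : ∀ x, x ≠ 0 → 0 < μ x) : ∃ c : ℝ, 0 < c ∧ ∀ x, c * ‖x‖ ≤ μ x := by
  have hcont : Continuous μ := by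
    have h1 := μ.convexOn.continuousOn isOpen_univ
    rwa [← continuousOn_univ]
  by_cases hne : (Metric.sphere (0 : E D) 1).Nonempty
  · obtain ⟨u, hu, hmin⟩ := (isCompact_sphere (0 : E D) 1).exists_isMinOn hne hcont.continuousOn
    have hu1 : ‖u‖ = 1 := by simpa using hu
    have hu0 : u ≠ 0 := by rw [← norm_pos_iff, hu1]; exact one_pos
    refine ⟨μ u, hμ u hu0, fun x => ?_⟩
    by_cases hx : x = 0
    · subst hx; simp
    · have hx0 : 0 < ‖x‖ := norm_pos_iff.mpr hx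
      have h2 : ‖x‖⁻¹ • x ∈ Metric.sphere (0 : E D) 1 := by
        rw [mem_sphere_zero_iff_norm, norm_smul, norm_inv, norm_norm, inv_mul_cancel₀ hx0.ne']
      have h3 := hmin h2
      simp only [Set.mem_ofPred_eq] at h3
      rw [map_smul_eq_mul, norm_inv, norm_norm, inv_mul_eq_div, le_div_iff₀ hx0] at h3
      exact h3
  · refine ⟨1, one_pos, fun x => ?_⟩
    by_cases hx : x = 0
    · subst hx; simp
    · exfalso
      apply hne
      have hx0 : 0 < ‖x‖ := norm_pos_iff.mpr hx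
      exact ⟨‖x‖⁻¹ • x, by
        rw [mem_sphere_zero_iff_norm, norm_smul, norm_inv, norm_norm, inv_mul_cancel₀ hx0.ne']⟩

/-- the density is bounded below near the unit sphere -/
theorem dens_lower (hf : IsWeight α f) : ∃ m : ℝ, 0 < m ∧
    ∀ x : E D, 1 / 2 ≤ ‖x‖ → ‖x‖ ≤ 3 / 2 → ENNReal.ofReal m ≤ dens f x := by
  set K : Set (E D) := Metric.closedBall 0 (3 / 2) \ Metric.ball 0 (1 / 2) with hK
  have hKc : IsCompact K := (isCompact_closedBall _ _).diff Metric.isOpen_ball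
  have hne0 : ∀ x ∈ K, x ≠ 0 := by
    rintro x hx rfl
    exact hx.2 (by simp)
  have hcont : ContinuousOn f K := fun x hx => (hf.continuousAt (hne0 x hx)).continuousWithinAt
  obtain ⟨C, hC⟩ := (hKc.bddAbove_image hcont)
  have hC' : ∀ x ∈ K, f x ≤ max C 1 := fun x hx => (hC ⟨x, hx, rfl⟩).trans (le_max_left _ _)
  refine ⟨1 / max C 1, by positivity, fun x h1 h2 => ?_⟩
  have hxK : x ∈ K := by
    rw [hK]
    refine ⟨by simpa using h2, ?_⟩
    simp only [Metric.mem_ball, dist_zero_right, not_lt]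
    exact h1
  unfold dens
  rw [if_neg (hne0 x hxK)]
  refine ENNReal.ofReal_le_ofReal ?_
  exact one_div_le_one_div_of_le (hf.pos (hne0 x hxK)) (hC' x hxK)

theorem dist_unit_lower (hμ : ∀ x, x ≠ 0 → 0 < μ x) (hf : IsWeight α f) :
    ∃ c : ℝ, 0 < c ∧ ∀ z : E D, ‖z‖ = 1 → ENNReal.ofReal c ≤ dist' μ f 0 z := by
  obtain ⟨c, hc, hμc⟩ := mu_lower hμ
  obtain ⟨m, hm, hd⟩ := dens_lower hf
  refine ⟨c * m / 4, by positivity, fun z hz => ?_⟩
  by_contra hlt
  push Not at hlt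
  have h1 : ∀ x, ‖x - z‖ ≤ 1 / 2 → ENNReal.ofReal m ≤ dens f x := by
    intro x hx
    refine hd x ?_ ?_
    · have := norm_sub_norm_le z (z - x)
      rw [sub_sub_cancel, norm_sub_rev z x, hz] at this
      linarith
    · have := norm_le_norm_add_norm_sub' x z
      rw [hz] at this
      linarith
  obtain ⟨w, hw, hcost⟩ := cross_sphere (μ := μ) (f := f) h1 (by norm_num) (by rw [hz]; norm_num) hlt
  have h2 : ENNReal.ofReal (μ (z - w)) * ENNReal.ofReal m ≤ ENNReal.ofReal (c * m / 4) :=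
    le_trans le_add_self hcost
  rw [← ENNReal.ofReal_mul (apply_nonneg _ _), ENNReal.ofReal_le_ofReal_iff (by positivity)] at h2
  have h3 := hμc (z - w)
  rw [norm_sub_rev, hw] at h3
  have h4 : 0 < c * m := by positivity
  nlinarith

theorem ball_bounded (hμ : ∀ x, x ≠ 0 → 0 < μ x) (hα : α < 1) (hf : IsWeight α f) :
    ∃ R : ℝ, ∀ z ∈ Ball μ f, ‖z‖ ≤ R := by
  obtain ⟨c, hc, h1⟩ := dist_unit_lower hμ hf
  have hβ : 0 < 1 - α := by linarith
  refine ⟨(1 / c) ^ (1 - α)⁻¹, fun z hz => ?_⟩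
  by_cases hz0 : z = 0
  · subst hz0
    rw [norm_zero]; positivity
  have hzn : 0 < ‖z‖ := norm_pos_iff.mpr hz0
  have h2 : ‖‖z‖⁻¹ • z‖ = 1 := by
    rw [norm_smul, norm_inv, norm_norm, inv_mul_cancel₀ hzn.ne']
  have h3 := (h1 _ h2).trans (dist_scale μ hf z (inv_pos.mpr hzn))
  have h4 : ENNReal.ofReal c ≤ ENNReal.ofReal (‖z‖⁻¹ ^ (1 - α)) := by
    refine h3.trans ?_
    calc ENNReal.ofReal (‖z‖⁻¹ ^ (1 - α)) * dist' μ f 0 z
        ≤ ENNReal.ofReal (‖z‖⁻¹ ^ (1 - α)) * 1 := by gcongr; exact hz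
      _ = _ := mul_one _
  rw [ENNReal.ofReal_le_ofReal_iff (by positivity), Real.inv_rpow hzn.le] at h4
  have h5 : ‖z‖ ^ (1 - α) ≤ 1 / c := by
    rw [le_one_div (by positivity) hc, one_div]
    exact h4
  calc ‖z‖ = (‖z‖ ^ (1 - α)) ^ (1 - α)⁻¹ := by
        rw [← Real.rpow_mul hzn.le, mul_inv_cancel₀ hβ.ne', Real.rpow_one]
    _ ≤ _ := Real.rpow_le_rpow (by positivity) h5 (by positivity)

theorem dist_unit_finite (hα : α < 1) (hf : IsWeight α f) (u : E D) (hu : u ≠ 0) :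
    dist' μ f 0 u ≠ ⊤ := by
  have h1 : dist' μ f 0 u ≤ segCost μ f 0 u := iInf_le _ []
  refine ne_top_of_le_ne_top ?_ h1
  unfold segCost
  refine ENNReal.mul_ne_top ENNReal.ofReal_ne_top ?_
  have h2 : ∫⁻ s in Set.Icc (0 : ℝ) 1, dens f (0 + s • (u - 0))
      = ∫⁻ s in Set.Ioc (0 : ℝ) 1, dens f (0 + s • (u - 0)) := by
    rw [← Measure.restrict_congr_set (Ioc_ae_eq_Icc (μ := volume) (a := (0:ℝ)) (b := 1))]
  have h3 : ∫⁻ s in Set.Ioc (0 : ℝ) 1, dens f (0 + s • (u - 0))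
      = ∫⁻ s in Set.Ioc (0 : ℝ) 1, ENNReal.ofReal (s ^ (-α)) * dens f u := by
    refine setLIntegral_congr_fun measurableSet_Ioc fun s hs => ?_
    rw [zero_add, sub_zero]
    exact dens_scale hf u hs.1
  rw [h2, h3]
  have hdu : dens f u ≠ ⊤ := by
    unfold dens
    rw [if_neg hu]
    exact ENNReal.ofReal_ne_top
  rw [lintegral_mul_const' _ _ hdu]
  refine ENNReal.mul_ne_top ?_ hdu
  have h4 : IntervalIntegrable (fun x : ℝ => x ^ (-α)) volume 0 1 :=
    intervalIntegral.intervalIntegrable_rpow' (by linarith)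
  rw [intervalIntegrable_iff_integrableOn_Ioc_of_le (by norm_num)] at h4
  have h5 : Integrable (fun x : ℝ => x ^ (-α)) (volume.restrict (Set.Ioc 0 1)) := h4
  exact (Integrable.lintegral_lt_top h5).ne

theorem ball_nonzero (hD : 0 < D) (hα : α < 1) (hf : IsWeight α f) :
    ∃ z ∈ Ball μ f, z ≠ 0 := by
  set u : E D := EuclideanSpace.single ⟨0, hD⟩ 1 with hu
  have hu1 : ‖u‖ = 1 := by rw [hu]; simp
  have hu0 : u ≠ 0 := by rw [← norm_pos_iff, hu1]; exact one_pos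
  have h1 := dist_unit_finite (μ := μ) hα hf u hu0
  set v := (dist' μ f 0 u).toReal with hv
  have hv0 : 0 ≤ v := ENNReal.toReal_nonneg
  have hβ : 0 < 1 - α := by linarith
  set r : ℝ := (1 / (v + 1)) ^ (1 - α)⁻¹ with hr
  have hr0 : 0 < r := by positivity
  refine ⟨r • u, ?_, smul_ne_zero hr0.ne' hu0⟩
  show dist' μ f 0 (r • u) ≤ 1
  refine (dist_scale μ hf u hr0).trans ?_
  rw [← ENNReal.ofReal_toReal h1, ← hv, ← ENNReal.ofReal_mul (by positivity), ← ENNReal.ofReal_one]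
  refine ENNReal.ofReal_le_ofReal ?_
  have h2 : r ^ (1 - α) = 1 / (v + 1) := by
    rw [hr, ← Real.rpow_mul (by positivity), inv_mul_cancel₀ hβ.ne', Real.rpow_one]
  rw [h2, one_div, inv_mul_le_iff₀ (by positivity)]
  linarith

/-- the outer radius of the ball -/
theorem ball_radius (hD : 0 < D) (hμ : ∀ x, x ≠ 0 → 0 < μ x) (hα : α < 1) (hf : IsWeight α f) :
    ∃ b : ℝ, 0 < b ∧ (∀ z ∈ Ball μ f, ‖z‖ ≤ b) ∧ ∀ ε > 0, ∃ z ∈ Ball μ f, b - ε < ‖z‖ := by
  obtain ⟨R, hR⟩ := ball_bounded hμ hα hf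
  obtain ⟨z, hz, hz0⟩ := ball_nonzero (μ := μ) hD hα hf
  set S : Set ℝ := (fun z => ‖z‖) '' Ball μ f with hS
  have hbdd : BddAbove S := ⟨R, by rintro _ ⟨z, hz, rfl⟩; exact hR z hz⟩
  have hne : S.Nonempty := ⟨_, z, hz, rfl⟩
  refine ⟨sSup S, ?_, fun w hw => le_csSup hbdd ⟨w, hw, rfl⟩, fun ε hε => ?_⟩
  · exact lt_of_lt_of_le (norm_pos_iff.mpr hz0) (le_csSup hbdd ⟨z, hz, rfl⟩)
  · obtain ⟨_, ⟨w, hw, rfl⟩, h2⟩ := exists_lt_of_lt_csSup hne (show sSup S - ε < sSup S by linarith)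
    exact ⟨w, hw, h2⟩

end

end Pool.Agent.V11320.TS
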