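import Mathlib
import Pool.Agent.V11320.TSB

set_option autoImplicit false
open MeasureTheory
open scoped ENNReal NNReal BigOperators Topology Pointwise

namespace Pool.Agent.V11320.TS

open EdenShape

noncomputable section

/-- The midpoint of an edge of `ℤ^D`. -/
def mid {D : ℕ} (e : (ZG D).edgeSet) : E D :=
  Sym2.lift ⟨fun x y : Fin D → ℤ => (1 / 2 : ℝ) • (toE x + toE y),
    fun x y => congrArg (fun z : E D => (1 / 2 : ℝ) • z) (add_comm (toE x) (toE y))⟩ e.1

/-- The law of the edge times of `f`-weighted first passage percolation: independent exponential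
times, the one of the edge `e` having rate `f (mid e)`. -/
def weightedLaw {D : ℕ} (f : E D → ℝ) : Measure ((ZG D).edgeSet → ℝ) :=
  Measure.infinitePi fun e => ProbabilityTheory.expMeasure (f (mid e))

/-- The cluster `A_t = V_t + [-1/2, 1/2]^D`, where `V_t` is the set of the lattice points within
passage time `t` of the origin. -/
def cluster {D : ℕ} (ω : (ZG D).edgeSet → ℝ) (t : ℝ) : Set (E D) :=
  {x | ∃ v : Fin D → ℤ, passageTime ω 0 v ≤ t ∧ ∀ i, |x i - v i| ≤ 1 / 2}

/-- The event `E(χ, t₀)`. -/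
def Ev {D : ℕ} (μ : Seminorm ℝ (E D)) (f : E D → ℝ) (α χ t₀ : ℝ) : Set ((ZG D).edgeSet → ℝ) :=
  {ω | ∀ t, t₀ ≤ t →
    ((1 - t ^ (-χ)) * t ^ (1 / (1 - α))) • Ball μ f ⊆ cluster ω t ∧
    cluster ω t ⊆ ((1 + t ^ (-χ)) * t ^ (1 / (1 - α))) • Ball μ f}

/-- Rate `χ` holds. -/
def RateHolds {D : ℕ} (μ : Seminorm ℝ (E D)) (f : E D → ℝ) (α χ : ℝ) : Prop :=
  ∀ s : ℝ, 0 < s → Filter.Tendsto
    (fun t₀ : ℝ => t₀ ^ s * (1 - (weightedLaw f (Ev μ f α χ t₀)).toReal)) Filter.atTop (𝓝 0)

variable {D : ℕ} {α : ℝ} {f : E D → ℝ} {μ : Seminorm ℝ (E D)}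

theorem toE_zero : toE (0 : Fin D → ℤ) = 0 := by
  ext i; simp [toE]

theorem toE_apply (v : Fin D → ℤ) (i : Fin D) : toE v i = v i := rfl

theorem mid_ne_zero (e : (ZG D).edgeSet) : mid e ≠ 0 := by
  obtain ⟨e, he⟩ := e
  induction e using Sym2.ind with
  | _ x y =>
    have hadj : ∑ i, |x i - y i| = 1 := by
      rwa [SimpleGraph.mem_edgeSet] at he
    intro h
    have h1 : (1 / 2 : ℝ) • (toE x + toE y) = 0 := h
    have h2 : toE x + toE y = 0 := by
      rcases smul_eq_zero.mp h1 with h3 | h3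
      · norm_num at h3
      · exact h3
    have h3 : ∀ i, y i = - x i := by
      intro i
      have h4 : (toE x + toE y) i = 0 := by rw [h2]; rfl
      rw [PiLp.add_apply, toE_apply, toE_apply] at h4
      have h5 : (x i : ℝ) + y i = 0 := h4
      have h6 : x i + y i = 0 := by exact_mod_cast h5
      omega
    have h4 : ∑ i, |x i - y i| = 2 * ∑ i, |x i| := by
      rw [Finset.mul_sum]
      refine Finset.sum_congr rfl fun i _ => ?_
      rw [h3 i, sub_neg_eq_add, ← two_mul, abs_mul]
      rfl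
    rw [h4] at hadj
    omega

theorem walkTime_nonneg {ω : (ZG D).edgeSet → ℝ} (hω : ∀ e, 0 ≤ ω e) {x y : Fin D → ℤ}
    (γ : (ZG D).Walk x y) : 0 ≤ walkTime ω γ := by
  unfold walkTime
  refine List.sum_nonneg ?_
  intro a ha
  rw [List.mem_map] at ha
  obtain ⟨e, _, rfl⟩ := ha
  exact hω _

theorem walk_nonempty : ∀ (n : ℕ) (v : Fin D → ℤ), ∑ i, (v i).natAbs = n →
    Nonempty ((ZG D).Walk 0 v) := by
  intro n
  induction n with
  | zero =>
    intro v hv
    have h1 : v = 0 := by
      funext i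
      have h2 := Finset.sum_eq_zero_iff.mp hv i (Finset.mem_univ i)
      simpa using h2
    rw [h1]
    exact ⟨SimpleGraph.Walk.nil⟩
  | succ n ih =>
    intro v hv
    obtain ⟨i, -, hi⟩ : ∃ i ∈ Finset.univ, (v i).natAbs ≠ 0 := by
      by_contra hcon
      push Not at hcon
      rw [Finset.sum_eq_zero hcon] at hv
      omega
    set w : Fin D → ℤ := Function.update v i (v i - (v i).sign) with hw
    have hvi : v i ≠ 0 := by simpa using hi
    have hwi : (w i).natAbs + 1 = (v i).natAbs := by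
      rw [hw, Function.update_self]
      rcases lt_trichotomy (v i) 0 with h | h | h
      · rw [Int.sign_eq_neg_one_of_neg h]; omega
      · exact absurd h hvi
      · rw [Int.sign_eq_one_of_pos h]; omega
    have hsum : ∑ j, (w j).natAbs = n := by
      have h1 := Finset.add_sum_erase Finset.univ (fun j => (w j).natAbs) (Finset.mem_univ i)
      have h2 := Finset.add_sum_erase Finset.univ (fun j => (v j).natAbs) (Finset.mem_univ i)
      have h3 : ∑ j ∈ Finset.univ.erase i, (w j).natAbs = ∑ j ∈ Finset.univ.erase i, (v j).natAbs := by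
        refine Finset.sum_congr rfl fun j hj => ?_
        rw [hw, Function.update_of_ne (Finset.ne_of_mem_erase hj)]
      omega
    obtain ⟨p⟩ := ih w hsum
    have hadj : (ZG D).Adj w v := by
      show ∑ j, |w j - v j| = 1
      rw [Finset.sum_eq_single i]
      · rw [hw, Function.update_self]
        rcases lt_trichotomy (v i) 0 with h | h | h
        · rw [Int.sign_eq_neg_one_of_neg h]; norm_num
        · exact absurd h hvi
        · rw [Int.sign_eq_one_of_pos h]; norm_num
      · intro j _ hj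
        rw [hw, Function.update_of_ne hj]; simp
      · intro h; exact absurd (Finset.mem_univ i) h
    exact ⟨p.concat hadj⟩

instance walk_nonempty' (v : Fin D → ℤ) : Nonempty ((ZG D).Walk 0 v) := walk_nonempty _ v rfl

instance walk_countable (x y : Fin D → ℤ) : Countable ((ZG D).Walk x y) := by
  have h : Function.Injective (fun p : (ZG D).Walk x y => p.support) := fun p q hpq =>
    SimpleGraph.Walk.ext_support hpq
  exact h.countable

theorem passageTime_measurable (x y : Fin D → ℤ) :
    Measurable fun ω : (ZG D).edgeSet → ℝ => passageTime ω x y := by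
  unfold passageTime
  refine Measurable.iInf fun γ => ?_
  unfold walkTime
  have : ∀ l : List (ZG D).Dart, Measurable fun ω : (ZG D).edgeSet → ℝ =>
      (l.map fun e => ω ⟨e.edge, e.edge_mem⟩).sum := by
    intro l
    induction l with
    | nil => simp
    | cons a l ih =>
      simp only [List.map_cons, List.sum_cons]
      exact (measurable_pi_apply _).add ih
  exact this _

/-- the edges incident to the origin -/
theorem incident_finite : {e : (ZG D).edgeSet | (0 : Fin D → ℤ) ∈ e.1}.Finite := by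
  classical
  have hN : {y : Fin D → ℤ | ∀ i, |y i| ≤ 1}.Finite := by
    have : {y : Fin D → ℤ | ∀ i, |y i| ≤ 1} ⊆ Set.Icc (fun _ => -1) (fun _ => 1) := by
      intro y hy
      exact ⟨fun i => (abs_le.mp (hy i)).1, fun i => (abs_le.mp (hy i)).2⟩
    exact (Set.finite_Icc _ _).subset this
  have h2 : ((fun e : (ZG D).edgeSet => e.1) '' {e : (ZG D).edgeSet | (0 : Fin D → ℤ) ∈ e.1}).Finite := by
    refine (hN.image (fun y => s((0 : Fin D → ℤ), y))).subset ?_
    rintro _ ⟨⟨e, he⟩, h0, rfl⟩
    obtain ⟨y, rfl⟩ := Sym2.mem_iff_exists.mp h0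
    refine ⟨y, ?_, rfl⟩
    rw [SimpleGraph.mem_edgeSet] at he
    have hadj : ∑ i, |(0 : Fin D → ℤ) i - y i| = 1 := he
    intro i
    rw [← hadj]
    have h3 := Finset.single_le_sum (f := fun i => |(0 : Fin D → ℤ) i - y i|)
      (fun i _ => abs_nonneg _) (Finset.mem_univ i)
    simpa using h3
  exact Set.Finite.of_finite_image h2 (Subtype.val_injective.injOn)

/-- the edges incident to the origin -/
def Fe (D : ℕ) : Finset (ZG D).edgeSet := (incident_finite (D := D)).toFinset

theorem mem_Fe (e : (ZG D).edgeSet) : e ∈ Fe D ↔ (0 : Fin D → ℤ) ∈ e.1 := by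
  unfold Fe
  rw [Set.Finite.mem_toFinset]
  rfl

theorem walkTime_shift {ω : (ZG D).edgeSet → ℝ} {s : ℝ} (hs : 0 ≤ s)
    {v : Fin D → ℤ} (hv : v ≠ 0) (γ : (ZG D).Walk 0 v) :
    walkTime ω γ + s ≤ walkTime (sh (Fe D) s ω) γ := by
  have hmono : ∀ l : List (ZG D).Dart, (l.map fun e => ω ⟨e.edge, e.edge_mem⟩).sum
      ≤ (l.map fun e => sh (Fe D) s ω ⟨e.edge, e.edge_mem⟩).sum := by
    intro l
    refine List.sum_le_sum fun e _ => ?_
    unfold sh
    split_ifs <;> linarith
  cases γ with
  | nil => exact absurd rfl hv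
  | cons h p =>
    unfold walkTime
    rw [SimpleGraph.Walk.darts_cons, List.map_cons, List.sum_cons, List.map_cons, List.sum_cons]
    have h1 := hmono p.darts
    have h2 : sh (Fe D) s ω ⟨(SimpleGraph.Dart.mk (_, _) h).edge, (SimpleGraph.Dart.mk (_, _) h).edge_mem⟩
        = ω ⟨(SimpleGraph.Dart.mk (_, _) h).edge, (SimpleGraph.Dart.mk (_, _) h).edge_mem⟩ + s := by
      unfold sh
      rw [if_pos]
      rw [mem_Fe]
      exact Sym2.mem_mk_left _ _
    rw [h2]
    linarith

theorem passageTime_shift {ω : (ZG D).edgeSet → ℝ} (hω : ∀ e, 0 ≤ ω e) {s : ℝ} (hs : 0 ≤ s)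
    {v : Fin D → ℤ} (hv : v ≠ 0) :
    passageTime ω 0 v + s ≤ passageTime (sh (Fe D) s ω) 0 v := by
  refine le_ciInf fun γ => ?_
  refine le_trans ?_ (walkTime_shift hs hv γ)
  have hb : BddBelow (Set.range fun γ : (ZG D).Walk 0 v => walkTime ω γ) :=
    ⟨0, by rintro _ ⟨γ, rfl⟩; exact walkTime_nonneg hω γ⟩
  have := ciInf_le hb γ
  unfold passageTime
  linarith

end

end Pool.Agent.V11320.TS
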