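import Mathlib
import Pool.Agent.V11320.TSC

set_option autoImplicit false
open MeasureTheory
open scoped ENNReal NNReal BigOperators Topology Pointwise

namespace Pool.Agent.V11320.TS

open EdenShape

noncomputable section

variable {D : ℕ} {α : ℝ} {f : E D → ℝ} {μ : Seminorm ℝ (E D)}

/-- a measurable event containing `E(χ, t₀)` -/
def G (D : ℕ) (b γ χ t₁ K : ℝ) : Set ((ZG D).edgeSet → ℝ) :=
  {ω | ∀ q : ℚ, t₁ ≤ q →
    (∀ v : Fin D → ℤ, passageTime ω 0 v ≤ q → ‖toE v‖ ≤ (1 + (q : ℝ) ^ (-χ)) * (q : ℝ) ^ γ * b) ∧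
    (∃ v : Fin D → ℤ, passageTime ω 0 v ≤ q ∧ (1 - (q : ℝ) ^ (-χ)) * (q : ℝ) ^ γ * b ≤ ‖toE v‖ + K)}

theorem G_measurable (b γ χ t₁ K : ℝ) : MeasurableSet (G D b γ χ t₁ K) := by
  have h1 : G D b γ χ t₁ K = ⋂ q : ℚ, ⋂ _ : t₁ ≤ (q : ℝ),
      ((⋂ v : Fin D → ℤ, ({ω | q < passageTime ω 0 v} ∪
        {_ω | ‖toE v‖ ≤ (1 + (q : ℝ) ^ (-χ)) * (q : ℝ) ^ γ * b})) ∩
      (⋃ v : Fin D → ℤ, ({ω | passageTime ω 0 v ≤ q} ∩
        {_ω | (1 - (q : ℝ) ^ (-χ)) * (q : ℝ) ^ γ * b ≤ ‖toE v‖ + K}))) := by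
    ext ω
    simp only [G, Set.mem_ofPred_eq, Set.mem_iInter, Set.mem_inter_iff, Set.mem_union, Set.mem_iUnion]
    refine forall_congr' fun q => forall_congr' fun _ => and_congr (forall_congr' fun v => ?_) Iff.rfl
    rw [← not_le]
    tauto
  rw [h1]
  refine MeasurableSet.iInter fun q => MeasurableSet.iInter fun _ => MeasurableSet.inter ?_ ?_
  · refine MeasurableSet.iInter fun v => MeasurableSet.union ?_ (MeasurableSet.const _)
    exact measurableSet_lt measurable_const (passageTime_measurable 0 v)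
  · refine MeasurableSet.iUnion fun v => MeasurableSet.inter ?_ (MeasurableSet.const _)
    exact measurableSet_le (passageTime_measurable 0 v) measurable_const

theorem cube_norm {x : E D} (hx : ∀ i, |x i| ≤ 1 / 2) : ‖x‖ ≤ D := by
  rw [EuclideanSpace.norm_eq]
  refine Real.sqrt_le_iff.mpr ⟨by positivity, ?_⟩
  have h1 : ∑ i, ‖x i‖ ^ 2 ≤ ∑ _i : Fin D, (1 : ℝ) := by
    refine Finset.sum_le_sum fun i _ => ?_
    rw [Real.norm_eq_abs]
    have := hx i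
    nlinarith [abs_nonneg (x i)]
  refine h1.trans ?_
  simp only [Finset.sum_const, Finset.card_univ, Fintype.card_fin, nsmul_eq_mul, mul_one]
  rcases Nat.eq_zero_or_pos D with h | h
  · subst h; simp
  · have : (1 : ℝ) ≤ D := by exact_mod_cast h
    nlinarith

theorem Ev_subset {b : ℝ} (h1 : ∀ z ∈ Ball μ f, ‖z‖ ≤ b)
    (h2 : ∀ ε > 0, ∃ z ∈ Ball μ f, b - ε < ‖z‖) {χ : ℝ} (hχ : 0 < χ) (t₀ : ℝ) :
    Ev μ f α χ t₀ ⊆ G D b (1 / (1 - α)) χ (max t₀ 1) (D + 1) := by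
  intro ω hω q hq
  have hq0 : t₀ ≤ (q : ℝ) := (le_max_left _ _).trans hq
  have hq1 : 1 ≤ (q : ℝ) := (le_max_right _ _).trans hq
  have hqpos : 0 < (q : ℝ) := by linarith
  obtain ⟨hin, hout⟩ := hω q hq0
  have hx0 : 0 < (q : ℝ) ^ (-χ) := Real.rpow_pos_of_pos hqpos _
  have hx1 : (q : ℝ) ^ (-χ) ≤ 1 := Real.rpow_le_one_of_one_le_of_nonpos hq1 (by linarith)
  have hT : 0 < (q : ℝ) ^ (1 / (1 - α)) := Real.rpow_pos_of_pos hqpos _
  refine ⟨fun v hv => ?_, ?_⟩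
  · have h3 : toE v ∈ cluster ω q := ⟨v, hv, fun i => by rw [toE_apply]; simp⟩
    obtain ⟨z, hz, hz2⟩ := hout h3
    rw [← hz2]
    show ‖((1 + (q : ℝ) ^ (-χ)) * (q : ℝ) ^ (1 / (1 - α))) • z‖ ≤ _
    rw [norm_smul, Real.norm_eq_abs, abs_of_pos (by positivity)]
    exact mul_le_mul_of_nonneg_left (h1 z hz) (by positivity)
  · obtain ⟨z, hz, hz2⟩ := h2 (1 / (q : ℝ) ^ (1 / (1 - α))) (by positivity)
    have h3 : ((1 - (q : ℝ) ^ (-χ)) * (q : ℝ) ^ (1 / (1 - α))) • z ∈ cluster ω q :=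
      hin ⟨z, hz, rfl⟩
    obtain ⟨v, hv, hv2⟩ := h3
    refine ⟨v, hv, ?_⟩
    set w : E D := ((1 - (q : ℝ) ^ (-χ)) * (q : ℝ) ^ (1 / (1 - α))) • z with hw
    have h4 : ‖w - toE v‖ ≤ D := cube_norm fun i => by
      rw [PiLp.sub_apply, toE_apply]
      exact hv2 i
    have h5 : ‖w‖ = (1 - (q : ℝ) ^ (-χ)) * (q : ℝ) ^ (1 / (1 - α)) * ‖z‖ := by
      rw [hw, norm_smul, Real.norm_eq_abs, abs_of_nonneg]
      exact mul_nonneg (by linarith) hT.le
    have h6 : ‖w‖ ≤ ‖toE v‖ + D := by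
      have := norm_le_norm_add_norm_sub' w (toE v)
      linarith
    have h7 : (1 - (q : ℝ) ^ (-χ)) * (q : ℝ) ^ (1 / (1 - α)) * (b - 1 / (q : ℝ) ^ (1 / (1 - α)))
        ≤ ‖w‖ := by
      rw [h5]
      exact mul_le_mul_of_nonneg_left hz2.le (mul_nonneg (by linarith) hT.le)
    have h8 : (1 - (q : ℝ) ^ (-χ)) * (q : ℝ) ^ (1 / (1 - α)) * (b - 1 / (q : ℝ) ^ (1 / (1 - α)))
        = (1 - (q : ℝ) ^ (-χ)) * (q : ℝ) ^ (1 / (1 - α)) * b - (1 - (q : ℝ) ^ (-χ)) := by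
      field_simp
    rw [h8] at h7
    linarith

theorem G_shift {b γ χ t₁ K : ℝ} (hb : 0 < b) (hγ : 1 < γ) (hχ : 1 < χ)
    {ω : (ZG D).edgeSet → ℝ} (hω : ∀ e, 0 ≤ ω e) (s : ℚ) (hs : 0 < s)
    (h1 : ω ∈ G D b γ χ t₁ K) : sh (Fe D) s ω ∉ G D b γ χ t₁ K := by
  intro h2
  have hsR : (0 : ℝ) < s := by exact_mod_cast hs
  have hnat := tendsto_natCast_atTop_atTop (R := ℝ)
  have e1 : ∀ᶠ n : ℕ in Filter.atTop, max t₁ 1 ≤ (n : ℝ) := hnat.eventually_ge_atTop _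
  have e2 : ∀ᶠ n : ℕ in Filter.atTop, (n : ℝ) ^ (-χ) < 1 / 2 :=
    ((tendsto_rpow_neg_atTop (by linarith : 0 < χ)).comp hnat).eventually_lt_const (by norm_num)
  have e3 : ∀ᶠ n : ℕ in Filter.atTop, (n : ℝ) ^ (-(χ - 1)) < γ * s / 8 :=
    ((tendsto_rpow_neg_atTop (by linarith : 0 < χ - 1)).comp hnat).eventually_lt_const
      (by positivity)
  have e4 : ∀ᶠ n : ℕ in Filter.atTop, K / (b * γ * s / 4) < (n : ℝ) ^ (γ - 1) :=
    ((tendsto_rpow_atTop (by linarith : 0 < γ - 1)).comp hnat).eventually_gt_atTop _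
  have e5 : ∀ᶠ n : ℕ in Filter.atTop, K / (b / 2) < (n : ℝ) ^ γ :=
    ((tendsto_rpow_atTop (by linarith : 0 < γ)).comp hnat).eventually_gt_atTop _
  obtain ⟨n, h3, h4, h5, h6, h7⟩ := (e1.and (e2.and (e3.and (e4.and e5)))).exists
  set t : ℝ := (n : ℝ) with ht
  have htt : t₁ ≤ t := (le_max_left _ _).trans h3
  have ht1 : 1 ≤ t := (le_max_right _ _).trans h3
  have ht0 : 0 < t := by linarith
  obtain ⟨-, v, hv, hvn⟩ := h2 ((n : ℚ) + s) (by push_cast; linarith)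
  have hcast : (((n : ℚ) + s : ℚ) : ℝ) = t + s := by push_cast; rfl
  rw [hcast] at hv hvn
  have hx : (t + s) ^ (-χ) ≤ t ^ (-χ) :=
    Real.rpow_le_rpow_of_nonpos ht0 (by linarith) (by linarith)
  have hT : 0 < t ^ γ := Real.rpow_pos_of_pos ht0 _
  have hx0 : 0 < t ^ (-χ) := Real.rpow_pos_of_pos ht0 _
  have hbern : t ^ γ * (1 + γ * (s / t)) ≤ (t + s) ^ γ := by
    have h8 : t + s = t * (1 + s / t) := by field_simp
    rw [h8, Real.mul_rpow ht0.le (by positivity)]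
    refine mul_le_mul_of_nonneg_left ?_ hT.le
    exact one_add_mul_self_le_rpow_one_add (by have : 0 ≤ (s : ℝ) / t := by positivity
                                               linarith) hγ.le
  have hL : (1 - t ^ (-χ)) * (t ^ γ * (1 + γ * (s / t))) * b ≤ ‖toE v‖ + K := by
    refine le_trans ?_ hvn
    refine mul_le_mul_of_nonneg_right ?_ hb.le
    refine mul_le_mul (by linarith) hbern (by positivity) (by linarith)
  have hv0 : v ≠ 0 := by
    rintro rfl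
    rw [toE_zero, norm_zero, zero_add] at hL
    rw [div_lt_iff₀ (by positivity)] at h7
    have h8 : 1 / 2 * (t ^ γ * 1) * b ≤ (1 - t ^ (-χ)) * (t ^ γ * (1 + γ * (s / t))) * b := by
      refine mul_le_mul_of_nonneg_right ?_ hb.le
      refine mul_le_mul (by linarith) ?_ (by positivity) (by linarith)
      refine mul_le_mul_of_nonneg_left ?_ hT.le
      have : 0 ≤ γ * ((s : ℝ) / t) := by positivity
      linarith
    linarith
  have h8 := passageTime_shift hω hsR.le hv0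
  have h9 : passageTime ω 0 v ≤ ((n : ℚ) : ℝ) := by push_cast; linarith
  have h10 := (h1 (n : ℚ) (by push_cast; exact htt)).1 v h9
  have hcast2 : ((n : ℚ) : ℝ) = t := by push_cast; rfl
  rw [hcast2] at h10
  -- the contradiction
  have h11 : t ^ (-χ) = t ^ (-(χ - 1)) / t := by
    rw [eq_div_iff ht0.ne']
    nth_rewrite 2 [← Real.rpow_one t]
    rw [← Real.rpow_add ht0]
    congr 1; ring
  have h12 : t ^ (-χ) ≤ γ * (s / t) / 8 := by
    rw [h11, div_le_iff₀ ht0]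
    have : γ * (s / t) / 8 * t = γ * s / 8 := by field_simp
    rw [this]
    exact h5.le
  have h13 : t ^ γ = t ^ (γ - 1) * t := by
    nth_rewrite 3 [← Real.rpow_one t]
    rw [← Real.rpow_add ht0]
    congr 1; ring
  have h14 : K < t ^ γ * b * (γ * (s / t) / 4) := by
    rw [div_lt_iff₀ (by positivity)] at h6
    have : t ^ γ * b * (γ * (s / t) / 4) = t ^ (γ - 1) * (b * γ * s / 4) := by
      rw [h13]; field_simp
    rw [this]
    exact h6
  have h15 : (1 - t ^ (-χ)) * (t ^ γ * (1 + γ * (s / t))) * b ≤ (1 + t ^ (-χ)) * t ^ γ * b + K := by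
    linarith
  have h16 : t ^ γ * b * ((1 - t ^ (-χ)) * (γ * (s / t)) - 2 * t ^ (-χ)) ≤ K := by
    have : t ^ γ * b * ((1 - t ^ (-χ)) * (γ * (s / t)) - 2 * t ^ (-χ))
        = (1 - t ^ (-χ)) * (t ^ γ * (1 + γ * (s / t))) * b - (1 + t ^ (-χ)) * t ^ γ * b := by ring
    rw [this]; linarith
  have h17 : γ * (s / t) / 4 ≤ (1 - t ^ (-χ)) * (γ * (s / t)) - 2 * t ^ (-χ) := by
    have h18 : 0 < γ * ((s : ℝ) / t) := by positivity
    nlinarith
  have h18 : t ^ γ * b * (γ * (s / t) / 4) ≤ K :=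
    (mul_le_mul_of_nonneg_left h17 (by positivity)).trans h16
  linarith

theorem Ev_null (hD : 0 < D) (hμ : ∀ x, x ≠ 0 → 0 < μ x) (hα0 : 0 < α) (hα : α < 1)
    (hf : IsWeight α f) {χ : ℝ} (hχ : 1 < χ) (t₀ : ℝ) : weightedLaw f (Ev μ f α χ t₀) = 0 := by
  obtain ⟨b, hb, h1, h2⟩ := ball_radius hD hμ hα hf
  refine measure_mono_null (Ev_subset h1 h2 (by linarith) t₀) ?_
  have hr : ∀ e : (ZG D).edgeSet, 0 < f (mid e) := fun e => hf.pos (mid_ne_zero e)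
  have hc : Countable (ZG D).edgeSet := by infer_instance
  refine law_null (r := fun e => f (mid e)) hr (Fe D) (G_measurable _ _ _ _ _) ?_
  intro ω hω s hs hG
  refine G_shift hb ?_ hχ hω s hs hG
  rw [lt_div_iff₀ (by linarith)]
  linarith

theorem not_rate (hD : 0 < D) (hμ : ∀ x, x ≠ 0 → 0 < μ x) (hα0 : 0 < α) (hα : α < 1)
    (hf : IsWeight α f) {χ : ℝ} (hχ : 1 < χ) : ¬ RateHolds μ f α χ := by
  intro h
  have h1 := h 1 one_pos
  have h2 : (fun t₀ : ℝ => t₀ ^ (1 : ℝ) * (1 - (weightedLaw f (Ev μ f α χ t₀)).toReal))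
      = fun t₀ : ℝ => t₀ := by
    funext t₀
    rw [Ev_null hD hμ hα0 hα hf hχ t₀]
    simp
  rw [h2] at h1
  exact not_tendsto_nhds_of_tendsto_atTop Filter.tendsto_id 0 h1

end

end Pool.Agent.V11320.TS
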