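import Mathlib

set_option autoImplicit false
set_option linter.unusedSectionVars false
open Filter Topology

namespace Pool.Agent.V11320.HoroVA

noncomputable section

/-- word length -/
def wl {G : Type} [Group G] (S : Finset G) (g : G) : ℕ :=
  sInf {m : ℕ | ∃ l : List G, l.length = m ∧ (∀ s ∈ l, s ∈ S) ∧ l.prod = g}

/-- the data: a group with a finite symmetric generating set and a finite-index abelian subgroup
(as an injective homomorphism `T`), with right cosets indexed by `Q`. -/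
structure Dat (G A Q : Type) [Group G] [AddCommGroup A] [Fintype Q] where
  S : Finset G
  T : A → G
  q : G → Q
  sym : ∀ s ∈ S, s⁻¹ ∈ S
  gen : Subgroup.closure (S : Set G) = ⊤
  Tadd : ∀ a b, T (a + b) = T a * T b
  Tinj : Function.Injective T
  hq : ∀ p p', q p = q p' ↔ ∃ a, p' = T a * p

variable {G A Q : Type} [Group G] [AddCommGroup A] [Fintype Q] (D : Dat G A Q)

namespace Dat

lemma wl_le {g : G} (l : List G) (hl : ∀ s ∈ l, s ∈ D.S) (h : l.prod = g) :
    wl D.S g ≤ l.length := Nat.sInf_le ⟨l, rfl, hl, h⟩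

lemma exists_word (g : G) : ∃ l : List G, (∀ s ∈ l, s ∈ D.S) ∧ l.prod = g := by
  have hg : g ∈ Subgroup.closure (D.S : Set G) := by rw [D.gen]; trivial
  induction hg using Subgroup.closure_induction with
  | mem x hx => exact ⟨[x], by simpa using hx, by simp⟩
  | one => exact ⟨[], by simp, by simp⟩
  | mul x y _ _ hx hy =>
    obtain ⟨l1, h1, h1'⟩ := hx
    obtain ⟨l2, h2, h2'⟩ := hy
    refine ⟨l1 ++ l2, ?_, by simp [h1', h2']⟩
    intro s hs
    rcases List.mem_append.1 hs with h | h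
    · exact h1 s h
    · exact h2 s h
  | inv x _ hx =>
    obtain ⟨l1, h1, h1'⟩ := hx
    refine ⟨(l1.map (fun s => s⁻¹)).reverse, ?_, ?_⟩
    · intro s hs
      simp only [List.mem_reverse, List.mem_map] at hs
      obtain ⟨t, ht, rfl⟩ := hs
      exact D.sym t (h1 t ht)
    · rw [← h1', List.prod_inv_reverse]

lemma exists_geod (g : G) : ∃ l : List G, (∀ s ∈ l, s ∈ D.S) ∧ l.prod = g ∧
    l.length = wl D.S g := by
  obtain ⟨l, hl, hg⟩ := D.exists_word g
  have : ({m : ℕ | ∃ l : List G, l.length = m ∧ (∀ s ∈ l, s ∈ D.S) ∧ l.prod = g}).Nonempty :=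
    ⟨_, l, rfl, hl, hg⟩
  obtain ⟨l', h1, h2, h3⟩ := Nat.sInf_mem this
  exact ⟨l', h2, h3, h1⟩

lemma wl_mul (g h : G) : wl D.S (g * h) ≤ wl D.S g + wl D.S h := by
  obtain ⟨l1, h1, h1', e1⟩ := D.exists_geod g
  obtain ⟨l2, h2, h2', e2⟩ := D.exists_geod h
  rw [← e1, ← e2, ← List.length_append]
  refine D.wl_le _ ?_ (by simp [h1', h2'])
  intro s hs
  rcases List.mem_append.1 hs with h | h
  · exact h1 s h
  · exact h2 s h

lemma wl_inv_le (g : G) : wl D.S g⁻¹ ≤ wl D.S g := by
  obtain ⟨l1, h1, h1', e1⟩ := D.exists_geod g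
  rw [← e1]
  have : l1.length = (l1.map (fun s => s⁻¹)).reverse.length := by simp
  rw [this]
  refine D.wl_le _ ?_ ?_
  · intro s hs
    simp only [List.mem_reverse, List.mem_map] at hs
    obtain ⟨t, ht, rfl⟩ := hs
    exact D.sym t (h1 t ht)
  · rw [← h1', List.prod_inv_reverse]

lemma wl_inv (g : G) : wl D.S g⁻¹ = wl D.S g :=
  le_antisymm (D.wl_inv_le g) (by simpa using D.wl_inv_le g⁻¹)

lemma wl_one : wl D.S 1 = 0 := by
  have := D.wl_le (g := 1) [] (by simp) (by simp)
  simpa using this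

lemma ball_finite (R : ℕ) : {g : G | wl D.S g ≤ R}.Finite := by
  have h := (List.finite_length_le (D.S : Set G) R).image (fun l => (l.map Subtype.val).prod)
  refine h.subset ?_
  intro g hg
  obtain ⟨l, hl, hp, hlen⟩ := D.exists_geod g
  refine ⟨l.attach.map (fun s => ⟨s.1, hl s.1 s.2⟩), ?_, ?_⟩
  · simp only [Set.mem_ofPred_eq, List.length_map, List.length_attach] at hg ⊢
    omega
  · simp only [List.map_map]
    rw [← hp]
    congr 1
    conv_rhs => rw [← List.attach_map_subtype_val l]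
    rfl

lemma T_zero : D.T 0 = 1 := by
  have := D.Tadd 0 0
  simpa using this

lemma T_neg (a : A) : D.T (-a) = (D.T a)⁻¹ := by
  have := D.Tadd (-a) a
  rw [neg_add_cancel, D.T_zero] at this
  exact eq_inv_of_mul_eq_one_left this.symm

lemma T_comm (a b : A) : D.T a * D.T b = D.T b * D.T a := by
  rw [← D.Tadd, ← D.Tadd, add_comm]

lemma q_T (a : A) (p : G) : D.q (D.T a * p) = D.q p := ((D.hq p _).2 ⟨a, rfl⟩).symm

/-- the coset `u` is visited by the walk from `p` with letters `l` -/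
def Vis (p : G) (l : List G) (u : Q) : Prop :=
  ∃ l1 l2 : List G, l = l1 ++ l2 ∧ D.q (p * l1.prod) = u

/-- short loops -/
def IsL (c : A × ℕ × Q) : Prop :=
  ∃ (p : G) (l : List G), (∀ s ∈ l, s ∈ D.S) ∧ 1 ≤ l.length ∧ l.length ≤ Fintype.card Q ∧ l.length = c.2.1 ∧
    D.q p = c.2.2 ∧ p * l.prod = D.T c.1 * p

lemma loop_transfer {p p' : G} {l : List G} {a : A} (h : D.q p = D.q p')
    (hl : p * l.prod = D.T a * p) : p' * l.prod = D.T a * p' := by
  obtain ⟨b, rfl⟩ := (D.hq p p').1 h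
  rw [mul_assoc, hl, ← mul_assoc, D.T_comm, mul_assoc]

lemma IsL_finite : {c : A × ℕ × Q | D.IsL c}.Finite := by
  classical
  -- inject into lists × cosets
  let rep : Q → G := fun u => if h : ∃ p, D.q p = u then h.choose else 1
  have hrep : ∀ p, D.q (rep (D.q p)) = D.q p := by
    intro p
    have h : ∃ p', D.q p' = D.q p := ⟨p, rfl⟩
    simp only [rep, dif_pos h]
    exact h.choose_spec
  have h1 : {g : G | wl D.S g ≤ Fintype.card Q}.Finite := D.ball_finite _
  have h2 : (Set.univ : Set Q).Finite := Set.finite_univ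
  -- displacement determined by (l.prod, coset)
  have h3 : Set.Finite ((({g : G | wl D.S g ≤ Fintype.card Q} ×ˢ (Set.Iic (Fintype.card Q) : Set ℕ)) ×ˢ
      (Set.univ : Set Q))) := (h1.prod (Set.finite_Iic _)).prod h2
  let F : (G × ℕ) × Q → A × ℕ × Q := fun x =>
    (if h : ∃ a, rep x.2 * x.1.1 = D.T a * rep x.2 then h.choose else 0, x.1.2, x.2)
  refine (h3.image F).subset ?_
  rintro ⟨a, n, u⟩ ⟨p, l, hS, _, hle, hn, hu, hl⟩
  simp only at hn hu hl
  subst hn; subst hu
  refine ⟨((l.prod, l.length), D.q p), ⟨⟨?_, ?_⟩, trivial⟩, ?_⟩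
  · exact (D.wl_le l hS rfl).trans hle
  · exact hle
  · have h : ∃ a, rep (D.q p) * l.prod = D.T a * rep (D.q p) :=
      ⟨a, D.loop_transfer (hrep p).symm hl⟩
    simp only [F, dif_pos h]
    congr 1
    apply D.Tinj
    have e1 := h.choose_spec
    have e2 : rep (D.q p) * l.prod = D.T a * rep (D.q p) := D.loop_transfer (hrep p).symm hl
    rw [e1] at e2
    exact mul_right_cancel e2

def Cs : Finset (A × ℕ × Q) := D.IsL_finite.toFinset

lemma mem_Cs {c : A × ℕ × Q} : c ∈ D.Cs ↔ D.IsL c := by simp [Cs]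


/-- total displacement / length of a multiset of loops -/
def dsp (M : Multiset (A × ℕ × Q)) : A := (M.map (fun c => c.1)).sum
def len (M : Multiset (A × ℕ × Q)) : ℕ := (M.map (fun c => c.2.1)).sum

@[simp] lemma dsp_zero : dsp (0 : Multiset (A × ℕ × Q)) = 0 := by simp [dsp]
@[simp] lemma len_zero : len (0 : Multiset (A × ℕ × Q)) = 0 := by simp [len]
@[simp] lemma dsp_cons (c : A × ℕ × Q) (M) : dsp (c ::ₘ M) = c.1 + dsp M := by simp [dsp]
@[simp] lemma len_cons (c : A × ℕ × Q) (M) : len (c ::ₘ M) = c.2.1 + len M := by simp [len]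
@[simp] lemma dsp_add (M N : Multiset (A × ℕ × Q)) : dsp (M + N) = dsp M + dsp N := by simp [dsp]
@[simp] lemma len_add (M N : Multiset (A × ℕ × Q)) : len (M + N) = len M + len N := by simp [len]

lemma decomp (n : ℕ) : ∀ (l : List G), l.length = n → (∀ s ∈ l, s ∈ D.S) → ∀ (p : G),
    ∃ (M : Multiset (A × ℕ × Q)) (l' : List G), (∀ c ∈ M, D.IsL c ∧ D.Vis p l c.2.2) ∧
      (∀ s ∈ l', s ∈ D.S) ∧ l'.length ≤ Fintype.card Q ∧
      p * l.prod = D.T (dsp M) * (p * l'.prod) ∧ l.length = len M + l'.length := by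
  induction n using Nat.strong_induction_on with
  | _ n ih =>
  intro l hln hS p
  by_cases hsmall : l.length ≤ Fintype.card Q
  · exact ⟨0, l, by simp, hS, hsmall, by simp [D.T_zero], by simp⟩
  push Not at hsmall
  -- pigeonhole
  have hpig : ∃ i j : Fin (Fintype.card Q + 1), i < j ∧
      D.q (p * (l.take i).prod) = D.q (p * (l.take j).prod) := by
    obtain ⟨i, j, hij, h⟩ := Fintype.exists_ne_map_eq_of_card_lt
      (fun i : Fin (Fintype.card Q + 1) => D.q (p * (l.take i).prod)) (by simp)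
    rcases lt_or_gt_of_ne hij with h' | h'
    · exact ⟨i, j, h', h⟩
    · exact ⟨j, i, h', h.symm⟩
  obtain ⟨i, j, hij, hq⟩ := hpig
  have hij' : (i : ℕ) < j := hij
  have hjle : (j : ℕ) ≤ Fintype.card Q := Nat.lt_succ_iff.1 j.2
  obtain ⟨a, ha⟩ : ∃ a : List G, a = l.take i := ⟨_, rfl⟩
  obtain ⟨b, hb⟩ : ∃ b : List G, b = (l.take j).drop i := ⟨_, rfl⟩
  obtain ⟨c, hc⟩ : ∃ c : List G, c = l.drop j := ⟨_, rfl⟩
  have hab : l.take j = a ++ b := by
    have e := List.take_append_drop (i : ℕ) (l.take j)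
    rw [List.take_take, min_eq_left (le_of_lt hij')] at e
    rw [ha, hb, e]
  have hl : l = a ++ b ++ c := by
    rw [← hab, hc, List.take_append_drop]
  have hblen : b.length = j - i := by
    rw [hb, List.length_drop, List.length_take, min_eq_left (by omega)]
  have halen : a.length = i := by rw [ha, List.length_take, min_eq_left (by omega)]
  rw [hab, ← ha, List.prod_append, ← mul_assoc] at hq
  obtain ⟨τ, hτ⟩ := (D.hq _ _).1 hq
  have haS : ∀ s ∈ a, s ∈ D.S := fun s hs => hS s (by rw [hl]; simp [hs])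
  have hbS : ∀ s ∈ b, s ∈ D.S := fun s hs => hS s (by rw [hl]; simp [hs])
  have hcS : ∀ s ∈ c, s ∈ D.S := fun s hs => hS s (by rw [hl]; simp [hs])
  have hprod : p * l.prod = D.T τ * (p * (a ++ c).prod) := by
    rw [hl, List.prod_append, List.prod_append, List.prod_append, ← mul_assoc, ← mul_assoc, hτ]
    simp only [mul_assoc]
  have hlt : (a ++ c).length < n := by
    rw [← hln, hl]; simp only [List.length_append]; omega
  obtain ⟨M, l', hM, hl'S, hl'len, hp, hlen⟩ := ih _ hlt (a ++ c) rfl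
    (by intro s hs; rcases List.mem_append.1 hs with h | h
        · exact haS s h
        · exact hcS s h) p
  refine ⟨(τ, b.length, D.q (p * a.prod)) ::ₘ M, l', ?_, hl'S, hl'len, ?_, ?_⟩
  · intro x hx
    rcases Multiset.mem_cons.1 hx with rfl | hx
    · refine ⟨⟨p * a.prod, b, hbS, by omega, by omega, rfl, rfl, hτ⟩, a, b ++ c, ?_, rfl⟩
      rw [hl, List.append_assoc]
    · obtain ⟨h1, l1, l2, h12, hu⟩ := hM x hx
      refine ⟨h1, ?_⟩
      rcases List.append_eq_append_iff.1 h12 with ⟨m, hm1, hm2⟩ | ⟨m, hm1, hm2⟩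
      · -- l1 = a ++ m, c = m ++ l2
        refine ⟨a ++ b ++ m, l2, ?_, ?_⟩
        · rw [hl, hm2]; simp
        · rw [List.prod_append, List.prod_append, ← mul_assoc, ← mul_assoc, hτ, mul_assoc, mul_assoc,
            D.q_T, ← mul_assoc]
          rw [hm1, List.prod_append, ← mul_assoc] at hu
          exact hu
      · -- a = l1 ++ m, l2 = m ++ c
        refine ⟨l1, m ++ b ++ c, ?_, hu⟩
        rw [hl, hm1]; simp
  · rw [hprod, hp, dsp_cons, D.Tadd, mul_assoc]
  · rw [len_cons, hl]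
    simp only [List.length_append] at hlen ⊢
    omega

lemma insert_loops (p : G) (l : List G) (hS : ∀ s ∈ l, s ∈ D.S) (M : Multiset (A × ℕ × Q)) :
    (∀ c ∈ M, D.IsL c ∧ D.Vis p l c.2.2) → ∃ l' : List G, (∀ s ∈ l', s ∈ D.S) ∧
      l'.length = l.length + len M ∧ p * l'.prod = D.T (dsp M) * (p * l.prod) ∧
      ∀ u, D.Vis p l u → D.Vis p l' u := by
  induction M using Multiset.induction_on with
  | empty => intro _; exact ⟨l, hS, by simp, by simp [D.T_zero], fun u h => h⟩
  | cons c M ih =>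
    intro h
    obtain ⟨l', hS', hlen, hp, hvis⟩ := ih (fun x hx => h x (Multiset.mem_cons_of_mem hx))
    obtain ⟨⟨p0, l0, hS0, _, _, hn0, hu0, hp0⟩, hv⟩ := h c (Multiset.mem_cons_self _ _)
    obtain ⟨l1, l2, h12, hu⟩ := hvis _ hv
    have ht : (p * l1.prod) * l0.prod = D.T c.1 * (p * l1.prod) :=
      D.loop_transfer (by rw [hu0, hu]) hp0
    refine ⟨l1 ++ l0 ++ l2, ?_, ?_, ?_, ?_⟩
    · intro s hs
      simp only [List.mem_append] at hs
      rcases hs with (hs | hs) | hs
      · exact hS' s (by rw [h12]; simp [hs])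
      · exact hS0 s hs
      · exact hS' s (by rw [h12]; simp [hs])
    · rw [len_cons, ← hn0]
      rw [h12] at hlen
      simp only [List.length_append] at hlen ⊢
      omega
    · rw [List.prod_append, List.prod_append, ← mul_assoc, ← mul_assoc, ht, dsp_cons, D.Tadd,
        mul_assoc (D.T c.1), mul_assoc (D.T c.1), ← hp, h12, List.prod_append]
      simp only [mul_assoc]
    · intro u hvu
      obtain ⟨m1, m2, hm, hmu⟩ := hvis u hvu
      rw [h12] at hm
      rcases List.append_eq_append_iff.1 hm with ⟨m, hm1, hm2⟩ | ⟨m, hm1, hm2⟩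
      · -- m1 = l1 ++ m, l2 = m ++ m2
        refine ⟨l1 ++ l0 ++ m, m2, by rw [hm2]; simp, ?_⟩
        rw [List.prod_append, List.prod_append, ← mul_assoc, ← mul_assoc, ht, mul_assoc, D.q_T]
        rw [hm1, List.prod_append, ← mul_assoc] at hmu
        exact hmu
      · refine ⟨m1, m ++ l0 ++ l2, by rw [hm1]; simp, hmu⟩

end Dat
end
end Pool.Agent.V11320.HoroVA
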