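import Pool.Agent.V11320.HoroVA1

set_option autoImplicit false
set_option linter.unusedSectionVars false
open Filter Topology

namespace Pool.Agent.V11320.HoroVA

noncomputable section

variable {G A Q : Type} [Group G] [AddCommGroup A] [Fintype Q] (D : Dat G A Q)

namespace Dat

/-- the dual polytope -/
def P : Set (A → ℝ) := {φ | (∀ a b, φ (a + b) = φ a + φ b) ∧ ∀ c ∈ D.Cs, φ c.1 ≤ (c.2.1 : ℝ)}

variable {D} {φ : A → ℝ}

lemma add_zero' (h : ∀ a b, φ (a + b) = φ a + φ b) : φ 0 = 0 := by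
  have := h 0 0
  simp at this
  exact this

lemma add_neg' (h : ∀ a b, φ (a + b) = φ a + φ b) (a : A) : φ (-a) = - φ a := by
  have := h (-a) a
  rw [neg_add_cancel, add_zero' h] at this
  linarith

lemma add_sub' (h : ∀ a b, φ (a + b) = φ a + φ b) (a b : A) : φ (a - b) = φ a - φ b := by
  rw [sub_eq_add_neg, h, add_neg' h]; ring

lemma add_dsp (h : ∀ a b, φ (a + b) = φ a + φ b) (M : Multiset (A × ℕ × Q)) :
    φ (dsp M) = (M.map (fun c => φ c.1)).sum := by
  induction M using Multiset.induction_on with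
  | empty => simp [add_zero' h]
  | cons c M ih => simp [h, ih]

lemma P_dsp_le (h : φ ∈ D.P) (M : Multiset (A × ℕ × Q)) (hM : ∀ c ∈ M, D.IsL c) :
    φ (dsp M) ≤ len M := by
  induction M using Multiset.induction_on with
  | empty => simp [add_zero' h.1]
  | cons c M ih =>
    have h1 := ih (fun x hx => hM x (Multiset.mem_cons_of_mem hx))
    have h2 := h.2 c (D.mem_Cs.2 (hM c (Multiset.mem_cons_self _ _)))
    rw [dsp_cons, len_cons, h.1]
    push_cast
    linarith

lemma P_loop (h : φ ∈ D.P) (p : G) (l : List G) (hS : ∀ s ∈ l, s ∈ D.S) (a : A)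
    (hl : p * l.prod = D.T a * p) : φ a ≤ l.length := by
  obtain ⟨M, l', hM, hS', hlen', hp, hlen⟩ := D.decomp _ l rfl hS p
  have h1 := P_dsp_le h M (fun c hc => (hM c hc).1)
  have h2 : p * l'.prod = D.T (a - dsp M) * p := by
    have e : D.T (dsp M) * (p * l'.prod) = D.T (dsp M) * (D.T (a - dsp M) * p) := by
      rw [← hp, hl, ← mul_assoc, ← D.Tadd, add_sub_cancel]
    exact mul_left_cancel e
  have h3 : φ (a - dsp M) ≤ l'.length := by
    rcases Nat.eq_zero_or_pos l'.length with h0 | h0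
    · have : l' = [] := List.length_eq_zero_iff.1 h0
      subst this
      have e : D.T (a - dsp M) = D.T 0 := by
        rw [D.T_zero]
        have := h2
        simp only [List.prod_nil, mul_one] at this
        exact (mul_eq_right.1 this.symm)
      rw [D.Tinj e, add_zero' h.1]
      simp
    · exact h.2 (a - dsp M, l'.length, D.q p) (D.mem_Cs.2 ⟨p, l', hS', h0, hlen', rfl, rfl, h2⟩)
  rw [hlen]
  rw [add_sub' h.1] at h3
  push_cast
  linarith

lemma P_wl (h : φ ∈ D.P) (a : A) : φ a ≤ wl D.S (D.T a) := by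
  obtain ⟨l, hS, hp, hl⟩ := D.exists_geod (D.T a)
  rw [← hl]
  exact P_loop h 1 l hS a (by rw [hp]; simp)

lemma P_wl' (h : φ ∈ D.P) (a : A) : - (wl D.S (D.T a) : ℝ) ≤ φ a := by
  have := P_wl h (-a)
  rw [D.T_neg, D.wl_inv, add_neg' h.1] at this
  linarith

variable (D)

lemma P_compact : IsCompact D.P := by
  have h1 : IsCompact (Set.pi Set.univ (fun a : A =>
      Set.Icc (-(wl D.S (D.T a) : ℝ)) (wl D.S (D.T a)))) :=
    isCompact_univ_pi (fun a => isCompact_Icc)
  refine h1.of_isClosed_subset ?_ ?_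
  · have e : D.P = (⋂ a, ⋂ b, {φ : A → ℝ | φ (a + b) = φ a + φ b}) ∩
        (⋂ c ∈ D.Cs, {φ : A → ℝ | φ c.1 ≤ (c.2.1 : ℝ)}) := by
      ext φ; simp [P]
    rw [e]
    refine IsClosed.inter ?_ ?_
    · refine isClosed_iInter (fun a => isClosed_iInter (fun b => ?_))
      exact isClosed_eq (by fun_prop) (by fun_prop)
    · refine isClosed_biInter (fun c _ => ?_)
      exact isClosed_le (continuous_apply _) continuous_const
  · intro φ hφ a _
    exact ⟨P_wl' hφ a, P_wl hφ a⟩

lemma exists_ext : ∃ φ ∈ D.P, ∀ ψ : A → ℝ, (∀ a b, ψ (a + b) = ψ a + ψ b) →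
    (∀ c ∈ D.Cs, φ c.1 = (c.2.1 : ℝ) → ψ c.1 = 0) → ∀ a, ψ a = 0 := by
  have hne : D.P.Nonempty := ⟨fun _ => 0, by simp, fun c _ => by positivity⟩
  obtain ⟨φ, hφ⟩ := D.P_compact.extremePoints_nonempty hne
  rw [mem_extremePoints] at hφ
  obtain ⟨hP, hext⟩ := hφ
  refine ⟨φ, hP, ?_⟩
  intro ψ hψ hc a
  have hev : ∀ᶠ ε in 𝓝[>] (0 : ℝ), ∀ c ∈ D.Cs, ε * |ψ c.1| ≤ (c.2.1 : ℝ) - φ c.1 := by
    rw [Filter.eventually_all_finset]
    intro c hcC
    by_cases hcr : φ c.1 = (c.2.1 : ℝ)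
    · refine Filter.Eventually.of_forall (fun ε => ?_)
      rw [hc c hcC hcr, hcr]; simp
    · have hgap : 0 < (c.2.1 : ℝ) - φ c.1 := by
        have := hP.2 c hcC
        rcases this.lt_or_eq with h | h
        · linarith
        · exact absurd h hcr
      have ht : Tendsto (fun ε : ℝ => ε * |ψ c.1|) (𝓝[>] 0) (𝓝 0) := by
        have : Tendsto (fun ε : ℝ => ε * |ψ c.1|) (𝓝 0) (𝓝 (0 * |ψ c.1|)) :=
          tendsto_id.mul_const _
        rw [zero_mul] at this
        exact this.mono_left nhdsWithin_le_nhds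
      exact (ht.eventually (gt_mem_nhds hgap)).mono (fun ε h => le_of_lt h)
  obtain ⟨ε, hε, hεpos⟩ := (hev.and self_mem_nhdsWithin).exists
  have hεpos : 0 < ε := hεpos
  have hmem : ∀ t : ℝ, |t| = ε → (fun a => φ a + t * ψ a) ∈ D.P := by
    intro t ht
    refine ⟨fun a b => ?_, fun c hcC => ?_⟩
    · simp only [hP.1, hψ]; ring
    · have h1 := hε c hcC
      have h2 : t * ψ c.1 ≤ ε * |ψ c.1| := by
        calc t * ψ c.1 ≤ |t * ψ c.1| := le_abs_self _
          _ = ε * |ψ c.1| := by rw [abs_mul, ht]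
      simp only
      linarith
  have h1 := hmem ε (abs_of_pos hεpos)
  have h2 := hmem (-ε) (by rw [abs_neg, abs_of_pos hεpos])
  have h3 := hext _ h1 _ h2 ⟨1/2, 1/2, by norm_num, by norm_num, by norm_num, by
    ext b
    simp only [Pi.add_apply, Pi.smul_apply, smul_eq_mul]
    ring⟩
  have h4 := congrFun h3.1 a
  change φ a + ε * ψ a = φ a at h4
  have h5 : ε * ψ a = 0 := by linarith
  rcases mul_eq_zero.1 h5 with h | h
  · linarith
  · exact h

end Dat
end
end Pool.Agent.V11320.HoroVA
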