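import Pool.Agent.V11320.HoroVA2

set_option autoImplicit false
set_option linter.unusedSectionVars false
open Filter Topology

namespace Pool.Agent.V11320.HoroVA

noncomputable section

variable {G A Q : Type} [Group G] [AddCommGroup A] [Fintype Q] (D : Dat G A Q)

namespace Dat

/-- critical combinations of loops based at cosets in `V` -/
def Msub (φ : A → ℝ) (V : Set Q) : AddSubmonoid A where
  carrier := {a | ∃ v : D.Cs → ℕ, (∀ c, v c ≠ 0 → φ c.1.1 = (c.1.2.1 : ℝ) ∧ c.1.2.2 ∈ V) ∧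
    a = ∑ c, v c • c.1.1}
  zero_mem' := ⟨0, by simp, by simp⟩
  add_mem' := by
    rintro a b ⟨v, hv, rfl⟩ ⟨w, hw, rfl⟩
    refine ⟨v + w, ?_, ?_⟩
    · intro c hc
      by_cases h : v c = 0
      · have : w c ≠ 0 := by
          intro h'; apply hc; simp [h, h']
        exact hw c this
      · exact hv c h
    · simp [add_smul, Finset.sum_add_distrib]

variable {D} {φ : A → ℝ}

lemma mem_Msub_single {V : Set Q} {c : A × ℕ × Q} (h : D.IsL c) (h1 : φ c.1 = (c.2.1 : ℝ))
    (h2 : c.2.2 ∈ V) : c.1 ∈ D.Msub φ V := by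
  classical
  refine ⟨Pi.single ⟨c, D.mem_Cs.2 h⟩ 1, ?_, ?_⟩
  · intro c' hc'
    by_cases e : c' = ⟨c, D.mem_Cs.2 h⟩
    · subst e; exact ⟨h1, h2⟩
    · exact absurd (Pi.single_eq_of_ne e 1) hc'
  · rw [Finset.sum_eq_single (⟨c, D.mem_Cs.2 h⟩ : D.Cs)]
    · simp
    · intro b _ hb
      rw [Pi.single_eq_of_ne hb]; simp
    · simp

lemma dsp_mem_Msub {V : Set Q} (M : Multiset (A × ℕ × Q))
    (hM : ∀ c ∈ M, D.IsL c ∧ φ c.1 = (c.2.1 : ℝ) ∧ c.2.2 ∈ V) : dsp M ∈ D.Msub φ V := by
  induction M using Multiset.induction_on with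
  | empty => simp
  | cons c M ih =>
    rw [dsp_cons]
    obtain ⟨h1, h2, h3⟩ := hM c (Multiset.mem_cons_self _ _)
    exact add_mem (mem_Msub_single h1 h2 h3) (ih (fun x hx => hM x (Multiset.mem_cons_of_mem hx)))

lemma dsp_smul (k : ℕ) (c : A × ℕ × Q) : dsp (k • ({c} : Multiset (A × ℕ × Q))) = k • c.1 := by
  rw [Multiset.nsmul_singleton]; simp [dsp]

lemma len_smul (k : ℕ) (c : A × ℕ × Q) : len (k • ({c} : Multiset (A × ℕ × Q))) = k * c.2.1 := by
  rw [Multiset.nsmul_singleton]; simp [len]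

/-- elements of `Msub` come from multisets -/
lemma exists_multiset {V : Set Q} {a : A} (hφ : ∀ a b, φ (a + b) = φ a + φ b)
    (ha : a ∈ D.Msub φ V) : ∃ M : Multiset (A × ℕ × Q), (∀ c ∈ M, D.IsL c ∧ c.2.2 ∈ V) ∧
      dsp M = a ∧ (len M : ℝ) = φ a := by
  obtain ⟨v, hv, rfl⟩ := ha
  have key : ∀ F : Finset D.Cs, ∃ M : Multiset (A × ℕ × Q), (∀ c ∈ M, D.IsL c ∧ c.2.2 ∈ V) ∧
      dsp M = ∑ c ∈ F, v c • c.1.1 ∧ (len M : ℝ) = φ (∑ c ∈ F, v c • c.1.1) := by
    classical
    intro F
    induction F using Finset.induction_on with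
    | empty => exact ⟨0, by simp, by simp, by simp [add_zero' hφ]⟩
    | insert c F hc ih =>
      obtain ⟨M, h1, h2, h3⟩ := ih
      refine ⟨v c • {c.1} + M, ?_, ?_, ?_⟩
      · intro x hx
        rcases Multiset.mem_add.1 hx with hx | hx
        · by_cases h0 : v c = 0
          · rw [h0] at hx; simp at hx
          · have : x = c.1 := by
              have := Multiset.mem_of_mem_nsmul hx
              simpa using this
            subst this
            exact ⟨D.mem_Cs.1 c.2, (hv c h0).2⟩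
        · exact h1 x hx
      · rw [dsp_add, dsp_smul, h2, Finset.sum_insert hc]
      · rw [len_add, len_smul, Finset.sum_insert hc, hφ, ← h3]
        push_cast
        congr 1
        by_cases h0 : v c = 0
        · simp [h0, add_zero' hφ]
        · rw [← (hv c h0).1]
          clear hv h3 h2 h1 hc h0
          induction v c with
          | zero => simp [add_zero' hφ]
          | succ k ih => rw [succ_nsmul, hφ, ← ih]; push_cast; ring
  exact key Finset.univ

variable (D)

lemma base_walk : ∃ l : List G, (∀ s ∈ l, s ∈ D.S) ∧ l.prod = 1 ∧ ∀ g, D.Vis 1 l (D.q g) := by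
  classical
  have key : ∀ F : Finset Q, ∃ l : List G, (∀ s ∈ l, s ∈ D.S) ∧ l.prod = 1 ∧
      ∀ g, D.q g ∈ F → D.Vis 1 l (D.q g) := by
    intro F
    induction F using Finset.induction_on with
    | empty => exact ⟨[], by simp, by simp, by simp⟩
    | insert u F hu ih =>
      obtain ⟨l, h1, h2, h3⟩ := ih
      by_cases hex : ∃ g, D.q g = u
      · obtain ⟨g, rfl⟩ := hex
        obtain ⟨l1, a1, a2⟩ := D.exists_word g
        obtain ⟨l2, b1, b2⟩ := D.exists_word g⁻¹
        refine ⟨l1 ++ (l2 ++ l), ?_, ?_, ?_⟩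
        · intro s hs
          simp only [List.mem_append] at hs
          rcases hs with hs | hs | hs
          · exact a1 s hs
          · exact b1 s hs
          · exact h1 s hs
        · simp [a2, b2, h2]
        · intro g' hg'
          rcases Finset.mem_insert.1 hg' with e | hg'
          · exact ⟨l1, l2 ++ l, rfl, by rw [a2, e, one_mul]⟩
          · obtain ⟨m1, m2, hm, hq⟩ := h3 g' hg'
            refine ⟨l1 ++ (l2 ++ m1), m2, by rw [hm]; simp, ?_⟩
            rw [List.prod_append, List.prod_append, a2, b2]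
            simpa using hq
      · refine ⟨l, h1, h2, ?_⟩
        intro g hg
        rcases Finset.mem_insert.1 hg with e | hg
        · exact absurd ⟨g, e⟩ hex
        · exact h3 g hg
  obtain ⟨l, h1, h2, h3⟩ := key Finset.univ
  exact ⟨l, h1, h2, fun g => h3 g (Finset.mem_univ _)⟩

/-- there is `B` with `wl (T a) ≤ φ a + B` for all critical combinations `a` -/
lemma upper (φ : A → ℝ) (hφ : ∀ a b, φ (a + b) = φ a + φ b) : ∃ B : ℕ, ∀ a ∈ D.Msub φ Set.univ,
    (wl D.S (D.T a) : ℝ) ≤ φ a + B := by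
  obtain ⟨l, h1, h2, h3⟩ := D.base_walk
  refine ⟨l.length, ?_⟩
  intro a ha
  obtain ⟨M, hM, hd, hl⟩ := exists_multiset hφ ha
  obtain ⟨l', hS, hlen, hp, _⟩ := D.insert_loops 1 l h1 M (fun c hc => by
    refine ⟨(hM c hc).1, ?_⟩
    obtain ⟨p, _, _, _, _, _, hu, _⟩ := (hM c hc).1
    rw [← hu]; exact h3 p)
  have h5 : wl D.S (D.T a) ≤ l'.length := D.wl_le l' hS (by
    rw [hd, h2] at hp; simpa using hp)
  have h6 : (wl D.S (D.T a) : ℝ) ≤ l'.length := by exact_mod_cast h5
  rw [hlen] at h6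
  push_cast at h6
  linarith

end Dat
end
end Pool.Agent.V11320.HoroVA
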