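import Pool.Agent.V11320.HoroVA3

set_option autoImplicit false
set_option linter.unusedSectionVars false
open Filter Topology

namespace Pool.Agent.V11320.HoroVA

noncomputable section

lemma finite_quot {A : Type} [AddCommGroup A] (hfg : AddGroup.FG A) (K : AddSubgroup A)
    (h : ∀ ψ : A →+ ℝ, (∀ k ∈ K, ψ k = 0) → ψ = 0) : Finite (A ⧸ K) := by
  have : AddGroup.FG (A ⧸ K) := by
    have := hfg
    infer_instance
  apply AddCommGroup.finite_of_fg_isAddTorsion
  by_contra hcon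
  unfold IsAddTorsion at hcon
  push Not at hcon
  obtain ⟨b, hb⟩ := hcon
  have hinj : Function.Injective (zmultiplesHom (A ⧸ K) b) := by
    rw [injective_iff_map_eq_zero]
    intro n hn
    by_contra hn0
    apply hb
    rw [isOfFinAddOrder_iff_zsmul_eq_zero]
    exact ⟨n, hn0, by simpa using hn⟩
  obtain ⟨g, hg⟩ := (Module.Baer.of_divisible (A := ℝ)).extension_property_addMonoidHom
    (zmultiplesHom (A ⧸ K) b) hinj (Int.castAddHom ℝ)
  have h1 := h (g.comp (QuotientAddGroup.mk' K)) (fun k hk => by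
    have : (QuotientAddGroup.mk' K) k = 0 := by
      simpa using hk
    rw [AddMonoidHom.comp_apply, this, map_zero])
  obtain ⟨a, rfl⟩ := QuotientAddGroup.mk'_surjective K b
  have h2 : g (QuotientAddGroup.mk' K a) = 0 := by
    have := DFunLike.congr_fun h1 a
    simpa using this
  have h3 := DFunLike.congr_fun hg 1
  simp only [AddMonoidHom.comp_apply, zmultiplesHom_apply, one_zsmul, Int.coe_castAddHom,
    Int.cast_one] at h3
  rw [h2] at h3
  norm_num at h3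

variable {G A Q : Type} [Group G] [AddCommGroup A] [Fintype Q] (D : Dat G A Q)

namespace Dat

open Classical in
/-- critical loops -/
def Crit (φ : A → ℝ) : Finset (A × ℕ × Q) := D.Cs.filter (fun c => φ c.1 = (c.2.1 : ℝ))

def idx (φ : A → ℝ) (c : D.Crit φ) : ℕ := ((D.Crit φ).equivFin c).val + 1

/-- the sequence along a moment curve -/
def X (φ : A → ℝ) (n : ℕ) : A := ∑ c : D.Crit φ, n ^ (D.idx φ c) • c.1.1

variable {D}

lemma mem_Crit {φ : A → ℝ} {c : A × ℕ × Q} : c ∈ D.Crit φ ↔ D.IsL c ∧ φ c.1 = (c.2.1 : ℝ) := by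
  simp [Crit, D.mem_Cs]

lemma X_mem (φ : A → ℝ) (n : ℕ) : D.X φ n ∈ D.Msub φ Set.univ := by
  refine sum_mem (fun c _ => nsmul_mem ?_ _)
  exact mem_Msub_single (mem_Crit.1 c.2).1 (mem_Crit.1 c.2).2 (Set.mem_univ _)

lemma add_sum' {ψ : A → ℝ} (hψ : ∀ a b, ψ (a + b) = ψ a + ψ b) {ι : Type} (F : Finset ι)
    (f : ι → A) : ψ (∑ i ∈ F, f i) = ∑ i ∈ F, ψ (f i) := by
  classical
  induction F using Finset.induction_on with
  | empty => simp [add_zero' hψ]
  | insert c F hc ih => rw [Finset.sum_insert hc, Finset.sum_insert hc, hψ, ih]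

lemma add_smul' {ψ : A → ℝ} (hψ : ∀ a b, ψ (a + b) = ψ a + ψ b) (n : ℕ) (a : A) :
    ψ (n • a) = n * ψ a := by
  induction n with
  | zero => simp [add_zero' hψ]
  | succ k ih => rw [succ_nsmul, hψ, ih]; push_cast; ring

lemma psi_X (φ : A → ℝ) {ψ : A → ℝ} (hψ : ∀ a b, ψ (a + b) = ψ a + ψ b) (n : ℕ) :
    ψ (D.X φ n) = ∑ c : D.Crit φ, (n : ℝ) ^ (D.idx φ c) * ψ c.1.1 := by
  rw [X, add_sum' hψ]
  refine Finset.sum_congr rfl (fun c _ => ?_)
  rw [add_smul' hψ]; push_cast; rfl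

lemma idx_inj (φ : A → ℝ) : Function.Injective (D.idx φ) := by
  intro c c' h
  have : ((D.Crit φ).equivFin c).val = ((D.Crit φ).equivFin c').val := by
    simpa [idx] using h
  exact (D.Crit φ).equivFin.injective (Fin.ext this)

lemma X_const (φ : A → ℝ) {ψ : A → ℝ} (hψ : ∀ a b, ψ (a + b) = ψ a + ψ b) {J : Set ℕ}
    (hJ : J.Infinite) (κ : ℝ) (h : ∀ n ∈ J, ψ (D.X φ n) = κ) :
    ∀ c ∈ D.Cs, φ c.1 = (c.2.1 : ℝ) → ψ c.1 = 0 := by
  classical
  intro c hc hcr
  have hcC : c ∈ D.Crit φ := mem_Crit.2 ⟨D.mem_Cs.1 hc, hcr⟩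
  let p : Polynomial ℝ := (∑ c : D.Crit φ, Polynomial.C (ψ c.1.1) * Polynomial.X ^ (D.idx φ c))
    - Polynomial.C κ
  have hroot : Set.Infinite {x | p.IsRoot x} := by
    have hinf : ((fun n : ℕ => (n : ℝ)) '' J).Infinite :=
      hJ.image (Nat.cast_injective.injOn)
    refine hinf.mono ?_
    rintro _ ⟨n, hn, rfl⟩
    have h1 := h n hn
    rw [psi_X φ hψ] at h1
    simp only [Set.mem_ofPred_eq, Polynomial.IsRoot.def, p, Polynomial.eval_sub,
      Polynomial.eval_finsetSum, Polynomial.eval_mul, Polynomial.eval_C, Polynomial.eval_pow,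
      Polynomial.eval_X]
    rw [← h1, sub_eq_zero]
    exact Finset.sum_congr rfl (fun _ _ => mul_comm _ _)
  have hp0 := Polynomial.eq_zero_of_infinite_isRoot p hroot
  have hcoef := congrArg (fun r => Polynomial.coeff r (D.idx φ ⟨c, hcC⟩)) hp0
  simp only [p, Polynomial.coeff_sub, Polynomial.finsetSum_coeff, Polynomial.coeff_C_mul,
    Polynomial.coeff_X_pow, Polynomial.coeff_zero] at hcoef
  rw [Finset.sum_eq_single (⟨c, hcC⟩ : D.Crit φ)] at hcoef
  · have : D.idx φ ⟨c, hcC⟩ ≠ 0 := by simp [idx]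
    rw [Polynomial.coeff_C, if_neg this] at hcoef
    simpa using hcoef
  · intro b _ hb
    have : ¬ (D.idx φ ⟨c, hcC⟩ = D.idx φ b) := fun e => hb (D.idx_inj φ e).symm
    rw [if_neg this, mul_zero]
  · intro h; exact absurd (Finset.mem_univ _) h

lemma Crit_nonempty {φ : A → ℝ} (hfg : AddGroup.FG A) (hinf : Infinite A)
    (hext : ∀ ψ : A → ℝ, (∀ a b, ψ (a + b) = ψ a + ψ b) →
      (∀ c ∈ D.Cs, φ c.1 = (c.2.1 : ℝ) → ψ c.1 = 0) → ∀ a, ψ a = 0) :
    (D.Crit φ).Nonempty := by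
  by_contra hne
  rw [Finset.not_nonempty_iff_eq_empty] at hne
  have : Finite (A ⧸ (⊥ : AddSubgroup A)) := by
    refine finite_quot hfg ⊥ (fun ψ _ => ?_)
    ext a
    refine hext ψ (fun a b => map_add ψ a b) ?_ a
    intro c hc hcr
    have : c ∈ D.Crit φ := mem_Crit.2 ⟨D.mem_Cs.1 hc, hcr⟩
    rw [hne] at this
    simp at this
  have h2 : Finite A := by
    refine Finite.of_injective (fun a : A => (QuotientAddGroup.mk a : A ⧸ (⊥ : AddSubgroup A))) ?_
    intro a b h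
    have := QuotientAddGroup.eq.1 h
    simp only [AddSubgroup.mem_bot] at this
    exact (neg_add_eq_zero.1 this)
  exact not_finite A

lemma phi_X_ge {φ : A → ℝ} (hφ : ∀ a b, φ (a + b) = φ a + φ b) (hne : (D.Crit φ).Nonempty)
    (n : ℕ) : (n : ℝ) ≤ φ (D.X φ n) := by
  obtain ⟨c, hc⟩ := hne
  rw [psi_X φ hφ]
  have hterm : ∀ c : D.Crit φ, 0 ≤ (n : ℝ) ^ (D.idx φ c) * φ c.1.1 := by
    intro c
    rw [(mem_Crit.1 c.2).2]
    positivity
  refine le_trans ?_ (Finset.single_le_sum (fun c _ => hterm c) (Finset.mem_univ ⟨c, hc⟩))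
  have h1 : (1 : ℝ) ≤ φ c.1 := by
    rw [(mem_Crit.1 hc).2]
    obtain ⟨p, l, _, h1, _, h2, _⟩ := (mem_Crit.1 hc).1
    rw [← h2]
    exact_mod_cast h1
  rcases Nat.eq_zero_or_pos n with h0 | h0
  · subst h0; simp [idx]
  · have h2 : (1 : ℝ) ≤ n := by exact_mod_cast h0
    have h3 : (n : ℝ) ≤ (n : ℝ) ^ (D.idx φ ⟨c, hc⟩) := le_self_pow₀ h2 (by simp [idx])
    calc (n : ℝ) ≤ (n : ℝ) ^ (D.idx φ ⟨c, hc⟩) * 1 := by linarith
      _ ≤ _ := by
        apply mul_le_mul_of_nonneg_left h1; positivity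

end Dat
end
end Pool.Agent.V11320.HoroVA
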