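import Pool.Agent.V11320.HoroVA4

set_option autoImplicit false
set_option linter.unusedSectionVars false
open Filter Topology

namespace Pool.Agent.V11320.HoroVA

noncomputable section

def UU : Ultrafilter ℕ := hyperfilter ℕ

lemma uconst {X : Type} (f : ℕ → X) (s : Set X) (hs : s.Finite) (h : ∀ᶠ n in UU, f n ∈ s) :
    ∃ x ∈ s, ∀ᶠ n in UU, f n = x := by
  have h1 : s ∈ UU.map f := h
  obtain ⟨x, hx, he⟩ := Ultrafilter.eq_pure_of_finite_mem hs h1
  refine ⟨x, hx, ?_⟩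
  have h2 : {x} ∈ UU.map f := by rw [he]; exact Ultrafilter.mem_pure.2 rfl
  exact h2

lemma UU_infinite {J : Set ℕ} (h : ∀ᶠ n in UU, n ∈ J) : J.Infinite := by
  intro hfin
  exact hfin.notMem_hyperfilter h

variable {G A Q : Type} [Group G] [AddCommGroup A] [Fintype Q] (D : Dat G A Q) (φ : A → ℝ)

namespace Dat

def gl (y : G) (n : ℕ) : List G := (D.exists_geod (y⁻¹ * D.T (D.X φ n))).choose

lemma gl_S (y : G) (n : ℕ) : ∀ s ∈ D.gl φ y n, s ∈ D.S :=
  (D.exists_geod (y⁻¹ * D.T (D.X φ n))).choose_spec.1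

lemma gl_prod (y : G) (n : ℕ) : y * (D.gl φ y n).prod = D.T (D.X φ n) := by
  have := (D.exists_geod (y⁻¹ * D.T (D.X φ n))).choose_spec.2.1
  unfold gl
  rw [this]; simp

lemma gl_len (y : G) (n : ℕ) : (D.gl φ y n).length = wl D.S (y⁻¹ * D.T (D.X φ n)) :=
  (D.exists_geod (y⁻¹ * D.T (D.X φ n))).choose_spec.2.2

def Vset (y : G) (n : ℕ) : Set Q := {u | D.Vis y (D.gl φ y n) u}

lemma exists_VV (y : G) : ∃ V : Set Q, ∀ᶠ n in UU, D.Vset φ y n = V := by
  obtain ⟨V, _, hV⟩ := uconst (D.Vset φ y) Set.univ Set.finite_univ (by simp)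
  exact ⟨V, hV⟩

def Good (V : Set Q) : Prop := ∃ w, ∀ᶠ n in UU, D.X φ n - w ∈ D.Msub φ V

/-- the standing hypotheses -/
structure Hyp : Prop where
  fg : AddGroup.FG A
  inf : Infinite A
  mem : φ ∈ D.P
  ext : ∀ ψ : A → ℝ, (∀ a b, ψ (a + b) = ψ a + ψ b) →
      (∀ c ∈ D.Cs, φ c.1 = (c.2.1 : ℝ) → ψ c.1 = 0) → ∀ a, ψ a = 0

variable {D φ}

lemma exists_gap (φ : A → ℝ) (hP : φ ∈ D.P) : ∃ ε : ℝ, 0 < ε ∧ ∀ c ∈ D.Cs, φ c.1 ≠ (c.2.1 : ℝ) →
    ε ≤ (c.2.1 : ℝ) - φ c.1 := by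
  have hev : ∀ᶠ ε in 𝓝[>] (0 : ℝ), ∀ c ∈ D.Cs, φ c.1 ≠ (c.2.1 : ℝ) →
      ε ≤ (c.2.1 : ℝ) - φ c.1 := by
    rw [Filter.eventually_all_finset]
    intro c hcC
    by_cases hcr : φ c.1 = (c.2.1 : ℝ)
    · exact Filter.Eventually.of_forall (fun ε h => absurd hcr h)
    · have hgap : 0 < (c.2.1 : ℝ) - φ c.1 := by
        rcases (hP.2 c hcC).lt_or_eq with h | h
        · linarith
        · exact absurd h hcr
      have : ∀ᶠ ε in 𝓝[>] (0 : ℝ), ε < (c.2.1 : ℝ) - φ c.1 :=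
        nhdsWithin_le_nhds (gt_mem_nhds hgap)
      exact this.mono (fun ε h _ => le_of_lt h)
  obtain ⟨ε, h1, h2⟩ := (hev.and self_mem_nhdsWithin).exists
  exact ⟨ε, h2, h1⟩

lemma wl_dsp (L : ℕ) (hL : ∀ c, D.IsL c → wl D.S (D.T c.1) ≤ L) (M : Multiset (A × ℕ × Q))
    (hM : ∀ c ∈ M, D.IsL c) : wl D.S (D.T (dsp M)) ≤ M.card * L := by
  induction M using Multiset.induction_on with
  | empty => simp [D.T_zero, D.wl_one]
  | cons c M ih =>
    rw [dsp_cons, D.Tadd, Multiset.card_cons]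
    have h1 := hL c (hM c (Multiset.mem_cons_self _ _))
    have h2 := ih (fun x hx => hM x (Multiset.mem_cons_of_mem hx))
    have h3 := D.wl_mul (D.T c.1) (D.T (dsp M))
    calc _ ≤ _ := h3
      _ ≤ L + M.card * L := by omega
      _ = _ := by ring

lemma gap_card {ε : ℝ} (hφ : ∀ a b, φ (a + b) = φ a + φ b) (M : Multiset (A × ℕ × Q))
    (hM : ∀ c ∈ M, ε ≤ (c.2.1 : ℝ) - φ c.1) : (M.card : ℝ) * ε ≤ len M - φ (dsp M) := by
  induction M using Multiset.induction_on with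
  | empty => simp [add_zero' hφ]
  | cons c M ih =>
    rw [dsp_cons, len_cons, hφ, Multiset.card_cons]
    have h1 := hM c (Multiset.mem_cons_self _ _)
    have h2 := ih (fun x hx => hM x (Multiset.mem_cons_of_mem hx))
    push_cast
    linarith

lemma crit_len (hφ : ∀ a b, φ (a + b) = φ a + φ b) (M : Multiset (A × ℕ × Q))
    (hM : ∀ c ∈ M, φ c.1 = (c.2.1 : ℝ)) : (len M : ℝ) = φ (dsp M) := by
  induction M using Multiset.induction_on with
  | empty => simp [add_zero' hφ]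
  | cons c M ih =>
    rw [dsp_cons, len_cons, hφ]
    have h1 := hM c (Multiset.mem_cons_self _ _)
    have h2 := ih (fun x hx => hM x (Multiset.mem_cons_of_mem hx))
    push_cast
    linarith

lemma good_VV (H : Hyp D φ) (y : G) {V : Set Q} (hV : ∀ᶠ n in UU, D.Vset φ y n = V) :
    D.Good φ V := by
  classical
  have hφ := H.mem.1
  obtain ⟨B, hB⟩ := D.upper φ hφ
  obtain ⟨ε, hε, hgap⟩ := exists_gap φ H.mem
  set L := D.Cs.sup (fun c => wl D.S (D.T c.1)) with hLdef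
  have hL : ∀ c, D.IsL c → wl D.S (D.T c.1) ≤ L := fun c hc =>
    Finset.le_sup (f := fun c => wl D.S (D.T c.1)) (D.mem_Cs.2 hc)
  set m0 : ℕ := ⌊((2 * wl D.S y + B + Fintype.card Q : ℕ) : ℝ) / ε⌋₊ with hm0
  set R : ℕ := wl D.S y + Fintype.card Q + m0 * L with hR
  have hfin : {a : A | wl D.S (D.T a) ≤ R}.Finite :=
    Set.Finite.preimage (D.Tinj.injOn) (D.ball_finite R)
  -- for every n: w_n
  have key : ∀ n, ∃ w, wl D.S (D.T w) ≤ R ∧ D.X φ n - w ∈ D.Msub φ (D.Vset φ y n) := by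
    intro n
    obtain ⟨M, l', hM, hS', hlen', hp, hlen⟩ := D.decomp _ (D.gl φ y n) rfl (D.gl_S φ y n) y
    set M1 := M.filter (fun c => φ c.1 = (c.2.1 : ℝ)) with hM1
    set M2 := M.filter (fun c => ¬ (φ c.1 = (c.2.1 : ℝ))) with hM2
    have hM12 : M1 + M2 = M := Multiset.filter_add_not _ _
    have hd : dsp M = dsp M1 + dsp M2 := by rw [← hM12, dsp_add]
    have hl : len M = len M1 + len M2 := by rw [← hM12, len_add]
    rw [D.gl_prod] at hp
    -- T (X - dsp M) = y * l'.prod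
    have hr : D.T (D.X φ n - dsp M) = y * l'.prod := by
      have e : D.T (dsp M) * D.T (D.X φ n - dsp M) = D.T (dsp M) * (y * l'.prod) := by
        rw [← hp, ← D.Tadd, add_sub_cancel]
      exact mul_left_cancel e
    have hrw : wl D.S (D.T (D.X φ n - dsp M)) ≤ wl D.S y + Fintype.card Q := by
      rw [hr]
      have := D.wl_mul y l'.prod
      have h2 := D.wl_le l' hS' rfl
      omega
    have hφr : φ (D.X φ n - dsp M) ≤ (wl D.S y + Fintype.card Q : ℕ) := by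
      refine (P_wl H.mem _).trans ?_
      exact_mod_cast hrw
    rw [add_sub' hφ] at hφr
    have hc1 : (len M1 : ℝ) = φ (dsp M1) := crit_len hφ M1 (fun c hc => (Multiset.mem_filter.1 hc).2)
    have hc2 : (M2.card : ℝ) * ε ≤ len M2 - φ (dsp M2) := gap_card hφ M2 (fun c hc => by
      obtain ⟨h1, h2⟩ := Multiset.mem_filter.1 hc
      exact hgap c (D.mem_Cs.2 (hM c h1).1) h2)
    have hglen : (((D.gl φ y n).length : ℕ) : ℝ) ≤ wl D.S y + (φ (D.X φ n) + B) := by
      rw [D.gl_len]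
      have h1 := D.wl_mul y⁻¹ (D.T (D.X φ n))
      rw [D.wl_inv] at h1
      have h2 := hB _ (X_mem φ n)
      have h3 : (wl D.S (y⁻¹ * D.T (D.X φ n)) : ℝ) ≤ wl D.S y + wl D.S (D.T (D.X φ n)) := by
        exact_mod_cast h1
      linarith
    have hcard : M2.card ≤ m0 := by
      rw [hm0]
      apply Nat.le_floor
      rw [le_div_iff₀ hε]
      have h1 : (len M : ℝ) + l'.length ≤ wl D.S y + (φ (D.X φ n) + B) := by
        rw [hlen] at hglen; push_cast at hglen; exact hglen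
      have h2 : (0 : ℝ) ≤ l'.length := by positivity
      rw [hd, hφ] at hφr
      rw [hl] at h1
      push_cast at h1 hφr ⊢
      linarith
    refine ⟨D.X φ n - dsp M1, ?_, ?_⟩
    · have e : D.X φ n - dsp M1 = (D.X φ n - dsp M) + dsp M2 := by rw [hd]; abel
      rw [e, D.Tadd]
      have h1 := D.wl_mul (D.T (D.X φ n - dsp M)) (D.T (dsp M2))
      have h2 := wl_dsp L hL M2 (fun c hc => (hM c (Multiset.mem_filter.1 hc).1).1)
      have h3 : M2.card * L ≤ m0 * L := Nat.mul_le_mul_right _ hcard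
      omega
    · rw [sub_sub_cancel]
      refine dsp_mem_Msub M1 (fun c hc => ?_)
      obtain ⟨h1, h2⟩ := Multiset.mem_filter.1 hc
      exact ⟨(hM c h1).1, h2, (hM c h1).2⟩
  choose w hw1 hw2 using key
  obtain ⟨w0, _, hw0⟩ := uconst w {a : A | wl D.S (D.T a) ≤ R} hfin
    (Filter.Eventually.of_forall (fun n => hw1 n))
  refine ⟨w0, ?_⟩
  filter_upwards [hw0, hV] with n h1 h2
  rw [← h1, ← h2]
  exact hw2 n

variable (D φ)

/-- displacements that can be inserted everywhere -/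
def Gam : AddSubmonoid A where
  carrier := {a | ∀ V, D.Good φ V → a ∈ D.Msub φ V}
  zero_mem' := fun V _ => zero_mem _
  add_mem' := fun ha hb V hV => add_mem (ha V hV) (hb V hV)

variable {D φ}

lemma Gam_dense (H : Hyp D φ) (ψ : A → ℝ) (hψ : ∀ a b, ψ (a + b) = ψ a + ψ b)
    (h : ∀ a ∈ D.Gam φ, ψ a = 0) : ∀ a, ψ a = 0 := by
  classical
  -- choose w_V
  have hw : ∀ V : Set Q, ∃ w, D.Good φ V → ∀ᶠ n in UU, D.X φ n - w ∈ D.Msub φ V := by
    intro V
    by_cases hV : D.Good φ V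
    · obtain ⟨w, hw⟩ := hV
      exact ⟨w, fun _ => hw⟩
    · exact ⟨0, fun h => absurd h hV⟩
  choose w hw using hw
  set J : Set ℕ := {n | ∀ V : Set Q, D.Good φ V → D.X φ n - w V ∈ D.Msub φ V} with hJ
  have hJmem : ∀ᶠ n in UU, n ∈ J := by
    have : ∀ᶠ n in UU, ∀ V : Set Q, D.Good φ V → D.X φ n - w V ∈ D.Msub φ V := by
      rw [Filter.eventually_all]
      intro V
      by_cases hV : D.Good φ V
      · exact (hw V hV).mono (fun n h _ => h)
      · exact Filter.Eventually.of_forall (fun n h => absurd h hV)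
    exact this
  have hJinf := UU_infinite hJmem
  let e := hJinf.natEmbedding
  -- coefficient vectors
  have hv : ∀ (k : ℕ) (V : Set Q), ∃ v : D.Cs → ℕ, D.Good φ V →
      ((∀ c, v c ≠ 0 → φ c.1.1 = (c.1.2.1 : ℝ) ∧ c.1.2.2 ∈ V) ∧
      D.X φ (e k).1 - w V = ∑ c, v c • c.1.1) := by
    intro k V
    by_cases hV : D.Good φ V
    · obtain ⟨v, h1, h2⟩ := (e k).2 V hV
      exact ⟨v, fun _ => ⟨h1, h2⟩⟩
    · exact ⟨0, fun h => absurd h hV⟩
  choose v hv using hv
  let F : ℕ → (Set Q × D.Cs → ℕ) := fun k x => v k x.1 x.2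
  obtain ⟨g, hg⟩ := (wellQuasiOrdered_le (α := (Set Q × D.Cs → ℕ))).exists_monotone_subseq F
  have hdiff : ∀ m, D.X φ (e (g m)).1 - D.X φ (e (g 0)).1 ∈ D.Gam φ := by
    intro m V hV
    obtain ⟨h1, h2⟩ := hv (g m) V hV
    obtain ⟨h3, h4⟩ := hv (g 0) V hV
    have hle : ∀ c, v (g 0) V c ≤ v (g m) V c := fun c => hg 0 m (Nat.zero_le _) (V, c)
    refine ⟨fun c => v (g m) V c - v (g 0) V c, ?_, ?_⟩
    · intro c hc
      refine h1 c ?_
      intro h0; apply hc; simp [h0]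
    · have : D.X φ (e (g m)).1 - D.X φ (e (g 0)).1 =
          (D.X φ (e (g m)).1 - w V) - (D.X φ (e (g 0)).1 - w V) := by abel
      rw [this, h2, h4, ← Finset.sum_sub_distrib]
      refine Finset.sum_congr rfl (fun c _ => ?_)
      rw [sub_eq_iff_eq_add, ← add_smul, Nat.sub_add_cancel (hle c)]
  have hconst : ∀ m, ψ (D.X φ (e (g m)).1) = ψ (D.X φ (e (g 0)).1) := by
    intro m
    have := h _ (hdiff m)
    rw [add_sub' hψ] at this
    linarith
  have hinf : (Set.range (fun m => (e (g m)).1)).Infinite := by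
    apply Set.infinite_range_of_injective
    intro a b hab
    exact g.injective (e.injective (Subtype.ext hab))
  exact H.ext ψ hψ (X_const φ hψ hinf (ψ (D.X φ (e (g 0)).1)) (by
    rintro _ ⟨m, rfl⟩
    exact hconst m))

end Dat
end
end Pool.Agent.V11320.HoroVA
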