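import Pool.Agent.V11320.HoroVA5

set_option autoImplicit false
set_option linter.unusedSectionVars false
open Filter Topology

namespace Pool.Agent.V11320.HoroVA

noncomputable section

variable {G A Q : Type} [Group G] [AddCommGroup A] [Fintype Q] (D : Dat G A Q) (φ : A → ℝ)

namespace Dat

def Dn (y : G) (n : ℕ) : ℤ :=
  (wl D.S (y⁻¹ * D.T (D.X φ n)) : ℤ) - wl D.S (D.T (D.X φ n))

lemma exists_f : ∃ f : G → ℤ, ∀ y, ∀ᶠ n in UU, D.Dn φ y n = f y := by
  have h : ∀ y, ∃ m : ℤ, ∀ᶠ n in UU, D.Dn φ y n = m := by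
    intro y
    obtain ⟨m, _, hm⟩ := uconst (D.Dn φ y) (Set.Icc (-(wl D.S y : ℤ)) (wl D.S y))
      (Set.finite_Icc _ _) (Filter.Eventually.of_forall (fun n => by
        have h1 := D.wl_mul y⁻¹ (D.T (D.X φ n))
        have h2 := D.wl_mul y (y⁻¹ * D.T (D.X φ n))
        rw [D.wl_inv] at h1
        rw [mul_inv_cancel_left] at h2
        simp only [Set.mem_Icc, Dn]
        omega))
    exact ⟨m, hm⟩
  choose f hf using h
  exact ⟨f, hf⟩

variable {D φ}

lemma f_star (H : Hyp D φ) {f : G → ℤ} (hf : ∀ y, ∀ᶠ n in UU, D.Dn φ y n = f y) {a : A}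
    (ha : a ∈ D.Gam φ) (y : G) : (f ((D.T a)⁻¹ * y) : ℝ) ≤ f y + φ a := by
  obtain ⟨V, hV⟩ := D.exists_VV φ y
  obtain ⟨M, hM, hd, hl⟩ := exists_multiset H.mem.1 (ha V (good_VV H y hV))
  obtain ⟨n, ⟨hn1, hn2⟩, hn3⟩ := ((hV.and (hf y)).and (hf ((D.T a)⁻¹ * y))).exists
  obtain ⟨l', hS, hlen, hp, _⟩ := D.insert_loops y (D.gl φ y n) (D.gl_S φ y n) M (fun c hc => by
    refine ⟨(hM c hc).1, ?_⟩
    have h1 : c.2.2 ∈ D.Vset φ y n := by rw [hn1]; exact (hM c hc).2
    exact h1)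
  rw [D.gl_prod, hd] at hp
  have h1 : wl D.S (((D.T a)⁻¹ * y)⁻¹ * D.T (D.X φ n)) ≤ l'.length := by
    refine D.wl_le l' hS ?_
    have : l'.prod = y⁻¹ * (y * l'.prod) := by group
    rw [this, hp]; group
  rw [hlen, D.gl_len] at h1
  rw [← hn2, ← hn3, Dn, Dn, ← hl]
  have h2 : (wl D.S (((D.T a)⁻¹ * y)⁻¹ * D.T (D.X φ n)) : ℝ) ≤
      wl D.S (y⁻¹ * D.T (D.X φ n)) + len M := by exact_mod_cast h1
  push_cast
  linarith

lemma f_lower (H : Hyp D φ) {f : G → ℤ} (hf : ∀ y, ∀ᶠ n in UU, D.Dn φ y n = f y) (y : G) :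
    ∃ C : ℝ, ∀ a, φ a - C ≤ f ((D.T a)⁻¹ * y) := by
  have hφ := H.mem.1
  obtain ⟨B, hB⟩ := D.upper φ hφ
  refine ⟨wl D.S y + Fintype.card Q + B, ?_⟩
  intro a
  obtain ⟨n, hn⟩ := (hf ((D.T a)⁻¹ * y)).exists
  rw [← hn, Dn]
  set z := (D.T a)⁻¹ * y with hz
  obtain ⟨M, l', hM, hS', hlen', hp, hlen⟩ := D.decomp _ (D.gl φ z n) rfl (D.gl_S φ z n) z
  rw [D.gl_prod] at hp
  have hr : D.T (a + D.X φ n - dsp M) = y * l'.prod := by
    have e : D.T (dsp M) * D.T (a + D.X φ n - dsp M) = D.T (dsp M) * (y * l'.prod) := by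
      rw [← D.Tadd, add_sub_cancel, D.Tadd, hp, hz]
      rw [← mul_assoc, D.T_comm a (dsp M)]
      group
    exact mul_left_cancel e
  have h1 := P_wl H.mem (a + D.X φ n - dsp M)
  rw [hr, add_sub' hφ, hφ] at h1
  have h2 : (wl D.S (y * l'.prod) : ℝ) ≤ wl D.S y + Fintype.card Q := by
    have h3 := D.wl_mul y l'.prod
    have h4 := D.wl_le l' hS' rfl
    have h5 : wl D.S (y * l'.prod) ≤ wl D.S y + Fintype.card Q := by omega
    exact_mod_cast h5
  have h3 := P_dsp_le H.mem M (fun c hc => (hM c hc).1)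
  have h4 := hB _ (X_mem φ n)
  rw [D.gl_len] at hlen
  have h5 : (wl D.S (z⁻¹ * D.T (D.X φ n)) : ℝ) = len M + l'.length := by exact_mod_cast hlen
  have h6 : (0 : ℝ) ≤ l'.length := by positivity
  push_cast
  linarith

theorem main (H : Hyp D φ) : ∃ fs : G → ℝ,
    (∀ (Y : Finset G) (ε : ℝ) (R : ℕ), 0 < ε → ∃ x : G, R ≤ wl D.S x ∧
      ∀ y ∈ Y, |((wl D.S (y⁻¹ * x) : ℝ) - wl D.S x) - fs y| < ε) ∧
    (Set.range (fun g : G => fun y : G => fs (g⁻¹ * y) - fs g⁻¹)).Finite := by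
  classical
  have hφ := H.mem.1
  obtain ⟨f, hf⟩ := D.exists_f φ
  set F : A → G → ℝ := fun a y => (f ((D.T a)⁻¹ * y) : ℝ) - φ a with hF
  have hmono : ∀ a b : A, b ∈ D.Gam φ → ∀ y, F (a + b) y ≤ F a y := by
    intro a b hb y
    have h1 := f_star H hf hb ((D.T a)⁻¹ * y)
    simp only [hF]
    rw [D.Tadd, mul_inv_rev, mul_assoc, hφ]
    linarith
  set g : G → ℝ := fun y => ⨅ a : D.Gam φ, F a.1 y with hg
  have hbdd : ∀ y, BddBelow (Set.range (fun a : D.Gam φ => F a.1 y)) := by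
    intro y
    obtain ⟨C, hC⟩ := f_lower H hf y
    refine ⟨-C, ?_⟩
    rintro _ ⟨a, rfl⟩
    have := hC a.1
    simp only [hF]
    linarith
  have hge : ∀ (a : A), a ∈ D.Gam φ → ∀ y, g y ≤ F a y := fun a ha y => ciInf_le (hbdd y) ⟨a, ha⟩
  have hshift : ∀ b ∈ D.Gam φ, ∀ y, g ((D.T b)⁻¹ * y) = g y + φ b := by
    intro b hb y
    have e : ∀ a : A, F a ((D.T b)⁻¹ * y) = F (b + a) y + φ b := by
      intro a
      simp only [hF]
      rw [D.Tadd, mul_inv_rev, mul_assoc, hφ]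
      ring
    apply le_antisymm
    · have : g ((D.T b)⁻¹ * y) - φ b ≤ g y := by
        refine le_ciInf (fun a => ?_)
        have h1 := hge a.1 a.2 ((D.T b)⁻¹ * y)
        rw [e, add_comm b] at h1
        have h2 := hmono a.1 b hb y
        linarith
      linarith
    · refine le_ciInf (fun a => ?_)
      rw [e]
      have := hge (b + a.1) (add_mem hb a.2) y
      linarith
  set K : AddSubgroup A := AddSubgroup.closure (D.Gam φ : Set A) with hK
  have hKshift : ∀ b ∈ K, ∀ y, g (D.T b * y) = g y - φ b := by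
    intro b hb
    induction hb using AddSubgroup.closure_induction with
    | mem x hx =>
      intro y
      have := hshift x hx (D.T x * y)
      rw [inv_mul_cancel_left] at this
      linarith
    | zero => intro y; rw [D.T_zero, one_mul, add_zero' hφ, sub_zero]
    | add x y _ _ hx hy =>
      intro z
      rw [D.Tadd, mul_assoc, hx, hy, hφ]; ring
    | neg x _ hx =>
      intro y
      have := hx (D.T (-x) * y)
      rw [← mul_assoc, ← D.Tadd, add_neg_cancel, D.T_zero, one_mul] at this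
      rw [add_neg' hφ]
      linarith
  have hKfin : Finite (A ⧸ K) := by
    refine finite_quot H.fg K (fun ψ hψ => ?_)
    ext a
    exact Gam_dense H ψ (fun a b => map_add ψ a b)
      (fun a ha => hψ a (AddSubgroup.subset_closure ha)) a
  refine ⟨fun y => g y - g 1, ?_, ?_⟩
  · intro Y ε R hε
    have hchoose : ∀ Y : Finset G, ∃ a ∈ D.Gam φ, ∀ y ∈ Y, F a y < g y + ε / 2 := by
      intro Y
      induction Y using Finset.induction_on with
      | empty => exact ⟨0, zero_mem _, by simp⟩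
      | insert y Y _ ih =>
        obtain ⟨a, ha, h1⟩ := ih
        obtain ⟨b, hb⟩ := exists_lt_of_ciInf_lt (f := fun a : D.Gam φ => F a.1 y)
          (show (⨅ a : D.Gam φ, F a.1 y) < g y + ε / 2 by
            change g y < g y + ε / 2; linarith)
        refine ⟨a + b.1, add_mem ha b.2, ?_⟩
        intro z hz
        rcases Finset.mem_insert.1 hz with rfl | hz
        · rw [add_comm]
          exact (hmono _ _ ha _).trans_lt hb
        · exact (hmono _ _ b.2 _).trans_lt (h1 z hz)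
    obtain ⟨a, ha, hlt⟩ := hchoose (insert 1 Y)
    obtain ⟨N0, hN0⟩ := exists_nat_ge ((R : ℝ) - φ a)
    have hne := Crit_nonempty H.fg H.inf H.ext
    have hev1 : ∀ᶠ n in UU, ∀ y ∈ insert 1 Y, D.Dn φ ((D.T a)⁻¹ * y) n = f ((D.T a)⁻¹ * y) := by
      rw [Filter.eventually_all_finset]
      intro y _
      exact hf _
    have hev2 : ∀ᶠ n in UU, N0 ≤ n := Nat.hyperfilter_le_atTop (eventually_ge_atTop N0)
    obtain ⟨n, hn1, hn2⟩ := (hev1.and hev2).exists
    refine ⟨D.T a * D.T (D.X φ n), ?_, ?_⟩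
    · have h1 := P_wl H.mem (a + D.X φ n)
      rw [D.Tadd, hφ] at h1
      have h2 := phi_X_ge hφ hne n
      have h3 : (N0 : ℝ) ≤ n := by exact_mod_cast hn2
      have : (R : ℝ) ≤ wl D.S (D.T a * D.T (D.X φ n)) := by linarith
      exact_mod_cast this
    · intro y hy
      have e1 := hn1 y (Finset.mem_insert_of_mem hy)
      have e2 := hn1 1 (Finset.mem_insert_self _ _)
      have a1 := hge a ha y
      have a2 := hge a ha 1
      have b1 := hlt y (Finset.mem_insert_of_mem hy)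
      have b2 := hlt 1 (Finset.mem_insert_self _ _)
      have c1 : ((D.T a)⁻¹ * y)⁻¹ * D.T (D.X φ n) = y⁻¹ * (D.T a * D.T (D.X φ n)) := by group
      have c2 : ((D.T a)⁻¹ * 1)⁻¹ * D.T (D.X φ n) = D.T a * D.T (D.X φ n) := by group
      rw [Dn, c1] at e1
      rw [Dn, c2] at e2
      simp only [hF] at a1 a2 b1 b2
      rw [← e1] at a1 b1
      rw [← e2] at a2 b2
      push_cast at a1 a2 b1 b2
      rw [abs_lt]
      constructor <;> linarith
  · let rep : Q → G := fun u => if h : ∃ p, D.q p = u then h.choose else 1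
    have hrep : ∀ p, D.q (rep (D.q p)) = D.q p := by
      intro p
      have h : ∃ p', D.q p' = D.q p := ⟨p, rfl⟩
      simp only [rep, dif_pos h]
      exact h.choose_spec
    let Φ : Q × (A ⧸ K) → (G → ℝ) := fun x y =>
      g (D.T x.2.out * (rep x.1 * y)) - g (D.T x.2.out * rep x.1)
    refine (Set.finite_range Φ).subset ?_
    rintro _ ⟨h, rfl⟩
    obtain ⟨a, ha⟩ := (D.hq _ _).1 (hrep h⁻¹)
    obtain ⟨u, hu⟩ : ∃ u, u = D.q h⁻¹ := ⟨_, rfl⟩
    rw [← hu] at ha
    obtain ⟨k, hk⟩ := QuotientAddGroup.mk_out_eq_add K a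
    refine ⟨(u, (QuotientAddGroup.mk a : A ⧸ K)), ?_⟩
    funext y
    simp only [Φ]
    rw [hk, ha]
    rw [add_comm a k.1, D.Tadd, mul_assoc, mul_assoc, hKshift _ k.2, hKshift _ k.2, mul_assoc]
    ring

end Dat
end
end Pool.Agent.V11320.HoroVA
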